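import Pool.Agent.H53.NA.Defs

/-!
Row Avp: averaging over multipliers, prime case.  PROOF.  `n = |A| > 0`.  For `ξ ∈ S` the number of
`(a1,a2,a3,a4) ∈ A⁴` with `a1 - ξ a2 = a3 - ξ a4` is `≥ (n²)²/|A - ξA| ≥ n⁴/(y n) = n³/y` (Cauchy-Schwarz for the map
`(a1,a2) ↦ a1 - ξ a2` from `A²` to `A - dil ξ A`).  Sum over `ξ ∈ S`.  Quadruples with `a2 = a4` (then `a1 = a3`):
`n²` for each `ξ`.  Quadruples with `a2 ≠ a4`: `ξ = (a1 - a3)/(a2 - a4)` is determined, so at most `n⁴` in total.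
`|S| n³/y ≤ |S| n² + n⁴`.  As `n ≥ 2y`, `n² ≤ n³/(2y)`, so `|S| n³/(2y) ≤ n⁴`.
-/

set_option autoImplicit false

namespace Pool.H53.NA

open scoped Pointwise

/-- quadruples with equal `a1 - ξ a2`. -/
def avp_Q {R : Type} [CommRing R] [DecidableEq R] (A : Finset R) (ξ : R) :
    Finset ((R × R) × (R × R)) :=
  ((A ×ˢ A) ×ˢ (A ×ˢ A)).filter fun w => w.1.1 - ξ * w.1.2 = w.2.1 - ξ * w.2.2

/-- Cauchy-Schwarz. -/
theorem avp_cs {R : Type} [CommRing R] [DecidableEq R] (A : Finset R) (ξ : R) :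
    (A.card ^ 2) ^ 2 ≤ (A - dil ξ A).card * (avp_Q A ξ).card := by
  set f : R × R → R := fun a => a.1 - ξ * a.2 with hf
  have hmap : ∀ x ∈ A ×ˢ A, f x ∈ A - dil ξ A := by
    intro x hx
    rw [Finset.mem_product] at hx
    exact Finset.sub_mem_sub hx.1 (Finset.mem_image_of_mem _ hx.2)
  have h1 := Finset.card_eq_sum_card_fiberwise hmap
  rw [Finset.card_product, ← sq] at h1
  have h2 : (avp_Q A ξ).card = ∑ z ∈ A - dil ξ A, ((A ×ˢ A).filter (fun x => f x = z)).card ^ 2 := by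
    have hmap2 : ∀ w ∈ avp_Q A ξ, f w.1 ∈ A - dil ξ A := by
      intro w hw
      unfold avp_Q at hw
      rw [Finset.mem_filter, Finset.mem_product] at hw
      exact hmap _ hw.1.1
    rw [Finset.card_eq_sum_card_fiberwise hmap2]
    refine Finset.sum_congr rfl fun z _ => ?_
    rw [sq, ← Finset.card_product]
    congr 1
    ext w
    unfold avp_Q
    simp only [Finset.mem_filter, Finset.mem_product, hf]
    constructor
    · rintro ⟨⟨⟨ha, hb⟩, hc⟩, hd⟩
      exact ⟨⟨ha, hd⟩, hb, by rw [← hc, hd]⟩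
    · rintro ⟨⟨ha, hd⟩, hb, hc⟩
      exact ⟨⟨⟨ha, hb⟩, by rw [hc, hd]⟩, hd⟩
  rw [h1, h2]
  exact sq_sum_le_card_mul_sum_sq

theorem avgP (q : ℕ) [Fact q.Prime] (A S : Finset (ZMod q)) (y : ℝ) (hy : 0 < y)
    (hA : 2 * y ≤ A.card) (hS : ∀ ξ ∈ S, Xi A y ξ) : (S.card : ℝ) ≤ 2 * y * A.card := by
  have hn : (0 : ℝ) < A.card := by linarith
  -- upper bound for the number of quadruples
  have hup : ∑ ξ ∈ S, (avp_Q A ξ).card ≤ A.card ^ 2 * S.card + (A.card ^ 2) ^ 2 := by
    have h1 : ∀ ξ ∈ S, (avp_Q A ξ).card = ∑ w ∈ (A ×ˢ A) ×ˢ (A ×ˢ A),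
        if w.1.1 - ξ * w.1.2 = w.2.1 - ξ * w.2.2 then 1 else 0 := by
      intro ξ _
      unfold avp_Q
      rw [Finset.card_filter]
    rw [Finset.sum_congr rfl h1, Finset.sum_comm]
    have h2 : ∀ w ∈ (A ×ˢ A) ×ˢ (A ×ˢ A),
        (∑ ξ ∈ S, if w.1.1 - ξ * w.1.2 = w.2.1 - ξ * w.2.2 then 1 else 0) ≤
          (if w.1 = w.2 then S.card else 0) + 1 := by
      intro w _
      rw [← Finset.card_filter]
      by_cases hw : w.1 = w.2
      · rw [if_pos hw]
        exact (Finset.card_filter_le _ _).trans (Nat.le_succ _)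
      · rw [if_neg hw, zero_add, Finset.card_le_one]
        intro a ha b hb
        rw [Finset.mem_filter] at ha hb
        have hne : w.1.2 - w.2.2 ≠ 0 := by
          intro h0
          have e2 : w.1.2 = w.2.2 := sub_eq_zero.1 h0
          have e1 : w.1.1 = w.2.1 := by
            have := ha.2
            rw [e2] at this
            exact sub_left_injective this
          exact hw (Prod.ext e1 e2)
        have e3 : a * (w.1.2 - w.2.2) = b * (w.1.2 - w.2.2) := by
          have h3 := ha.2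
          have h4 := hb.2
          linear_combination h4 - h3
        exact mul_right_cancel₀ hne e3
    refine (Finset.sum_le_sum h2).trans ?_
    rw [Finset.sum_add_distrib]
    refine Nat.add_le_add ?_ ?_
    · rw [← Finset.sum_filter, Finset.sum_const, smul_eq_mul]
      refine Nat.mul_le_mul_right _ ?_
      have : (((A ×ˢ A) ×ˢ (A ×ˢ A)).filter fun w => w.1 = w.2).card ≤ (A ×ˢ A).card := by
        refine Finset.card_le_card_of_injOn (fun w => w.1) (fun w hw => ?_) ?_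
        · rw [Finset.mem_coe, Finset.mem_filter, Finset.mem_product] at hw
          exact hw.1.1
        · intro w hw w' hw' h
          rw [Finset.mem_coe, Finset.mem_filter] at hw hw'
          exact Prod.ext h (by rw [← hw.2, ← hw'.2]; exact h)
      rw [Finset.card_product, ← sq] at this
      exact this
    · rw [Finset.sum_const, smul_eq_mul, mul_one, Finset.card_product, Finset.card_product, ← sq, ← sq]
  -- lower bound
  have hlow : ∀ ξ ∈ S, (A.card : ℝ) ^ 3 ≤ y * ((avp_Q A ξ).card : ℝ) := by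
    intro ξ hξ
    have h1 := avp_cs A ξ
    have h2 : ((A.card : ℝ) ^ 2) ^ 2 ≤ ((A - dil ξ A).card : ℝ) * ((avp_Q A ξ).card : ℝ) := by
      exact_mod_cast h1
    have h3 := hS ξ hξ
    unfold Xi at h3
    have h4 : ((A.card : ℝ) ^ 2) ^ 2 ≤ (y * A.card) * ((avp_Q A ξ).card : ℝ) :=
      h2.trans (mul_le_mul_of_nonneg_right h3 (Nat.cast_nonneg _))
    have h5 : (A.card : ℝ) * (A.card : ℝ) ^ 3 ≤ A.card * (y * ((avp_Q A ξ).card : ℝ)) := by
      nlinarith [h4]
    exact le_of_mul_le_mul_left h5 hn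
  have hsum : (S.card : ℝ) * (A.card : ℝ) ^ 3 ≤ y * (A.card ^ 2 * S.card + (A.card ^ 2) ^ 2 : ℝ) := by
    have h1 := Finset.sum_le_sum hlow
    rw [Finset.sum_const, nsmul_eq_mul, ← Finset.mul_sum] at h1
    refine h1.trans (mul_le_mul_of_nonneg_left ?_ hy.le)
    exact_mod_cast hup
  have h6 : (S.card : ℝ) * A.card ≤ y * (S.card + (A.card : ℝ) ^ 2) := by
    have hn2 : (0 : ℝ) < (A.card : ℝ) ^ 2 := by positivity
    refine le_of_mul_le_mul_left ?_ hn2
    calc (A.card : ℝ) ^ 2 * (S.card * A.card) = S.card * (A.card : ℝ) ^ 3 := by ring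
      _ ≤ y * (A.card ^ 2 * S.card + (A.card ^ 2) ^ 2 : ℝ) := hsum
      _ = (A.card : ℝ) ^ 2 * (y * (S.card + (A.card : ℝ) ^ 2)) := by ring
  have h7 : y * (S.card : ℝ) ≤ (A.card : ℝ) / 2 * S.card :=
    mul_le_mul_of_nonneg_right (by linarith) (Nat.cast_nonneg _)
  have h8 : (A.card : ℝ) * (S.card : ℝ) ≤ A.card * (2 * y * A.card) := by nlinarith [h6, h7]
  exact le_of_mul_le_mul_left h8 hn

end Pool.H53.NA
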