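import Pool.Agent.H53.NA.Defs

/-!
Row Avq: averaging over multipliers, two primes.  PROOF.  `n = |A| > 0`, `Q = q1 q2`.  For `ξ ∈ S` the number of
`(a1,a2,a3,a4) ∈ A⁴` with `a1 - ξ a2 = a3 - ξ a4` is `≥ n³/y` (Cauchy-Schwarz, see row Avp).  Sum over `ξ ∈ S`:
* `a2 = a4` (then `a1 = a3`): `≤ |S| n²`;
* `a2 - a4` a unit: `ξ` is determined by the quadruple: `≤ n⁴`;
* `a2 ≡ a4` mod `q1`, `a2 ≢ a4` mod `q2`: then `a1 ≡ a3` mod `q1` and `ξ` mod `q2` is determined by the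
  quadruple; at most `q1` elements `ξ` of `ZMod Q` have a given image in `ZMod q2`.  So `≤ coll1² q1 ≤ n⁴/2`;
* symmetric: `≤ coll2² q2 ≤ n⁴/2`.
(If `a2 ≡ a4` modulo both primes then `a2 = a4`, and `x : ZMod Q` is a unit iff both images are nonzero:
`ZMod.chineseRemainder` or `ZMod.isUnit_iff_coprime`.)  So `|S| n³/y ≤ |S| n² + 2 n⁴`, `n² ≤ n³/(2y)`, hence
`|S| ≤ 4 y n`.
-/

set_option autoImplicit false

namespace Pool.H53.NA

open scoped Pointwise

section gen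

variable {R F1 F2 : Type} [CommRing R] [DecidableEq R] [Field F1] [Field F2] [Fintype F1]
  [Fintype F2] [DecidableEq F1] [DecidableEq F2]

/-- the quadruples -/
def avq_B (A : Finset R) (ξ : R) : Finset ((R × R) × (R × R)) :=
  ((A ×ˢ A) ×ˢ (A ×ˢ A)).filter fun x => x.1.1 - ξ * x.1.2 = x.2.1 - ξ * x.2.2

theorem avq_cs (A : Finset R) (ξ : R) (y : ℝ) (hy : 0 < y) (hn : 0 < A.card) (h : Xi A y ξ) :
    (A.card : ℝ) ^ 3 / y ≤ ((avq_B A ξ).card : ℝ) := by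
  classical
  set D : Finset R := A - dil ξ A with hD
  set c : R → ℕ := fun z => ((A ×ˢ A).filter fun p => p.1 - ξ * p.2 = z).card with hc
  have hmaps : ∀ p ∈ A ×ˢ A, p.1 - ξ * p.2 ∈ D := by
    intro p hp
    rw [Finset.mem_product] at hp
    exact Finset.sub_mem_sub hp.1 (Finset.mem_image_of_mem _ hp.2)
  have h1 : ((A ×ˢ A).card : ℕ) = ∑ z ∈ D, c z := Finset.card_eq_sum_card_fiberwise hmaps
  have h2 : (avq_B A ξ).card = ∑ z ∈ D, c z ^ 2 := by
    have h3 : ∀ x ∈ avq_B A ξ, x.1.1 - ξ * x.1.2 ∈ D := by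
      intro x hx
      exact hmaps x.1 (Finset.mem_product.1 (Finset.mem_filter.1 hx).1).1
    rw [Finset.card_eq_sum_card_fiberwise h3]
    refine Finset.sum_congr rfl fun z _ => ?_
    rw [sq, hc, ← Finset.card_product]
    congr 1
    ext x
    simp only [avq_B, Finset.mem_filter, Finset.mem_product]
    constructor
    · rintro ⟨⟨⟨a, b⟩, e1⟩, e2⟩
      exact ⟨⟨a, e2⟩, ⟨b, e1 ▸ e2⟩⟩
    · rintro ⟨⟨a, e1⟩, ⟨b, e2⟩⟩
      exact ⟨⟨⟨a, b⟩, e1.trans e2.symm⟩, e1⟩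
  have h4 : ((∑ z ∈ D, (c z : ℝ)) ^ 2) ≤ (D.card : ℝ) * ∑ z ∈ D, (c z : ℝ) ^ 2 :=
    sq_sum_le_card_mul_sum_sq
  have h5 : (∑ z ∈ D, (c z : ℝ)) = (A.card : ℝ) ^ 2 := by
    rw [Finset.card_product] at h1
    have : ((∑ z ∈ D, c z : ℕ) : ℝ) = (A.card : ℝ) ^ 2 := by
      rw [← h1]; push_cast; ring
    rw [← this]; push_cast; rfl
  have h6 : (∑ z ∈ D, (c z : ℝ) ^ 2) = ((avq_B A ξ).card : ℝ) := by
    rw [h2]; push_cast; rfl
  rw [h5, h6] at h4
  have h7 : (D.card : ℝ) ≤ y * A.card := h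
  have hn' : (0 : ℝ) < A.card := by exact_mod_cast hn
  have h8 : ((A.card : ℝ) ^ 2) ^ 2 ≤ y * A.card * ((avq_B A ξ).card : ℝ) :=
    h4.trans (mul_le_mul_of_nonneg_right h7 (by positivity))
  rw [div_le_iff₀ hy]
  have h9 : (A.card : ℝ) * (A.card : ℝ) ^ 3 ≤ A.card * (((avq_B A ξ).card : ℝ) * y) := by
    nlinarith [h8]
  exact le_of_mul_le_mul_left h9 hn'

omit [DecidableEq F1] [DecidableEq F2] [Fintype F2] in
theorem avq_fib (φ1 : R →+* F1) (φ2 : R →+* F2) (hinj : ∀ z, φ1 z = 0 → φ2 z = 0 → z = 0)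
    (T : Finset R) (hT : ∀ ξ ∈ T, ∀ η ∈ T, φ2 ξ = φ2 η) : T.card ≤ Fintype.card F1 := by
  classical
  refine Finset.card_le_card_of_injOn (t := Finset.univ) (fun ξ => φ1 ξ) (fun _ _ => Finset.mem_coe.2 (Finset.mem_univ _)) ?_
  intro ξ hξ η hη h
  have h1 : φ1 (ξ - η) = 0 := by rw [map_sub, sub_eq_zero]; exact h
  have h2 : φ2 (ξ - η) = 0 := by rw [map_sub, sub_eq_zero]; exact hT ξ hξ η hη
  exact sub_eq_zero.1 (hinj _ h1 h2)

theorem avq_pt (φ1 : R →+* F1) (φ2 : R →+* F2) (hinj : ∀ z, φ1 z = 0 → φ2 z = 0 → z = 0)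
    (S : Finset R) (a1 a2 a3 a4 : R) :
    (S.filter fun ξ => a1 - ξ * a2 = a3 - ξ * a4).card ≤
      (if a1 = a3 ∧ a2 = a4 then S.card else 0) + 1 +
      (if φ1 a1 = φ1 a3 ∧ φ1 a2 = φ1 a4 then Fintype.card F1 else 0) +
      (if φ2 a1 = φ2 a3 ∧ φ2 a2 = φ2 a4 then Fintype.card F2 else 0) := by
  classical
  set T := S.filter fun ξ => a1 - ξ * a2 = a3 - ξ * a4 with hT
  have hTm : ∀ ξ ∈ T, a1 - a3 = ξ * (a2 - a4) := by
    intro ξ hξ
    have := (Finset.mem_filter.1 hξ).2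
    linear_combination this
  by_cases h24 : a2 = a4
  · by_cases h13 : a1 = a3
    · rw [if_pos ⟨h13, h24⟩]
      have : T.card ≤ S.card := Finset.card_le_card (Finset.filter_subset _ _)
      omega
    · have : T = ∅ := by
        rw [Finset.eq_empty_iff_forall_notMem]
        intro ξ hξ
        have h1 := hTm ξ hξ
        rw [h24, sub_self, mul_zero] at h1
        exact h13 (sub_eq_zero.1 h1)
      rw [this]; simp
  · rcases T.eq_empty_or_nonempty with hE | ⟨ξ0, hξ0⟩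
    · rw [hE]; simp
    · have hd : a2 - a4 ≠ 0 := sub_ne_zero.2 h24
      by_cases hd1 : φ1 (a2 - a4) = 0
      · have hd2 : φ2 (a2 - a4) ≠ 0 := fun h => hd (hinj _ hd1 h)
        have h1 : φ1 a1 = φ1 a3 ∧ φ1 a2 = φ1 a4 := by
          constructor
          · have h3 := congrArg φ1 (hTm ξ0 hξ0)
            rw [map_mul, hd1, mul_zero, map_sub] at h3
            exact sub_eq_zero.1 h3
          · rw [map_sub] at hd1; exact sub_eq_zero.1 hd1
        rw [if_pos h1]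
        have h2 : T.card ≤ Fintype.card F1 := by
          refine avq_fib φ1 φ2 hinj T ?_
          intro ξ hξ η hη
          have e1 := congrArg φ2 (hTm ξ hξ)
          have e2 := congrArg φ2 (hTm η hη)
          rw [map_mul] at e1 e2
          exact mul_right_cancel₀ hd2 (e1.symm.trans e2)
        omega
      · by_cases hd2 : φ2 (a2 - a4) = 0
        · have h1 : φ2 a1 = φ2 a3 ∧ φ2 a2 = φ2 a4 := by
            constructor
            · have h3 := congrArg φ2 (hTm ξ0 hξ0)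
              rw [map_mul, hd2, mul_zero, map_sub] at h3
              exact sub_eq_zero.1 h3
            · rw [map_sub] at hd2; exact sub_eq_zero.1 hd2
          rw [if_pos h1]
          have h2 : T.card ≤ Fintype.card F2 := by
            refine avq_fib φ2 φ1 (fun z hz1 hz2 => hinj z hz2 hz1) T ?_
            intro ξ hξ η hη
            have e1 := congrArg φ1 (hTm ξ hξ)
            have e2 := congrArg φ1 (hTm η hη)
            rw [map_mul] at e1 e2
            exact mul_right_cancel₀ hd1 (e1.symm.trans e2)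
          omega
        · have h1 : T.card ≤ 1 := by
            rw [Finset.card_le_one]
            intro ξ hξ η hη
            have e1 := congrArg φ2 (hTm ξ hξ)
            have e2 := congrArg φ2 (hTm η hη)
            rw [map_mul] at e1 e2
            have f1 := congrArg φ1 (hTm ξ hξ)
            have f2 := congrArg φ1 (hTm η hη)
            rw [map_mul] at f1 f2
            have g1 := mul_right_cancel₀ hd2 (e1.symm.trans e2)
            have g2 := mul_right_cancel₀ hd1 (f1.symm.trans f2)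
            refine sub_eq_zero.1 (hinj _ ?_ ?_)
            · rw [map_sub, g2, sub_self]
            · rw [map_sub, g1, sub_self]
          omega

theorem avq_coll {F : Type} [DecidableEq F] (A : Finset R) (φ : R → F) :
    (((A ×ˢ A) ×ˢ (A ×ˢ A)).filter fun x => φ x.1.1 = φ x.2.1 ∧ φ x.1.2 = φ x.2.2).card ≤
      ((A ×ˢ A).filter fun p => φ p.1 = φ p.2).card ^ 2 := by
  classical
  rw [sq, ← Finset.card_product]
  refine Finset.card_le_card_of_injOn (fun x => ((x.1.1, x.2.1), (x.1.2, x.2.2))) ?_ ?_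
  · intro x hx
    simp only [Finset.coe_filter, Finset.mem_product, Set.mem_setOf_eq] at hx
    simp only [Finset.coe_product, Finset.coe_filter, Set.mem_prod, Set.mem_setOf_eq,
      Finset.mem_product]
    tauto
  · rintro ⟨⟨a, b⟩, ⟨c, d⟩⟩ _ ⟨⟨a', b'⟩, ⟨c', d'⟩⟩ _ h
    simp only [Prod.mk.injEq] at h ⊢
    tauto

theorem avq_main (φ1 : R →+* F1) (φ2 : R →+* F2) (hinj : ∀ z, φ1 z = 0 → φ2 z = 0 → z = 0)
    (A S : Finset R) (y : ℝ) (hy : 0 < y)
    (hA : 2 * y ≤ A.card) (hS : ∀ ξ ∈ S, Xi A y ξ)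
    (h1 : (((A ×ˢ A).filter fun p => φ1 p.1 = φ1 p.2).card : ℝ) ^ 2 * (Fintype.card F1 : ℝ) * 2
      ≤ (A.card : ℝ) ^ 4)
    (h2 : (((A ×ˢ A).filter fun p => φ2 p.1 = φ2 p.2).card : ℝ) ^ 2 * (Fintype.card F2 : ℝ) * 2
      ≤ (A.card : ℝ) ^ 4) :
    (S.card : ℝ) ≤ 4 * y * A.card := by
  classical
  have hn' : (0 : ℝ) < A.card := by linarith
  have hn : 0 < A.card := by exact_mod_cast hn'
  set X := (A ×ˢ A) ×ˢ (A ×ˢ A) with hX
  set C1 := (X.filter fun x => φ1 x.1.1 = φ1 x.2.1 ∧ φ1 x.1.2 = φ1 x.2.2).card with hC1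
  set C2 := (X.filter fun x => φ2 x.1.1 = φ2 x.2.1 ∧ φ2 x.1.2 = φ2 x.2.2).card with hC2
  have hXc : X.card = A.card ^ 4 := by
    rw [hX, Finset.card_product, Finset.card_product]; ring
  have hdiag : (X.filter fun x => x.1.1 = x.2.1 ∧ x.1.2 = x.2.2).card ≤ A.card ^ 2 := by
    have : (A ×ˢ A).card = A.card ^ 2 := by rw [Finset.card_product]; ring
    rw [← this]
    refine Finset.card_le_card_of_injOn (fun x => x.1) ?_ ?_
    · intro x hx
      simp only [hX, Finset.coe_filter, Finset.mem_product, Set.mem_setOf_eq] at hx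
      simp only [Finset.coe_product, Set.mem_prod, Finset.mem_coe]
      tauto
    · rintro ⟨⟨a, b⟩, ⟨c, d⟩⟩ h ⟨⟨a', b'⟩, ⟨c', d'⟩⟩ h' e
      simp only [Finset.coe_filter, Set.mem_setOf_eq] at h h'
      simp only [Prod.mk.injEq] at e ⊢
      obtain ⟨_, e1, e2⟩ := h
      obtain ⟨_, e3, e4⟩ := h'
      refine ⟨e, ?_, ?_⟩
      · rw [← e1, ← e3, e.1]
      · rw [← e2, ← e4, e.2]
  have hsum : ∑ ξ ∈ S, (avq_B A ξ).card ≤ S.card * A.card ^ 2 + A.card ^ 4 +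
      C1 * Fintype.card F1 + C2 * Fintype.card F2 := by
    have e1 : ∑ ξ ∈ S, (avq_B A ξ).card =
        ∑ x ∈ X, (S.filter fun ξ => x.1.1 - ξ * x.1.2 = x.2.1 - ξ * x.2.2).card := by
      simp only [avq_B, Finset.card_filter]
      rw [Finset.sum_comm]
    rw [e1]
    calc ∑ x ∈ X, (S.filter fun ξ => x.1.1 - ξ * x.1.2 = x.2.1 - ξ * x.2.2).card
        ≤ ∑ x ∈ X, ((if x.1.1 = x.2.1 ∧ x.1.2 = x.2.2 then S.card else 0) + 1 +
          (if φ1 x.1.1 = φ1 x.2.1 ∧ φ1 x.1.2 = φ1 x.2.2 then Fintype.card F1 else 0) +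
          (if φ2 x.1.1 = φ2 x.2.1 ∧ φ2 x.1.2 = φ2 x.2.2 then Fintype.card F2 else 0)) :=
          Finset.sum_le_sum fun x _ => avq_pt φ1 φ2 hinj S _ _ _ _
      _ = (X.filter fun x => x.1.1 = x.2.1 ∧ x.1.2 = x.2.2).card * S.card + X.card +
          C1 * Fintype.card F1 + C2 * Fintype.card F2 := by
          simp only [Finset.sum_add_distrib, ← Finset.sum_filter, Finset.sum_const, smul_eq_mul,
            mul_one, hC1, hC2]
      _ ≤ _ := by
          rw [hXc]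
          have := Nat.mul_le_mul_right S.card hdiag
          nlinarith [this]
  have hlow : (S.card : ℝ) * ((A.card : ℝ) ^ 3 / y) ≤ ∑ ξ ∈ S, ((avq_B A ξ).card : ℝ) := by
    rw [← nsmul_eq_mul, ← Finset.sum_const]
    exact Finset.sum_le_sum fun ξ hξ => avq_cs A ξ y hy hn (hS ξ hξ)
  have hsum' : ∑ ξ ∈ S, ((avq_B A ξ).card : ℝ) ≤ S.card * (A.card : ℝ) ^ 2 + (A.card : ℝ) ^ 4 +
      C1 * Fintype.card F1 + C2 * Fintype.card F2 := by exact_mod_cast hsum
  have c1 : (C1 : ℝ) * Fintype.card F1 ≤ (A.card : ℝ) ^ 4 / 2 := by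
    have h3 : (C1 : ℝ) ≤ (((A ×ˢ A).filter fun p => φ1 p.1 = φ1 p.2).card : ℝ) ^ 2 := by
      exact_mod_cast avq_coll A φ1
    have h4 := mul_le_mul_of_nonneg_right h3 (Nat.cast_nonneg (α := ℝ) (Fintype.card F1))
    linarith
  have c2 : (C2 : ℝ) * Fintype.card F2 ≤ (A.card : ℝ) ^ 4 / 2 := by
    have h3 : (C2 : ℝ) ≤ (((A ×ˢ A).filter fun p => φ2 p.1 = φ2 p.2).card : ℝ) ^ 2 := by
      exact_mod_cast avq_coll A φ2
    have h4 := mul_le_mul_of_nonneg_right h3 (Nat.cast_nonneg (α := ℝ) (Fintype.card F2))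
    linarith
  have hfin : (S.card : ℝ) * ((A.card : ℝ) ^ 3 / y) ≤ S.card * (A.card : ℝ) ^ 2 +
      2 * (A.card : ℝ) ^ 4 := by linarith
  have hhalf : (A.card : ℝ) ^ 2 ≤ ((A.card : ℝ) ^ 3 / y) / 2 := by
    rw [le_div_iff₀ (by norm_num), le_div_iff₀ hy]
    have : (A.card : ℝ) ^ 3 = (A.card : ℝ) ^ 2 * A.card := by ring
    rw [this]
    have h3 : 0 ≤ (A.card : ℝ) ^ 2 := by positivity
    nlinarith
  have h5 : (S.card : ℝ) * ((A.card : ℝ) ^ 3 / y) ≤ 4 * (A.card : ℝ) ^ 4 := by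
    have := mul_le_mul_of_nonneg_left hhalf (Nat.cast_nonneg (α := ℝ) S.card)
    linarith
  rw [← mul_div_assoc, div_le_iff₀ hy] at h5
  have h6 : (A.card : ℝ) ^ 3 * S.card ≤ (A.card : ℝ) ^ 3 * (4 * y * A.card) := by nlinarith
  exact le_of_mul_le_mul_left h6 (by positivity)

end gen

theorem avq_inj (q1 q2 : ℕ) [Fact q1.Prime] [Fact q2.Prime] (hne : q1 ≠ q2)
    (z : ZMod (q1 * q2)) (h1 : ZMod.castHom (dvd_mul_right q1 q2) (ZMod q1) z = 0)
    (h2 : ZMod.castHom (dvd_mul_left q2 q1) (ZMod q2) z = 0) : z = 0 := by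
  have p1 : q1.Prime := Fact.out
  have p2 : q2.Prime := Fact.out
  have : NeZero (q1 * q2) := ⟨Nat.mul_ne_zero p1.ne_zero p2.ne_zero⟩
  obtain ⟨m, rfl⟩ := ZMod.natCast_zmod_surjective z
  rw [map_natCast, ZMod.natCast_eq_zero_iff] at h1 h2
  rw [ZMod.natCast_eq_zero_iff]
  exact (Nat.Coprime.mul_dvd_of_dvd_of_dvd ((Nat.coprime_primes p1 p2).2 hne) h1 h2)

theorem avgQ (q1 q2 : ℕ) [Fact q1.Prime] [Fact q2.Prime] (hne : q1 ≠ q2)
    (A S : Finset (ZMod (q1 * q2))) (y : ℝ) (hy : 0 < y)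
    (hA : 2 * y ≤ A.card) (hS : ∀ ξ ∈ S, Xi A y ξ)
    (h1 : (((A ×ˢ A).filter fun p => ZMod.castHom (dvd_mul_right q1 q2) (ZMod q1) p.1
        = ZMod.castHom (dvd_mul_right q1 q2) (ZMod q1) p.2).card : ℝ) ^ 2 * q1 * 2 ≤ (A.card : ℝ) ^ 4)
    (h2 : (((A ×ˢ A).filter fun p => ZMod.castHom (dvd_mul_left q2 q1) (ZMod q2) p.1
        = ZMod.castHom (dvd_mul_left q2 q1) (ZMod q2) p.2).card : ℝ) ^ 2 * q2 * 2 ≤ (A.card : ℝ) ^ 4) :
    (S.card : ℝ) ≤ 4 * y * A.card := by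
  refine avq_main (ZMod.castHom (dvd_mul_right q1 q2) (ZMod q1))
    (ZMod.castHom (dvd_mul_left q2 q1) (ZMod q2)) (fun z hz1 hz2 => avq_inj q1 q2 hne z hz1 hz2)
    A S y hy hA hS ?_ ?_
  · rw [ZMod.card]; exact h1
  · rw [ZMod.card]; exact h2

end Pool.H53.NA
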