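import Pool.Agent.H53.NA.Defs

/-!
Row Yng: elementary facts on the convolution `cv` on a finite abelian group.

PROOFS.  `cv_comm`: substitute `x ↦ y - x` (`Equiv.subLeft`).  `cv_add_left`, `cv_add_right`: expand.
`sum_cv`: exchange the sums, `∑_y g (y - x) = ∑ g` (`Equiv.subRight`).
`young`: `(∑_x g x h(y-x))² ≤ (∑_x g x)(∑_x g x h(y-x)²)` (Cauchy-Schwarz with weights,
`Finset.sum_mul_sq_le_sq_mul_sq` or `Finset.inner_mul_le_norm_mul_norm`, writing `g = √g √g`), sum over `y`
and exchange the sums.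
`cv_indicator`: if `0 ≤ f ≤ c * 1_A` then `∑_y (cv f f y)² ≤ c⁴ E4 A`: `cv f f y ≤ c² |{(a,b) ∈ A² : a+b=y}|` and
`∑_y |{(a,b) ∈ A² : a + b = y}|² = E4 A`.
-/

set_option autoImplicit false

namespace Pool.H53.NA

variable {V : Type} [AddCommGroup V] [Fintype V] [DecidableEq V]

theorem cv_comm (f g : V → ℝ) (y : V) : cv f g y = cv g f y := by
  unfold cv
  rw [← (Equiv.subLeft y).sum_comp (fun x => f x * g (y - x))]
  refine Finset.sum_congr rfl (fun x _ => ?_)
  simp only [Equiv.subLeft_apply, sub_sub_cancel]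
  ring

theorem cv_add_left (f g h : V → ℝ) (y : V) : cv (fun x => f x + g x) h y = cv f h y + cv g h y := by
  unfold cv
  rw [← Finset.sum_add_distrib]
  refine Finset.sum_congr rfl (fun x _ => ?_)
  ring

theorem cv_add_right (f g h : V → ℝ) (y : V) : cv f (fun x => g x + h x) y = cv f g y + cv f h y := by
  unfold cv
  rw [← Finset.sum_add_distrib]
  refine Finset.sum_congr rfl (fun x _ => ?_)
  ring

theorem yng_shift (g : V → ℝ) (x : V) : ∑ y, g (y - x) = ∑ y, g y := by
  have := (Equiv.subRight x).sum_comp g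
  simpa using this

theorem sum_cv (f g : V → ℝ) : ∑ y, cv f g y = (∑ x, f x) * ∑ x, g x := by
  unfold cv
  rw [Finset.sum_comm, Finset.sum_mul]
  refine Finset.sum_congr rfl (fun x _ => ?_)
  rw [← Finset.mul_sum, yng_shift]

theorem young (g h : V → ℝ) (hg : ∀ x, 0 ≤ g x) :
    ∑ y, cv g h y ^ 2 ≤ (∑ x, g x) ^ 2 * ∑ x, h x ^ 2 := by
  have h1 : ∀ y, cv g h y ^ 2 ≤ (∑ x, g x) * ∑ x, g x * h (y - x) ^ 2 := by
    intro y
    unfold cv
    have := Finset.sum_mul_sq_le_sq_mul_sq Finset.univ (fun x => Real.sqrt (g x))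
      (fun x => Real.sqrt (g x) * h (y - x))
    have e1 : ∀ x, Real.sqrt (g x) * (Real.sqrt (g x) * h (y - x)) = g x * h (y - x) := by
      intro x
      rw [← mul_assoc, Real.mul_self_sqrt (hg x)]
    have e2 : ∀ x, Real.sqrt (g x) ^ 2 = g x := fun x => Real.sq_sqrt (hg x)
    have e3 : ∀ x, (Real.sqrt (g x) * h (y - x)) ^ 2 = g x * h (y - x) ^ 2 := by
      intro x
      rw [mul_pow, Real.sq_sqrt (hg x)]
    simp only [e1, e2, e3] at this
    exact this
  calc ∑ y, cv g h y ^ 2 ≤ ∑ y, (∑ x, g x) * ∑ x, g x * h (y - x) ^ 2 :=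
        Finset.sum_le_sum (fun y _ => h1 y)
    _ = (∑ x, g x) * ∑ x, g x * ∑ y, h (y - x) ^ 2 := by
        rw [← Finset.mul_sum, Finset.sum_comm]
        congr 1
        exact Finset.sum_congr rfl (fun x _ => by rw [← Finset.mul_sum])
    _ = (∑ x, g x) * ∑ x, g x * ∑ y, h y ^ 2 := by
        congr 1
        exact Finset.sum_congr rfl (fun x _ => by rw [yng_shift (fun z => h z ^ 2)])
    _ = (∑ x, g x) ^ 2 * ∑ x, h x ^ 2 := by
        rw [← Finset.sum_mul]
        ring

theorem yng_E4 (A : Finset V) :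
    ∑ y : V, (∑ a ∈ A, ∑ b ∈ A, if a + b = y then (1 : ℝ) else 0) ^ 2 = E4 A := by
  have h1 : ∀ y : V, (∑ a ∈ A, ∑ b ∈ A, if a + b = y then (1 : ℝ) else 0) ^ 2 =
      ∑ a ∈ A, ∑ b ∈ A, ∑ c ∈ A, ∑ d ∈ A,
        (if a + b = y then (1 : ℝ) else 0) * (if c + d = y then (1 : ℝ) else 0) := by
    intro y
    rw [pow_two, Finset.sum_mul]
    refine Finset.sum_congr rfl (fun a _ => ?_)
    rw [Finset.sum_mul]
    refine Finset.sum_congr rfl (fun b _ => ?_)
    rw [Finset.mul_sum]
    refine Finset.sum_congr rfl (fun c _ => ?_)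
    rw [Finset.mul_sum]
  simp only [h1]
  rw [Finset.sum_comm]
  unfold E4
  rw [Finset.card_filter]
  push_cast
  rw [Finset.sum_product]
  refine Finset.sum_congr rfl (fun a _ => ?_)
  rw [Finset.sum_comm, Finset.sum_product]
  refine Finset.sum_congr rfl (fun b _ => ?_)
  rw [Finset.sum_comm, Finset.sum_product]
  refine Finset.sum_congr rfl (fun c _ => ?_)
  rw [Finset.sum_comm]
  refine Finset.sum_congr rfl (fun d _ => ?_)
  rw [Finset.sum_eq_single (a + b)]
  · by_cases h : a + b = c + d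
    · simp [h]
    · have h' : ¬ (c + d = a + b) := fun h' => h h'.symm
      simp [h, h']
  · intro y _ hy
    rw [if_neg (fun h => hy h.symm), zero_mul]
  · intro h
    exact absurd (Finset.mem_univ _) h

theorem cv_indicator (f : V → ℝ) (A : Finset V) (c : ℝ) (hf : ∀ x, 0 ≤ f x) (hc : ∀ x ∈ A, f x ≤ c)
    (hz : ∀ x, x ∉ A → f x = 0) (hc0 : 0 ≤ c) : ∑ y, cv f f y ^ 2 ≤ c ^ 4 * E4 A := by
  rw [← yng_E4, Finset.mul_sum]
  refine Finset.sum_le_sum (fun y _ => ?_)
  have h1 : cv f f y ≤ c ^ 2 * ∑ a ∈ A, ∑ b ∈ A, (if a + b = y then (1 : ℝ) else 0) := by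
    unfold cv
    have e1 : ∑ x, f x * f (y - x) = ∑ x ∈ A, f x * f (y - x) := by
      symm
      apply Finset.sum_subset (Finset.subset_univ A)
      intro x _ hx
      rw [hz x hx, zero_mul]
    rw [e1, Finset.mul_sum]
    refine Finset.sum_le_sum (fun a ha => ?_)
    by_cases hb : y - a ∈ A
    · have e2 : ∑ b ∈ A, (if a + b = y then (1 : ℝ) else 0) = 1 := by
        rw [Finset.sum_eq_single (y - a)]
        · rw [if_pos (by abel)]
        · intro b _ hb'
          rw [if_neg]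
          intro h
          exact hb' (by rw [← h]; abel)
        · intro h
          exact absurd hb h
      rw [e2, mul_one, pow_two]
      exact mul_le_mul (hc a ha) (hc _ hb) (hf _) hc0
    · rw [hz _ hb, mul_zero]
      refine mul_nonneg (by positivity) (Finset.sum_nonneg (fun b _ => ?_))
      split_ifs
      · exact zero_le_one
      · exact le_rfl
  have h0 : 0 ≤ cv f f y := Finset.sum_nonneg (fun x _ => mul_nonneg (hf _) (hf _))
  calc cv f f y ^ 2 ≤ (c ^ 2 * ∑ a ∈ A, ∑ b ∈ A, (if a + b = y then (1 : ℝ) else 0)) ^ 2 :=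
        pow_le_pow_left₀ h0 h1 2
    _ = _ := by ring

end Pool.H53.NA
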