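import Pool.Agent.H53.NA.RpA
import Pool.Agent.H53.NA.Yng

/-!
Row RpB: consequences of `rep_sum`, `rep_conv`.  PROOFS.
* `cv_rep`: cast of `rep_conv`.
* `rep_two_le`: `rep (2s) y = ∑_x rep s x rep s (y - x) ≤ ∑ rep s x²` (Cauchy-Schwarz / `2ab ≤ a² + b²` and
  the substitution `x ↦ y - x`).
* `rep_add_le`: `rep_conv`, `rep s x ≤ m` after exchanging the roles, `rep_sum`.
* `en_add_le`: `young` (row Yng) for `g = rep u`, `h = rep s`, with `∑ g = D^u`.
* `en_le_max`: `∑ rep² ≤ m ∑ rep`.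
* `en_pos`: `∑ rep = D^s > 0`, so some `rep` is nonzero.
* `Nf_rep`: `Nf (rep s) = D^(2s)/en s`.
-/

set_option autoImplicit false

namespace Pool.H53.NA

theorem cv_rep (N D s u : ℕ) [NeZero N] (y : ZMod N) :
    cv (fun x => (rep N D s x : ℝ)) (fun x => (rep N D u x : ℝ)) y = rep N D (s + u) y := by
  rw [rep_conv]
  unfold cv
  push_cast
  rfl

theorem rep_two_le (N D s : ℕ) [NeZero N] (y : ZMod N) : rep N D (2 * s) y ≤ en N D s := by
  rw [two_mul, rep_conv]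
  have h1 : ∀ x : ZMod N, 2 * (rep N D s x * rep N D s (y - x))
      ≤ rep N D s x ^ 2 + rep N D s (y - x) ^ 2 := by
    intro x
    have := two_mul_le_add_sq (rep N D s x) (rep N D s (y - x))
    calc 2 * (rep N D s x * rep N D s (y - x)) = 2 * rep N D s x * rep N D s (y - x) := by ring
      _ ≤ _ := this
  have h2 : ∑ x : ZMod N, rep N D s (y - x) ^ 2 = ∑ x : ZMod N, rep N D s x ^ 2 :=
    Equiv.sum_comp (Equiv.subLeft y) (fun x => rep N D s x ^ 2)
  have h3 : 2 * ∑ x : ZMod N, rep N D s x * rep N D s (y - x)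
      ≤ 2 * ∑ x : ZMod N, rep N D s x ^ 2 := by
    calc 2 * ∑ x : ZMod N, rep N D s x * rep N D s (y - x)
        = ∑ x : ZMod N, 2 * (rep N D s x * rep N D s (y - x)) := by rw [Finset.mul_sum]
      _ ≤ ∑ x : ZMod N, (rep N D s x ^ 2 + rep N D s (y - x) ^ 2) :=
          Finset.sum_le_sum fun x _ => h1 x
      _ = 2 * ∑ x : ZMod N, rep N D s x ^ 2 := by
          rw [Finset.sum_add_distrib, h2]; ring
  unfold en
  omega

theorem rep_add_le (N D s u : ℕ) [NeZero N] (m : ℝ) (hm : ∀ y, (rep N D s y : ℝ) ≤ m)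
    (y : ZMod N) : (rep N D (s + u) y : ℝ) ≤ m * D ^ u := by
  rw [rep_conv]
  push_cast
  have h2 : ∑ x : ZMod N, (rep N D u (y - x) : ℝ) = (D : ℝ) ^ u := by
    have h3 : ∑ x : ZMod N, (rep N D u (y - x) : ℝ) = ∑ x : ZMod N, (rep N D u x : ℝ) :=
      Equiv.sum_comp (Equiv.subLeft y) (fun x => (rep N D u x : ℝ))
    rw [h3, ← Nat.cast_sum, rep_sum]
    push_cast
    rfl
  calc ∑ x : ZMod N, (rep N D s x : ℝ) * rep N D u (y - x)
      ≤ ∑ x : ZMod N, m * rep N D u (y - x) :=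
        Finset.sum_le_sum fun x _ => mul_le_mul_of_nonneg_right (hm x) (Nat.cast_nonneg _)
    _ = m * (D : ℝ) ^ u := by rw [← Finset.mul_sum, h2]

theorem en_add_le (N D s u : ℕ) [NeZero N] : en N D (s + u) ≤ D ^ (2 * u) * en N D s := by
  have h := young (V := ZMod N) (fun x => (rep N D u x : ℝ)) (fun x => (rep N D s x : ℝ))
    (fun x => Nat.cast_nonneg _)
  have h1 : ∀ y : ZMod N, cv (fun x => (rep N D u x : ℝ)) (fun x => (rep N D s x : ℝ)) y
      = (rep N D (s + u) y : ℝ) := by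
    intro y
    rw [cv_rep, add_comm u s]
  have h2 : ∑ x : ZMod N, (rep N D u x : ℝ) = (D : ℝ) ^ u := by
    rw [← Nat.cast_sum, rep_sum]
    push_cast
    rfl
  simp only [h1, h2] at h
  have h3 : (en N D (s + u) : ℝ) ≤ ((D ^ (2 * u) * en N D s : ℕ) : ℝ) := by
    unfold en
    push_cast
    calc ∑ y : ZMod N, (rep N D (s + u) y : ℝ) ^ 2
        ≤ ((D : ℝ) ^ u) ^ 2 * ∑ x : ZMod N, (rep N D s x : ℝ) ^ 2 := h
      _ = (D : ℝ) ^ (2 * u) * ∑ x : ZMod N, (rep N D s x : ℝ) ^ 2 := by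
          rw [← pow_mul, mul_comm u 2]
  exact_mod_cast h3

theorem en_le_max (N D s : ℕ) [NeZero N] (m : ℝ) (hm : ∀ y, (rep N D s y : ℝ) ≤ m) :
    (en N D s : ℝ) ≤ m * D ^ s := by
  have h2 : ∑ x : ZMod N, (rep N D s x : ℝ) = (D : ℝ) ^ s := by
    rw [← Nat.cast_sum, rep_sum]
    push_cast
    rfl
  unfold en
  push_cast
  calc ∑ y : ZMod N, (rep N D s y : ℝ) ^ 2
      ≤ ∑ y : ZMod N, m * rep N D s y := by
        apply Finset.sum_le_sum
        intro y _
        rw [sq]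
        exact mul_le_mul_of_nonneg_right (hm y) (Nat.cast_nonneg _)
    _ = m * (D : ℝ) ^ s := by rw [← Finset.mul_sum, h2]

theorem en_pos (N D s : ℕ) [NeZero N] (hD : 0 < D) : 0 < en N D s := by
  by_contra h
  have h0 : en N D s = 0 := by omega
  unfold en at h0
  rw [Finset.sum_eq_zero_iff] at h0
  have h1 : ∑ y : ZMod N, rep N D s y = 0 := by
    apply Finset.sum_eq_zero
    intro y hy
    exact pow_eq_zero_iff (two_ne_zero) |>.mp (h0 y hy)
  rw [rep_sum] at h1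
  have : 0 < D ^ s := Nat.pow_pos hD
  omega

theorem Nf_rep (N D s : ℕ) [NeZero N] :
    Nf (fun x => (rep N D s x : ℝ)) = (D : ℝ) ^ (2 * s) / en N D s := by
  have h2 : ∑ x : ZMod N, (rep N D s x : ℝ) = (D : ℝ) ^ s := by
    rw [← Nat.cast_sum, rep_sum]
    push_cast
    rfl
  unfold Nf
  rw [h2]
  unfold en
  push_cast
  rw [← pow_mul, mul_comm s 2]

end Pool.H53.NA
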