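import Pool.Agent.H53.NA.Fou
import Pool.Agent.H53.NA.RpB
import Pool.Agent.H53.NA.Yng

/-!
Row Bil: the bilinear bound.  PROOF.  `S = SS Q D`, `r = rep Q D s`, `e = ZMod.stdAddChar`.  Let
`g y = ∑_x r x r (x - y)` (number of pairs with difference of sums `y`), so `g ≥ 0`, `∑ g = D^(2s)`,
`∑ g² ≤ (∑ r)² ∑ r² = D^(2s) en s` (`young` for `x ↦ r (-x)` and `r`; `g` is a convolution with a reflection), and
`‖S b‖^(2s) = ‖∑ r y e(b y)‖² = ∑_y g y e(b y)` for all `b` (`SS_pow`).  Sum over `b = a 2^k`, `k < D`: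
`D ‖S a‖^(2s) = ∑_y g y S(a y)` (`SS_inv` for the left side).  By Hölder
(`Real.inner_le_Lp_mul_Lq`, or `inner_le_nnorm_mul_nnorm`, or `Finset.inner...`; simplest: Jensen
`(∑ g u)^(2s) ≤ (∑ g)^(2s-1) ∑ g u^(2s)`, `inner_le...`/`Real.pow_arith_mean_le_arith_mean_pow`)
`(D ‖S a‖^(2s))^(2s) ≤ D^(2s(2s-1)) ∑_y g y ‖S(a y)‖^(2s) = D^(2s(2s-1)) ∑_{y,y'} g y g y' e(a y y')`.  For a unit `a`
`|∑_y g y ∑_{y'} g y' e(a y y')| ≤ (∑ g²)^(1/2) (∑_y |∑_{y'} g y' e(a y y')|²)^(1/2) = (∑ g²)^(1/2) (Q ∑ g²)^(1/2)`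
(Cauchy-Schwarz, `y ↦ a y` is a bijection, Parseval as in `sum_SS`).  So
`D^(2s) ‖S a‖^(4s²) ≤ D^(4s² - 2s) √Q D^(2s) en s`.
-/

set_option autoImplicit false

namespace Pool.H53.NA

/-- the number of pairs with difference `y` -/
private noncomputable def bil_g (Q D s : ℕ) [NeZero Q] (y : ZMod Q) : ℝ :=
  cv (fun x => (rep Q D s (-x) : ℝ)) (fun x => (rep Q D s x : ℝ)) y

private theorem bil_g_eq (Q D s : ℕ) [NeZero Q] (y : ZMod Q) :
    bil_g Q D s y = ∑ x, (rep Q D s x : ℝ) * (rep Q D s (x + y) : ℝ) := by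
  unfold bil_g cv
  rw [← Equiv.sum_comp (Equiv.neg (ZMod Q))]
  refine Finset.sum_congr rfl fun x _ => ?_
  simp only [Equiv.neg_apply, neg_neg, sub_neg_eq_add]
  rw [add_comm y x]

private theorem bil_g_nonneg (Q D s : ℕ) [NeZero Q] (y : ZMod Q) : 0 ≤ bil_g Q D s y := by
  rw [bil_g_eq]
  exact Finset.sum_nonneg fun x _ => by positivity

private theorem bil_rep_sum (Q D s : ℕ) [NeZero Q] : ∑ y, (rep Q D s y : ℝ) = (D : ℝ) ^ s := by
  have := rep_sum Q D s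
  exact_mod_cast this

private theorem bil_rep_sum' (Q D s : ℕ) [NeZero Q] : ∑ y, (rep Q D s (-y) : ℝ) = (D : ℝ) ^ s := by
  rw [← bil_rep_sum Q D s, ← Equiv.sum_comp (Equiv.neg (ZMod Q)) (fun y => (rep Q D s y : ℝ))]
  rfl

private theorem bil_g_sum (Q D s : ℕ) [NeZero Q] : ∑ y, bil_g Q D s y = (D : ℝ) ^ (2 * s) := by
  unfold bil_g
  rw [sum_cv, bil_rep_sum', bil_rep_sum]
  ring

private theorem bil_g_sq (Q D s : ℕ) [NeZero Q] :
    ∑ y, bil_g Q D s y ^ 2 ≤ (D : ℝ) ^ (2 * s) * en Q D s := by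
  unfold bil_g
  refine (young _ _ fun x => by positivity).trans (le_of_eq ?_)
  rw [bil_rep_sum']
  have : ((en Q D s : ℕ) : ℝ) = ∑ x, (rep Q D s x : ℝ) ^ 2 := by
    unfold en
    push_cast
    rfl
  rw [this]
  ring

private theorem bil_norm (Q D s : ℕ) [NeZero Q] (b : ZMod Q) :
    ((‖SS Q D b‖ ^ (2 * s) : ℝ) : ℂ) =
      ∑ y, (bil_g Q D s y : ℂ) * ZMod.stdAddChar (N := Q) (b * y) := by
  have h1 : ((‖SS Q D b‖ ^ (2 * s) : ℝ) : ℂ) =
      (SS Q D b) ^ s * (starRingEnd ℂ) ((SS Q D b) ^ s) := by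
    rw [Complex.mul_conj, Complex.normSq_eq_norm_sq, norm_pow]
    congr 1
    ring
  rw [h1, SS_pow, map_sum]
  simp only [map_mul, Complex.conj_natCast, ← AddChar.map_neg_eq_conj]
  rw [Finset.sum_mul_sum, Finset.sum_comm]
  have h2 : ∀ x : ZMod Q, ∑ u : ZMod Q,
      (rep Q D s u : ℂ) * ZMod.stdAddChar (N := Q) (b * u) *
        ((rep Q D s x : ℂ) * ZMod.stdAddChar (N := Q) (-(b * x))) =
      ∑ y : ZMod Q, ((rep Q D s x : ℂ) * (rep Q D s (x + y) : ℂ)) *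
        ZMod.stdAddChar (N := Q) (b * y) := by
    intro x
    rw [← Equiv.sum_comp (Equiv.addLeft x)]
    refine Finset.sum_congr rfl fun y _ => ?_
    simp only [Equiv.coe_addLeft]
    have h3 : ZMod.stdAddChar (N := Q) (b * (x + y)) * ZMod.stdAddChar (N := Q) (-(b * x)) =
        ZMod.stdAddChar (N := Q) (b * y) := by
      rw [← AddChar.map_add_eq_mul]
      congr 1
      ring
    rw [← h3]
    ring
  rw [Finset.sum_congr rfl fun x _ => h2 x, Finset.sum_comm]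
  refine Finset.sum_congr rfl fun y _ => ?_
  rw [bil_g_eq]
  push_cast
  rw [Finset.sum_mul]

private theorem bil_avg (Q D s : ℕ) [NeZero Q] (hD : 0 < D) (h2 : (2 : ZMod Q) ^ D = 1)
    (a : ZMod Q) :
    (D : ℝ) * ‖SS Q D a‖ ^ (2 * s) ≤ ∑ y, bil_g Q D s y * ‖SS Q D (a * y)‖ := by
  have h1 : (((D : ℝ) * ‖SS Q D a‖ ^ (2 * s) : ℝ) : ℂ) =
      ∑ y, (bil_g Q D s y : ℂ) * SS Q D (a * y) := by
    have h3 : ∀ k ∈ Finset.range D, ((‖SS Q D (a * 2 ^ k)‖ ^ (2 * s) : ℝ) : ℂ) =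
        ((‖SS Q D a‖ ^ (2 * s) : ℝ) : ℂ) := by
      intro k _
      rw [SS_inv Q D hD h2 _ (rpa_mem Q D hD h2 k)]
    have h4 : (((D : ℝ) * ‖SS Q D a‖ ^ (2 * s) : ℝ) : ℂ) =
        ∑ k ∈ Finset.range D, ((‖SS Q D (a * 2 ^ k)‖ ^ (2 * s) : ℝ) : ℂ) := by
      rw [Finset.sum_congr rfl h3, Finset.sum_const, Finset.card_range, nsmul_eq_mul]
      push_cast
      ring
    rw [h4]
    simp only [bil_norm]
    rw [Finset.sum_comm]
    refine Finset.sum_congr rfl fun y _ => ?_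
    rw [SS, Finset.mul_sum]
    refine Finset.sum_congr rfl fun k _ => ?_
    congr 2
    ring
  have h5 : (D : ℝ) * ‖SS Q D a‖ ^ (2 * s) = ‖(((D : ℝ) * ‖SS Q D a‖ ^ (2 * s) : ℝ) : ℂ)‖ := by
    rw [Complex.norm_real, Real.norm_eq_abs, abs_of_nonneg (by positivity)]
  rw [h5, h1]
  refine (norm_sum_le _ _).trans (le_of_eq ?_)
  refine Finset.sum_congr rfl fun y _ => ?_
  rw [norm_mul, Complex.norm_real, Real.norm_eq_abs, abs_of_nonneg (bil_g_nonneg Q D s y)]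

theorem bilin (Q D s : ℕ) [NeZero Q] (hs : 1 ≤ s) (hD : 0 < D) (h2 : (2 : ZMod Q) ^ D = 1)
    (a : ZMod Q) (ha : IsUnit a) :
    ‖SS Q D a‖ ^ (4 * s ^ 2) * (D : ℝ) ^ (2 * s)
      ≤ (D : ℝ) ^ (4 * s ^ 2) * (Real.sqrt Q * en Q D s) := by
  have hDr : (0 : ℝ) < D := by exact_mod_cast hD
  set M : ℝ := (D : ℝ) ^ (2 * s) with hM
  have hMpos : 0 < M := by positivity
  set e : ℝ := (en Q D s : ℝ) with he
  have he0 : 0 ≤ e := by positivity
  -- Jensen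
  have hJ : (∑ y, bil_g Q D s y * ‖SS Q D (a * y)‖) ^ (2 * s) ≤
      M ^ (2 * s - 1) * ∑ y, bil_g Q D s y * ‖SS Q D (a * y)‖ ^ (2 * s) := by
    have h3 := Real.pow_arith_mean_le_arith_mean_pow Finset.univ
      (fun y => bil_g Q D s y / M) (fun y => ‖SS Q D (a * y)‖)
      (fun y _ => div_nonneg (bil_g_nonneg Q D s y) hMpos.le)
      (by rw [← Finset.sum_div, bil_g_sum, div_self hMpos.ne']) (fun y _ => norm_nonneg _) (2 * s)
    have h4 : ∑ y, bil_g Q D s y / M * ‖SS Q D (a * y)‖ =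
        (∑ y, bil_g Q D s y * ‖SS Q D (a * y)‖) / M := by
      rw [Finset.sum_div]
      refine Finset.sum_congr rfl fun y _ => ?_
      ring
    have h5 : ∑ y, bil_g Q D s y / M * ‖SS Q D (a * y)‖ ^ (2 * s) =
        (∑ y, bil_g Q D s y * ‖SS Q D (a * y)‖ ^ (2 * s)) / M := by
      rw [Finset.sum_div]
      refine Finset.sum_congr rfl fun y _ => ?_
      ring
    rw [h4, h5, div_pow, div_le_div_iff₀ (by positivity) hMpos] at h3
    have h6 : M ^ (2 * s) = M ^ (2 * s - 1) * M := by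
      rw [← pow_succ]
      congr 1
      omega
    rw [h6] at h3
    have h7 : (∑ y, bil_g Q D s y * ‖SS Q D (a * y)‖) ^ (2 * s) * M ≤
        (M ^ (2 * s - 1) * ∑ y, bil_g Q D s y * ‖SS Q D (a * y)‖ ^ (2 * s)) * M := by
      linarith
    exact le_of_mul_le_mul_right h7 hMpos
  -- Cauchy-Schwarz
  have hbij : ∑ y : ZMod Q, (‖SS Q D (a * y)‖ ^ (2 * s)) ^ 2 =
      ∑ b : ZMod Q, ‖SS Q D b‖ ^ (2 * (2 * s)) := by
    obtain ⟨u, rfl⟩ := ha
    have h3 := Equiv.sum_comp (Units.mulLeft u) (fun b : ZMod Q => ‖SS Q D b‖ ^ (2 * (2 * s)))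
    rw [← h3]
    refine Finset.sum_congr rfl fun y _ => ?_
    rw [← pow_mul]
    simp only [Units.mulLeft_apply]
    congr 1
    ring
  have hsum2 : ∑ y : ZMod Q, (‖SS Q D (a * y)‖ ^ (2 * s)) ^ 2 ≤ (Q : ℝ) * (M * e) := by
    rw [hbij, sum_SS]
    have h3 := en_add_le Q D s s
    have h4 : (en Q D (2 * s) : ℝ) ≤ M * e := by
      rw [two_mul]
      rw [hM, he]
      exact_mod_cast h3
    gcongr
  have hCS : ∑ y, bil_g Q D s y * ‖SS Q D (a * y)‖ ^ (2 * s) ≤ Real.sqrt Q * (M * e) := by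
    have h3 := Finset.sum_mul_sq_le_sq_mul_sq Finset.univ (fun y => bil_g Q D s y)
      (fun y => ‖SS Q D (a * y)‖ ^ (2 * s))
    have h4 : (∑ y, bil_g Q D s y * ‖SS Q D (a * y)‖ ^ (2 * s)) ^ 2 ≤
        (Real.sqrt Q * (M * e)) ^ 2 := by
      refine h3.trans ?_
      have h5 : (∑ y, bil_g Q D s y ^ 2) * ∑ y : ZMod Q, (‖SS Q D (a * y)‖ ^ (2 * s)) ^ 2 ≤
          (M * e) * ((Q : ℝ) * (M * e)) := by
        have h6 := bil_g_sq Q D s
        have h7 : 0 ≤ ∑ y : ZMod Q, (‖SS Q D (a * y)‖ ^ (2 * s)) ^ 2 :=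
          Finset.sum_nonneg fun y _ => by positivity
        exact mul_le_mul h6 hsum2 h7 (by positivity)
      refine h5.trans (le_of_eq ?_)
      rw [mul_pow, Real.sq_sqrt (by positivity)]
      ring
    exact le_of_sq_le_sq h4 (by positivity)
  have h8 := bil_avg Q D s hD h2 a
  have h9 : ((D : ℝ) * ‖SS Q D a‖ ^ (2 * s)) ^ (2 * s) ≤ M ^ (2 * s - 1) * (Real.sqrt Q * (M * e)) :=
    (pow_le_pow_left₀ (by positivity) h8 _).trans (hJ.trans (by gcongr))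
  have h10 : ((D : ℝ) * ‖SS Q D a‖ ^ (2 * s)) ^ (2 * s) =
      ‖SS Q D a‖ ^ (4 * s ^ 2) * (D : ℝ) ^ (2 * s) := by
    rw [mul_pow, ← pow_mul, mul_comm]
    congr 2
    ring
  have h11 : M ^ (2 * s - 1) * (Real.sqrt Q * (M * e)) =
      (D : ℝ) ^ (4 * s ^ 2) * (Real.sqrt Q * e) := by
    have h12 : M ^ (2 * s - 1) * M = (D : ℝ) ^ (4 * s ^ 2) := by
      rw [← pow_succ, hM, ← pow_mul]
      congr 1
      have : 2 * s - 1 + 1 = 2 * s := by omega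
      rw [this]
      ring
    rw [← h12]
    ring
  rw [h10, h11] at h9
  exact h9

end Pool.H53.NA
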