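import Pool.Agent.H53.NA.Drc

/-!
Row Bpa: many paths of length four.  PROOF.  Take `A1` from `drc`; call `(a,a')` bad if its codegree
`|{b ∈ A : G a b ∧ G a' b}|` is `< α²/32 * n`, `n = |A|` (symmetric in `a,a'`).  The number of bad pairs in
`A1²` is `≤ |A1|²/16`.  Let `A2` be the set of `a ∈ A1` with at most `|A1|/8` bad partners `a' ∈ A1`.
Then `|A1 \ A2| * |A1|/8 ≤ |A1|²/16`, so `|A2| ≥ |A1|/2 ≥ (α/4) n`.  For `a, a'' ∈ A2` at least
`|A1| - |A1|/8 - |A1|/8 = (3/4)|A1|` elements `a' ∈ A1` are good with both; each gives at least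
`(α²/32 n)²` pairs `(b,b') ∈ A²` with `G a b, G a' b, G a' b', G a'' b'`.  Total
`≥ (3/4)(α/2) n (α²/32 n)² = (3/8192) α⁵ n³ ≥ α⁵ n³/4096`.
-/

set_option autoImplicit false

namespace Pool.H53.NA

theorem bsg_paths {X : Type} [DecidableEq X] (A : Finset X) (G : X → X → Prop) [DecidableRel G]
    (α : ℝ) (hα : 0 < α) (hA : A.Nonempty)
    (hG : α * (A.card : ℝ) ^ 2 ≤ (((A ×ˢ A).filter fun p => G p.1 p.2).card : ℝ)) :
    ∃ A2 : Finset X, A2 ⊆ A ∧ α / 4 * A.card ≤ A2.card ∧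
      ∀ a ∈ A2, ∀ a'' ∈ A2, α ^ 5 / 4096 * (A.card : ℝ) ^ 3 ≤
        (((A ×ˢ A ×ˢ A).filter fun t =>
          G a t.2.1 ∧ G t.1 t.2.1 ∧ G t.1 t.2.2 ∧ G a'' t.2.2).card : ℝ) := by
  classical
  obtain ⟨A1, hA1, hc1, hb1⟩ := drc A G α hα hA hG
  set n : ℝ := (A.card : ℝ) with hn
  have hn0 : 0 < n := by
    rw [hn]
    exact_mod_cast hA.card_pos
  set m : ℝ := (A1.card : ℝ) with hm
  have hm0 : 0 < m := lt_of_lt_of_le (by positivity) hc1
  have hT0 : 0 ≤ α ^ 2 / 32 * n := by positivity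
  have hT1 : 0 ≤ (α ^ 2 / 32 * n) ^ 2 := by positivity
  have hT2 : 0 ≤ α ^ 5 * n ^ 3 := by positivity
  set cod : X → X → ℝ := fun a a' => ((A.filter fun b => G a b ∧ G a' b).card : ℝ) with hcod
  set B : X → Finset X := fun a => A1.filter fun a' => cod a a' < α ^ 2 / 32 * n with hB
  have hbsum : ∑ a ∈ A1, ((B a).card : ℝ) ≤ 1 / 16 * m ^ 2 := by
    refine le_trans (le_of_eq ?_) hb1
    rw [Finset.card_filter, Finset.sum_product]
    push_cast
    refine Finset.sum_congr rfl fun a _ => ?_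
    rw [hB, Finset.card_filter]
    push_cast
    rfl
  set A2 : Finset X := A1.filter fun a => ((B a).card : ℝ) ≤ m / 8 with hA2
  have h1 : ((A1.filter fun a => ¬ ((B a).card : ℝ) ≤ m / 8).card : ℝ) * (m / 8) ≤
      1 / 16 * m ^ 2 := by
    refine le_trans ?_ hbsum
    have e1 : ((A1.filter fun a => ¬ ((B a).card : ℝ) ≤ m / 8).card : ℝ) * (m / 8) =
        ∑ a ∈ A1.filter (fun a => ¬ ((B a).card : ℝ) ≤ m / 8), (m / 8) := by
      rw [Finset.sum_const, nsmul_eq_mul]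
    rw [e1]
    calc _ ≤ ∑ a ∈ A1.filter (fun a => ¬ ((B a).card : ℝ) ≤ m / 8), ((B a).card : ℝ) := by
          refine Finset.sum_le_sum fun a ha => ?_
          have := (Finset.mem_filter.1 ha).2
          push Not at this
          exact this.le
      _ ≤ _ := Finset.sum_le_sum_of_subset_of_nonneg (Finset.filter_subset _ _)
          fun _ _ _ => by positivity
  have h2 : m = (A2.card : ℝ) + ((A1.filter fun a => ¬ ((B a).card : ℝ) ≤ m / 8).card : ℝ) := by
    rw [hm, hA2, ← Nat.cast_add, Finset.card_filter_add_card_filter_not]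
  have h3 : ((A1.filter fun a => ¬ ((B a).card : ℝ) ≤ m / 8).card : ℝ) ≤ m / 2 := by
    by_contra hlt
    have hlt' := lt_of_not_ge hlt
    nlinarith
  have h4 : m / 2 ≤ (A2.card : ℝ) := by linarith
  refine ⟨A2, (Finset.filter_subset _ _).trans hA1, by linarith, ?_⟩
  intro a ha a'' ha''
  have ha1 : ((B a).card : ℝ) ≤ m / 8 := (Finset.mem_filter.1 ha).2
  have ha2 : ((B a'').card : ℝ) ≤ m / 8 := (Finset.mem_filter.1 ha'').2
  set Gd : Finset X := A1.filter fun a' => a' ∉ B a ∧ a' ∉ B a'' with hGd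
  have h5 : m ≤ (Gd.card : ℝ) + (B a).card + (B a'').card := by
    have e1 : A1 ⊆ Gd ∪ B a ∪ B a'' := by
      intro x hx
      by_cases hx1 : x ∈ B a
      · simp [hx1]
      · by_cases hx2 : x ∈ B a''
        · simp [hx2]
        · have : x ∈ Gd := Finset.mem_filter.2 ⟨hx, hx1, hx2⟩
          simp [this]
    have e2 := Finset.card_le_card e1
    have e3 := Finset.card_union_le (Gd ∪ B a) (B a'')
    have e4 := Finset.card_union_le Gd (B a)
    have e5 : A1.card ≤ Gd.card + (B a).card + (B a'').card := by omega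
    rw [hm]
    exact_mod_cast e5
  have h6 : 3 / 4 * m ≤ (Gd.card : ℝ) := by linarith
  have h7 : (((A ×ˢ A ×ˢ A).filter fun t =>
      G a t.2.1 ∧ G t.1 t.2.1 ∧ G t.1 t.2.2 ∧ G a'' t.2.2).card : ℝ) =
      ∑ a' ∈ A, cod a a' * cod a'' a' := by
    rw [Finset.card_filter, Finset.sum_product]
    push_cast
    refine Finset.sum_congr rfl fun a' _ => ?_
    have e1 : (∑ q ∈ A ×ˢ A, (if G a q.1 ∧ G a' q.1 ∧ G a' q.2 ∧ G a'' q.2 then (1 : ℝ) else 0)) =
        (((A.filter fun b => G a b ∧ G a' b) ×ˢ (A.filter fun b => G a'' b ∧ G a' b)).card : ℝ) := by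
      rw [← Finset.sum_filter, Finset.sum_const, nsmul_eq_mul, mul_one]
      congr 2
      ext q
      simp only [Finset.mem_filter, Finset.mem_product]
      tauto
    rw [hcod]
    rw [Finset.card_product] at e1
    push_cast at e1
    rw [← e1]
  rw [h7]
  have h8 : ∀ a' ∈ Gd, (α ^ 2 / 32 * n) ^ 2 ≤ cod a a' * cod a'' a' := by
    intro a' ha'
    obtain ⟨q1, q2, q3⟩ := Finset.mem_filter.1 ha'
    have q4 : α ^ 2 / 32 * n ≤ cod a a' := by
      by_contra hlt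
      push Not at hlt
      exact q2 (Finset.mem_filter.2 ⟨q1, hlt⟩)
    have q5 : α ^ 2 / 32 * n ≤ cod a'' a' := by
      by_contra hlt
      push Not at hlt
      exact q3 (Finset.mem_filter.2 ⟨q1, hlt⟩)
    rw [sq]
    exact mul_le_mul q4 q5 hT0 (le_trans hT0 q4)
  have h9 : (Gd.card : ℝ) * (α ^ 2 / 32 * n) ^ 2 ≤ ∑ a' ∈ A, cod a a' * cod a'' a' := by
    calc (Gd.card : ℝ) * (α ^ 2 / 32 * n) ^ 2 = ∑ a' ∈ Gd, (α ^ 2 / 32 * n) ^ 2 := by
          rw [Finset.sum_const, nsmul_eq_mul]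
      _ ≤ ∑ a' ∈ Gd, cod a a' * cod a'' a' := Finset.sum_le_sum h8
      _ ≤ _ := by
          refine Finset.sum_le_sum_of_subset_of_nonneg ((Finset.filter_subset _ _).trans hA1) ?_
          intro x _ _
          exact mul_nonneg (Nat.cast_nonneg _) (Nat.cast_nonneg _)
  refine le_trans ?_ h9
  have h10 : 3 / 4 * (α / 2 * n) ≤ (Gd.card : ℝ) := by linarith
  calc α ^ 5 / 4096 * n ^ 3 ≤ 3 / 4 * (α / 2 * n) * (α ^ 2 / 32 * n) ^ 2 := by
        nlinarith [hT2]
    _ ≤ _ := mul_le_mul_of_nonneg_right h10 hT1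

end Pool.H53.NA
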