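import Pool.Agent.H53.NA.Bpa

/-!
Row Bsg: the Balog-Szemeredi-Gowers theorem.  PROOF.  `n = |A|`, `r x = |{(a,c) ∈ A² : a - c = x}| ≤ n`
for `x ∈ A - A`.  `E4 A = ∑_x r x ²` (from `a + b = c + d ↔ a - c = d - b`) and `∑_x r x = n²`.  Let
`P = {x ∈ A - A : n/(2K) ≤ r x}`.  `∑_{x ∉ P} r x ² ≤ n/(2K) * n²`, so
`n * ∑_{x ∈ P} r x ≥ ∑_{x ∈ P} r x ² ≥ n³/K - n³/(2K) = n³/(2K)`.  With `G a b :⇔ a - b ∈ P` the number
of pairs is `∑_{x∈P} r x ≥ α n²`, `α = 1/(2K)`.  Also `|P| * n/(2K) ≤ n²`, `|P| ≤ 2 K n`.  Apply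
`bsg_paths`: `A' = A2`.  For `y = a - a'' ∈ A' - A'` each path `(a',b,b')` gives
`(a-b, a'-b, a'-b', a''-b') ∈ P⁴` with `x1 - x2 + x3 - x4 = y`, injectively in `(a',b,b')`
(for `a, a''` fixed).  The quadruples for different `y` are different, so
`|A'-A'| * α⁵ n³/4096 ≤ |P|⁴ ≤ (2Kn)⁴`, i.e. `|A'-A'| ≤ 2^4 K⁴ * 2^12 * 2^5 K⁵ * n = 2^21 K⁹ n`, and
`n ≤ (4/α)|A'| = 8K|A'|`.
-/

set_option autoImplicit false

namespace Pool.H53.NA

open scoped Pointwise

theorem bsg {V : Type} [AddCommGroup V] [DecidableEq V] (A : Finset V) (K : ℝ) (hK : 1 ≤ K)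
    (hA : A.Nonempty) (hE : (A.card : ℝ) ^ 3 ≤ K * E4 A) :
    ∃ A' : Finset V, A' ⊆ A ∧ A'.Nonempty ∧ (A.card : ℝ) ≤ 8 * K * A'.card ∧
      ((A' - A').card : ℝ) ≤ 2 ^ 24 * K ^ 10 * A'.card := by
  classical
  have hK0 : (0 : ℝ) < K := lt_of_lt_of_le one_pos hK
  have hn : (0 : ℝ) < (A.card : ℝ) := by exact_mod_cast hA.card_pos
  obtain ⟨r, hr⟩ : ∃ r : V → ℕ, r = fun x => ((A ×ˢ A).filter fun p => p.1 - p.2 = x).card :=
    ⟨_, rfl⟩
  have hr_le : ∀ x, r x ≤ A.card := by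
    intro x
    rw [hr]
    refine Finset.card_le_card_of_injOn (fun p => p.2) ?_ ?_
    · intro p hp
      exact (Finset.mem_product.1 (Finset.mem_filter.1 (Finset.mem_coe.1 hp)).1).2
    · intro p hp q hq hpq
      have h1 := (Finset.mem_filter.1 (Finset.mem_coe.1 hp)).2
      have h2 := (Finset.mem_filter.1 (Finset.mem_coe.1 hq)).2
      dsimp only at hpq
      rw [hpq] at h1
      refine Prod.ext ?_ hpq
      have h3 : p.1 - q.2 = q.1 - q.2 := h1.trans h2.symm
      exact sub_left_injective h3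
  have hsum : ∀ T : Finset V, ∑ x ∈ T, r x = ((A ×ˢ A).filter fun p => p.1 - p.2 ∈ T).card := by
    intro T
    rw [hr]
    exact Finset.sum_card_fiberwise_eq_card_filter _ _ _
  have hsum' : ∀ T : Finset V, ∑ x ∈ T, (r x : ℝ) ≤ (A.card : ℝ) ^ 2 := by
    intro T
    have h1 : ∑ x ∈ T, r x ≤ A.card ^ 2 := by
      rw [hsum]
      refine (Finset.card_filter_le _ _).trans ?_
      rw [Finset.card_product, sq]
    exact_mod_cast h1
  have hE4 : (E4 A : ℝ) ≤ ∑ x ∈ A - A, (r x : ℝ) ^ 2 := by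
    have h1 : E4 A ≤ ∑ x ∈ A - A, r x * r x := by
      unfold E4
      rw [Finset.card_eq_sum_card_fiberwise (f := fun t : V × V × V × V => t.1 - t.2.2.1)
        (t := A - A)]
      · refine Finset.sum_le_sum fun x _ => ?_
        rw [hr]
        dsimp only
        rw [← Finset.card_product]
        refine Finset.card_le_card_of_injOn
          (fun t : V × V × V × V => ((t.1, t.2.2.1), (t.2.2.2, t.2.1))) ?_ ?_
        · rintro ⟨a, b, c, d⟩ ht
          obtain ⟨ht1, ht2⟩ := Finset.mem_filter.1 (Finset.mem_coe.1 ht)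
          obtain ⟨ht3, ht4⟩ := Finset.mem_filter.1 ht1
          simp only [Finset.mem_product] at ht3
          dsimp only at ht2 ht4
          simp only [Finset.coe_product, Finset.coe_filter, Set.mem_prod, Set.mem_ofPred_eq,
            Finset.mem_product]
          refine ⟨⟨⟨ht3.1, ht3.2.2.1⟩, ht2⟩, ⟨⟨ht3.2.2.2, ht3.2.1⟩, ?_⟩⟩
          rw [← ht2]
          have : a + b = c + d := ht4
          rw [sub_eq_sub_iff_add_eq_add]
          rw [add_comm d c, this]
        · rintro ⟨a, b, c, d⟩ _ ⟨a', b', c', d'⟩ _ h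
          simp only [Prod.mk.injEq] at h
          obtain ⟨⟨h1, h2⟩, h3, h4⟩ := h
          subst h1 h2 h3 h4
          rfl
      · rintro ⟨a, b, c, d⟩ ht
        have ht3 := (Finset.mem_filter.1 (Finset.mem_coe.1 ht)).1
        simp only [Finset.mem_product] at ht3
        exact Finset.sub_mem_sub ht3.1 ht3.2.2.1
    calc (E4 A : ℝ) ≤ ((∑ x ∈ A - A, r x * r x : ℕ) : ℝ) := by exact_mod_cast h1
      _ = ∑ x ∈ A - A, (r x : ℝ) ^ 2 := by
        push_cast
        exact Finset.sum_congr rfl fun x _ => (sq _).symm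
  obtain ⟨P, hP⟩ : ∃ P : Finset V, P = (A - A).filter fun x => (A.card : ℝ) / (2 * K) ≤ (r x : ℝ) :=
    ⟨_, rfl⟩
  -- mass of `P`
  have hPsum : (A.card : ℝ) ^ 2 / (2 * K) ≤ ∑ x ∈ P, (r x : ℝ) := by
    have h1 : ∑ x ∈ A - A, (r x : ℝ) ^ 2 =
        ∑ x ∈ P, (r x : ℝ) ^ 2 + ∑ x ∈ (A - A).filter (fun x => ¬ (A.card : ℝ) / (2 * K) ≤ (r x : ℝ)),
          (r x : ℝ) ^ 2 := by
      rw [hP]
      exact (Finset.sum_filter_add_sum_filter_not _ _ _).symm
    have h2 : ∑ x ∈ (A - A).filter (fun x => ¬ (A.card : ℝ) / (2 * K) ≤ (r x : ℝ)), (r x : ℝ) ^ 2 ≤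
        (A.card : ℝ) / (2 * K) * (A.card : ℝ) ^ 2 := by
      calc _ ≤ ∑ x ∈ (A - A).filter (fun x => ¬ (A.card : ℝ) / (2 * K) ≤ (r x : ℝ)),
            (A.card : ℝ) / (2 * K) * (r x : ℝ) := by
            refine Finset.sum_le_sum fun x hx => ?_
            have hx2 := (not_le.1 (Finset.mem_filter.1 hx).2).le
            rw [sq]
            exact mul_le_mul_of_nonneg_right hx2 (Nat.cast_nonneg _)
        _ = (A.card : ℝ) / (2 * K) *
            ∑ x ∈ (A - A).filter (fun x => ¬ (A.card : ℝ) / (2 * K) ≤ (r x : ℝ)), (r x : ℝ) := by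
            rw [Finset.mul_sum]
        _ ≤ _ := mul_le_mul_of_nonneg_left (hsum' _) (by positivity)
    have h3 : ∑ x ∈ P, (r x : ℝ) ^ 2 ≤ (A.card : ℝ) * ∑ x ∈ P, (r x : ℝ) := by
      rw [Finset.mul_sum]
      refine Finset.sum_le_sum fun x _ => ?_
      rw [sq]
      exact mul_le_mul_of_nonneg_right (by exact_mod_cast hr_le x) (Nat.cast_nonneg _)
    have h4 : (A.card : ℝ) ^ 3 / K ≤ ∑ x ∈ A - A, (r x : ℝ) ^ 2 := by
      rw [div_le_iff₀ hK0, mul_comm]
      exact hE.trans (mul_le_mul_of_nonneg_left hE4 hK0.le)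
    have h5 : (A.card : ℝ) * ((A.card : ℝ) ^ 2 / (2 * K)) ≤ (A.card : ℝ) * ∑ x ∈ P, (r x : ℝ) := by
      have h6 : (A.card : ℝ) ^ 3 / K = 2 * ((A.card : ℝ) * ((A.card : ℝ) ^ 2 / (2 * K))) := by
        field_simp
      have h7 : (A.card : ℝ) / (2 * K) * (A.card : ℝ) ^ 2 =
          (A.card : ℝ) * ((A.card : ℝ) ^ 2 / (2 * K)) := by ring
      linarith
    exact le_of_mul_le_mul_left h5 hn
  have hPcard : (P.card : ℝ) ≤ 2 * K * A.card := by
    have h1 : (P.card : ℝ) * ((A.card : ℝ) / (2 * K)) ≤ (A.card : ℝ) ^ 2 := by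
      calc (P.card : ℝ) * ((A.card : ℝ) / (2 * K)) = ∑ _x ∈ P, (A.card : ℝ) / (2 * K) := by
            rw [Finset.sum_const, nsmul_eq_mul]
        _ ≤ ∑ x ∈ P, (r x : ℝ) := by
            refine Finset.sum_le_sum fun x hx => ?_
            rw [hP] at hx
            exact (Finset.mem_filter.1 hx).2
        _ ≤ _ := hsum' P
    have h2 : (P.card : ℝ) * ((A.card : ℝ) / (2 * K)) = (P.card : ℝ) / (2 * K) * A.card := by ring
    rw [h2, sq] at h1
    have h3 := le_of_mul_le_mul_right h1 hn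
    rw [div_le_iff₀ (by positivity)] at h3
    linarith
  -- apply the path lemma
  obtain ⟨A', hA', hbig, hpath⟩ := bsg_paths A (fun a b => a - b ∈ P) (1 / (2 * K))
    (by positivity) hA (by
      have h1 : (((A ×ˢ A).filter fun p => p.1 - p.2 ∈ P).card : ℝ) = ∑ x ∈ P, (r x : ℝ) := by
        rw [← hsum P]
        push_cast
        rfl
      rw [h1]
      calc 1 / (2 * K) * (A.card : ℝ) ^ 2 = (A.card : ℝ) ^ 2 / (2 * K) := by ring
        _ ≤ _ := hPsum)
  have hbig' : (A.card : ℝ) ≤ 8 * K * A'.card := by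
    have h1 : 1 / (2 * K) / 4 * (A.card : ℝ) = (A.card : ℝ) / (8 * K) := by
      field_simp
      ring
    rw [h1, div_le_iff₀ (by positivity)] at hbig
    linarith
  have hne : A'.Nonempty := by
    rw [Finset.nonempty_iff_ne_empty]
    rintro rfl
    rw [Finset.card_empty] at hbig'
    norm_num at hbig'
    exact absurd hbig' (Finset.nonempty_iff_ne_empty.1 hA)
  refine ⟨A', hA', hne, hbig', ?_⟩
  have hmain : ((A' - A').card : ℝ) * ((1 / (2 * K)) ^ 5 / 4096 * (A.card : ℝ) ^ 3) ≤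
      (P.card : ℝ) ^ 4 := by
    calc ((A' - A').card : ℝ) * ((1 / (2 * K)) ^ 5 / 4096 * (A.card : ℝ) ^ 3)
        = ∑ _y ∈ A' - A', ((1 / (2 * K)) ^ 5 / 4096 * (A.card : ℝ) ^ 3) := by
          rw [Finset.sum_const, nsmul_eq_mul]
      _ ≤ ∑ y ∈ A' - A', (((P ×ˢ P ×ˢ P ×ˢ P).filter
            fun q => q.1 - q.2.1 + q.2.2.1 - q.2.2.2 = y).card : ℝ) := by
          refine Finset.sum_le_sum fun y hy => ?_
          obtain ⟨a, ha, a'', ha'', rfl⟩ := Finset.mem_sub.1 hy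
          refine (hpath a ha a'' ha'').trans ?_
          have h1 : ((A ×ˢ A ×ˢ A).filter fun t =>
              a - t.2.1 ∈ P ∧ t.1 - t.2.1 ∈ P ∧ t.1 - t.2.2 ∈ P ∧ a'' - t.2.2 ∈ P).card ≤
              ((P ×ˢ P ×ˢ P ×ˢ P).filter
                fun q => q.1 - q.2.1 + q.2.2.1 - q.2.2.2 = a - a'').card := by
            refine Finset.card_le_card_of_injOn
              (fun t => (a - t.2.1, t.1 - t.2.1, t.1 - t.2.2, a'' - t.2.2)) ?_ ?_
            · intro t ht
              obtain ⟨-, h1, h2, h3, h4⟩ := Finset.mem_filter.1 (Finset.mem_coe.1 ht)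
              refine Finset.mem_coe.2 (Finset.mem_filter.2 ⟨?_, ?_⟩)
              · simp only [Finset.mem_product]
                exact ⟨h1, h2, h3, h4⟩
              · dsimp only
                abel
            · rintro ⟨x, y, z⟩ _ ⟨x', y', z'⟩ _ h
              simp only [Prod.mk.injEq] at h
              obtain ⟨h1, h2, h3, -⟩ := h
              have e1 : y = y' := sub_right_injective h1
              subst e1
              have e2 : x = x' := sub_left_injective h2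
              subst e2
              have e3 : z = z' := sub_right_injective h3
              subst e3
              rfl
          exact_mod_cast h1
      _ = (((P ×ˢ P ×ˢ P ×ˢ P).filter
            fun q => q.1 - q.2.1 + q.2.2.1 - q.2.2.2 ∈ A' - A').card : ℝ) := by
          rw [← Nat.cast_sum]
          congr 1
          exact Finset.sum_card_fiberwise_eq_card_filter _ _ _
      _ ≤ ((P ×ˢ P ×ˢ P ×ˢ P).card : ℝ) := by
          exact_mod_cast Finset.card_filter_le _ _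
      _ = (P.card : ℝ) ^ 4 := by
          rw [Finset.card_product, Finset.card_product, Finset.card_product]
          push_cast
          ring
  have hP4 : (P.card : ℝ) ^ 4 ≤ (2 * K * A.card) ^ 4 :=
    pow_le_pow_left₀ (Nat.cast_nonneg _) hPcard 4
  have h1 : ((A' - A').card : ℝ) ≤ 2 ^ 21 * K ^ 9 * A.card := by
    have h2 : ((A' - A').card : ℝ) * ((1 / (2 * K)) ^ 5 / 4096 * (A.card : ℝ) ^ 3) ≤
        2 ^ 21 * K ^ 9 * A.card * ((1 / (2 * K)) ^ 5 / 4096 * (A.card : ℝ) ^ 3) := by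
      refine (hmain.trans hP4).trans (le_of_eq ?_)
      field_simp
      ring
    exact le_of_mul_le_mul_right h2 (by positivity)
  calc ((A' - A').card : ℝ) ≤ 2 ^ 21 * K ^ 9 * A.card := h1
    _ ≤ 2 ^ 21 * K ^ 9 * (8 * K * A'.card) :=
      mul_le_mul_of_nonneg_left hbig' (by positivity)
    _ = 2 ^ 24 * K ^ 10 * A'.card := by ring

end Pool.H53.NA
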