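import Pool.Agent.H53.NA.Defs

/-!
Definitions for the sieve part.
-/

set_option autoImplicit false

namespace Pool.H53.NA

/-- the largest prime factor (`0` for `d ≤ 1`) -/
def gpf (d : ℕ) : ℕ := d.primeFactors.sup id

/-- `d` without the power of its largest prime factor -/
def mpt (d : ℕ) : ℕ := d / gpf d ^ d.factorization (gpf d)

/-- the weight `(8/7)^ω` -/
noncomputable def ow (m : ℕ) : ℝ := (8 / 7 : ℝ) ^ m.primeFactors.card

/-- the weight of a pair of moduli -/
noncomputable def wt (d e : ℕ) : ℝ :=
  if gpf d = gpf e then ow (mpt d) * ow (mpt e) * (Nat.gcd (mpt d) (mpt e) : ℝ) / (d * e) else 0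

/-- the part of `D` composed of the primes `≤ l` -/
def spart (D l : ℕ) : ℕ := ∏ p ∈ D.primeFactors.filter (fun p => p ≤ l), p ^ D.factorization p

/-- the order of `2` modulo `q` -/
noncomputable def tq (q : ℕ) : ℕ := orderOf (2 : ZMod q)

end Pool.H53.NA
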