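import Pool.Agent.H53.NA.RpC
import Pool.Agent.H53.NA.Df2

/-!
Row Cnt: counting exponent vectors.  PROOFS.
* `cnt_pw`: sort by the value `h ∈ pw q`: `n - ∑ 2^(κ i) = h` iff `∑ 2^(κ i) = n - h`, counted by `rep q D s (n - h) ≤ m`; `|pw q| ≤ tq q`
  (image of `range (orderOf 2)`).
* `cnt_pw2`: sort by the values `(h1,h2) ∈ pw q1 × pw q2`; by the Chinese remainder theorem the two conditions
  `∑ 2^(κ i) = n1 - h1` in `ZMod q1` and `∑ 2^(κ i) = n2 - h2` in `ZMod q2` are one condition in `ZMod (q1 q2)`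
  (`ZMod.chineseRemainder`; `ZMod.castHom`).
* `cnt_unit`: `N = ∏ q ∈ F`, `F` a set of primes.  `x : ZMod N` (`x` the class of an integer `u`) is a unit iff `u` is not divisible by any
  `q ∈ F`.  The number of `k` with `n - ∑ 2^(k i)` a unit is `∑_{y, n - y unit} rep y ≥ φ(N) m`, and `φ(N) = N ∏ (1 - 1/q)`
  (`Nat.totient_eq_mul_prod_factors`; `ZMod.card_units_eq_totient`).
-/

set_option autoImplicit false

namespace Pool.H53.NA

theorem cnt_pwcard (q : ℕ) : (pw q).card ≤ tq q := by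
  unfold pw tq
  exact Finset.card_image_le.trans (by simp)

theorem cnt_pw (q D s : ℕ) [Fact q.Prime] (m : ℝ) (hm : ∀ y, (rep q D s y : ℝ) ≤ m) (n : ZMod q) :
    (((Finset.univ : Finset (Fin s → Fin D)).filter fun k : Fin s → Fin D =>
      n - ∑ i, (2 : ZMod q) ^ (k i : ℕ) ∈ pw q).card : ℝ) ≤ tq q * m := by
  have hm0 : 0 ≤ m := le_trans (Nat.cast_nonneg _) (hm 0)
  have hH := Finset.card_eq_sum_card_fiberwise
    (s := (Finset.univ : Finset (Fin s → Fin D)).filter fun k : Fin s → Fin D =>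
      n - ∑ i, (2 : ZMod q) ^ (k i : ℕ) ∈ pw q)
    (t := pw q) (f := fun k : Fin s → Fin D => n - ∑ i, (2 : ZMod q) ^ (k i : ℕ))
    (by intro k hk; simpa using hk)
  rw [hH]
  push_cast
  calc (∑ h ∈ pw q, (((((Finset.univ : Finset (Fin s → Fin D)).filter fun k : Fin s → Fin D =>
      n - ∑ i, (2 : ZMod q) ^ (k i : ℕ) ∈ pw q).filter fun k : Fin s → Fin D =>
        n - ∑ i, (2 : ZMod q) ^ (k i : ℕ) = h).card : ℕ) : ℝ))
      ≤ ∑ h ∈ pw q, m := by
        apply Finset.sum_le_sum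
        intro h _
        refine le_trans ?_ (hm (n - h))
        unfold rep
        refine Nat.cast_le.mpr (Finset.card_le_card ?_)
        intro k hk
        simp only [Finset.mem_filter, Finset.mem_univ, true_and] at hk ⊢
        rw [← hk.2]; ring
    _ = (pw q).card * m := by rw [Finset.sum_const, nsmul_eq_mul]
    _ ≤ tq q * m := by
        apply mul_le_mul_of_nonneg_right _ hm0
        exact_mod_cast cnt_pwcard q

theorem cnt_pw2 (q1 q2 D s : ℕ) [Fact q1.Prime] [Fact q2.Prime] (hne : q1 ≠ q2) (m : ℝ)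
    (hm : ∀ y, (rep (q1 * q2) D s y : ℝ) ≤ m) (n1 : ZMod q1) (n2 : ZMod q2) :
    (((Finset.univ : Finset (Fin s → Fin D)).filter fun k : Fin s → Fin D =>
      n1 - ∑ i, (2 : ZMod q1) ^ (k i : ℕ) ∈ pw q1 ∧ n2 - ∑ i, (2 : ZMod q2) ^ (k i : ℕ) ∈ pw q2).card : ℝ)
      ≤ tq q1 * tq q2 * m := by
  have hm0 : 0 ≤ m := le_trans (Nat.cast_nonneg _) (hm 0)
  have hco : q1.Coprime q2 := (Nat.coprime_primes Fact.out Fact.out).mpr hne
  have hH := Finset.card_eq_sum_card_fiberwise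
    (s := (Finset.univ : Finset (Fin s → Fin D)).filter fun k : Fin s → Fin D =>
      n1 - ∑ i, (2 : ZMod q1) ^ (k i : ℕ) ∈ pw q1 ∧ n2 - ∑ i, (2 : ZMod q2) ^ (k i : ℕ) ∈ pw q2)
    (t := pw q1 ×ˢ pw q2) (f := fun k : Fin s → Fin D =>
      ((n1 - ∑ i, (2 : ZMod q1) ^ (k i : ℕ), n2 - ∑ i, (2 : ZMod q2) ^ (k i : ℕ)) : ZMod q1 × ZMod q2))
    (by intro k hk; simpa using hk)
  rw [hH]
  push_cast
  calc (∑ h ∈ pw q1 ×ˢ pw q2, (((((Finset.univ : Finset (Fin s → Fin D)).filter fun k : Fin s → Fin D =>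
      n1 - ∑ i, (2 : ZMod q1) ^ (k i : ℕ) ∈ pw q1 ∧ n2 - ∑ i, (2 : ZMod q2) ^ (k i : ℕ) ∈ pw q2).filter
        fun k : Fin s → Fin D =>
        ((n1 - ∑ i, (2 : ZMod q1) ^ (k i : ℕ), n2 - ∑ i, (2 : ZMod q2) ^ (k i : ℕ)) : ZMod q1 × ZMod q2) = h).card : ℕ) : ℝ))
      ≤ ∑ h ∈ pw q1 ×ˢ pw q2, m := by
        apply Finset.sum_le_sum
        intro h _
        refine le_trans ?_ (hm ((ZMod.chineseRemainder hco).symm (n1 - h.1, n2 - h.2)))
        unfold rep
        refine Nat.cast_le.mpr (Finset.card_le_card ?_)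
        intro k hk
        simp only [Finset.mem_filter, Finset.mem_univ, true_and] at hk ⊢
        have h2 : ZMod.chineseRemainder hco 2 = 2 := map_ofNat (ZMod.chineseRemainder hco) 2
        rw [RingEquiv.eq_symm_apply, map_sum, ← hk.2]
        ext
        · simp [Prod.fst_sum, h2]
        · simp [Prod.snd_sum, h2]
    _ = ((pw q1 ×ˢ pw q2).card : ℝ) * m := by rw [Finset.sum_const, nsmul_eq_mul]
    _ ≤ tq q1 * tq q2 * m := by
        apply mul_le_mul_of_nonneg_right _ hm0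
        rw [Finset.card_product]
        exact_mod_cast Nat.mul_le_mul (cnt_pwcard q1) (cnt_pwcard q2)

theorem cnt_unit_iff (F : Finset ℕ) (D s : ℕ) (n : ℤ) (k : Fin s → Fin D) :
    (∀ q ∈ F, ((n : ZMod q) - ∑ i, (2 : ZMod q) ^ (k i : ℕ)) ≠ 0) ↔
      ∀ q ∈ F, ¬ ((q : ℤ) ∣ n - ∑ i, (2 : ℤ) ^ (k i : ℕ)) := by
  apply forall₂_congr
  intro q _
  rw [not_iff_not, ← ZMod.intCast_zmod_eq_zero_iff_dvd]
  push_cast
  rfl

theorem cnt_unit_unit (F : Finset ℕ) (hF : ∀ q ∈ F, q.Prime) (u : ℤ) :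
    (∀ q ∈ F, ¬ ((q : ℤ) ∣ u)) ↔ IsUnit ((u : ℤ) : ZMod (∏ q ∈ F, q)) := by
  rw [ZMod.coe_int_isUnit_iff_isCoprime]
  push_cast
  rw [IsCoprime.prod_left_iff]
  apply forall₂_congr
  intro q hq
  rw [Prime.coprime_iff_not_dvd (Nat.prime_iff_prime_int.mp (hF q hq))]

theorem cnt_unit (F : Finset ℕ) (hF : ∀ q ∈ F, q.Prime) [NeZero (∏ q ∈ F, q)] (D s : ℕ) (m : ℝ)
    (hm : ∀ y, m ≤ (∏ q ∈ F, (q : ℝ)) * (rep (∏ q ∈ F, q) D s y : ℝ)) (hm0 : 0 ≤ m) (n : ℤ) :
    (∏ q ∈ F, (1 - (1 : ℝ) / q)) * m ≤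
    (((Finset.univ : Finset (Fin s → Fin D)).filter fun k : Fin s → Fin D =>
      ∀ q ∈ F, ((n : ZMod q) - ∑ i, (2 : ZMod q) ^ (k i : ℕ)) ≠ 0).card : ℝ) := by
  classical
  set N := ∏ q ∈ F, q with hN
  have hNpos : (0 : ℝ) < N := by exact_mod_cast Nat.pos_of_ne_zero (NeZero.ne N)
  have hNr : (∏ q ∈ F, (q : ℝ)) = (N : ℝ) := by rw [hN]; push_cast; rfl
  have htot : ((Nat.totient N : ℕ) : ℝ) = N * ∏ q ∈ F, (1 - (1 : ℝ) / q) := by
    have h1 := Nat.totient_eq_mul_prod_factors N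
    have h2 : N.primeFactors = F := by rw [hN]; exact Nat.primeFactors_prod hF
    rw [h2] at h1
    have h3 : (((Nat.totient N : ℚ)) : ℝ) = ((N * ∏ p ∈ F, (1 - (p : ℚ)⁻¹) : ℚ) : ℝ) := by rw [h1]
    push_cast at h3
    rw [h3]
    congr 1
    apply Finset.prod_congr rfl
    intro q _
    rw [one_div]
  have hcard : ((Finset.univ : Finset (ZMod N)).filter fun x => IsUnit x).card = Nat.totient N := by
    rw [← ZMod.card_units_eq_totient N]
    rw [← Finset.card_univ (α := (ZMod N)ˣ)]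
    rw [← Finset.card_image_of_injective (Finset.univ : Finset (ZMod N)ˣ) (f := fun u : (ZMod N)ˣ => (u : ZMod N))
      Units.val_injective]
    congr 1
    ext x
    simp only [Finset.mem_filter, Finset.mem_univ, true_and, Finset.mem_image]
    exact Iff.rfl
  have hsum : (∑ x ∈ (Finset.univ : Finset (ZMod N)).filter (fun x => IsUnit x),
      rep N D s ((n : ZMod N) - x)) ≤ ((Finset.univ : Finset (Fin s → Fin D)).filter fun k : Fin s → Fin D =>
      ∀ q ∈ F, ((n : ZMod q) - ∑ i, (2 : ZMod q) ^ (k i : ℕ)) ≠ 0).card := by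
    rw [Finset.card_eq_sum_card_fiberwise
      (s := (Finset.univ : Finset (Fin s → Fin D)).filter fun k : Fin s → Fin D =>
        ∀ q ∈ F, ((n : ZMod q) - ∑ i, (2 : ZMod q) ^ (k i : ℕ)) ≠ 0)
      (t := (Finset.univ : Finset (ZMod N)).filter (fun x => IsUnit x))
      (f := fun k : Fin s → Fin D => (n : ZMod N) - ∑ i, (2 : ZMod N) ^ (k i : ℕ))]
    · apply Finset.sum_le_sum
      intro x hx
      unfold rep
      apply Finset.card_le_card
      intro k hk
      simp only [Finset.mem_filter, Finset.mem_univ, true_and] at hk hx ⊢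
      have hk' : (n : ZMod N) - ∑ i, (2 : ZMod N) ^ (k i : ℕ) = x := by rw [hk]; ring
      refine ⟨?_, hk'⟩
      rw [cnt_unit_iff, cnt_unit_unit F hF]
      have : (((n - ∑ i, (2 : ℤ) ^ (k i : ℕ) : ℤ)) : ZMod N) = x := by
        push_cast; exact hk'
      rw [← hN, this]
      exact hx
    · intro k hk
      simp only [Finset.coe_filter, Finset.mem_univ, true_and, Set.mem_ofPred_eq] at hk ⊢
      rw [cnt_unit_iff, cnt_unit_unit F hF] at hk
      have : (((n - ∑ i, (2 : ℤ) ^ (k i : ℕ) : ℤ)) : ZMod N) = (n : ZMod N) - ∑ i, (2 : ZMod N) ^ (k i : ℕ) := by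
        push_cast; rfl
      rw [← hN, this] at hk
      exact hk
  calc (∏ q ∈ F, (1 - (1 : ℝ) / q)) * m = (Nat.totient N : ℝ) * (m / N) := by
        rw [htot]; field_simp
    _ = ∑ x ∈ (Finset.univ : Finset (ZMod N)).filter (fun x => IsUnit x), m / N := by
        rw [Finset.sum_const, nsmul_eq_mul, hcard]
    _ ≤ ∑ x ∈ (Finset.univ : Finset (ZMod N)).filter (fun x => IsUnit x),
        (rep N D s ((n : ZMod N) - x) : ℝ) := by
        apply Finset.sum_le_sum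
        intro x _
        rw [div_le_iff₀ hNpos, mul_comm, ← hNr]
        exact hm _
    _ ≤ _ := by exact_mod_cast hsum

end Pool.H53.NA
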