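import Pool.Agent.H53.NA.Defs

/-!
Row Hpr: many dilates of `A'` meet `A'`.  PROOF.  `t = |H|`, `n' = |A'|`.  For `h ∈ H` `h A' ⊆ A` and
`|h A'| = n'` (`h` is a unit).  `∑_{h,h' ∈ H} |hA' ∩ h'A'| = ∑_{x ∈ A} (#{h ∈ H : x ∈ hA'})² ≥ (t n')²/|A|`
(Cauchy-Schwarz) and `|hA' ∩ h'A'| = |A' ∩ h⁻¹h'A'|`; for fixed `h` the map `h' ↦ h⁻¹h'` permutes `H`, so
`t ∑_{h ∈ H} |A' ∩ hA'| ≥ t² n'²/|A| ≥ t² n'/L`.  Let `H' = {h ∈ H : |A' ∩ hA'| ≥ n'/(2L)}`.
`∑_h |A' ∩ hA'| ≤ |H'| n' + t n'/(2L)`, so `|H'| ≥ t/(2L)`.  For `h ∈ H'`, `Y = A' ∩ hA'`, the Ruzsa triangle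
inequality (`Finset.ruzsa_triangle_inequality_sub_sub_sub`: `|A - C||B| ≤ |A - B||C - B|`) gives
`|A' - hA'| |Y| ≤ |A' - Y| |hA' - Y| ≤ |A' - A'| |hA' - hA'| = |A'-A'|² ≤ L² n'²`, so
`|A' - hA'| ≤ 2 L³ n'`.
-/

set_option autoImplicit false

namespace Pool.H53.NA

open scoped Pointwise

private theorem hprInj {R : Type} [CommRing R] {H : Finset R} (hH : SGL H) {h : R} (hh : h ∈ H) :
    Function.Injective (fun x : R => h * x) := by
  obtain ⟨g, _, hg⟩ := hH.inv h hh
  intro x y hxy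
  have hxy' : h * x = h * y := hxy
  calc x = g * h * x := by rw [hg, one_mul]
    _ = g * (h * x) := by ring
    _ = g * (h * y) := by rw [hxy']
    _ = g * h * y := by ring
    _ = y := by rw [hg, one_mul]

private theorem hprCard {R : Type} [CommRing R] [DecidableEq R] {H : Finset R} (hH : SGL H) {h : R}
    (hh : h ∈ H) (A' : Finset R) : (dil h A').card = A'.card :=
  Finset.card_image_of_injective _ (hprInj hH hh)

private theorem hprInter {R : Type} [CommRing R] [DecidableEq R] {H : Finset R} (hH : SGL H)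
    {h g h' : R} (hh : h ∈ H) (hg : g ∈ H) (hgh : g * h = 1) (hh' : h' ∈ H) (A' : Finset R) :
    (dil h A' ∩ dil h' A').card = (A' ∩ dil (g * h') A').card := by
  have hinj := hprInj hH hg
  have e : (dil h A' ∩ dil h' A').image (fun x : R => g * x) = A' ∩ dil (g * h') A' := by
    rw [Finset.image_inter _ _ hinj]
    unfold dil
    rw [Finset.image_image, Finset.image_image]
    have e1 : ((fun x : R => g * x) ∘ fun a : R => h * a) = id := by
      funext x
      show g * (h * x) = x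
      rw [← mul_assoc, hgh, one_mul]
    have e2 : ((fun x : R => g * x) ∘ fun a : R => h' * a) = fun a : R => g * h' * a := by
      funext x
      show g * (h' * x) = g * h' * x
      ring
    rw [e1, e2, Finset.image_id]
  rw [← e, Finset.card_image_of_injective _ hinj]

private theorem hprShift {R : Type} [CommRing R] [DecidableEq R] {H : Finset R} (hH : SGL H)
    {h g : R} (hh : h ∈ H) (hg : g ∈ H) (hgh : g * h = 1) (f : R → ℝ) :
    ∑ h' ∈ H, f (g * h') = ∑ h' ∈ H, f h' := by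
  refine Finset.sum_bij' (fun x _ => g * x) (fun x _ => h * x) ?_ ?_ ?_ ?_ ?_
  · intro a ha; exact hH.mul g hg a ha
  · intro a ha; exact hH.mul h hh a ha
  · intro a ha
    show h * (g * a) = a
    rw [← mul_assoc, mul_comm h g, hgh, one_mul]
  · intro a ha
    show g * (h * a) = a
    rw [← mul_assoc, hgh, one_mul]
  · intro a ha; rfl

private theorem hprSum {R : Type} [CommRing R] [DecidableEq R] (H A A' : Finset R)
    (hH : SGL H) (hinv : ∀ h ∈ H, ∀ x ∈ A, h * x ∈ A) (hsub : A' ⊆ A) :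
    (H.card : ℝ) * (A'.card : ℝ) ^ 2 ≤ (A.card : ℝ) * ∑ h ∈ H, ((A' ∩ dil h A').card : ℝ) := by
  classical
  have hdil : ∀ h ∈ H, dil h A' ⊆ A := by
    intro h hh x hx
    obtain ⟨a, ha, rfl⟩ := Finset.mem_image.1 hx
    exact hinv h hh a (hsub ha)
  set r : R → ℝ := fun x => ∑ h ∈ H, if x ∈ dil h A' then (1 : ℝ) else 0 with hr
  have hcnt : ∀ B : Finset R, B ⊆ A → ∑ x ∈ A, (if x ∈ B then (1 : ℝ) else 0) = B.card := by
    intro B hB
    rw [Finset.sum_ite_mem, Finset.inter_eq_right.2 hB]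
    simp
  have s1 : ∑ x ∈ A, r x = (H.card : ℝ) * A'.card := by
    rw [hr]
    simp only
    rw [Finset.sum_comm]
    rw [Finset.sum_congr rfl (fun h hh => hcnt _ (hdil h hh))]
    rw [Finset.sum_congr rfl (fun h hh => by rw [hprCard hH hh A'])]
    rw [Finset.sum_const, nsmul_eq_mul]
  have s2 : ∑ x ∈ A, r x ^ 2 = ∑ h ∈ H, ∑ h' ∈ H, ((dil h A' ∩ dil h' A').card : ℝ) := by
    have e : ∀ x ∈ A, r x ^ 2 = ∑ h ∈ H, ∑ h' ∈ H,
        (if x ∈ dil h A' ∩ dil h' A' then (1 : ℝ) else 0) := by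
      intro x _
      rw [sq, hr]
      simp only
      rw [Finset.sum_mul_sum]
      refine Finset.sum_congr rfl fun h _ => Finset.sum_congr rfl fun h' _ => ?_
      by_cases a : x ∈ dil h A' <;> by_cases b : x ∈ dil h' A' <;> simp [a, b]
    rw [Finset.sum_congr rfl e, Finset.sum_comm]
    refine Finset.sum_congr rfl fun h hh => ?_
    rw [Finset.sum_comm]
    refine Finset.sum_congr rfl fun h' hh' => ?_
    exact hcnt _ (fun x hx => hdil h hh (Finset.mem_inter.1 hx).1)
  have s3 : ∑ h ∈ H, ∑ h' ∈ H, ((dil h A' ∩ dil h' A').card : ℝ) =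
      (H.card : ℝ) * ∑ h ∈ H, ((A' ∩ dil h A').card : ℝ) := by
    have e : ∀ h ∈ H, ∑ h' ∈ H, ((dil h A' ∩ dil h' A').card : ℝ) =
        ∑ h ∈ H, ((A' ∩ dil h A').card : ℝ) := by
      intro h hh
      obtain ⟨g, hg, hgh⟩ := hH.inv h hh
      rw [← hprShift hH hh hg hgh (fun h' => ((A' ∩ dil h' A').card : ℝ))]
      refine Finset.sum_congr rfl fun h' hh' => ?_
      rw [hprInter hH hh hg hgh hh' A']
    rw [Finset.sum_congr rfl e, Finset.sum_const, nsmul_eq_mul]
  have cs : (∑ x ∈ A, r x) ^ 2 ≤ (A.card : ℝ) * ∑ x ∈ A, r x ^ 2 := sq_sum_le_card_mul_sum_sq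
  rw [s1, s2, s3] at cs
  have ht : (0 : ℝ) < H.card := by
    have : 0 < H.card := Finset.card_pos.2 ⟨1, hH.one⟩
    exact_mod_cast this
  have : (H.card : ℝ) * ((H.card : ℝ) * (A'.card : ℝ) ^ 2) ≤
      (H.card : ℝ) * ((A.card : ℝ) * ∑ h ∈ H, ((A' ∩ dil h A').card : ℝ)) := by
    calc (H.card : ℝ) * ((H.card : ℝ) * (A'.card : ℝ) ^ 2) = ((H.card : ℝ) * A'.card) ^ 2 := by ring
      _ ≤ _ := cs
      _ = _ := by ring
  exact le_of_mul_le_mul_left this ht

private theorem hprDilSub {R : Type} [CommRing R] [DecidableEq R] (h : R) (A' : Finset R) :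
    (dil h A' - dil h A').card ≤ (A' - A').card := by
  have e : dil h A' - dil h A' ⊆ (A' - A').image fun a => h * a := by
    intro x hx
    obtain ⟨y, hy, z, hz, rfl⟩ := Finset.mem_sub.1 hx
    obtain ⟨a, ha, rfl⟩ := Finset.mem_image.1 hy
    obtain ⟨b, hb, rfl⟩ := Finset.mem_image.1 hz
    refine Finset.mem_image.2 ⟨a - b, Finset.sub_mem_sub ha hb, ?_⟩
    ring
  exact (Finset.card_le_card e).trans Finset.card_image_le

theorem hprime {R : Type} [CommRing R] [DecidableEq R] (H A A' : Finset R) (L : ℝ) (hL : 1 ≤ L)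
    (hH : SGL H) (hinv : ∀ h ∈ H, ∀ x ∈ A, h * x ∈ A) (hsub : A' ⊆ A) (hne : A'.Nonempty)
    (h1 : (A.card : ℝ) ≤ L * A'.card) (h2 : ((A' - A').card : ℝ) ≤ L * A'.card) :
    ∃ H' : Finset R, H' ⊆ H ∧ (H.card : ℝ) ≤ 2 * L * H'.card ∧
      ∀ h ∈ H', Xi A' (2 * L ^ 3) h := by
  classical
  have hL0 : 0 < L := by linarith
  have hn : (0 : ℝ) < A'.card := by exact_mod_cast Finset.card_pos.2 hne
  have key := hprSum H A A' hH hinv hsub
  set S : ℝ := ∑ h ∈ H, ((A' ∩ dil h A').card : ℝ) with hS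
  have hS0 : 0 ≤ S := Finset.sum_nonneg fun _ _ => Nat.cast_nonneg _
  have k2 : (H.card : ℝ) * A'.card ≤ L * S := by
    have : (A'.card : ℝ) * ((H.card : ℝ) * A'.card) ≤ (A'.card : ℝ) * (L * S) := by
      calc (A'.card : ℝ) * ((H.card : ℝ) * A'.card) = (H.card : ℝ) * (A'.card : ℝ) ^ 2 := by ring
        _ ≤ (A.card : ℝ) * S := key
        _ ≤ (L * A'.card) * S := mul_le_mul_of_nonneg_right h1 hS0
        _ = _ := by ring
    exact le_of_mul_le_mul_left this hn
  refine ⟨H.filter fun h => (A'.card : ℝ) ≤ 2 * L * (A' ∩ dil h A').card, Finset.filter_subset _ _,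
    ?_, ?_⟩
  · set H' := H.filter fun h => (A'.card : ℝ) ≤ 2 * L * (A' ∩ dil h A').card with hH'
    have k3 : 2 * L * S ≤ 2 * L * (H'.card * A'.card) + H.card * A'.card := by
      have e : S = ∑ h ∈ H', ((A' ∩ dil h A').card : ℝ) +
          ∑ h ∈ H.filter (fun h => ¬ (A'.card : ℝ) ≤ 2 * L * (A' ∩ dil h A').card),
            ((A' ∩ dil h A').card : ℝ) := by
        rw [hS, hH', Finset.sum_filter_add_sum_filter_not]
      have b1 : ∑ h ∈ H', ((A' ∩ dil h A').card : ℝ) ≤ H'.card * A'.card := by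
        rw [← nsmul_eq_mul]
        refine Finset.sum_le_card_nsmul _ _ _ fun h _ => ?_
        exact_mod_cast Finset.card_le_card Finset.inter_subset_left
      have b2 : ∑ h ∈ H.filter (fun h => ¬ (A'.card : ℝ) ≤ 2 * L * (A' ∩ dil h A').card),
            ((A' ∩ dil h A').card : ℝ) ≤ H.card * (A'.card / (2 * L)) := by
        have b3 : ∑ h ∈ H.filter (fun h => ¬ (A'.card : ℝ) ≤ 2 * L * (A' ∩ dil h A').card),
            ((A' ∩ dil h A').card : ℝ) ≤
            ((H.filter (fun h => ¬ (A'.card : ℝ) ≤ 2 * L * (A' ∩ dil h A').card)).card : ℝ) *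
              (A'.card / (2 * L)) := by
          rw [← nsmul_eq_mul]
          refine Finset.sum_le_card_nsmul _ _ _ fun h hh => ?_
          have := (Finset.mem_filter.1 hh).2
          rw [le_div_iff₀ (by positivity)]
          have := not_le.1 this
          linarith
        refine b3.trans (mul_le_mul_of_nonneg_right ?_ (by positivity))
        exact_mod_cast Finset.card_le_card (Finset.filter_subset _ _)
      have b4 : 2 * L * ((H.card : ℝ) * (A'.card / (2 * L))) = H.card * A'.card := by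
        field_simp
      have : 2 * L * S ≤ 2 * L * (H'.card * A'.card + H.card * (A'.card / (2 * L))) := by
        refine mul_le_mul_of_nonneg_left ?_ (by positivity)
        rw [e]
        exact add_le_add b1 b2
      linarith
    have k4 : (A'.card : ℝ) * H.card ≤ A'.card * (2 * L * H'.card) := by
      nlinarith
    exact le_of_mul_le_mul_left k4 hn
  · intro h hh
    obtain ⟨hhH, hh2⟩ := Finset.mem_filter.1 hh
    unfold Xi
    set Y := A' ∩ dil h A' with hY
    have rz := Finset.ruzsa_triangle_inequality_sub_sub_sub A' Y (dil h A')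
    have m1 : (A' - Y).card ≤ (A' - A').card :=
      Finset.card_le_card (Finset.sub_subset_sub_left Finset.inter_subset_left)
    have m2 : (dil h A' - Y).card ≤ (A' - A').card :=
      (Finset.card_le_card (Finset.sub_subset_sub_left Finset.inter_subset_right)).trans
        (hprDilSub h A')
    have m3 : (A' - dil h A').card * Y.card ≤ (A' - A').card * (A' - A').card :=
      rz.trans (Nat.mul_le_mul m1 m2)
    have m4 : ((A' - dil h A').card : ℝ) * Y.card ≤ (A' - A').card * (A' - A').card := by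
      exact_mod_cast m3
    have m5 : ((A' - dil h A').card : ℝ) * Y.card ≤ (L * A'.card) * (L * A'.card) :=
      m4.trans (mul_le_mul h2 h2 (Nat.cast_nonneg _) (by positivity))
    have m6 : (A'.card : ℝ) * ((A' - dil h A').card : ℝ) ≤ A'.card * (2 * L ^ 3 * A'.card) := by
      calc (A'.card : ℝ) * ((A' - dil h A').card : ℝ)
          ≤ (2 * L * Y.card) * ((A' - dil h A').card : ℝ) :=
            mul_le_mul_of_nonneg_right hh2 (Nat.cast_nonneg _)
        _ = 2 * L * (((A' - dil h A').card : ℝ) * Y.card) := by ring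
        _ ≤ 2 * L * ((L * A'.card) * (L * A'.card)) :=
            mul_le_mul_of_nonneg_left m5 (by positivity)
        _ = _ := by ring
    exact le_of_mul_le_mul_left m6 hn

end Pool.H53.NA
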