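import Pool.Agent.H53.NA.Yng

/-!
Row Lev: the level set lemma.  PROOF.  `F = ∑ f`, `N = Nf f`, so `∑ f² = F²/N` (`N > 0`).  Put
`lo = F/(48 z N)`, `hi = 5 z F/N`, `A = {lo ≤ f ≤ hi}`, `fm = f 1_A`, `fl = f 1_{f < lo}`,
`fh = f 1_{f > hi}` (note `lo ≤ hi`), `f = fm + fl + fh`.  Then
`∑ fl² ≤ lo ∑ f = F²/(48 z N)` and `∑ fh ≤ (1/hi) ∑ f² = F/(5z)`.
`cv f f = cv fm fm + cv fl (f + fm) + cv fh (f + fm)` (bilinearity and symmetry), so pointwise
`(cv f f)² ≤ 3 ((cv fm fm)² + (cv fl (f+fm))² + (cv fh (f+fm))²)`.  By `young` (with the roles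
`g = f + fm`, `h = fl`, resp. `g = fh`, `h = f + fm`; `∑ (f + fm) ≤ 2F`, `∑ (f+fm)² ≤ 4 F²/N`)
`∑ (cv fl (f+fm))² ≤ 4F² * F²/(48 z N)`, `∑ (cv fh (f+fm))² ≤ (F/(5z))² * 4F²/N`.  The hypothesis says
`∑ (cv f f)² ≥ F⁴/(zN)`; as `12/48 = 1/4` and `12/(25 z²) ≤ 6/(25 z)` (because `z ≥ 2`),
`3 ∑ (cv fm fm)² ≥ F⁴/(zN) (1 - 1/4 - 6/25) ≥ F⁴/(2 z N)`.  By `cv_indicator` with `c = hi`
`∑ (cv fm fm)² ≤ hi⁴ E4 A`, so `E4 A ≥ F⁴/(6zN) * N⁴/(625 z⁴ F⁴) = N³/(3750 z⁵) ≥ N³/z^17`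
(`3750 ≤ 2^12 ≤ z^12`).  Next `lo |A| ≤ F`, so `|A| ≤ 48 z N ≤ z^7 N` (`48 ≤ 64 ≤ z^6`), hence
`|A|³ ≤ z^21 N³ ≤ z^38 E4 A ≤ z^40 E4 A`; and `E4 A ≤ |A|³` (three coordinates determine the fourth), so
`N³ ≤ z^17 |A|³ ≤ (z^6 |A|)³`, `N ≤ z^6 |A| ≤ z^7 |A|`.
-/

set_option autoImplicit false

namespace Pool.H53.NA

theorem lev_E4_le {V : Type} [AddCommGroup V] [DecidableEq V] (A : Finset V) :
    E4 A ≤ A.card ^ 3 := by
  unfold E4
  have h : (A ×ˢ A ×ˢ A).card = A.card ^ 3 := by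
    rw [Finset.card_product, Finset.card_product]; ring
  rw [← h]
  refine Finset.card_le_card_of_injOn (fun x => (x.1, x.2.1, x.2.2.1)) ?_ ?_
  · rintro ⟨a, b, c, d⟩ hx
    simp only [Finset.coe_filter, Finset.mem_product, Set.mem_ofPred_eq] at hx
    simp only [Finset.coe_product, Set.mem_prod, Finset.mem_coe]
    exact ⟨hx.1.1, hx.1.2.1, hx.1.2.2.1⟩
  · rintro ⟨a, b, c, d⟩ hx ⟨a', b', c', d'⟩ hy hxy
    simp only [Finset.coe_filter, Finset.mem_product, Set.mem_ofPred_eq] at hx hy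
    simp only [Prod.mk.injEq] at hxy
    obtain ⟨rfl, rfl, rfl⟩ := hxy
    have h1 := hx.2
    have h2 := hy.2
    have : d = d' := by
      rw [h1] at h2
      exact add_left_cancel h2
    rw [this]

theorem lev_split {V : Type} [AddCommGroup V] [Fintype V] [DecidableEq V] (f a b c : V → ℝ)
    (h : ∀ x, f x = a x + (b x + c x)) (y : V) :
    cv f f y = cv a a y + cv (fun x => f x + a x) b y + cv c (fun x => f x + a x) y := by
  have hf : f = fun x => a x + (fun x => b x + c x) x := funext h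
  have e0 : cv (fun x => f x + a x) b y = cv b (fun x => f x + a x) y := cv_comm _ _ _
  have e1 : cv b (fun x => f x + a x) y + cv c (fun x => f x + a x) y =
      cv (fun x => b x + c x) (fun x => f x + a x) y := (cv_add_left b c _ y).symm
  have e2 : cv (fun x => b x + c x) (fun x => f x + a x) y =
      cv (fun x => b x + c x) f y + cv (fun x => b x + c x) a y := cv_add_right _ f a y
  have e3 : cv f f y = cv a f y + cv (fun x => b x + c x) f y := by
    have := cv_add_left a (fun x => b x + c x) f y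
    rw [← this]
    congr 1
  have e4 : cv a f y = cv a a y + cv a (fun x => b x + c x) y := by
    have := cv_add_right a a (fun x => b x + c x) y
    rw [← this]
    congr 1
  have e5 : cv a (fun x => b x + c x) y = cv (fun x => b x + c x) a y := cv_comm _ _ _
  have e6 : cv a a y + cv b (fun x => f x + a x) y + cv c (fun x => f x + a x) y =
      cv a a y + (cv b (fun x => f x + a x) y + cv c (fun x => f x + a x) y) := add_assoc _ _ _
  rw [e3, e4, e5, e0, e6, e1, e2]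
  ring

theorem level_set {V : Type} [AddCommGroup V] [Fintype V] [DecidableEq V] (f : V → ℝ)
    (hf : ∀ x, 0 ≤ f x) (hF : 0 < ∑ x, f x) (z : ℝ) (hz : 2 ≤ z)
    (hE : (∑ x, f x) ^ 2 * ∑ x, f x ^ 2 ≤ z * ∑ y, cv f f y ^ 2) :
    ∃ lo hi : ℝ, 0 < lo ∧ (∑ x, f x) ≤ z ^ 7 * Nf f * lo ∧
      ((Finset.univ.filter fun x => lo ≤ f x ∧ f x ≤ hi).card : ℝ) ≤ z ^ 7 * Nf f ∧
      Nf f ≤ z ^ 7 * ((Finset.univ.filter fun x => lo ≤ f x ∧ f x ≤ hi).card : ℝ) ∧
      ((Finset.univ.filter fun x => lo ≤ f x ∧ f x ≤ hi).card : ℝ) ^ 3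
        ≤ z ^ 40 * E4 (Finset.univ.filter fun x => lo ≤ f x ∧ f x ≤ hi) := by
  set F := ∑ x, f x with hFd
  set S := ∑ x, f x ^ 2 with hSd
  have hS : 0 < S := by
    obtain ⟨x, _, hx⟩ := Finset.exists_lt_of_sum_lt (s := Finset.univ) (f := fun _ : V => (0 : ℝ))
      (g := f) (by simpa using hF)
    refine Finset.sum_pos' (fun x _ => sq_nonneg _) ⟨x, Finset.mem_univ _, by positivity⟩
  have hz0 : 0 < z := by linarith
  have hz1 : 1 ≤ z := by linarith
  set lo : ℝ := S / (48 * z * F) with hlo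
  set hi : ℝ := 5 * z * S / F with hhi
  have hlo0 : 0 < lo := by positivity
  have hhi0 : 0 < hi := by positivity
  have hlohi : lo ≤ hi := by
    rw [hlo, hhi, div_le_div_iff₀ (by positivity) hF]
    have h1 : 1 ≤ 5 * z * (48 * z) := by nlinarith
    have h2 : 0 < S * F := by positivity
    nlinarith
  have hN : Nf f = F ^ 2 / S := rfl
  have hN0 : 0 < Nf f := by rw [hN]; positivity
  have hNlo : Nf f * lo = F / (48 * z) := by
    rw [hN, hlo]; field_simp
  set A := Finset.univ.filter fun x => lo ≤ f x ∧ f x ≤ hi with hA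
  have hz6 : (64 : ℝ) ≤ z ^ 6 := by
    calc (64 : ℝ) = 2 ^ 6 := by norm_num
      _ ≤ z ^ 6 := pow_le_pow_left₀ (by norm_num) hz 6
  -- the three pieces
  set a : V → ℝ := fun x => if lo ≤ f x ∧ f x ≤ hi then f x else 0 with ha
  set b : V → ℝ := fun x => if f x < lo then f x else 0 with hb
  set c : V → ℝ := fun x => if hi < f x then f x else 0 with hc
  have hsplit : ∀ x, f x = a x + (b x + c x) := by
    intro x
    simp only [ha, hb, hc]
    by_cases h1 : f x < lo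
    · have h2 : ¬ (lo ≤ f x ∧ f x ≤ hi) := fun h => absurd h.1 (not_le.2 h1)
      have h3 : ¬ hi < f x := not_lt.2 (h1.le.trans hlohi)
      simp [h1, h2, h3]
    · by_cases h3 : hi < f x
      · have h2 : ¬ (lo ≤ f x ∧ f x ≤ hi) := fun h => absurd h.2 (not_le.2 h3)
        simp [h1, h2, h3]
      · simp [h1, h3, not_lt.1 h1, not_lt.1 h3]
  have ha0 : ∀ x, 0 ≤ a x := fun x => by
    simp only [ha]; split_ifs
    · exact hf x
    · exact le_rfl
  have hb0 : ∀ x, 0 ≤ b x := fun x => by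
    simp only [hb]; split_ifs
    · exact hf x
    · exact le_rfl
  have hc0 : ∀ x, 0 ≤ c x := fun x => by
    simp only [hc]; split_ifs
    · exact hf x
    · exact le_rfl
  have hale : ∀ x, a x ≤ f x := fun x => by
    have := hsplit x; have := hb0 x; have := hc0 x; linarith
  have hble : ∀ x, b x ≤ f x := fun x => by
    have := hsplit x; have := ha0 x; have := hc0 x; linarith
  have hcle : ∀ x, c x ≤ f x := fun x => by
    have := hsplit x; have := ha0 x; have := hb0 x; linarith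
  -- estimates
  have hsumg : ∑ x, (f x + a x) ≤ 2 * F := by
    rw [hFd, Finset.mul_sum]
    exact Finset.sum_le_sum fun x _ => by have := hale x; linarith
  have hsumg0 : 0 ≤ ∑ x, (f x + a x) := Finset.sum_nonneg fun x _ => add_nonneg (hf x) (ha0 x)
  have hsumg2 : ∑ x, (f x + a x) ^ 2 ≤ 4 * S := by
    rw [hSd, Finset.mul_sum]
    exact Finset.sum_le_sum fun x _ => by
      have h1 := hale x; have h2 := ha0 x; have h3 := hf x; nlinarith
  have hb2 : ∑ x, b x ^ 2 ≤ lo * F := by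
    rw [hFd, Finset.mul_sum]
    refine Finset.sum_le_sum fun x _ => ?_
    have h1 : b x ≤ lo := by
      simp only [hb]; split_ifs with h
      · exact h.le
      · exact hlo0.le
    have h2 := hb0 x
    have h3 := hble x
    nlinarith
  have hc1 : hi * ∑ x, c x ≤ S := by
    rw [hSd, Finset.mul_sum]
    refine Finset.sum_le_sum fun x _ => ?_
    simp only [hc]
    split_ifs with h
    · have := hf x; nlinarith
    · simp; positivity
  have hcs0 : 0 ≤ ∑ x, c x := Finset.sum_nonneg fun x _ => hc0 x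
  have hc2 : ∑ x, c x ≤ F / (5 * z) := by
    have h1 : ∑ x, c x ≤ S / hi := by
      rw [le_div_iff₀ hhi0]; linarith
    have h2 : S / hi = F / (5 * z) := by
      rw [hhi]; field_simp
    rw [← h2]; exact h1
  have hB : ∑ y, cv (fun x => f x + a x) b y ^ 2 ≤ F ^ 2 * S / (12 * z) := by
    have h1 := young (fun x => f x + a x) b (fun x => add_nonneg (hf x) (ha0 x))
    have h2 : (∑ x, (f x + a x)) ^ 2 ≤ (2 * F) ^ 2 := pow_le_pow_left₀ hsumg0 hsumg 2
    have h3 : 0 ≤ ∑ x, b x ^ 2 := Finset.sum_nonneg fun x _ => sq_nonneg _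
    calc ∑ y, cv (fun x => f x + a x) b y ^ 2 ≤ (∑ x, (f x + a x)) ^ 2 * ∑ x, b x ^ 2 := h1
      _ ≤ (2 * F) ^ 2 * (lo * F) := mul_le_mul h2 hb2 h3 (by positivity)
      _ = F ^ 2 * S / (12 * z) := by
          rw [hlo]; field_simp; norm_num
  have hC : ∑ y, cv c (fun x => f x + a x) y ^ 2 ≤ 4 * F ^ 2 * S / (25 * z ^ 2) := by
    have h1 := young c (fun x => f x + a x) hc0
    have h2 : (∑ x, c x) ^ 2 ≤ (F / (5 * z)) ^ 2 := pow_le_pow_left₀ hcs0 hc2 2
    have h3 : 0 ≤ ∑ x, (f x + a x) ^ 2 := Finset.sum_nonneg fun x _ => sq_nonneg _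
    calc ∑ y, cv c (fun x => f x + a x) y ^ 2 ≤ (∑ x, c x) ^ 2 * ∑ x, (f x + a x) ^ 2 := h1
      _ ≤ (F / (5 * z)) ^ 2 * (4 * S) := mul_le_mul h2 hsumg2 h3 (by positivity)
      _ = 4 * F ^ 2 * S / (25 * z ^ 2) := by
          field_simp; norm_num
  have hT : ∑ y, cv a a y ^ 2 ≤ hi ^ 4 * E4 A := by
    refine cv_indicator a A hi ha0 ?_ ?_ hhi0.le
    · intro x hx
      exact (hale x).trans (Finset.mem_filter.1 hx).2.2
    · intro x hx
      simp only [ha]
      rw [if_neg]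
      intro h
      exact hx (Finset.mem_filter.2 ⟨Finset.mem_univ _, h⟩)
  have hsum : ∑ y, cv f f y ^ 2 ≤ 3 * (∑ y, cv a a y ^ 2) +
      3 * (∑ y, cv (fun x => f x + a x) b y ^ 2) + 3 * ∑ y, cv c (fun x => f x + a x) y ^ 2 := by
    rw [Finset.mul_sum, Finset.mul_sum, Finset.mul_sum, ← Finset.sum_add_distrib,
      ← Finset.sum_add_distrib]
    refine Finset.sum_le_sum fun y _ => ?_
    rw [lev_split f a b c hsplit y]
    nlinarith [sq_nonneg (cv a a y - cv (fun x => f x + a x) b y),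
      sq_nonneg (cv a a y - cv c (fun x => f x + a x) y),
      sq_nonneg (cv (fun x => f x + a x) b y - cv c (fun x => f x + a x) y)]
  have hE4 : 0 ≤ (E4 A : ℝ) := Nat.cast_nonneg _
  -- main inequality
  have hmain : F ^ 2 * S ≤ 6 * z * (hi ^ 4 * E4 A) := by
    have h1 : z * ∑ y, cv f f y ^ 2 ≤ z * (3 * (hi ^ 4 * E4 A) + 3 * (F ^ 2 * S / (12 * z)) +
        3 * (4 * F ^ 2 * S / (25 * z ^ 2))) := by
      apply mul_le_mul_of_nonneg_left _ hz0.le
      linarith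
    have h2 : z * (3 * (hi ^ 4 * E4 A) + 3 * (F ^ 2 * S / (12 * z)) +
        3 * (4 * F ^ 2 * S / (25 * z ^ 2))) =
        3 * z * (hi ^ 4 * E4 A) + F ^ 2 * S / 4 + (12 / 25) * (F ^ 2 * S) / z := by
      field_simp
      ring
    have h3 : (12 / 25) * (F ^ 2 * S) / z ≤ (6 / 25) * (F ^ 2 * S) := by
      rw [div_le_iff₀ hz0]
      have : 0 < F ^ 2 * S := by positivity
      nlinarith
    have h4 : 0 < F ^ 2 * S := by positivity
    linarith
  have hN3 : Nf f ^ 3 ≤ 3750 * z ^ 5 * E4 A := by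
    rw [hN, div_pow, div_le_iff₀ (by positivity)]
    have h1 : hi ^ 4 = 625 * z ^ 4 * S ^ 4 / F ^ 4 := by rw [hhi]; field_simp; norm_num
    rw [h1] at hmain
    have h2 : F ^ 2 * S * F ^ 4 ≤ 6 * z * (625 * z ^ 4 * S ^ 4 * E4 A) := by
      have h3 : 6 * z * (625 * z ^ 4 * S ^ 4 / F ^ 4 * E4 A) * F ^ 4 =
          6 * z * (625 * z ^ 4 * S ^ 4 * E4 A) := by field_simp
      rw [← h3]
      exact mul_le_mul_of_nonneg_right hmain (by positivity)
    have h4 : (F ^ 2) ^ 3 * S ≤ 3750 * z ^ 5 * E4 A * S ^ 3 * S := by nlinarith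
    exact le_of_mul_le_mul_right h4 hS
  have hz12 : (4096 : ℝ) ≤ z ^ 12 := by
    calc (4096 : ℝ) = 2 ^ 12 := by norm_num
      _ ≤ z ^ 12 := pow_le_pow_left₀ (by norm_num) hz 12
  have hN17 : Nf f ^ 3 ≤ z ^ 17 * E4 A := by
    refine hN3.trans ?_
    have h1 : 3750 * z ^ 5 ≤ z ^ 17 := by
      have : z ^ 17 = z ^ 12 * z ^ 5 := by ring
      rw [this]
      have : 0 < z ^ 5 := by positivity
      nlinarith
    exact mul_le_mul_of_nonneg_right h1 hE4
  have hAc : (A.card : ℝ) * lo ≤ F := by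
    have h1 : (A.card : ℝ) * lo = ∑ _x ∈ A, lo := by simp
    rw [h1]
    calc ∑ _x ∈ A, lo ≤ ∑ x ∈ A, f x := Finset.sum_le_sum fun x hx => (Finset.mem_filter.1 hx).2.1
      _ ≤ ∑ x, f x := Finset.sum_le_sum_of_subset_of_nonneg (Finset.filter_subset _ _)
          fun x _ _ => hf x
  have hA7 : (A.card : ℝ) ≤ z ^ 7 * Nf f := by
    have h1 : (A.card : ℝ) * lo ≤ (z ^ 7 * Nf f) * lo := by
      rw [mul_assoc, hNlo]
      refine hAc.trans ?_
      rw [mul_div_assoc', le_div_iff₀ (by positivity)]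
      have : z ^ 7 = z ^ 6 * z := by ring
      rw [this]
      have : 0 < F * z := by positivity
      nlinarith
    exact le_of_mul_le_mul_right h1 hlo0
  have hAc0 : (0 : ℝ) ≤ A.card := Nat.cast_nonneg _
  refine ⟨lo, hi, hlo0, ?_, hA7, ?_, ?_⟩
  · rw [mul_assoc, hNlo, mul_div_assoc', le_div_iff₀ (by positivity)]
    have : z ^ 7 = z ^ 6 * z := by ring
    rw [this]
    have : 0 < F * z := by positivity
    nlinarith
  · have h1 : (E4 A : ℝ) ≤ (A.card : ℝ) ^ 3 := by exact_mod_cast lev_E4_le A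
    have h2 : Nf f ^ 3 ≤ (z ^ 6 * A.card) ^ 3 := by
      refine hN17.trans ?_
      rw [mul_pow, ← pow_mul]
      have h17 : z ^ 17 ≤ z ^ (6 * 3) := pow_le_pow_right₀ hz1 (by omega)
      have hp : (0 : ℝ) ≤ z ^ (6 * 3) := pow_nonneg hz0.le _
      exact mul_le_mul h17 h1 hE4 hp
    have h3 : Nf f ≤ z ^ 6 * A.card :=
      le_of_pow_le_pow_left₀ three_ne_zero (mul_nonneg (pow_nonneg hz0.le 6) hAc0) h2
    refine h3.trans ?_
    have h67 : z ^ 6 ≤ z ^ 7 := pow_le_pow_right₀ hz1 (by omega)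
    exact mul_le_mul_of_nonneg_right h67 hAc0
  · calc (A.card : ℝ) ^ 3 ≤ (z ^ 7 * Nf f) ^ 3 := pow_le_pow_left₀ hAc0 hA7 3
      _ = z ^ 21 * Nf f ^ 3 := by ring
      _ ≤ z ^ 21 * (z ^ 17 * E4 A) := mul_le_mul_of_nonneg_left hN17 (by positivity)
      _ = z ^ 38 * E4 A := by ring
      _ ≤ z ^ 40 * E4 A := by
          have h38 : z ^ 38 ≤ z ^ 40 := pow_le_pow_right₀ hz1 (by omega)
          exact mul_le_mul_of_nonneg_right h38 hE4

end Pool.H53.NA
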