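import Pool.Agent.H53.NA.Defs

/-!
Row Xop: the multipliers `ξ` with `|A - ξA| ≤ x|A|`.

PROOFS.
* `Xi_mul`.  If `b = 0` then `A - dil (b*c) A = A - {0}` has `|A|` elements.  If `b` is a unit: Ruzsa
  (`Finset.ruzsa_triangle_inequality_sub_sub_sub`: `|A - C||B| ≤ |A - B||C - B|`) with `B = bA`, `C = bcA`:
  `|A - bcA||bA| ≤ |A - bA||bcA - bA|`, `|bA| = |A|`, `bcA - bA = b(cA - A)` has `|cA - A| = |A - cA|` elements.
* `Xi_comb`.  Let `C = A ∪ ⋃ c_i A ∪ ⋃ e_j A`.  `|A - C| ≤ (p+q+1) x |A|` (union bound; `Finset.sub_union` or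
  `Finset.sub_biUnion`-like).  `A - dil ξ A ⊆ (q+1)•C - p•C` (an element is
  `a - ∑ c_i a' + ∑ e_j a'`), so Plünnecke-Ruzsa
  (`Finset.pluennecke_ruzsa_inequality_nsmul_sub_nsmul_sub`, in `ℚ≥0`:
  `|m•C - n•C| ≤ (|A - C|/|A|)^(m+n) |A|`) gives the bound `((p+q+1)x)^(p+q+1) |A|`.
* `Xi_quo`.  `|A - wA| = |vA - uA|` (`v` a unit), and by the triangle inequality
  `|vA - uA||A| ≤ |vA - A||uA - A| ≤ x² |A|²`.
* `Xi_mono` is trivial.
-/

set_option autoImplicit false

namespace Pool.H53.NA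

open scoped Pointwise

variable {R : Type} [CommRing R] [DecidableEq R]

theorem xop_card_comm (X Y : Finset R) : (X - Y).card = (Y - X).card := by
  rw [← Finset.card_neg, neg_sub]

theorem xop_card_dil (b : R) (hb : IsUnit b) (X : Finset R) : (dil b X).card = X.card := by
  unfold dil
  exact Finset.card_image_of_injective _ hb.mul_right_injective

theorem xop_dil_dil (b c : R) (X : Finset R) : dil (b * c) X = dil b (dil c X) := by
  unfold dil
  rw [Finset.image_image]
  congr 1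
  funext a
  simp [mul_assoc]

theorem xop_dil_sub (b : R) (X Y : Finset R) : dil b (X - Y) = dil b X - dil b Y := by
  unfold dil
  ext z
  simp only [Finset.mem_image, Finset.mem_sub]
  constructor
  · rintro ⟨_, ⟨x, hx, y, hy, rfl⟩, rfl⟩
    exact ⟨b * x, ⟨x, hx, rfl⟩, b * y, ⟨y, hy, rfl⟩, (mul_sub b x y).symm⟩
  · rintro ⟨_, ⟨x, hx, rfl⟩, _, ⟨y, hy, rfl⟩, rfl⟩
    exact ⟨x - y, ⟨x, hx, y, hy, rfl⟩, mul_sub b x y⟩

theorem xop_div (a b c : ℝ) (h : a * c ≤ b * c * c) (ha : c = 0 → a = 0) (hc : 0 ≤ c) : a ≤ b * c := by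
  rcases hc.eq_or_lt with h0 | h0
  · rw [ha h0.symm, ← h0, mul_zero]
  · exact le_of_mul_le_mul_right h h0

theorem Xi_mono (A : Finset R) (x y : ℝ) (hxy : x ≤ y) (b : R) (h : Xi A x b) : Xi A y b := by
  unfold Xi at h ⊢
  exact h.trans (mul_le_mul_of_nonneg_right hxy (Nat.cast_nonneg _))

theorem Xi_mul (A : Finset R) (x y : ℝ) (hx : 1 ≤ x) (hy : 1 ≤ y) (b c : R)
    (hb : b = 0 ∨ IsUnit b) (h1 : Xi A x b) (h2 : Xi A y c) : Xi A (x * y) (b * c) := by
  unfold Xi at *
  rcases hb with rfl | hb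
  · have hsub : A - dil (0 * c) A ⊆ A := by
      intro z hz
      rw [Finset.mem_sub] at hz
      obtain ⟨a, ha, w, hw, rfl⟩ := hz
      unfold dil at hw
      rw [Finset.mem_image] at hw
      obtain ⟨a', _, rfl⟩ := hw
      simpa using ha
    have h3 : ((A - dil (0 * c) A).card : ℝ) ≤ A.card := by exact_mod_cast Finset.card_le_card hsub
    have h4 : (1 : ℝ) ≤ x * y := by nlinarith
    have h5 : (0 : ℝ) ≤ A.card := Nat.cast_nonneg _
    nlinarith
  · have hr := Finset.ruzsa_triangle_inequality_sub_sub_sub A (dil b A) (dil (b * c) A)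
    rw [xop_card_dil b hb, xop_dil_dil b c, ← xop_dil_sub, xop_card_dil b hb,
      xop_card_comm (dil c A) A] at hr
    have hr' : ((A - dil b (dil c A)).card : ℝ) * A.card ≤
        ((A - dil b A).card : ℝ) * ((A - dil c A).card : ℝ) := by exact_mod_cast hr
    rw [xop_dil_dil b c]
    refine xop_div _ _ _ ?_ ?_ (Nat.cast_nonneg _)
    · refine hr'.trans ?_
      have h3 : (0 : ℝ) ≤ ((A - dil c A).card : ℝ) := Nat.cast_nonneg _
      have h4 : (0 : ℝ) ≤ x * A.card := mul_nonneg (by linarith) (Nat.cast_nonneg _)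
      calc ((A - dil b A).card : ℝ) * ((A - dil c A).card : ℝ) ≤ (x * A.card) * (y * A.card) :=
            mul_le_mul h1 h2 h3 h4
        _ = x * y * A.card * A.card := by ring
    · intro h0
      have : A = ∅ := Finset.card_eq_zero.1 (by exact_mod_cast h0)
      subst this
      simp

theorem xop_mem_nsmul (C : Finset R) : ∀ (n : ℕ) (f : Fin n → R), (∀ i, f i ∈ C) →
    ∑ i, f i ∈ n • C := by
  intro n
  induction n with
  | zero => intro f _; simp
  | succ n ih =>
    intro f hf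
    rw [Fin.sum_univ_succ, succ_nsmul, add_comm (f 0)]
    exact Finset.add_mem_add (ih (fun i => f i.succ) fun i => hf _) (hf 0)

theorem Xi_comb (A : Finset R) (x : ℝ) (hx : 1 ≤ x) (hAA : ((A - A).card : ℝ) ≤ x * A.card)
    (p q : ℕ) (c : Fin p → R) (e : Fin q → R) (hc : ∀ i, Xi A x (c i)) (he : ∀ j, Xi A x (e j)) :
    Xi A ((((p + q + 1 : ℕ) : ℝ) * x) ^ (p + q + 1)) (∑ i, c i - ∑ j, e j) := by
  classical
  unfold Xi at *
  rcases A.eq_empty_or_nonempty with rfl | hA
  · simp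
  set C : Finset R := A ∪ ((Finset.univ.biUnion fun i => dil (c i) A) ∪
    (Finset.univ.biUnion fun j => dil (e j) A)) with hC
  set ξ : R := ∑ i, c i - ∑ j, e j with hξ
  have hsubset : A - dil ξ A ⊆ (q + 1) • C - p • C := by
    intro z hz
    rw [Finset.mem_sub] at hz
    obtain ⟨a, ha, w, hw, rfl⟩ := hz
    unfold dil at hw
    rw [Finset.mem_image] at hw
    obtain ⟨a', ha', rfl⟩ := hw
    have h1 : a - ξ * a' = (∑ j, e j * a' + a) - ∑ i, c i * a' := by
      rw [hξ, sub_mul, Finset.sum_mul, Finset.sum_mul]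
      ring
    rw [h1]
    refine Finset.sub_mem_sub ?_ ?_
    · rw [succ_nsmul]
      refine Finset.add_mem_add (xop_mem_nsmul C q _ fun j => ?_) ?_
      · refine Finset.mem_union_right _ (Finset.mem_union_right _ ?_)
        exact Finset.mem_biUnion.2 ⟨j, Finset.mem_univ _, Finset.mem_image.2 ⟨a', ha', rfl⟩⟩
      · exact Finset.mem_union_left _ ha
    · refine xop_mem_nsmul C p _ fun i => ?_
      refine Finset.mem_union_right _ (Finset.mem_union_left _ ?_)
      exact Finset.mem_biUnion.2 ⟨i, Finset.mem_univ _, Finset.mem_image.2 ⟨a', ha', rfl⟩⟩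
  have hcardC : ((A - C).card : ℝ) ≤ ((p + q + 1 : ℕ) : ℝ) * x * A.card := by
    have hs : A - C ⊆ (A - A) ∪ ((Finset.univ.biUnion fun i => (A - dil (c i) A)) ∪
        (Finset.univ.biUnion fun j => (A - dil (e j) A))) := by
      intro z hz
      rw [Finset.mem_sub] at hz
      obtain ⟨a, ha, w, hw, rfl⟩ := hz
      rw [hC, Finset.mem_union, Finset.mem_union, Finset.mem_biUnion, Finset.mem_biUnion] at hw
      rcases hw with hw | ⟨i, hi, hw⟩ | ⟨j, hj, hw⟩
      · exact Finset.mem_union_left _ (Finset.sub_mem_sub ha hw)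
      · refine Finset.mem_union_right _ (Finset.mem_union_left _ ?_)
        exact Finset.mem_biUnion.2 ⟨i, hi, Finset.sub_mem_sub ha hw⟩
      · refine Finset.mem_union_right _ (Finset.mem_union_right _ ?_)
        exact Finset.mem_biUnion.2 ⟨j, hj, Finset.sub_mem_sub ha hw⟩
    have h1 : (A - C).card ≤ (A - A).card + (∑ i, (A - dil (c i) A).card +
        ∑ j, (A - dil (e j) A).card) := by
      refine (Finset.card_le_card hs).trans ((Finset.card_union_le _ _).trans ?_)
      refine Nat.add_le_add_left ((Finset.card_union_le _ _).trans ?_) _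
      exact Nat.add_le_add Finset.card_biUnion_le Finset.card_biUnion_le
    have h2 : ((A - C).card : ℝ) ≤ ((A - A).card : ℝ) + (∑ i, ((A - dil (c i) A).card : ℝ) +
        ∑ j, ((A - dil (e j) A).card : ℝ)) := by exact_mod_cast h1
    have h3 : ∑ i, ((A - dil (c i) A).card : ℝ) ≤ p * (x * A.card) := by
      refine (Finset.sum_le_sum fun i _ => hc i).trans (le_of_eq ?_)
      rw [Finset.sum_const, Finset.card_univ, Fintype.card_fin, nsmul_eq_mul]
    have h4 : ∑ j, ((A - dil (e j) A).card : ℝ) ≤ q * (x * A.card) := by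
      refine (Finset.sum_le_sum fun j _ => he j).trans (le_of_eq ?_)
      rw [Finset.sum_const, Finset.card_univ, Fintype.card_fin, nsmul_eq_mul]
    push_cast
    nlinarith
  have hpr := Finset.pluennecke_ruzsa_inequality_nsmul_sub_nsmul_sub hA C (q + 1) p
  have hpr' : ((((q + 1) • C - p • C).card : ℕ) : ℝ) ≤
      (((A - C).card : ℝ) / (A.card : ℝ)) ^ (q + 1 + p) * (A.card : ℝ) := by
    have h := (NNRat.cast_le (K := ℝ)).2 hpr
    push_cast at h
    exact h
  have hApos : (0 : ℝ) < A.card := by exact_mod_cast hA.card_pos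
  have hdiv : ((A - C).card : ℝ) / (A.card : ℝ) ≤ ((p + q + 1 : ℕ) : ℝ) * x := by
    rw [div_le_iff₀ hApos]
    exact hcardC
  have hdiv0 : (0 : ℝ) ≤ ((A - C).card : ℝ) / (A.card : ℝ) :=
    div_nonneg (Nat.cast_nonneg _) hApos.le
  calc ((A - dil ξ A).card : ℝ) ≤ ((((q + 1) • C - p • C).card : ℕ) : ℝ) := by
        exact_mod_cast Finset.card_le_card hsubset
    _ ≤ (((A - C).card : ℝ) / (A.card : ℝ)) ^ (q + 1 + p) * (A.card : ℝ) := hpr'
    _ ≤ ((((p + q + 1 : ℕ) : ℝ) * x) ^ (p + q + 1)) * A.card := by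
        rw [show q + 1 + p = p + q + 1 by ring]
        exact mul_le_mul_of_nonneg_right (pow_le_pow_left₀ hdiv0 hdiv _) hApos.le

theorem Xi_quo (A : Finset R) (x : ℝ) (u v w : R) (hv : IsUnit v) (hw : w * v = u)
    (h1 : Xi A x u) (h2 : Xi A x v) : Xi A (x ^ 2) w := by
  unfold Xi at *
  have hr := Finset.ruzsa_triangle_inequality_sub_sub_sub (dil v A) A (dil u A)
  have h3 : dil v A - dil u A = dil v (A - dil w A) := by
    rw [xop_dil_sub, ← xop_dil_dil, mul_comm v w, hw]
  rw [h3, xop_card_dil v hv, xop_card_comm (dil v A) A, xop_card_comm (dil u A) A] at hr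
  have hr' : ((A - dil w A).card : ℝ) * A.card ≤
      ((A - dil v A).card : ℝ) * ((A - dil u A).card : ℝ) := by exact_mod_cast hr
  refine xop_div _ _ _ ?_ ?_ (Nat.cast_nonneg _)
  · refine hr'.trans ?_
    have h4 : (0 : ℝ) ≤ ((A - dil u A).card : ℝ) := Nat.cast_nonneg _
    have h5 : (0 : ℝ) ≤ x * A.card := le_trans (Nat.cast_nonneg _) h2
    calc ((A - dil v A).card : ℝ) * ((A - dil u A).card : ℝ) ≤ (x * A.card) * (x * A.card) :=
          mul_le_mul h2 h1 h4 h5
      _ = x ^ 2 * A.card * A.card := by ring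
  · intro h0
    have : A = ∅ := Finset.card_eq_zero.1 (by exact_mod_cast h0)
    subst this
    simp

end Pool.H53.NA
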