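import Pool.Agent.H53.NA.Bsg
import Pool.Agent.H53.NA.Lev
import Pool.Agent.H53.NA.Hpr
import Pool.Agent.H53.NA.Xop

/-!
Core of the flattening lemmas (assembly).
-/

set_option autoImplicit false

namespace Pool.H53.NA

open scoped Pointwise

theorem core {R : Type} [CommRing R] [Fintype R] [DecidableEq R] (H : Finset R) (f : R → ℝ) (z : ℝ)
    (hz : 2 ≤ z) (hH : SGL H) (hf : ∀ x, 0 ≤ f x) (hfH : ∀ h ∈ H, ∀ x, f (h * x) = f x)
    (hF : 0 < ∑ x, f x) (hE : (∑ x, f x) ^ 2 * ∑ x, f x ^ 2 ≤ z * ∑ y, cv f f y ^ 2) :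
    ∃ (A H' : Finset R) (lo : ℝ), A.Nonempty ∧ 0 < lo ∧ ∑ x, f x ≤ z ^ 7 * Nf f * lo ∧
      (∀ x ∈ A, lo ≤ f x) ∧ (A.card : ℝ) ≤ z ^ 7 * Nf f ∧ Nf f ≤ z ^ 50 * A.card ∧
      ((A - A).card : ℝ) ≤ z ^ 1273 * A.card ∧ H' ⊆ H ∧ (H.card : ℝ) ≤ z ^ 425 * H'.card ∧
      ∀ h ∈ H', Xi A (z ^ 1273) h := by
  have hz1 : (1 : ℝ) ≤ z := by linarith
  have hz0 : (0 : ℝ) ≤ z := by linarith
  obtain ⟨lo, hi, hlo, hFlo, hA1, hA2, hA3⟩ := level_set f hf hF z hz hE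
  set A := Finset.univ.filter fun x => lo ≤ f x ∧ f x ≤ hi with hAdef
  have hmem : ∀ x, x ∈ A ↔ lo ≤ f x ∧ f x ≤ hi := by intro x; simp [hAdef]
  have hN : 0 < Nf f := by
    by_contra h
    push Not at h
    have h1 : z ^ 7 * Nf f * lo ≤ 0 := by
      have : z ^ 7 * Nf f ≤ 0 := mul_nonpos_of_nonneg_of_nonpos (by positivity) h
      exact mul_nonpos_of_nonpos_of_nonneg this hlo.le
    linarith
  have hAne : A.Nonempty := by
    rw [Finset.nonempty_iff_ne_empty]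
    intro h
    rw [h] at hA2
    simp at hA2
    linarith
  obtain ⟨A', hsub, hne, hc1, hc2⟩ := bsg A (z ^ 40) (one_le_pow₀ hz1) hAne hA3
  have e1 : (8 : ℝ) ≤ z ^ 3 := by
    calc (8 : ℝ) = 2 ^ 3 := by norm_num
      _ ≤ z ^ 3 := pow_le_pow_left₀ (by norm_num) hz 3
  have e2 : (2 : ℝ) ^ 24 ≤ z ^ 24 := pow_le_pow_left₀ (by norm_num) hz 24
  have hcard : (0 : ℝ) ≤ A'.card := Nat.cast_nonneg _
  have hc1' : (A.card : ℝ) ≤ z ^ 43 * A'.card := by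
    refine hc1.trans ?_
    have : 8 * z ^ 40 ≤ z ^ 43 := by
      calc 8 * z ^ 40 ≤ z ^ 3 * z ^ 40 := by gcongr
        _ = z ^ 43 := by rw [← pow_add]
    exact mul_le_mul_of_nonneg_right this hcard
  have hc2' : ((A' - A').card : ℝ) ≤ z ^ 424 * A'.card := by
    refine hc2.trans ?_
    have : (2 : ℝ) ^ 24 * (z ^ 40) ^ 10 ≤ z ^ 424 := by
      calc (2 : ℝ) ^ 24 * (z ^ 40) ^ 10 ≤ z ^ 24 * (z ^ 40) ^ 10 := by gcongr
        _ = z ^ 424 := by rw [← pow_mul, ← pow_add]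
    exact mul_le_mul_of_nonneg_right this hcard
  have hinv : ∀ h ∈ H, ∀ x ∈ A, h * x ∈ A := by
    intro h hh x hx
    rw [hmem] at hx ⊢
    rw [hfH h hh x]
    exact hx
  have hc3 : (A.card : ℝ) ≤ z ^ 424 * A'.card :=
    hc1'.trans (mul_le_mul_of_nonneg_right (pow_le_pow_right₀ hz1 (by norm_num)) hcard)
  obtain ⟨H', hH'1, hH'2, hH'3⟩ := hprime H A A' (z ^ 424) (one_le_pow₀ hz1) hH hinv hsub hne hc3 hc2'
  refine ⟨A', H', lo, hne, hlo, hFlo, fun x hx => ((hmem x).mp (hsub hx)).1, ?_, ?_, ?_, hH'1, ?_, ?_⟩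
  · refine le_trans ?_ hA1
    exact_mod_cast Finset.card_le_card hsub
  · calc Nf f ≤ z ^ 7 * A.card := hA2
      _ ≤ z ^ 7 * (z ^ 43 * A'.card) := by gcongr
      _ = z ^ 50 * A'.card := by ring
  · exact hc2'.trans (mul_le_mul_of_nonneg_right (pow_le_pow_right₀ hz1 (by norm_num)) hcard)
  · refine hH'2.trans ?_
    have : 2 * z ^ 424 ≤ z ^ 425 := by
      calc 2 * z ^ 424 ≤ z * z ^ 424 := by gcongr
        _ = z ^ 425 := by rw [← pow_succ']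
    exact mul_le_mul_of_nonneg_right this (Nat.cast_nonneg _)
  · intro h hh
    refine Xi_mono _ _ _ ?_ _ (hH'3 h hh)
    calc 2 * (z ^ 424) ^ 3 ≤ z * (z ^ 424) ^ 3 := by gcongr
      _ = z ^ 1273 := by rw [← pow_mul, ← pow_succ']

end Pool.H53.NA
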