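import Pool.Agent.H53.NA.Smo

/-!
Row Dbl: the double sum.  PROOF of `dbl_sum`.  `σ = 1/log l`, `l ≥ 3000` prime, `gpf d = l` for `d ∈ T`, `d = m l^j`, `m = mpt d`,
`j = d.factorization l ≥ 1`, all primes of `m` are `< l`.  `1 + log d ≤ (log l) d^σ` (`1 + x ≤ e^x` with `x = σ log d` gives
`d^σ ≥ 1 + σ log d`, times `log l ≥ 1`).  `l^(jσ) = e^j`.  So
`(1+log d)(1+log e) wt d e ≤ (log l)² (e/l)^{j1} (e/l)^{j2} ow m1 ow m2 gcd(m1,m2) (m1 m2)^(-1+σ)`.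
`∑_{j≥1} (e/l)^j ≤ 2e/l`.  For a finite set `M` of `m`'s: `gcd(m1,m2) ≤ ∑_{g ∣ m1, g ∣ m2} g`, and with `m1 = g a`, `m2 = g b`,
`ow (g a) ≤ ow g ow a`, the sum over `m1, m2 ∈ M` is
`≤ ∑_g g (ow g)² g^(-2+2σ) (∑_a ow a a^(-1+σ))² ≤ G³`, where `g`, `a` run over finite sets of numbers with primes `< l` and
`G` bounds `∑ fl l`: `(ow g)² ≤ (64/49)^ω ≤ (4/3)^Ω(g)`, `ow a ≤ (4/3)^Ω(a)` and `a^(-1+σ) ≤ a^(-1+2σ)`.  By `smooth_sum`
`G ≤ C l^(1/40)`.  Total `≤ (log l)² (2e/l)² C³ l^(3/40) ≤ C' l^(-3/2)` (`log l ≤ 10 l^(1/10)`).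
-/

set_option autoImplicit false

namespace Pool.H53.NA

theorem dbl_gpf {d l : ℕ} (hl : l.Prime) (h : gpf d = l) :
    d ≠ 0 ∧ 1 ≤ d.factorization l ∧ mpt d ≠ 0 ∧ d = mpt d * l ^ d.factorization l ∧
      ∀ p, p.Prime → p ∣ mpt d → p < l := by
  have hne : d.primeFactors.Nonempty := by
    rw [Finset.nonempty_iff_ne_empty]
    intro he
    have : gpf d = 0 := by
      unfold gpf
      rw [he]
      rfl
    rw [this] at h
    exact hl.ne_zero h.symm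
  have hd : d ≠ 0 := by
    rintro rfl
    simp at hne
  obtain ⟨i, hi, hi2⟩ := Finset.exists_mem_eq_sup d.primeFactors hne id
  have hi3 : i = l := by
    rw [← h]
    exact hi2.symm
  subst hi3
  have hm : mpt d = d / i ^ d.factorization i := by
    unfold mpt
    rw [h]
  have hdvd : i ^ d.factorization i ∣ d := Nat.ordProj_dvd d i
  have hm0 : mpt d ≠ 0 := by
    rw [hm]
    exact (Nat.ordCompl_pos i hd).ne'
  refine ⟨hd, ?_, hm0, ?_, ?_⟩
  · exact hl.factorization_pos_of_dvd hd (Nat.dvd_of_mem_primeFactors hi)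
  · rw [hm]
    exact (Nat.div_mul_cancel hdvd).symm
  · intro p hp hpd
    have hpd2 : p ∣ d := hpd.trans (by rw [hm]; exact Nat.ordCompl_dvd d i)
    have h1 : p ≤ i := by
      have h2 : id p ≤ d.primeFactors.sup id :=
        Finset.le_sup (Nat.mem_primeFactors.2 ⟨hp, hpd2, hd⟩)
      exact h2.trans h.le
    rcases h1.lt_or_eq with h2 | h2
    · exact h2
    · exfalso
      subst h2
      rw [hm] at hpd
      exact Nat.not_dvd_ordCompl hp hd hpd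

/-- the weight of the first part -/
noncomputable def dbl_A (l m : ℕ) : ℝ := ow m * (m : ℝ) ^ (1 / Real.log l - 1)

theorem dbl_ow_pos (m : ℕ) : 0 < ow m := by
  unfold ow
  positivity

theorem dbl_A_nonneg (l m : ℕ) : 0 ≤ dbl_A l m := by
  unfold dbl_A
  exact mul_nonneg (dbl_ow_pos m).le (Real.rpow_nonneg (Nat.cast_nonneg m) _)

theorem dbl_ow_mul {g a : ℕ} (hg : g ≠ 0) (ha : a ≠ 0) : ow (g * a) ≤ ow g * ow a := by
  unfold ow
  rw [Nat.primeFactors_mul hg ha, ← pow_add]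
  exact pow_le_pow_right₀ (by norm_num) (Finset.card_union_le _ _)

theorem dbl_A_mul (l : ℕ) {g a : ℕ} (hg : g ≠ 0) (ha : a ≠ 0) :
    dbl_A l (g * a) ≤ dbl_A l g * dbl_A l a := by
  unfold dbl_A
  have e : ((g * a : ℕ) : ℝ) ^ (1 / Real.log l - 1) =
      (g : ℝ) ^ (1 / Real.log l - 1) * (a : ℝ) ^ (1 / Real.log l - 1) := by
    rw [Nat.cast_mul, Real.mul_rpow (Nat.cast_nonneg g) (Nat.cast_nonneg a)]
  rw [e]
  have h1 := dbl_ow_mul hg ha
  have h2 : 0 ≤ (g : ℝ) ^ (1 / Real.log l - 1) * (a : ℝ) ^ (1 / Real.log l - 1) :=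
    mul_nonneg (Real.rpow_nonneg (Nat.cast_nonneg g) _) (Real.rpow_nonneg (Nat.cast_nonneg a) _)
  calc ow (g * a) * ((g : ℝ) ^ (1 / Real.log l - 1) * (a : ℝ) ^ (1 / Real.log l - 1))
      ≤ ow g * ow a * ((g : ℝ) ^ (1 / Real.log l - 1) * (a : ℝ) ^ (1 / Real.log l - 1)) :=
        mul_le_mul_of_nonneg_right h1 h2
    _ = _ := by ring

theorem dbl_card_le (m : ℕ) : m.primeFactors.card ≤ ArithmeticFunction.cardFactors m := by
  rw [ArithmeticFunction.cardFactors_apply]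
  exact List.toFinset_card_le _

theorem dbl_fl1 {l a : ℕ} (hl : 0 ≤ Real.log l) (ha : a ≠ 0) : dbl_A l a ≤ fl l a := by
  unfold dbl_A fl
  have ha1 : (1 : ℝ) ≤ a := by exact_mod_cast Nat.one_le_iff_ne_zero.2 ha
  have h1 : ow a ≤ (4 / 3 : ℝ) ^ (ArithmeticFunction.cardFactors a) := by
    unfold ow
    calc (8 / 7 : ℝ) ^ a.primeFactors.card ≤ (4 / 3 : ℝ) ^ a.primeFactors.card :=
          pow_le_pow_left₀ (by norm_num) (by norm_num) _
      _ ≤ _ := pow_le_pow_right₀ (by norm_num) (dbl_card_le a)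
  have h2 : (a : ℝ) ^ (1 / Real.log l - 1) ≤ (a : ℝ) ^ (-1 + 2 / Real.log l) := by
    apply Real.rpow_le_rpow_of_exponent_le ha1
    have h3 : 0 ≤ 1 / Real.log l := div_nonneg zero_le_one hl
    have h4 : 2 / Real.log l = 2 * (1 / Real.log l) := by ring
    rw [h4]
    linarith
  exact mul_le_mul h1 h2 (Real.rpow_nonneg (Nat.cast_nonneg a) _) (by positivity)

theorem dbl_fl2 {l g : ℕ} (hg : g ≠ 0) : (g : ℝ) * dbl_A l g ^ 2 ≤ fl l g := by
  unfold dbl_A fl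
  have hg0 : (0 : ℝ) < g := by exact_mod_cast Nat.pos_of_ne_zero hg
  have h1 : ow g ^ 2 ≤ (4 / 3 : ℝ) ^ (ArithmeticFunction.cardFactors g) := by
    unfold ow
    rw [← pow_mul, mul_comm, pow_mul]
    calc ((8 / 7 : ℝ) ^ 2) ^ g.primeFactors.card ≤ (4 / 3 : ℝ) ^ g.primeFactors.card :=
          pow_le_pow_left₀ (by norm_num) (by norm_num) _
      _ ≤ _ := pow_le_pow_right₀ (by norm_num) (dbl_card_le g)
  have h2 : (g : ℝ) * ((g : ℝ) ^ (1 / Real.log l - 1)) ^ 2 = (g : ℝ) ^ (-1 + 2 / Real.log l) := by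
    have e1 : ((g : ℝ) ^ (1 / Real.log l - 1)) ^ 2 = (g : ℝ) ^ ((1 / Real.log l - 1) * 2) := by
      rw [Real.rpow_mul hg0.le]
      norm_cast
    have e2 : (g : ℝ) * (g : ℝ) ^ ((1 / Real.log l - 1) * 2) =
        (g : ℝ) ^ (1 + (1 / Real.log l - 1) * 2) := by
      rw [Real.rpow_add hg0, Real.rpow_one]
    rw [e1, e2]
    congr 1
    ring
  have h3 : 0 ≤ (g : ℝ) ^ (-1 + 2 / Real.log l) := Real.rpow_nonneg hg0.le _
  calc (g : ℝ) * (ow g * (g : ℝ) ^ (1 / Real.log l - 1)) ^ 2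
      = ow g ^ 2 * ((g : ℝ) * ((g : ℝ) ^ (1 / Real.log l - 1)) ^ 2) := by ring
    _ = ow g ^ 2 * (g : ℝ) ^ (-1 + 2 / Real.log l) := by rw [h2]
    _ ≤ _ := mul_le_mul_of_nonneg_right h1 h3

theorem dbl_inj {α β : Type} (T : Finset α) (S : Finset β) (φ : α → β) (hφ : ∀ t ∈ T, φ t ∈ S)
    (inj : ∀ t ∈ T, ∀ t' ∈ T, φ t = φ t' → t = t') (H : β → ℝ) (hH : ∀ b ∈ S, 0 ≤ H b) :
    ∑ t ∈ T, H (φ t) ≤ ∑ b ∈ S, H b := by
  classical
  have e : ∑ b ∈ T.image φ, H b = ∑ t ∈ T, H (φ t) :=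
    Finset.sum_image (fun t ht t' ht' h => inj t ht t' ht' h)
  rw [← e]
  refine Finset.sum_le_sum_of_subset_of_nonneg ?_ (fun b hb _ => hH b hb)
  intro b hb
  obtain ⟨t, ht, rfl⟩ := Finset.mem_image.1 hb
  exact hφ t ht

theorem dbl_geo (J : Finset ℕ) (hJ : ∀ j ∈ J, 1 ≤ j) (x : ℝ) (hx0 : 0 ≤ x) (hx : x ≤ 1 / 2) :
    ∑ j ∈ J, x ^ j ≤ 2 * x := by
  have hx1 : x < 1 := by linarith
  have e1 : ∑ j ∈ J, x ^ j = x * ∑ j ∈ J, x ^ (j - 1) := by
    rw [Finset.mul_sum]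
    refine Finset.sum_congr rfl fun j hj => ?_
    rw [← pow_succ', Nat.sub_add_cancel (hJ j hj)]
  have e2 : ∑ j ∈ J, x ^ (j - 1) ≤ ∑ i ∈ J.image (fun j => j - 1), x ^ i :=
    dbl_inj J (J.image (fun j => j - 1)) (fun j => j - 1)
      (fun t ht => Finset.mem_image_of_mem _ ht)
      (fun t ht t' ht' h => by
        have := hJ t ht
        have := hJ t' ht'
        have h' : t - 1 = t' - 1 := h
        omega) (fun i => x ^ i) (fun b _ => pow_nonneg hx0 b)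
  have e3 : ∑ i ∈ J.image (fun j => j - 1), x ^ i ≤ ∑' i : ℕ, x ^ i :=
    (summable_geometric_of_lt_one hx0 hx1).sum_le_tsum _ (fun i _ => pow_nonneg hx0 i)
  rw [tsum_geometric_of_lt_one hx0 hx1] at e3
  have e4 : (1 - x)⁻¹ ≤ 2 := by
    rw [inv_le_comm₀ (by linarith) (by norm_num)]
    linarith
  rw [e1]
  have e5 := mul_le_mul_of_nonneg_left ((e2.trans e3).trans e4) hx0
  linarith

theorem dbl_gcd (M : Finset ℕ) (hM : ∀ m ∈ M, m ≠ 0) (A : ℕ → ℝ) (hA : ∀ m, 0 ≤ A m)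
    (hmul : ∀ g a, g ≠ 0 → a ≠ 0 → A (g * a) ≤ A g * A a) :
    ∑ m ∈ M, A m * ∑ n ∈ M, A n * (Nat.gcd m n : ℝ) ≤
      (∑ g ∈ M.biUnion Nat.divisors, (g : ℝ) * A g ^ 2) *
        (∑ a ∈ M.biUnion Nat.divisors, A a) ^ 2 := by
  classical
  obtain ⟨G, hG⟩ : ∃ G, G = M.biUnion Nat.divisors := ⟨_, rfl⟩
  rw [← hG]
  have hmem : ∀ m ∈ M, ∀ g, g ∣ m → g ∈ G := by
    intro m hm g hg
    rw [hG]
    exact Finset.mem_biUnion.2 ⟨m, hm, Nat.mem_divisors.2 ⟨hg, hM m hm⟩⟩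
  have hG0 : ∀ g ∈ G, g ≠ 0 := by
    intro g hg
    rw [hG] at hg
    obtain ⟨m, hm, hgm⟩ := Finset.mem_biUnion.1 hg
    exact (Nat.pos_of_mem_divisors hgm).ne'
  have step1 : ∀ m ∈ M, ∀ n ∈ M, A m * (A n * (Nat.gcd m n : ℝ)) ≤
      ∑ g ∈ G, (if g ∣ m then A m else 0) * ((if g ∣ n then A n else 0) * (g : ℝ)) := by
    intro m hm n hn
    have h1 := Finset.single_le_sum
      (f := fun g : ℕ => (if g ∣ m then A m else 0) * ((if g ∣ n then A n else 0) * (g : ℝ)))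
      (s := G) (fun g _ => by
        refine mul_nonneg ?_ (mul_nonneg ?_ (Nat.cast_nonneg g))
        · split_ifs
          · exact hA m
          · exact le_rfl
        · split_ifs
          · exact hA n
          · exact le_rfl) (hmem m hm _ (Nat.gcd_dvd_left m n))
    have h2 : (if Nat.gcd m n ∣ m then A m else 0) *
        ((if Nat.gcd m n ∣ n then A n else 0) * ((Nat.gcd m n : ℕ) : ℝ)) =
        A m * (A n * (Nat.gcd m n : ℝ)) := by
      rw [if_pos (Nat.gcd_dvd_left m n), if_pos (Nat.gcd_dvd_right m n)]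
    rw [← h2]
    exact h1
  have step3 : ∀ g ∈ G, ∑ m ∈ M, (if g ∣ m then A m else 0) ≤ A g * ∑ a ∈ G, A a := by
    intro g hg
    have hg0 := Nat.pos_of_ne_zero (hG0 g hg)
    rw [← Finset.sum_filter]
    have h1 : ∑ m ∈ M.filter (fun m => g ∣ m), A m ≤
        ∑ m ∈ M.filter (fun m => g ∣ m), A g * A (m / g) := by
      refine Finset.sum_le_sum fun m hm => ?_
      obtain ⟨hmM, hgm⟩ := Finset.mem_filter.1 hm
      obtain ⟨a, rfl⟩ := hgm
      have ha : a ≠ 0 := fun h => hM _ hmM (by rw [h, mul_zero])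
      rw [Nat.mul_div_cancel_left a hg0]
      exact hmul g a hg0.ne' ha
    have h2 : ∑ m ∈ M.filter (fun m => g ∣ m), A (m / g) ≤ ∑ a ∈ G, A a := by
      refine dbl_inj (M.filter (fun m => g ∣ m)) G (fun m => m / g) ?_ ?_ A (fun b _ => hA b)
      · intro m hm
        obtain ⟨hmM, hgm⟩ := Finset.mem_filter.1 hm
        exact hmem m hmM _ (Nat.div_dvd_of_dvd hgm)
      · intro m hm m' hm' h
        obtain ⟨hmM, hgm⟩ := Finset.mem_filter.1 hm
        obtain ⟨hmM', hgm'⟩ := Finset.mem_filter.1 hm'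
        have h' : m / g = m' / g := h
        rw [← Nat.div_mul_cancel hgm, ← Nat.div_mul_cancel hgm', h']
    calc ∑ m ∈ M.filter (fun m => g ∣ m), A m
        ≤ ∑ m ∈ M.filter (fun m => g ∣ m), A g * A (m / g) := h1
      _ = A g * ∑ m ∈ M.filter (fun m => g ∣ m), A (m / g) := by rw [Finset.mul_sum]
      _ ≤ A g * ∑ a ∈ G, A a := mul_le_mul_of_nonneg_left h2 (hA g)
  calc ∑ m ∈ M, A m * ∑ n ∈ M, A n * (Nat.gcd m n : ℝ)
      = ∑ m ∈ M, ∑ n ∈ M, A m * (A n * (Nat.gcd m n : ℝ)) := by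
        refine Finset.sum_congr rfl fun m _ => ?_
        rw [Finset.mul_sum]
    _ ≤ ∑ m ∈ M, ∑ n ∈ M, ∑ g ∈ G,
          (if g ∣ m then A m else 0) * ((if g ∣ n then A n else 0) * (g : ℝ)) :=
        Finset.sum_le_sum fun m hm => Finset.sum_le_sum fun n hn => step1 m hm n hn
    _ = ∑ g ∈ G, ∑ m ∈ M, ∑ n ∈ M,
          (if g ∣ m then A m else 0) * ((if g ∣ n then A n else 0) * (g : ℝ)) := by
        rw [Finset.sum_comm' (s := G) (t := fun _ => M) (t' := M) (s' := fun _ => G)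
          (fun x y => by tauto)]
        refine Finset.sum_congr rfl fun m _ => ?_
        rw [Finset.sum_comm]
    _ = ∑ g ∈ G, (g : ℝ) * (∑ m ∈ M, (if g ∣ m then A m else 0)) ^ 2 := by
        refine Finset.sum_congr rfl fun g _ => ?_
        have e1 : ∀ m ∈ M, ∑ n ∈ M,
            (if g ∣ m then A m else 0) * ((if g ∣ n then A n else 0) * (g : ℝ)) =
            (if g ∣ m then A m else 0) * ((∑ n ∈ M, (if g ∣ n then A n else 0)) * (g : ℝ)) := by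
          intro m _
          rw [Finset.sum_mul, Finset.mul_sum]
        rw [Finset.sum_congr rfl e1, ← Finset.sum_mul]
        ring
    _ ≤ ∑ g ∈ G, (g : ℝ) * (A g * ∑ a ∈ G, A a) ^ 2 := by
        refine Finset.sum_le_sum fun g hg => ?_
        refine mul_le_mul_of_nonneg_left ?_ (Nat.cast_nonneg g)
        refine pow_le_pow_left₀ (Finset.sum_nonneg fun m _ => ?_) (step3 g hg) 2
        split_ifs
        · exact hA m
        · exact le_rfl
    _ = (∑ g ∈ G, (g : ℝ) * A g ^ 2) * (∑ a ∈ G, A a) ^ 2 := by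
        rw [Finset.sum_mul]
        refine Finset.sum_congr rfl fun g _ => ?_
        ring

theorem dbl_log {l d : ℕ} (hl : 1 ≤ Real.log l) (hd : d ≠ 0) :
    1 + Real.log d ≤ Real.log l * (d : ℝ) ^ (1 / Real.log l) := by
  have hd0 : (0 : ℝ) < d := by exact_mod_cast Nat.pos_of_ne_zero hd
  have hl0 : 0 < Real.log l := by linarith
  have h1 : (d : ℝ) ^ (1 / Real.log l) = Real.exp (Real.log d * (1 / Real.log l)) :=
    Real.rpow_def_of_pos hd0 _
  have h2 := Real.add_one_le_exp (Real.log d * (1 / Real.log l))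
  rw [h1]
  have h3 := mul_le_mul_of_nonneg_left h2 hl0.le
  have h4 : Real.log l * (Real.log d * (1 / Real.log l) + 1) = Real.log d + Real.log l := by
    field_simp
  linarith

theorem dbl_point {l d : ℕ} (hlp : l.Prime) (hl : 1 ≤ Real.log l) (h : gpf d = l) :
    (1 + Real.log d) * (ow (mpt d) / d) ≤
      Real.log l * (dbl_A l (mpt d) * (Real.exp 1 / l) ^ d.factorization l) := by
  obtain ⟨hd, hj, hm, hdm, -⟩ := dbl_gpf hlp h
  have hd0 : (0 : ℝ) < d := by exact_mod_cast Nat.pos_of_ne_zero hd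
  have hl0 : (0 : ℝ) < l := by exact_mod_cast hlp.pos
  have hlog : 0 < Real.log l := by linarith
  have h1 := dbl_log hl hd
  obtain ⟨j, hjd⟩ : ∃ j, j = d.factorization l := ⟨_, rfl⟩
  obtain ⟨m, hmd⟩ : ∃ m, m = mpt d := ⟨_, rfl⟩
  rw [← hjd, ← hmd] at hdm
  rw [← hjd, ← hmd]
  have h2 : (d : ℝ) ^ (1 / Real.log l) / d = (d : ℝ) ^ (1 / Real.log l - 1) := by
    rw [Real.rpow_sub hd0, Real.rpow_one]
  have h3 : (d : ℝ) ^ (1 / Real.log l - 1) =
      (m : ℝ) ^ (1 / Real.log l - 1) * (Real.exp 1 / l) ^ j := by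
    have e1 : (d : ℝ) = (m : ℝ) * (l : ℝ) ^ j := by
      rw [hdm]
      push_cast
      ring
    rw [e1, Real.mul_rpow (Nat.cast_nonneg m) (pow_nonneg hl0.le j)]
    congr 1
    rw [← Real.rpow_pow_comm hl0.le, Real.rpow_sub hl0, Real.rpow_one]
    congr 2
    rw [Real.rpow_def_of_pos hl0]
    congr 1
    field_simp
  have h4 : 0 ≤ ow m / d := div_nonneg (dbl_ow_pos m).le hd0.le
  calc (1 + Real.log d) * (ow m / d)
      ≤ (Real.log l * (d : ℝ) ^ (1 / Real.log l)) * (ow m / d) :=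
        mul_le_mul_of_nonneg_right h1 h4
    _ = Real.log l * (ow m * ((d : ℝ) ^ (1 / Real.log l) / d)) := by ring
    _ = Real.log l * (dbl_A l m * (Real.exp 1 / l) ^ j) := by
        rw [h2, h3]
        unfold dbl_A
        ring

theorem dbl_R {l : ℕ} (hlp : l.Prime) (T : Finset ℕ) (hT : ∀ d ∈ T, gpf d = l) (f : ℕ → ℝ)
    (hf : ∀ m, 0 ≤ f m) (x : ℝ) (hx : 0 ≤ x) :
    ∑ d ∈ T, f (mpt d) * x ^ d.factorization l ≤
      (∑ m ∈ T.image mpt, f m) * ∑ j ∈ T.image (fun d => d.factorization l), x ^ j := by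
  rw [Finset.sum_mul_sum, ← Finset.sum_product']
  refine dbl_inj T (T.image mpt ×ˢ T.image (fun d => d.factorization l))
    (fun d => (mpt d, d.factorization l)) ?_ ?_ (fun p => f p.1 * x ^ p.2) ?_
  · intro d hd
    exact Finset.mem_product.2 ⟨Finset.mem_image_of_mem _ hd,
      Finset.mem_image_of_mem (fun d => d.factorization l) hd⟩
  · intro d hd e he h
    have h1 : mpt d = mpt e := congrArg Prod.fst h
    have h2 : d.factorization l = e.factorization l := congrArg Prod.snd h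
    rw [(dbl_gpf hlp (hT d hd)).2.2.2.1, (dbl_gpf hlp (hT e he)).2.2.2.1, h1, h2]
  · intro p _
    exact mul_nonneg (hf _) (pow_nonneg hx _)

theorem dbl_num {C l y : ℝ} (hC : 0 < C) (hy : 1 ≤ y) (hl : l = y ^ 40) (L X G : ℝ)
    (hL0 : 0 ≤ L) (hX0 : 0 ≤ X) (hG0 : 0 ≤ G)
    (hL : L ≤ 10 * y ^ 4) (hX : X ≤ 2 * (Real.exp 1 / l)) (hG : G ≤ C * y) :
    L ^ 2 * (X ^ 2 * (G * G ^ 2)) ≤ 400 * Real.exp 1 ^ 2 * C ^ 3 * (y ^ 60)⁻¹ := by
  have hy0 : 0 < y := by linarith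
  have hl0 : 0 < l := by rw [hl]; positivity
  have h1 : L ^ 2 ≤ (10 * y ^ 4) ^ 2 := pow_le_pow_left₀ hL0 hL 2
  have h2 : X ^ 2 ≤ (2 * (Real.exp 1 / l)) ^ 2 := pow_le_pow_left₀ hX0 hX 2
  have h3 : G ^ 3 ≤ (C * y) ^ 3 := pow_le_pow_left₀ hG0 hG 3
  have h4 : X ^ 2 * G ^ 3 ≤ (2 * (Real.exp 1 / l)) ^ 2 * (C * y) ^ 3 :=
    mul_le_mul h2 h3 (pow_nonneg hG0 3) (by positivity)
  have h5 : L ^ 2 * (X ^ 2 * G ^ 3) ≤
      (10 * y ^ 4) ^ 2 * ((2 * (Real.exp 1 / l)) ^ 2 * (C * y) ^ 3) :=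
    mul_le_mul h1 h4 (by positivity) (by positivity)
  have e1 : L ^ 2 * (X ^ 2 * (G * G ^ 2)) = L ^ 2 * (X ^ 2 * G ^ 3) := by ring
  rw [e1]
  refine h5.trans ?_
  have e2 : (10 * y ^ 4) ^ 2 * ((2 * (Real.exp 1 / l)) ^ 2 * (C * y) ^ 3) =
      400 * Real.exp 1 ^ 2 * C ^ 3 * (y ^ 69)⁻¹ := by
    rw [hl]
    field_simp
    ring
  rw [e2]
  have h6 : (y ^ 69)⁻¹ ≤ (y ^ 60)⁻¹ :=
    inv_anti₀ (by positivity) (pow_le_pow_right₀ hy (by norm_num))
  exact mul_le_mul_of_nonneg_left h6 (by positivity)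

theorem dbl_sum : ∃ C : ℝ, 0 < C ∧ ∃ L : ℕ, 1 ≤ L ∧ ∀ l : ℕ, L ≤ l → l.Prime → ∀ T : Finset ℕ,
    (∀ d ∈ T, gpf d = l) →
    ∑ d ∈ T, ∑ e ∈ T, (1 + Real.log d) * (1 + Real.log e) * wt d e
      ≤ C * (l : ℝ) ^ (-(3 : ℝ) / 2) := by
  classical
  obtain ⟨C, hC, L, hL, hS⟩ := smooth_sum
  refine ⟨400 * Real.exp 1 ^ 2 * C ^ 3, by positivity, L, by omega, ?_⟩
  intro l hl hlp T hT
  have hl3 : (3000 : ℝ) ≤ l := by exact_mod_cast hL.trans hl
  have hl0 : (0 : ℝ) < l := by linarith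
  have he3 : Real.exp 1 < 3 := Real.exp_one_lt_three
  have hlog1 : 1 ≤ Real.log l := by
    rw [Real.le_log_iff_exp_le hl0]
    linarith
  have hlog0 : 0 ≤ Real.log l := by linarith
  obtain ⟨x, hx⟩ : ∃ x : ℝ, x = Real.exp 1 / l := ⟨_, rfl⟩
  have hx0 : 0 ≤ x := by rw [hx]; positivity
  have hx2 : x ≤ 1 / 2 := by
    rw [hx, div_le_iff₀ hl0]
    linarith
  obtain ⟨M, hM⟩ : ∃ M, M = T.image mpt := ⟨_, rfl⟩
  obtain ⟨J, hJ⟩ : ∃ J, J = T.image (fun d => d.factorization l) := ⟨_, rfl⟩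
  obtain ⟨X, hX⟩ : ∃ X : ℝ, X = ∑ j ∈ J, x ^ j := ⟨_, rfl⟩
  have hX0 : 0 ≤ X := by
    rw [hX]
    exact Finset.sum_nonneg fun j _ => pow_nonneg hx0 j
  have hX2 : X ≤ 2 * x := by
    rw [hX]
    refine dbl_geo J ?_ x hx0 hx2
    intro j hj
    rw [hJ] at hj
    obtain ⟨d, hd, rfl⟩ := Finset.mem_image.1 hj
    exact (dbl_gpf hlp (hT d hd)).2.1
  have hM0 : ∀ m ∈ M, m ≠ 0 ∧ ∀ p, p.Prime → p ∣ m → p < l := by
    intro m hm
    rw [hM] at hm
    obtain ⟨d, hd, rfl⟩ := Finset.mem_image.1 hm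
    exact ⟨(dbl_gpf hlp (hT d hd)).2.2.1, (dbl_gpf hlp (hT d hd)).2.2.2.2⟩
  have hR : ∀ f : ℕ → ℝ, (∀ m, 0 ≤ f m) →
      ∑ d ∈ T, f (mpt d) * x ^ d.factorization l ≤ (∑ m ∈ M, f m) * X := by
    intro f hf
    rw [hM, hX, hJ]
    exact dbl_R hlp T hT f hf x hx0
  obtain ⟨A, hA⟩ : ∃ A : ℕ → ℝ, A = dbl_A l := ⟨_, rfl⟩
  have hA0 : ∀ m, 0 ≤ A m := by
    intro m
    rw [hA]
    exact dbl_A_nonneg l m
  -- the pointwise bound
  have hpt : ∀ d ∈ T, (1 + Real.log d) * (ow (mpt d) / d) ≤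
      Real.log l * (A (mpt d) * x ^ d.factorization l) := by
    intro d hd
    rw [hA, hx]
    exact dbl_point hlp hlog1 (hT d hd)
  have hpos : ∀ d ∈ T, 0 ≤ (1 + Real.log d) * (ow (mpt d) / d) := by
    intro d _
    have h1 : 0 ≤ Real.log d := Real.log_natCast_nonneg d
    have h2 := (dbl_ow_pos (mpt d)).le
    positivity
  have hterm : ∀ d ∈ T, ∀ e ∈ T, (1 + Real.log d) * (1 + Real.log e) * wt d e ≤
      Real.log l ^ 2 * ((A (mpt d) * x ^ d.factorization l) *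
        ((A (mpt e) * (Nat.gcd (mpt d) (mpt e) : ℝ)) * x ^ e.factorization l)) := by
    intro d hd e he
    have h1 : (1 + Real.log d) * (1 + Real.log e) * wt d e =
        ((1 + Real.log d) * (ow (mpt d) / d)) * ((1 + Real.log e) * (ow (mpt e) / e)) *
          (Nat.gcd (mpt d) (mpt e) : ℝ) := by
      unfold wt
      rw [if_pos ((hT d hd).trans (hT e he).symm)]
      ring
    rw [h1]
    have h2 : ((1 + Real.log d) * (ow (mpt d) / d)) * ((1 + Real.log e) * (ow (mpt e) / e)) ≤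
        (Real.log l * (A (mpt d) * x ^ d.factorization l)) *
          (Real.log l * (A (mpt e) * x ^ e.factorization l)) :=
      mul_le_mul (hpt d hd) (hpt e he) (hpos e he) ((hpos d hd).trans (hpt d hd))
    have h3 := mul_le_mul_of_nonneg_right h2 (Nat.cast_nonneg (α := ℝ) (Nat.gcd (mpt d) (mpt e)))
    refine h3.trans (le_of_eq ?_)
    ring
  have hsum1 : ∑ d ∈ T, ∑ e ∈ T, (1 + Real.log d) * (1 + Real.log e) * wt d e ≤
      Real.log l ^ 2 * (X ^ 2 * ∑ m ∈ M, A m * ∑ n ∈ M, A n * (Nat.gcd m n : ℝ)) := by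
    calc ∑ d ∈ T, ∑ e ∈ T, (1 + Real.log d) * (1 + Real.log e) * wt d e
        ≤ ∑ d ∈ T, ∑ e ∈ T, Real.log l ^ 2 * ((A (mpt d) * x ^ d.factorization l) *
            ((A (mpt e) * (Nat.gcd (mpt d) (mpt e) : ℝ)) * x ^ e.factorization l)) :=
          Finset.sum_le_sum fun d hd => Finset.sum_le_sum fun e he => hterm d hd e he
      _ = Real.log l ^ 2 * ∑ d ∈ T, (A (mpt d) * x ^ d.factorization l) *
            ∑ e ∈ T, (A (mpt e) * (Nat.gcd (mpt d) (mpt e) : ℝ)) * x ^ e.factorization l := by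
          rw [Finset.mul_sum]
          refine Finset.sum_congr rfl fun d _ => ?_
          rw [Finset.mul_sum, Finset.mul_sum]
      _ ≤ Real.log l ^ 2 * ∑ d ∈ T, (A (mpt d) * x ^ d.factorization l) *
            ((∑ n ∈ M, A n * (Nat.gcd (mpt d) n : ℝ)) * X) := by
          refine mul_le_mul_of_nonneg_left ?_ (sq_nonneg _)
          refine Finset.sum_le_sum fun d _ => ?_
          refine mul_le_mul_of_nonneg_left ?_ (mul_nonneg (hA0 _) (pow_nonneg hx0 _))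
          exact hR (fun n => A n * (Nat.gcd (mpt d) n : ℝ))
            (fun m => mul_nonneg (hA0 m) (Nat.cast_nonneg _))
      _ = Real.log l ^ 2 * (X * ∑ d ∈ T,
            (A (mpt d) * ∑ n ∈ M, A n * (Nat.gcd (mpt d) n : ℝ)) * x ^ d.factorization l) := by
          congr 1
          rw [Finset.mul_sum]
          refine Finset.sum_congr rfl fun d _ => ?_
          ring
      _ ≤ Real.log l ^ 2 * (X * ((∑ m ∈ M, A m * ∑ n ∈ M, A n * (Nat.gcd m n : ℝ)) * X)) := by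
          refine mul_le_mul_of_nonneg_left ?_ (sq_nonneg _)
          refine mul_le_mul_of_nonneg_left ?_ hX0
          exact hR (fun m => A m * ∑ n ∈ M, A n * (Nat.gcd m n : ℝ))
            (fun m => mul_nonneg (hA0 m) (Finset.sum_nonneg fun n _ =>
              mul_nonneg (hA0 n) (Nat.cast_nonneg _)))
      _ = _ := by ring
  obtain ⟨G, hG⟩ : ∃ G, G = M.biUnion Nat.divisors := ⟨_, rfl⟩
  have hG1 : ∀ g ∈ G, g ≠ 0 ∧ ∀ p, p.Prime → p ∣ g → p < l := by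
    intro g hg
    rw [hG] at hg
    obtain ⟨m, hm, hgm⟩ := Finset.mem_biUnion.1 hg
    refine ⟨(Nat.pos_of_mem_divisors hgm).ne', ?_⟩
    intro p hp hpg
    exact (hM0 m hm).2 p hp (hpg.trans (Nat.dvd_of_mem_divisors hgm))
  have hFl := hS l hl G hG1
  have hgcd := dbl_gcd M (fun m hm => (hM0 m hm).1) A hA0 (by
    intro g a hg ha
    rw [hA]
    exact dbl_A_mul l hg ha)
  rw [← hG] at hgcd
  obtain ⟨F, hF⟩ : ∃ F : ℝ, F = ∑ m ∈ G, fl l m := ⟨_, rfl⟩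
  have hs1 : ∑ g ∈ G, (g : ℝ) * A g ^ 2 ≤ F := by
    rw [hF, hA]
    exact Finset.sum_le_sum fun g hg => dbl_fl2 (hG1 g hg).1
  have hs2 : ∑ a ∈ G, A a ≤ F := by
    rw [hF, hA]
    exact Finset.sum_le_sum fun g hg => dbl_fl1 hlog0 (hG1 g hg).1
  have hs3 : 0 ≤ ∑ a ∈ G, A a := Finset.sum_nonneg fun a _ => hA0 a
  have hF0 : 0 ≤ F := hs3.trans hs2
  rw [← hF] at hFl
  have hgcd2 : ∑ m ∈ M, A m * ∑ n ∈ M, A n * (Nat.gcd m n : ℝ) ≤ F * F ^ 2 :=
    hgcd.trans (mul_le_mul hs1 (pow_le_pow_left₀ hs3 hs2 2) (sq_nonneg _) hF0)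
  obtain ⟨y, hy⟩ : ∃ y : ℝ, y = (l : ℝ) ^ ((1 : ℝ) / 40) := ⟨_, rfl⟩
  have hy1 : 1 ≤ y := by
    rw [hy]
    exact Real.one_le_rpow (by linarith) (by norm_num)
  have hyl : (l : ℝ) = y ^ 40 := by
    rw [hy, ← Real.rpow_natCast, ← Real.rpow_mul hl0.le]
    norm_num
  have hy4 : (l : ℝ) ^ ((1 : ℝ) / 10) = y ^ 4 := by
    rw [hy, ← Real.rpow_natCast, ← Real.rpow_mul hl0.le]
    norm_num
  have hy60 : (l : ℝ) ^ (-(3 : ℝ) / 2) = (y ^ 60)⁻¹ := by
    rw [hy, ← Real.rpow_natCast, ← Real.rpow_mul hl0.le, ← Real.rpow_neg hl0.le]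
    norm_num
  have hlogle : Real.log l ≤ 10 * y ^ 4 := by
    have h1 := Real.log_le_rpow_div hl0.le (show (0 : ℝ) < 1 / 10 by norm_num)
    rw [hy4] at h1
    linarith
  rw [hy60]
  refine hsum1.trans ?_
  refine le_trans ?_ (dbl_num hC hy1 hyl (Real.log l) X F hlog0 hX0 hF0 hlogle
    (by rw [← hx]; exact hX2) (by rw [hy]; exact hFl))
  refine mul_le_mul_of_nonneg_left ?_ (sq_nonneg _)
  exact mul_le_mul_of_nonneg_left hgcd2 (sq_nonneg _)

end Pool.H53.NA
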