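import Mathlib

/-!
Problem MP_2497bc_nt: no arithmetic progression of non-representable numbers.  Definitions.
-/

set_option autoImplicit false

namespace Pool.H53.NA

open scoped Pointwise

/-- `n` is a prime plus at most `r` powers of two. -/
def Rep (r n : ℕ) : Prop :=
  ∃ p : ℕ, p.Prime ∧ ∃ l : List ℕ, l.length ≤ r ∧ n = p + (l.map fun k => 2 ^ k).sum

/-- `E r`: the odd positive integers that are not a prime plus at most `r` powers of two. -/
def E (r : ℕ) : Set ℕ := {n | Odd n ∧ ¬ Rep r n}

/-! ### Additive combinatorics -/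

section ring

variable {R : Type} [CommRing R] [DecidableEq R]

/-- dilation of a finite set -/
def dil (ξ : R) (A : Finset R) : Finset R := A.image fun a => ξ * a

/-- `|A - ξ A| ≤ x |A|` -/
def Xi (A : Finset R) (x : ℝ) (ξ : R) : Prop := (((A - dil ξ A).card : ℕ) : ℝ) ≤ x * A.card

/-- finite sets that are multiplicative subgroups -/
structure SGL (H : Finset R) : Prop where
  one : (1 : R) ∈ H
  mul : ∀ g ∈ H, ∀ h ∈ H, g * h ∈ H
  inv : ∀ h ∈ H, ∃ g ∈ H, g * h = 1

end ring

section group

variable {V : Type} [AddCommGroup V]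

/-- additive energy -/
def E4 [DecidableEq V] (A : Finset V) : ℕ :=
  ((A ×ˢ A ×ˢ A ×ˢ A).filter fun x => x.1 + x.2.1 = x.2.2.1 + x.2.2.2).card

/-- additive convolution -/
noncomputable def cv [Fintype V] (f g : V → ℝ) (y : V) : ℝ := ∑ x, f x * g (y - x)

/-- the effective size of the support of `f` -/
noncomputable def Nf [Fintype V] (f : V → ℝ) : ℝ := (∑ x, f x) ^ 2 / ∑ x, f x ^ 2

end group

/-! ### Sums of powers of two modulo `N` -/

/-- the number of `k ∈ {0, …, D-1}^s` with `∑ 2 ^ (k i) = y` modulo `N` -/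
def rep (N D s : ℕ) (y : ZMod N) : ℕ :=
  ((Finset.univ : Finset (Fin s → Fin D)).filter fun k => ∑ i, (2 : ZMod N) ^ (k i : ℕ) = y).card

/-- the energy: the number of pairs with equal sums -/
def en (N D s : ℕ) [NeZero N] : ℕ := ∑ y : ZMod N, rep N D s y ^ 2

/-- the powers of two modulo `N` -/
noncomputable def pw (N : ℕ) : Finset (ZMod N) :=
  (Finset.range (orderOf (2 : ZMod N))).image fun k => (2 : ZMod N) ^ k

/-- the exponential sum -/
noncomputable def SS (N D : ℕ) [NeZero N] (a : ZMod N) : ℂ :=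
  ∑ k ∈ Finset.range D, (ZMod.stdAddChar (N := N) (a * 2 ^ k) : ℂ)

end Pool.H53.NA
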