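import Pool.Agent.H53.NA.Defs

/-!
Row Drc: dependent random choice.  PROOF.  Write `n = |A|`, `N b = {a ∈ A : G a b}` for `b ∈ A`.
`∑_{b ∈ A} |N b| = |{(a,b) ∈ A² : G a b}| ≥ α n²`, so by Cauchy-Schwarz `∑_b |N b|² ≥ α² n³`
(`inner_mul_le_norm_mul_norm` or `sq_sum_le_card_mul_sum_sq`).  Call `(a,a') ∈ A²` bad if its
codegree `|{b ∈ A : G a b ∧ G a' b}|` is `< α²/32 * n`.  Let `bad b` be the number of bad pairs in
`N b × N b`.  Double counting: `∑_b bad b = ∑_{(a,a') bad} codegree ≤ n² * (α²/32) n`.  Hence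
`∑_b (|N b|² - 16 bad b) ≥ α² n³ - α² n³/2 = (α²/2) n³`, so some `b ∈ A` has
`|N b|² - 16 bad b ≥ (α²/2) n²` (`Finset.exists_le_of_sum_le`).  Take `A1 = N b`: then
`|A1|² ≥ (α²/2) n² ≥ ((α/2) n)²` and `16 bad b ≤ |A1|²`.
-/

set_option autoImplicit false

namespace Pool.H53.NA

theorem drc {X : Type} [DecidableEq X] (A : Finset X) (G : X → X → Prop) [DecidableRel G]
    (α : ℝ) (hα : 0 < α) (hA : A.Nonempty)
    (hG : α * (A.card : ℝ) ^ 2 ≤ (((A ×ˢ A).filter fun p => G p.1 p.2).card : ℝ)) :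
    ∃ A1 : Finset X, A1 ⊆ A ∧ α / 2 * A.card ≤ A1.card ∧
      (((A1 ×ˢ A1).filter fun p => ((A.filter fun b => G p.1 b ∧ G p.2 b).card : ℝ)
          < α ^ 2 / 32 * A.card).card : ℝ) ≤ 1 / 16 * (A1.card : ℝ) ^ 2 := by
  classical
  set n : ℝ := (A.card : ℝ) with hn
  have hn0 : 0 < n := by
    rw [hn]
    exact_mod_cast hA.card_pos
  set N : X → Finset X := fun b => A.filter fun a => G a b with hN
  set Bad : X × X → Prop := fun p =>
    ((A.filter fun b => G p.1 b ∧ G p.2 b).card : ℝ) < α ^ 2 / 32 * n with hBad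
  set bad : X → ℕ := fun b => ((N b ×ˢ N b).filter Bad).card with hbad
  have h1 : ∑ b ∈ A, ((N b).card : ℝ) = (((A ×ˢ A).filter fun p => G p.1 p.2).card : ℝ) := by
    rw [← Nat.cast_sum]
    congr 1
    rw [Finset.card_filter, Finset.sum_product_right]
    refine Finset.sum_congr rfl fun b _ => ?_
    rw [hN, Finset.card_filter]
  have h2 : (∑ b ∈ A, ((N b).card : ℝ)) ^ 2 ≤ n * ∑ b ∈ A, ((N b).card : ℝ) ^ 2 :=
    sq_sum_le_card_mul_sum_sq
  have h3 : α ^ 2 * n ^ 3 ≤ ∑ b ∈ A, ((N b).card : ℝ) ^ 2 := by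
    rw [h1] at h2
    have h4 : (α * n ^ 2) ^ 2 ≤ n * ∑ b ∈ A, ((N b).card : ℝ) ^ 2 := by
      refine le_trans ?_ h2
      exact pow_le_pow_left₀ (by positivity) hG 2
    have h5 : n * (α ^ 2 * n ^ 3) ≤ n * ∑ b ∈ A, ((N b).card : ℝ) ^ 2 := by
      calc n * (α ^ 2 * n ^ 3) = (α * n ^ 2) ^ 2 := by ring
        _ ≤ _ := h4
    exact le_of_mul_le_mul_left h5 hn0
  have h6 : ∑ b ∈ A, (bad b : ℝ) ≤ α ^ 2 / 32 * n ^ 3 := by
    have e1 : ∑ b ∈ A, (bad b : ℝ) = ∑ p ∈ A ×ˢ A, (if Bad p then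
        ((A.filter fun b => G p.1 b ∧ G p.2 b).card : ℝ) else 0) := by
      have e2 : ∀ b ∈ A, (bad b : ℝ) =
          ∑ p ∈ A ×ˢ A, (if Bad p ∧ (G p.1 b ∧ G p.2 b) then (1 : ℝ) else 0) := by
        intro b _
        have e3 : (N b ×ˢ N b).filter Bad =
            (A ×ˢ A).filter (fun p => Bad p ∧ (G p.1 b ∧ G p.2 b)) := by
          ext p
          simp only [hN, Finset.mem_filter, Finset.mem_product]
          tauto
        change (((((N b ×ˢ N b).filter Bad).card : ℕ)) : ℝ) = _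
        rw [e3, ← Finset.sum_filter, Finset.sum_const, nsmul_eq_mul, mul_one]
      rw [Finset.sum_congr rfl e2, Finset.sum_comm]
      refine Finset.sum_congr rfl fun p _ => ?_
      by_cases hp : Bad p
      · simp only [hp, true_and, if_true]
        rw [← Finset.sum_filter, Finset.sum_const, nsmul_eq_mul, mul_one]
      · simp only [hp, false_and, if_false, Finset.sum_const_zero]
    rw [e1]
    calc _ ≤ ∑ p ∈ A ×ˢ A, α ^ 2 / 32 * n := by
          refine Finset.sum_le_sum fun p _ => ?_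
          by_cases hp : Bad p
          · rw [if_pos hp]
            exact le_of_lt hp
          · rw [if_neg hp]
            positivity
      _ = α ^ 2 / 32 * n ^ 3 := by
          rw [Finset.sum_const, Finset.card_product, nsmul_eq_mul]
          push_cast
          rw [← hn]
          ring
  have h7 : ∑ b ∈ A, (α ^ 2 / 2 * n ^ 2) ≤
      ∑ b ∈ A, (((N b).card : ℝ) ^ 2 - 16 * (bad b : ℝ)) := by
    rw [Finset.sum_const, nsmul_eq_mul, Finset.sum_sub_distrib, ← Finset.mul_sum, ← hn]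
    nlinarith [h3, h6]
  obtain ⟨b, _, hb⟩ := Finset.exists_le_of_sum_le hA h7
  refine ⟨N b, Finset.filter_subset _ _, ?_, ?_⟩
  · by_contra hlt
    push Not at hlt
    have h8 : ((N b).card : ℝ) ^ 2 < (α / 2 * n) ^ 2 :=
      pow_lt_pow_left₀ hlt (by positivity) (by norm_num)
    have h9 : (0 : ℝ) ≤ (bad b : ℝ) := by positivity
    have h10 : 0 < α ^ 2 * n ^ 2 := by positivity
    nlinarith
  · have h11 : ((((N b ×ˢ N b).filter Bad).card : ℕ) : ℝ) = (bad b : ℝ) := rfl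
    have h10 : 0 < α ^ 2 * n ^ 2 := by positivity
    have h12 : (((((N b) ×ˢ (N b)).filter fun p =>
        ((A.filter fun b => G p.1 b ∧ G p.2 b).card : ℝ) < α ^ 2 / 32 * n).card : ℕ) : ℝ)
        = (bad b : ℝ) := by
      rw [← h11]
    rw [h12]
    nlinarith

end Pool.H53.NA
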