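import Pool.Agent.H53.NA.LS

/-!
The theorem on arithmetic progressions (assembly).
-/

set_option autoImplicit false

namespace Pool.H53.NA

theorem ap_odd (r : ℕ) (hr : ∀ P : Finset ℕ, (∀ q ∈ P, q.Prime ∧ q ≠ 2) → ∀ n : ℤ,
    ∃ k : Fin r → ℕ, ∀ q ∈ P, ((n : ZMod q) - ∑ i, (2 : ZMod q) ^ (k i)) ≠ 0)
    (a b : ℕ) (hb : 0 < b) (ha : Odd a) (N : ℕ) :
    ∃ n : ℕ, N < n ∧ n ≡ a [MOD 2 * b] ∧ ∃ p : ℕ, p.Prime ∧ ∃ k : Fin r → ℕ,
      n = p + ∑ i, 2 ^ k i := by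
  set P : Finset ℕ := (2 * b).primeFactors.erase 2 with hPdef
  have hP : ∀ q ∈ P, q.Prime ∧ q ≠ 2 := by
    intro q hq
    rw [hPdef, Finset.mem_erase] at hq
    exact ⟨Nat.prime_of_mem_primeFactors hq.2, hq.1⟩
  obtain ⟨k, hk⟩ := hr P hP a
  have hoddP : Odd (∏ q ∈ P, q) := by
    apply Finset.prod_induction _ (fun n => Odd n) (fun a b ha hb => ha.mul hb) odd_one
    intro q hq
    exact (hP q hq).1.odd_of_ne_two (hP q hq).2
  set D : ℕ := Nat.totient (∏ q ∈ P, q) with hDdef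
  have hD : 0 < D := Nat.totient_pos.mpr hoddP.pos
  have h2q : ∀ q ∈ P, (2 : ZMod q) ^ D = 1 := by
    intro q hq
    apply two_pow_proj q (∏ q ∈ P, q) D (Finset.dvd_prod_of_mem (fun q => q) hq)
    have hcop : Nat.Coprime 2 (∏ q ∈ P, q) := (Nat.coprime_two_left).mpr hoddP
    have := ZMod.pow_totient (ZMod.unitOfCoprime 2 hcop)
    have h4 := congrArg Units.val this
    push_cast at h4
    rw [ZMod.coe_unitOfCoprime] at h4
    exact_mod_cast h4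
  set c : ℤ := (a : ℤ) - ∑ i, (2 : ℤ) ^ (k i + D) with hc
  have hNe : NeZero (2 * b) := ⟨by omega⟩
  have hcop : IsUnit ((c : ℤ) : ZMod (2 * b)) := by
    rw [ZMod.coe_int_isUnit_iff_isCoprime, Int.isCoprime_iff_gcd_eq_one]
    by_contra hg
    obtain ⟨p, hp, hpg⟩ := Nat.exists_prime_and_dvd hg
    have hpb : p ∣ 2 * b := by
      have := hpg.trans (Int.gcd_dvd_natAbs_left _ _)
      rwa [Int.natAbs_natCast] at this
    have hpc : (p : ℤ) ∣ c := by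
      have := hpg.trans (Int.gcd_dvd_natAbs_right _ _)
      exact Int.natCast_dvd.mpr this
    by_cases hp2 : p = 2
    · subst hp2
      have hsum : (2 : ℤ) ∣ ∑ i, (2 : ℤ) ^ (k i + D) :=
        Finset.dvd_sum fun i _ => dvd_pow_self 2 (by omega)
      have : (2 : ℤ) ∣ (a : ℤ) := by
        have hpc' : (2 : ℤ) ∣ c := by exact_mod_cast hpc
        have h5 := dvd_add hpc' hsum
        rw [hc] at h5
        simpa using h5
      have h6 : 2 ∣ a := by exact_mod_cast this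
      exact (Nat.not_even_iff_odd.mpr ha) (even_iff_two_dvd.mpr h6)
    · have hpP : p ∈ P := by
        rw [hPdef, Finset.mem_erase]
        exact ⟨hp2, Nat.mem_primeFactors.mpr ⟨hp, hpb, by omega⟩⟩
      apply hk p hpP
      have h7 : ((c : ℤ) : ZMod p) = 0 := (ZMod.intCast_zmod_eq_zero_iff_dvd c p).mpr hpc
      rw [hc] at h7
      push_cast at h7
      simp only [pow_add, h2q p hpP, mul_one] at h7
      exact_mod_cast h7
  obtain ⟨p, hpN, hpp, hpc⟩ := Nat.forall_exists_prime_gt_and_eq_mod hcop N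
  refine ⟨p + ∑ i, 2 ^ (k i + D), by omega, ?_, p, hpp, fun i => k i + D, rfl⟩
  rw [← ZMod.natCast_eq_natCast_iff]
  push_cast
  rw [hpc, hc]
  push_cast
  ring

theorem main : ∃ r : ℕ, (∀ a b : ℕ, 0 < b → (∃ m : ℕ, Odd (a + m * b)) →
      {n : ℕ | n ≡ a [MOD b] ∧ Odd n ∧
        ∃ p : ℕ, p.Prime ∧ ∃ k : Fin r → ℕ, n = p + ∑ i, 2 ^ k i}.Infinite) ∧
    ∀ a b : ℕ, 0 < b → ∃ j : ℕ, a + j * b ∉ E r := by
  obtain ⟨r, hr⟩ := LS
  have h1 : ∀ a b : ℕ, 0 < b → (∃ m : ℕ, Odd (a + m * b)) → ∀ N : ℕ, ∃ n : ℕ, N < n ∧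
      n ≡ a [MOD b] ∧ Odd n ∧ ∃ p : ℕ, p.Prime ∧ ∃ k : Fin r → ℕ, n = p + ∑ i, 2 ^ k i := by
    intro a b hb ⟨m, hm⟩ N
    obtain ⟨n, hn1, hn2, hn3⟩ := ap_odd r hr (a + m * b) b hb hm N
    refine ⟨n, hn1, ?_, ?_, hn3⟩
    · have h2 : n ≡ a + m * b [MOD b] := Nat.ModEq.of_mul_left 2 hn2
      have h3 : a + m * b ≡ a [MOD b] := by
        unfold Nat.ModEq
        rw [Nat.add_mul_mod_self_right]
      exact h2.trans h3
    · have h2 : n ≡ a + m * b [MOD 2] := Nat.ModEq.of_mul_right b hn2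
      rw [Nat.odd_iff] at hm ⊢
      unfold Nat.ModEq at h2
      omega
  refine ⟨r, ?_, ?_⟩
  · intro a b hb hm
    apply Set.infinite_of_not_bddAbove
    rintro ⟨N, hN⟩
    obtain ⟨n, hn1, hn2⟩ := h1 a b hb hm N
    have := hN hn2
    omega
  · intro a b hb
    by_contra hcon
    push Not at hcon
    have hodd : Odd (a + 0 * b) := (hcon 0).1
    obtain ⟨n, hn1, hn2, hn3, p, hp, k, hk⟩ := h1 a b hb ⟨0, hodd⟩ a
    obtain ⟨j, hj⟩ : ∃ j, n = a + j * b := by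
      have h2 : b ∣ n - a := (Nat.modEq_iff_dvd' hn1.le).mp hn2.symm
      obtain ⟨j, hj⟩ := h2
      exact ⟨j, by rw [mul_comm] at hj; omega⟩
    have h3 := (hcon j).2
    apply h3
    refine ⟨p, hp, List.ofFn k, by simp, ?_⟩
    rw [← hj, hk]
    congr 1
    rw [List.map_ofFn, List.sum_ofFn]
    rfl

end Pool.H53.NA
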