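import Pool.Agent.H53.NA.Fin

/-!
The theorem on arithmetic progressions for all large numbers of powers.
-/

set_option autoImplicit false

namespace Pool.H53.NA

/-- monotonicity in the number of powers: `s` further powers `2 ^ 1` -/
theorem more_powers (r s : ℕ) (a b : ℕ) (hb : 0 < b) (hm : ∃ m : ℕ, Odd (a + m * b))
    (h : ∀ a' : ℕ, (∃ m : ℕ, Odd (a' + m * b)) → {n : ℕ | n ≡ a' [MOD b] ∧ Odd n ∧
        ∃ p : ℕ, p.Prime ∧ ∃ k : Fin r → ℕ, n = p + ∑ i, 2 ^ k i}.Infinite) :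
    {n : ℕ | n ≡ a [MOD b] ∧ Odd n ∧
        ∃ p : ℕ, p.Prime ∧ ∃ k : Fin (r + s) → ℕ, n = p + ∑ i, 2 ^ k i}.Infinite := by
  obtain ⟨m, hm⟩ := hm
  -- `a' = a + 2 s b - 2 s`
  have hle : 2 * s ≤ 2 * s * b := Nat.le_mul_of_pos_right _ hb
  have hodd : ∃ m' : ℕ, Odd ((a + 2 * s * b - 2 * s) + m' * b) := by
    refine ⟨m, ?_⟩
    rw [Nat.odd_iff] at hm ⊢
    have e1 : (a + 2 * s * b - 2 * s) + m * b + 2 * s = (a + m * b) + 2 * (s * b) := by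
      have : 2 * s * b = 2 * (s * b) := by ring
      omega
    omega
  have hinf := h _ hodd
  have hinj : Set.InjOn (fun n : ℕ => n + 2 * s) {n : ℕ | n ≡ (a + 2 * s * b - 2 * s) [MOD b] ∧ Odd n ∧
        ∃ p : ℕ, p.Prime ∧ ∃ k : Fin r → ℕ, n = p + ∑ i, 2 ^ k i} := by
    intro x _ y _ hxy
    simp only at hxy
    omega
  refine (hinf.image hinj).mono ?_
  rintro _ ⟨n, ⟨hn1, hn2, p, hp, k, hk⟩, rfl⟩
  refine ⟨?_, ?_, p, hp, Fin.append k (fun _ => 1), ?_⟩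
  · have h1 : n + 2 * s ≡ (a + 2 * s * b - 2 * s) + 2 * s [MOD b] := hn1.add_right _
    have h2 : (a + 2 * s * b - 2 * s) + 2 * s = a + 2 * s * b := by omega
    rw [h2] at h1
    refine h1.trans ?_
    unfold Nat.ModEq
    rw [Nat.add_mul_mod_self_right]
  · rw [Nat.odd_iff] at hn2 ⊢
    simp only
    omega
  · simp only
    rw [Fin.sum_univ_add]
    simp only [Fin.append_left, Fin.append_right, Finset.sum_const, Finset.card_univ,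
      Fintype.card_fin, smul_eq_mul, pow_one]
    rw [hk]
    ring

theorem main_ge : ∃ r₀ : ℕ, ∀ r : ℕ, r₀ ≤ r →
    (∀ a b : ℕ, 0 < b → (∃ m : ℕ, Odd (a + m * b)) →
      {n : ℕ | n ≡ a [MOD b] ∧ Odd n ∧
        ∃ p : ℕ, p.Prime ∧ ∃ k : Fin r → ℕ, n = p + ∑ i, 2 ^ k i}.Infinite) ∧
    ∀ a b : ℕ, 0 < b → ∃ j : ℕ, a + j * b ∉ {n : ℕ | Odd n ∧ ¬ ∃ p : ℕ, p.Prime ∧
      ∃ l : List ℕ, l.length ≤ r ∧ n = p + (l.map fun k => 2 ^ k).sum} := by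
  obtain ⟨r₀, h1, h2⟩ := main
  refine ⟨r₀, ?_⟩
  intro r hr
  obtain ⟨s, rfl⟩ := Nat.exists_eq_add_of_le hr
  refine ⟨fun a b hb hm => more_powers r₀ s a b hb hm (fun a' hm' => h1 a' b hb hm'), ?_⟩
  intro a b hb
  obtain ⟨j, hj⟩ := h2 a b hb
  refine ⟨j, ?_⟩
  intro hcon
  apply hj
  refine ⟨hcon.1, ?_⟩
  rintro ⟨p, hp, l, hl, hn⟩
  exact hcon.2 ⟨p, hp, l, by omega, hn⟩

end Pool.H53.NA
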