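import Pool.Agent.H53.NA.Xop

/-!
Row Gro: growth of the set of multipliers.  PROOF.  `P w :⇔ ∃ b1 b2 b3 b4 ∈ B, b3 ≠ b4 ∧ w (b3 - b4) = b1 - b2`.
`P 0` holds (`|B| ≥ 2`).
Case 1: `∀ w, P w → P (w + 1)`.  Then `P w` for all `w` (`w = (n : ZMod Q)`, induction on `n`;
`ZMod.natCast_zmod_val`).  Take `S = univ` (`Q` elements).  For `w`: by `Xi_comb` with `p = q = 1`
`Xi A ((3x)^3) (b1 - b2)` and `Xi A ((3x)^3) (b3 - b4)`, `b3 - b4` is a unit, so `Xi A (((3x)^3)^2) w` by `Xi_quo`;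
`(3x)^6 ≤ (7x²)^7`.
Case 2: there is `w` with `P w` (by `b1,…,b4`) and not `P (w+1)`.  Let
`S = {(b3 - b4) x + (b1 - b2 + b3 - b4) y : x, y ∈ B}`.  The map `(x,y) ↦ …` is injective on `B × B`:
if two values agree, then (`b1 - b2 = w (b3 - b4)`, `b3 - b4` a unit)
`x - x' = (w + 1)(y' - y)`; if `y ≠ y'` then `P (w+1)` holds, contradiction; so `y = y'`, `x = x'`.  Hence
`|S| = |B|²`.  The element equals `(b3 x + b1 y + b3 y) - (b4 x + b2 y + b4 y)`, products of two elements of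
`B`, each satisfying `Xi A (x²)` by `Xi_mul`; so `Xi A ((7x²)^7)` by `Xi_comb` with `p = q = 3`.
-/

set_option autoImplicit false

namespace Pool.H53.NA

open scoped Pointwise

private lemma Gro_num (x : ℝ) (hx : 1 ≤ x) :
    (((3 : ℝ) * x) ^ 3) ^ 2 ≤ (7 * x ^ 2) ^ 7 := by
  have h1 : x ^ 6 ≤ x ^ 14 := pow_le_pow_right₀ hx (by norm_num)
  have h0 : (0 : ℝ) ≤ x ^ 6 := by positivity
  have e1 : (((3 : ℝ) * x) ^ 3) ^ 2 = 729 * x ^ 6 := by ring
  have e2 : ((7 : ℝ) * x ^ 2) ^ 7 = 823543 * x ^ 14 := by ring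
  rw [e1, e2]
  nlinarith

theorem grow (Q : ℕ) [NeZero Q] (A B : Finset (ZMod Q)) (x : ℝ) (hx : 1 ≤ x)
    (hAA : ((A - A).card : ℝ) ≤ x * A.card) (hB : 2 ≤ B.card)
    (hd : ∀ b ∈ B, ∀ b' ∈ B, b ≠ b' → IsUnit (b - b')) (hu : ∀ b ∈ B, b = 0 ∨ IsUnit b)
    (hX : ∀ b ∈ B, Xi A x b) :
    ∃ S : Finset (ZMod Q), (∀ ξ ∈ S, Xi A ((7 * x ^ 2) ^ 7) ξ) ∧ min Q (B.card ^ 2) ≤ S.card := by
  classical
  let P : ZMod Q → Prop := fun w =>
    ∃ b1 ∈ B, ∃ b2 ∈ B, ∃ b3 ∈ B, ∃ b4 ∈ B, b3 ≠ b4 ∧ w * (b3 - b4) = b1 - b2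
  have P0 : P 0 := by
    obtain ⟨a, ha, b, hb, hab⟩ := Finset.one_lt_card.1 (by omega : 1 < B.card)
    exact ⟨a, ha, a, ha, a, ha, b, hb, hab, by simp⟩
  by_cases hc : ∀ w, P w → P (w + 1)
  · have hall : ∀ w, P w := by
      intro w
      have hn : ∀ n : ℕ, P (n : ZMod Q) := by
        intro n
        induction n with
        | zero => simpa using P0
        | succ n ih => simpa using hc _ ih
      have := hn w.val
      rwa [ZMod.natCast_zmod_val] at this
    refine ⟨Finset.univ, ?_, ?_⟩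
    · intro w _
      obtain ⟨b1, h1, b2, h2, b3, h3, b4, h4, h34, he⟩ := hall w
      have key : ∀ u ∈ B, ∀ v ∈ B, Xi A ((3 * x) ^ 3) (u - v) := by
        intro u hu' v hv'
        have := Xi_comb A x hx hAA 1 1 (fun _ => u) (fun _ => v) (fun _ => hX u hu')
          (fun _ => hX v hv')
        have e : (((1 + 1 + 1 : ℕ) : ℝ) * x) ^ (1 + 1 + 1) = (3 * x) ^ 3 := by norm_num
        rw [e] at this
        simpa using this
      have hq := Xi_quo A ((3 * x) ^ 3) (b1 - b2) (b3 - b4) w (hd b3 h3 b4 h4 h34) he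
        (key b1 h1 b2 h2) (key b3 h3 b4 h4)
      exact Xi_mono A _ _ (Gro_num x hx) w hq
    · rw [Finset.card_univ, ZMod.card]
      exact min_le_left _ _
  · push Not at hc
    obtain ⟨w, ⟨b1, h1, b2, h2, b3, h3, b4, h4, h34, he⟩, hw⟩ := hc
    have hunit := hd b3 h3 b4 h4 h34
    let f : ZMod Q × ZMod Q → ZMod Q := fun p => (b3 - b4) * p.1 + (b1 - b2 + b3 - b4) * p.2
    have hinj : Set.InjOn f (B ×ˢ B : Finset (ZMod Q × ZMod Q)) := by
      rintro ⟨p, q⟩ hpq ⟨p', q'⟩ hpq' hf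
      have hpq1 := Finset.mem_product.1 (Finset.mem_coe.1 hpq)
      have hpq2 := Finset.mem_product.1 (Finset.mem_coe.1 hpq')
      simp only [f] at hf
      have h5 : (b3 - b4) * (p - p') = (b3 - b4) * ((w + 1) * (q' - q)) := by
        have : b1 - b2 = w * (b3 - b4) := he.symm
        have h6 : b1 - b2 + b3 - b4 = (w + 1) * (b3 - b4) := by
          rw [show b1 - b2 + b3 - b4 = (b1 - b2) + (b3 - b4) by ring, this]; ring
        rw [h6] at hf
        linear_combination hf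
      have h7 : p - p' = (w + 1) * (q' - q) := hunit.mul_left_cancel h5
      by_cases hqq : q = q'
      · subst hqq
        have : p - p' = 0 := by rw [h7]; ring
        rw [sub_eq_zero] at this
        simp [this]
      · exfalso
        exact hw ⟨p, hpq1.1, p', hpq2.1, q', hpq2.2, q, hpq1.2, fun h => hqq h.symm, h7.symm⟩
    refine ⟨(B ×ˢ B).image f, ?_, ?_⟩
    · intro ξ hξ
      obtain ⟨⟨p, q⟩, hpq, rfl⟩ := Finset.mem_image.1 hξ
      have hpq1 := Finset.mem_product.1 hpq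
      have hx2 : (1 : ℝ) ≤ x ^ 2 := one_le_pow₀ hx
      have hAA2 : ((A - A).card : ℝ) ≤ x ^ 2 * A.card := by
        refine hAA.trans ?_
        have : x ≤ x ^ 2 := by nlinarith
        exact mul_le_mul_of_nonneg_right this (by positivity)
      have hm : ∀ u ∈ B, ∀ v ∈ B, Xi A (x ^ 2) (u * v) := by
        intro u hu' v hv'
        have := Xi_mul A x x hx hx u v (hu u hu') (hX u hu') (hX v hv')
        rwa [← sq] at this
      have := Xi_comb A (x ^ 2) hx2 hAA2 3 3 ![b3 * p, b1 * q, b3 * q] ![b4 * p, b2 * q, b4 * q]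
        (by
          intro i
          fin_cases i
          · exact hm _ h3 _ hpq1.1
          · exact hm _ h1 _ hpq1.2
          · exact hm _ h3 _ hpq1.2)
        (by
          intro i
          fin_cases i
          · exact hm _ h4 _ hpq1.1
          · exact hm _ h2 _ hpq1.2
          · exact hm _ h4 _ hpq1.2)
      have e : (((3 + 3 + 1 : ℕ) : ℝ) * x ^ 2) ^ (3 + 3 + 1) = (7 * x ^ 2) ^ 7 := by norm_num
      rw [e] at this
      convert this using 1
      simp only [f, Fin.sum_univ_three, Matrix.cons_val_zero, Matrix.cons_val_one,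
        Matrix.cons_val_two, Matrix.head_cons, Matrix.tail_cons]
      ring
    · rw [Finset.card_image_of_injOn hinj, Finset.card_product, ← sq]
      exact min_le_right _ _

end Pool.H53.NA
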