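import Pool.Agent.H53.NA.Cor
import Pool.Agent.H53.NA.Gro
import Pool.Agent.H53.NA.Avp

/-!
Flattening in a prime field (assembly).
-/

set_option autoImplicit false

namespace Pool.H53.NA

open scoped Pointwise

theorem grow_pow (q : ℕ) [Fact q.Prime] (A B : Finset (ZMod q)) (z : ℝ) (hz : 2 ≤ z) (e : ℕ)
    (hAA : ((A - A).card : ℝ) ≤ z ^ e * A.card) (hB : 2 ≤ B.card)
    (hX : ∀ b ∈ B, Xi A (z ^ e) b) :
    ∃ S : Finset (ZMod q), (∀ ξ ∈ S, Xi A (z ^ (14 * e + 21)) ξ) ∧ min q (B.card ^ 2) ≤ S.card ∧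
      ((A - A).card : ℝ) ≤ z ^ (14 * e + 21) * A.card ∧ 2 ≤ S.card := by
  have hz1 : (1 : ℝ) ≤ z := by linarith
  have hz0 : (0 : ℝ) ≤ z := by linarith
  obtain ⟨S, hS1, hS2⟩ := grow q A B (z ^ e) (one_le_pow₀ hz1) hAA hB
    (fun b _ b' _ h => (sub_ne_zero.mpr h).isUnit)
    (fun b _ => by
      by_cases h : b = 0
      · exact Or.inl h
      · exact Or.inr (Ne.isUnit h)) hX
  have h7 : (7 : ℝ) ≤ z ^ 3 := by
    calc (7 : ℝ) ≤ 2 ^ 3 := by norm_num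
      _ ≤ z ^ 3 := pow_le_pow_left₀ (by norm_num) hz 3
  refine ⟨S, fun ξ hξ => Xi_mono _ _ _ ?_ _ (hS1 ξ hξ), hS2, ?_, ?_⟩
  · calc (7 * (z ^ e) ^ 2) ^ 7 ≤ (z ^ 3 * (z ^ e) ^ 2) ^ 7 := by gcongr
      _ = z ^ (14 * e + 21) := by
        rw [← pow_mul, ← pow_add, ← pow_mul]; congr 1; ring
  · exact hAA.trans (mul_le_mul_of_nonneg_right (pow_le_pow_right₀ hz1 (by omega))
      (Nat.cast_nonneg _))
  · have hq : 2 ≤ q := (Fact.out : q.Prime).two_le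
    have : 2 ≤ min q (B.card ^ 2) := by
      rw [le_min_iff]
      exact ⟨hq, by nlinarith⟩
    omega

theorem flatP_aux (e0 e1 e2 e3 C : ℕ) (he0 : e0 = 1273) (he1 : e1 = 14 * e0 + 21)
    (he2 : e2 = 14 * e1 + 21) (he3 : e3 = 14 * e2 + 21) (hC : e3 + 5000 ≤ C)
    (q : ℕ) [Fact q.Prime] (H : Finset (ZMod q)) (f : ZMod q → ℝ)
    (z : ℝ) (hz : 2 ≤ z) (hH : SGL H) (hf : ∀ x, 0 ≤ f x) (hfH : ∀ h ∈ H, ∀ x, f (h * x) = f x)
    (hF : 0 < ∑ x, f x) (hE : (∑ x, f x) ^ 2 * ∑ x, f x ^ 2 ≤ z * ∑ y, cv f f y ^ 2)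
    (hC1 : z ^ C ≤ H.card) (hN : (H.card : ℝ) ≤ Nf f) :
    min (q : ℝ) ((H.card : ℝ) ^ 6) ≤ z ^ C * Nf f := by
  have hz1 : (1 : ℝ) ≤ z := by linarith
  have hz0 : (0 : ℝ) < z := by linarith
  obtain ⟨A, H', lo, hAne, hlo, h1, h2, h3, h4, h5, h6, h7, h8⟩ := core H f z hz hH hf hfH hF hE
  rw [← he0] at h5 h8
  have ht0 : (0 : ℝ) < H.card := lt_of_lt_of_le (by positivity) hC1
  have hA0 : (0 : ℝ) < A.card := by exact_mod_cast hAne.card_pos
  have hH'2 : (2 : ℝ) ≤ H'.card := by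
    have h9 : z ^ 425 * z ≤ z ^ 425 * H'.card := by
      calc z ^ 425 * z = z ^ 426 := by rw [← pow_succ]
        _ ≤ z ^ C := pow_le_pow_right₀ hz1 (by omega)
        _ ≤ H.card := hC1
        _ ≤ _ := h7
    have := le_of_mul_le_mul_left h9 (by positivity)
    linarith
  have hH'2n : 2 ≤ H'.card := by exact_mod_cast hH'2
  obtain ⟨S1, a1, b1, c1, d1⟩ := grow_pow q A H' z hz e0 h5 hH'2n h8
  rw [← he1] at a1 c1
  obtain ⟨S2, a2, b2, c2, d2⟩ := grow_pow q A S1 z hz e1 c1 d1 a1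
  rw [← he2] at a2 c2
  obtain ⟨S3, a3, b3, c3, d3⟩ := grow_pow q A S2 z hz e2 c2 d2 a2
  rw [← he3] at a3 c3
  have hA2 : 2 * z ^ e3 ≤ A.card := by
    have h9 : z ^ 50 * (z * z ^ e3) ≤ z ^ 50 * A.card := by
      calc z ^ 50 * (z * z ^ e3) = z ^ (e3 + 51) := by rw [← pow_succ', ← pow_add]; congr 1; omega
        _ ≤ z ^ C := pow_le_pow_right₀ hz1 (by omega)
        _ ≤ H.card := hC1
        _ ≤ Nf f := hN
        _ ≤ _ := h4
    have h10 := le_of_mul_le_mul_left h9 (by positivity)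
    refine le_trans ?_ h10
    gcongr
  have h11 := avgP q A S3 (z ^ e3) (by positivity) hA2 a3
  have h12 : min q (H'.card ^ 8) ≤ S3.card := by
    have hq : q ≤ q ^ 2 := by nlinarith [(Fact.out : q.Prime).two_le]
    have : min q (H'.card ^ 8) ≤ min q (S2.card ^ 2) := by
      rcases le_total q (S2.card ^ 2) with h | h
      · simp [h]
      · rw [min_eq_right h]
        have hb2 : min q (S1.card ^ 2) ≤ S2.card := b2
        rcases le_total q (S1.card ^ 2) with h' | h'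
        · rw [min_eq_left h'] at hb2
          calc min q (H'.card ^ 8) ≤ q := min_le_left _ _
            _ ≤ q ^ 2 := hq
            _ ≤ S2.card ^ 2 := Nat.pow_le_pow_left hb2 2
        · rw [min_eq_right h'] at hb2
          have hb1 : min q (H'.card ^ 2) ≤ S1.card := b1
          rcases le_total q (H'.card ^ 2) with h'' | h''
          · rw [min_eq_left h''] at hb1
            calc min q (H'.card ^ 8) ≤ q := min_le_left _ _
              _ ≤ q ^ 2 := hq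
              _ ≤ S1.card ^ 2 := Nat.pow_le_pow_left hb1 2
              _ ≤ S2.card := hb2
              _ ≤ S2.card ^ 2 := by nlinarith
          · rw [min_eq_right h''] at hb1
            calc min q (H'.card ^ 8) ≤ H'.card ^ 8 := min_le_right _ _
              _ = ((H'.card ^ 2) ^ 2) ^ 2 := by ring
              _ ≤ (S1.card ^ 2) ^ 2 := Nat.pow_le_pow_left (Nat.pow_le_pow_left hb1 2) 2
              _ ≤ S2.card ^ 2 := Nat.pow_le_pow_left hb2 2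
    exact this.trans b3
  have h13 : ((H.card : ℝ)) ^ 6 ≤ (H'.card : ℝ) ^ 8 := by
    have h14 : (H.card : ℝ) ^ 8 ≤ (z ^ 425) ^ 8 * (H'.card : ℝ) ^ 8 := by
      rw [← mul_pow]; exact pow_le_pow_left₀ ht0.le h7 8
    have h15 : (z ^ 425) ^ 8 ≤ (H.card : ℝ) ^ 2 := by
      calc (z ^ 425) ^ 8 = (z ^ 1700) ^ 2 := by rw [← pow_mul, ← pow_mul]
        _ ≤ (H.card : ℝ) ^ 2 := by
          refine pow_le_pow_left₀ (by positivity) ?_ 2
          exact (pow_le_pow_right₀ hz1 (by omega)).trans hC1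
    have h16 : (H.card : ℝ) ^ 2 * (H.card : ℝ) ^ 6 ≤ (H.card : ℝ) ^ 2 * (H'.card : ℝ) ^ 8 := by
      calc (H.card : ℝ) ^ 2 * (H.card : ℝ) ^ 6 = (H.card : ℝ) ^ 8 := by ring
        _ ≤ (z ^ 425) ^ 8 * (H'.card : ℝ) ^ 8 := h14
        _ ≤ _ := by gcongr
    exact le_of_mul_le_mul_left h16 (by positivity)
  calc min (q : ℝ) ((H.card : ℝ) ^ 6) ≤ min (q : ℝ) ((H'.card : ℝ) ^ 8) := min_le_min le_rfl h13
    _ = ((min q (H'.card ^ 8) : ℕ) : ℝ) := by push_cast; rfl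
    _ ≤ S3.card := by exact_mod_cast h12
    _ ≤ 2 * z ^ e3 * A.card := h11
    _ ≤ 2 * z ^ e3 * (z ^ 7 * Nf f) := by gcongr
    _ ≤ z * z ^ e3 * (z ^ 7 * Nf f) := by
      have : 0 ≤ Nf f := by
        have := hN; linarith
      gcongr
    _ = z ^ (e3 + 8) * Nf f := by
      rw [show e3 + 8 = (e3 + 1) + 7 by ring, pow_add z (e3 + 1) 7, pow_succ' z e3]; ring
    _ ≤ z ^ C * Nf f := by
      have h0 : 0 ≤ Nf f := by linarith
      have : z ^ (e3 + 8) ≤ z ^ C := pow_le_pow_right₀ hz1 (by omega)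
      exact mul_le_mul_of_nonneg_right this h0

theorem flatP : ∃ C : ℕ, ∀ (q : ℕ) [Fact q.Prime] (H : Finset (ZMod q)) (f : ZMod q → ℝ)
    (z : ℝ), 2 ≤ z → SGL H → (∀ x, 0 ≤ f x) → (∀ h ∈ H, ∀ x, f (h * x) = f x) →
    0 < ∑ x, f x → (∑ x, f x) ^ 2 * ∑ x, f x ^ 2 ≤ z * ∑ y, cv f f y ^ 2 →
    z ^ C ≤ H.card → (H.card : ℝ) ≤ Nf f →
    min (q : ℝ) ((H.card : ℝ) ^ 6) ≤ z ^ C * Nf f := by
  refine ⟨14 * (14 * (14 * 1273 + 21) + 21) + 21 + 5000, ?_⟩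
  intro q _ H f z hz hH hf hfH hF hE hC hN
  exact flatP_aux 1273 (14 * 1273 + 21) (14 * (14 * 1273 + 21) + 21)
    (14 * (14 * (14 * 1273 + 21) + 21) + 21) _ rfl rfl rfl rfl le_rfl q H f z hz hH hf hfH hF hE hC hN

end Pool.H53.NA
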