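import Pool.Agent.H53.NA.FqA
import Pool.Agent.H53.NA.Gro
import Pool.Agent.H53.NA.Avq
import Pool.Agent.H53.NA.RpB

/-!
Flattening modulo a product of two primes (assembly).
-/

set_option autoImplicit false

namespace Pool.H53.NA

open scoped Pointwise

theorem flatQ_aux (s e1 e2 C : ℕ) (he1 : e1 = (s + 1 + 1273) * (s + 1)) (he2 : e2 = 14 * e1 + 21)
    (hC : C = 2 * e2 + 850 * s + 400) (q1 q2 D : ℕ) [Fact q1.Prime] [Fact q2.Prime] (z : ℝ)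
    (hz : 2 ≤ z) (hne : q1 ≠ q2) (hD : 0 < D) (h2 : (2 : ZMod (q1 * q2)) ^ D = 1)
    (hr1 : ∀ y, (rep q1 D s y : ℝ) ≤ 2 / q1 * (D : ℝ) ^ s)
    (hr2 : ∀ y, (rep q2 D s y : ℝ) ≤ 2 / q2 * (D : ℝ) ^ s)
    (hE : (D : ℝ) ^ (2 * s) * en (q1 * q2) D s ≤ z * en (q1 * q2) D (2 * s))
    (hq1 : z ^ C ≤ q1) (hq2 : z ^ C ≤ q2) :
    (min q1 q2 : ℝ) ^ 2 ≤ z ^ C * ((D : ℝ) ^ (2 * s) / en (q1 * q2) D s) := by
  have hz1 : (1 : ℝ) ≤ z := by linarith
  have hz0 : (0 : ℝ) < z := by linarith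
  have hDR : (0 : ℝ) < D := by exact_mod_cast hD
  have hen : (0 : ℝ) < en (q1 * q2) D s := by exact_mod_cast en_pos (q1 * q2) D s hD
  set f : ZMod (q1 * q2) → ℝ := fun x => (rep (q1 * q2) D s x : ℝ) with hf
  have hsum : ∑ x, f x = (D : ℝ) ^ s := by
    have := rep_sum (q1 * q2) D s
    simp only [hf]
    exact_mod_cast this
  have hsum2 : ∑ x, f x ^ 2 = (en (q1 * q2) D s : ℝ) := by
    simp only [hf, en]
    push_cast
    rfl
  have hcv : ∑ y, cv f f y ^ 2 = (en (q1 * q2) D (2 * s) : ℝ) := by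
    simp only [hf, en, cv_rep]
    push_cast
    rw [two_mul]
  have hNf : Nf f = (D : ℝ) ^ (2 * s) / en (q1 * q2) D s := Nf_rep (q1 * q2) D s
  obtain ⟨A, H', lo, hAne, hlo, h1, h2', h3, h4, h5, h6, h7, h8⟩ := core (pw (q1 * q2)) f z hz
    (sgl_pw (q1 * q2) D hD h2) (fun x => by simp [hf])
    (fun h hh x => by simp only [hf]; exact_mod_cast rep_inv (q1 * q2) D s hD h2 h hh x)
    (by rw [hsum]; positivity)
    (by rw [hsum, hsum2, hcv, ← pow_mul, mul_comm s 2]; exact hE)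
  obtain ⟨B, b1, b2, b3, b4⟩ := fq_set s q1 q2 D z hz hne hD h2 hr1 hr2 A H' hAne h5 h6 h7 h8
  rw [← hNf]
  set N := Nf f with hN
  have hN0 : 0 < N := by rw [hNf]; positivity
  -- lower bound for `N`
  have hNq : (q1 : ℝ) ≤ 2 * N := by
    have e1 : (en (q1 * q2) D s : ℝ) ≤ 2 / q1 * (D : ℝ) ^ (2 * s) := by
      have a1 : (en (q1 * q2) D s : ℝ) ≤ en q1 D s := by
        exact_mod_cast en_proj q1 (q1 * q2) D s (dvd_mul_right q1 q2)
      have a2 := en_le_max q1 D s _ hr1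
      calc (en (q1 * q2) D s : ℝ) ≤ 2 / q1 * (D : ℝ) ^ s * (D : ℝ) ^ s := a1.trans a2
        _ = _ := by rw [two_mul, pow_add]; ring
    have hq0 : (0 : ℝ) < q1 := by exact_mod_cast (Fact.out : q1.Prime).pos
    have : (q1 : ℝ) * en (q1 * q2) D s ≤ 2 * (D : ℝ) ^ (2 * s) := by
      calc (q1 : ℝ) * en (q1 * q2) D s ≤ q1 * (2 / q1 * (D : ℝ) ^ (2 * s)) := by gcongr
        _ = _ := by field_simp
    rw [hNf, mul_div_assoc', le_div_iff₀ hen]
    exact this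
  have hq0 : (0 : ℝ) < q1 := by exact_mod_cast (Fact.out : q1.Prime).pos
  have hq0' : (0 : ℝ) < q2 := by exact_mod_cast (Fact.out : q2.Prime).pos
  have hA0 : (0 : ℝ) < A.card := by exact_mod_cast hAne.card_pos
  -- collisions
  have hcoll : ∀ (q : ℕ) [Fact q.Prime] (hd : q ∣ q1 * q2), z ^ C ≤ q →
      (∀ y, (rep q D s y : ℝ) ≤ 2 / q * (D : ℝ) ^ s) →
      (((A ×ˢ A).filter fun p => ZMod.castHom hd (ZMod q) p.1
        = ZMod.castHom hd (ZMod q) p.2).card : ℝ) ^ 2 * q * 2 ≤ (A.card : ℝ) ^ 4 := by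
    intro q _ hd hq hr
    have hqp : (0 : ℝ) < q := by exact_mod_cast (Fact.out : q.Prime).pos
    have c1 := coll_le q (q1 * q2) D s hd A lo hlo h2'
    set cl : ℝ := (((A ×ˢ A).filter fun p => ZMod.castHom hd (ZMod q) p.1
        = ZMod.castHom hd (ZMod q) p.2).card : ℝ) with hcl
    have c2 : (en q D s : ℝ) ≤ 2 / q * (D : ℝ) ^ (2 * s) := by
      have a2 := en_le_max q D s _ hr
      calc (en q D s : ℝ) ≤ 2 / q * (D : ℝ) ^ s * (D : ℝ) ^ s := a2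
        _ = _ := by rw [two_mul, pow_add]; ring
    have hcl0 : 0 ≤ cl := by positivity
    rw [hsum] at h1
    have c3 : (D : ℝ) ^ (2 * s) ≤ z ^ 14 * N ^ 2 * lo ^ 2 := by
      calc (D : ℝ) ^ (2 * s) = ((D : ℝ) ^ s) ^ 2 := by rw [mul_comm, pow_mul]
        _ ≤ (z ^ 7 * N * lo) ^ 2 := pow_le_pow_left₀ (by positivity) h1 2
        _ = _ := by ring
    have c4 : lo ^ 2 * (cl * q) ≤ lo ^ 2 * (2 * z ^ 114 * (A.card : ℝ) ^ 2) := by
      calc lo ^ 2 * (cl * q) = (lo ^ 2 * cl) * q := by ring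
        _ ≤ (2 / q * (D : ℝ) ^ (2 * s)) * q := mul_le_mul_of_nonneg_right (c1.trans c2) hqp.le
        _ = 2 * (D : ℝ) ^ (2 * s) := by field_simp
        _ ≤ 2 * (z ^ 14 * N ^ 2 * lo ^ 2) := by gcongr
        _ ≤ 2 * (z ^ 14 * (z ^ 50 * A.card) ^ 2 * lo ^ 2) := by gcongr
        _ = _ := by ring
    have c5 : cl * q ≤ 2 * z ^ 114 * (A.card : ℝ) ^ 2 := le_of_mul_le_mul_left c4 (by positivity)
    have c6 : (cl ^ 2 * q * 2) * q ≤ (A.card : ℝ) ^ 4 * q := by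
      calc (cl ^ 2 * q * 2) * q = 2 * (cl * q) ^ 2 := by ring
        _ ≤ 2 * (2 * z ^ 114 * (A.card : ℝ) ^ 2) ^ 2 := by gcongr
        _ = (2 ^ 3 * z ^ 228) * (A.card : ℝ) ^ 4 := by ring
        _ ≤ (z ^ 3 * z ^ 228) * (A.card : ℝ) ^ 4 := by gcongr
        _ ≤ z ^ C * (A.card : ℝ) ^ 4 := by
          gcongr
          rw [← pow_add]
          exact pow_le_pow_right₀ hz1 (by omega)
        _ ≤ q * (A.card : ℝ) ^ 4 := by gcongr
        _ = _ := by ring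
    exact le_of_mul_le_mul_right c6 hqp
  -- the multipliers
  set x : ℝ := (((s + 1 : ℕ) : ℝ) * z ^ 1273) ^ (s + 1) with hx
  have hx1 : 1 ≤ x := by
    apply one_le_pow₀
    have : (1 : ℝ) ≤ ((s + 1 : ℕ) : ℝ) := by exact_mod_cast Nat.succ_le_succ (Nat.zero_le s)
    nlinarith [one_le_pow₀ hz1 (n := 1273)]
  have hxe : x ≤ z ^ e1 := by
    have a1 : ((s + 1 : ℕ) : ℝ) ≤ z ^ (s + 1) := by
      calc ((s + 1 : ℕ) : ℝ) ≤ ((2 ^ (s + 1) : ℕ) : ℝ) := by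
            exact_mod_cast (Nat.lt_two_pow_self (n := s + 1)).le
        _ = 2 ^ (s + 1) := by push_cast; rfl
        _ ≤ z ^ (s + 1) := pow_le_pow_left₀ (by norm_num) hz _
    calc x ≤ (z ^ (s + 1) * z ^ 1273) ^ (s + 1) := by rw [hx]; gcongr
      _ = z ^ e1 := by rw [← pow_add, ← pow_mul, he1]
  have hxe' : z ^ 1273 ≤ x := by
    rw [hx]
    have : z ^ 1273 ≤ ((s + 1 : ℕ) : ℝ) * z ^ 1273 := by
      have : (1 : ℝ) ≤ ((s + 1 : ℕ) : ℝ) := by exact_mod_cast Nat.succ_le_succ (Nat.zero_le s)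
      nlinarith [pow_pos hz0 1273]
    refine this.trans ?_
    exact le_self_pow₀ ((one_le_pow₀ hz1).trans this) (by omega)
  have hm : z ^ C ≤ (min q1 q2 : ℝ) := le_min hq1 hq2
  set m : ℝ := (min q1 q2 : ℝ) with hmdef
  have hB2 : (2 : ℝ) ≤ B.card := by
    by_contra hcon
    push Not at hcon
    have : m ≤ 4 * z ^ (425 * s) * 4 := b1.trans (by gcongr; linarith)
    have h16 : (16 : ℝ) < z ^ 5 := by
      calc (16 : ℝ) < 2 ^ 5 := by norm_num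
        _ ≤ z ^ 5 := pow_le_pow_left₀ (by norm_num) hz 5
    have h17 : 4 * z ^ (425 * s) * 4 < z ^ C := by
      calc 4 * z ^ (425 * s) * 4 = 16 * z ^ (425 * s) := by ring
        _ < z ^ 5 * z ^ (425 * s) := by gcongr
        _ = z ^ (5 + 425 * s) := by rw [← pow_add]
        _ ≤ z ^ C := pow_le_pow_right₀ hz1 (by omega)
    linarith
  have hB2n : 2 ≤ B.card := by exact_mod_cast hB2
  obtain ⟨S, s1, s2⟩ := grow (q1 * q2) A B x hx1
    (h5.trans (mul_le_mul_of_nonneg_right hxe' hA0.le)) hB2n b3 (fun b hb => Or.inr (b2 b hb)) b4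
  set y : ℝ := (7 * x ^ 2) ^ 7 with hy
  have hy0 : 0 < y := by positivity
  have hye : y ≤ z ^ e2 := by
    have h7 : (7 : ℝ) ≤ z ^ 3 := by
      calc (7 : ℝ) ≤ 2 ^ 3 := by norm_num
        _ ≤ z ^ 3 := pow_le_pow_left₀ (by norm_num) hz 3
    calc y ≤ (z ^ 3 * (z ^ e1) ^ 2) ^ 7 := by rw [hy]; gcongr
      _ = z ^ e2 := by
        rw [← pow_mul, ← pow_add, ← pow_mul, he2]; congr 1; ring
  have hA2 : 2 * y ≤ A.card := by
    have a1 : z ^ 50 * (2 * z ^ e2) ≤ z ^ 50 * A.card := by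
      have : z ^ C ≤ 2 * (z ^ 50 * A.card) := by
        calc z ^ C ≤ q1 := hq1
          _ ≤ 2 * N := hNq
          _ ≤ _ := by gcongr
      have a2 : 4 * (z ^ 50 * z ^ e2) ≤ z ^ C := by
        have h4 : (4 : ℝ) ≤ z ^ 2 := by
          calc (4 : ℝ) = 2 ^ 2 := by norm_num
            _ ≤ z ^ 2 := pow_le_pow_left₀ (by norm_num) hz 2
        calc 4 * (z ^ 50 * z ^ e2) ≤ z ^ 2 * (z ^ 50 * z ^ e2) := by gcongr
          _ = z ^ (2 + (50 + e2)) := by rw [← pow_add, ← pow_add]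
          _ ≤ z ^ C := pow_le_pow_right₀ hz1 (by omega)
      nlinarith
    have a3 := le_of_mul_le_mul_left a1 (by positivity)
    refine le_trans ?_ a3
    gcongr
  have hS := avgQ q1 q2 hne A S y hy0 hA2 s1
    (hcoll q1 (dvd_mul_right q1 q2) hq1 hr1) (hcoll q2 (dvd_mul_left q2 q1) hq2 hr2)
  -- final comparison
  have hm2 : m ^ 2 ≤ 64 * z ^ (850 * s) * S.card := by
    have hmm : m ^ 2 ≤ 64 * z ^ (850 * s) * (B.card : ℝ) ^ 2 := by
      have : m ≤ 8 * z ^ (425 * s) * B.card := by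
        refine b1.trans ?_
        have : (B.card : ℝ) + 2 ≤ 2 * B.card := by linarith
        calc 4 * z ^ (425 * s) * (B.card + 2) ≤ 4 * z ^ (425 * s) * (2 * B.card) := by gcongr
          _ = _ := by ring
      have hm0 : 0 ≤ m := le_trans (by positivity) hm
      calc m ^ 2 ≤ (8 * z ^ (425 * s) * B.card) ^ 2 := pow_le_pow_left₀ hm0 this 2
        _ = 64 * (z ^ (425 * s)) ^ 2 * (B.card : ℝ) ^ 2 := by ring
        _ = _ := by rw [← pow_mul]; congr 3; ring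
    have hmQ : m ^ 2 ≤ ((q1 * q2 : ℕ) : ℝ) := by
      push_cast
      rw [sq]
      exact mul_le_mul (min_le_left _ _) (min_le_right _ _) (le_trans (by positivity) hm) hq0.le
    have h64 : (1 : ℝ) ≤ 64 * z ^ (850 * s) := by
      have := one_le_pow₀ hz1 (n := 850 * s)
      linarith
    rcases le_total (q1 * q2) (B.card ^ 2) with h | h
    · rw [min_eq_left h] at s2
      calc m ^ 2 ≤ ((q1 * q2 : ℕ) : ℝ) := hmQ
        _ ≤ S.card := by exact_mod_cast s2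
        _ = 1 * S.card := by ring
        _ ≤ _ := by gcongr
    · rw [min_eq_right h] at s2
      calc m ^ 2 ≤ 64 * z ^ (850 * s) * (B.card : ℝ) ^ 2 := hmm
        _ ≤ 64 * z ^ (850 * s) * S.card := by gcongr; exact_mod_cast s2
  calc m ^ 2 ≤ 64 * z ^ (850 * s) * S.card := hm2
    _ ≤ 64 * z ^ (850 * s) * (4 * z ^ e2 * (z ^ 7 * N)) := by
      gcongr
      calc (S.card : ℝ) ≤ 4 * y * A.card := hS
        _ ≤ 4 * z ^ e2 * (z ^ 7 * N) := by gcongr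
    _ = 2 ^ 8 * (z ^ (850 * s) * z ^ e2 * z ^ 7) * N := by ring
    _ ≤ z ^ 8 * (z ^ (850 * s) * z ^ e2 * z ^ 7) * N := by gcongr
    _ = z ^ (8 + (850 * s + e2 + 7)) * N := by rw [← pow_add, ← pow_add, ← pow_add]
    _ ≤ z ^ C * N := by
      exact mul_le_mul_of_nonneg_right (pow_le_pow_right₀ hz1 (by omega)) hN0.le

theorem flatQ (s : ℕ) : ∃ C : ℕ, ∀ (q1 q2 D : ℕ) [Fact q1.Prime] [Fact q2.Prime] (z : ℝ),
    2 ≤ z → q1 ≠ q2 → 0 < D → (2 : ZMod (q1 * q2)) ^ D = 1 →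
    (∀ y, (rep q1 D s y : ℝ) ≤ 2 / q1 * (D : ℝ) ^ s) →
    (∀ y, (rep q2 D s y : ℝ) ≤ 2 / q2 * (D : ℝ) ^ s) →
    (D : ℝ) ^ (2 * s) * en (q1 * q2) D s ≤ z * en (q1 * q2) D (2 * s) →
    z ^ C ≤ q1 → z ^ C ≤ q2 →
    (min q1 q2 : ℝ) ^ 2 ≤ z ^ C * ((D : ℝ) ^ (2 * s) / en (q1 * q2) D s) :=
  ⟨_, fun q1 q2 D _ _ z hz hne hD h2 hr1 hr2 hE hq1 hq2 =>
    flatQ_aux s _ _ _ rfl rfl rfl q1 q2 D z hz hne hD h2 hr1 hr2 hE hq1 hq2⟩

end Pool.H53.NA
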