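import Pool.Agent.H53.NA.RpA

/-!
Row Fou: exponential sums.  `e = ZMod.stdAddChar`, `S a = SS N D a = ∑_{k<D} e(a 2^k)`.
PROOFS.
* `SS_pow`: `S a ^ s = ∑_y rep N D s y e(a y)` (expand the power, `Finset.prod_univ_sum` / `Finset.sum_pow'`, or
  induction on `s` with `rep_conv`; `e(x + y) = e x e y`, `AddChar.map_add_eq_mul`).
* `sum_SS`: Parseval: `∑_a |∑_y r y e(a y)|² = N ∑ r y²` by the orthogonality relation
  (`AddChar.sum_mulShift`, `ZMod.isPrimitive_stdAddChar`): `∑_a e(a (y - y')) = N` if `y = y'`, else `0`.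
* `rep_le_SS`: `N rep y = ∑_a S a ^ s e(-a y) ≤ ∑ |S a|^s` (`‖e x‖ = 1`).
* `SS_inv`: for `h = 2^j` and `2^D = 1` the sum over `k < D` is a sum over residues modulo `D`; shifting by `j` permutes.
* `SS_zero`: `e 0 = 1`.
* `SS_le`: `‖S a‖ ≤ D`.
* `SS_orbit`: `q` prime, `a ≠ 0`: the `t` elements `a h`, `h ∈ pw q`, are distinct, nonzero, and
  `‖S (a h)‖ = ‖S a‖`; so `t ‖S a‖^m ≤ ∑_{b ≠ 0} ‖S b‖^m`.
-/

set_option autoImplicit false

namespace Pool.H53.NA

theorem fou_range (N D : ℕ) [NeZero N] (a : ZMod N) :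
    SS N D a = ∑ k : Fin D, (ZMod.stdAddChar (N := N) (a * 2 ^ (k : ℕ)) : ℂ) := by
  rw [SS, Finset.sum_range]

theorem fou_prod (N : ℕ) [NeZero N] (s : ℕ) (f : Fin s → ZMod N) :
    ∏ i, (ZMod.stdAddChar (N := N) (f i) : ℂ) = ZMod.stdAddChar (N := N) (∑ i, f i) := by
  induction s with
  | zero => simp
  | succ s ih =>
    rw [Fin.prod_univ_succ, Fin.sum_univ_succ, AddChar.map_add_eq_mul, ih]

theorem SS_pow (N D s : ℕ) [NeZero N] (a : ZMod N) :
    SS N D a ^ s = ∑ y : ZMod N, (rep N D s y : ℂ) * ZMod.stdAddChar (N := N) (a * y) := by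
  rw [fou_range, Fintype.sum_pow]
  have h1 : ∀ p : Fin s → Fin D, ∏ i, (ZMod.stdAddChar (N := N) (a * 2 ^ (p i : ℕ)) : ℂ) =
      ZMod.stdAddChar (N := N) (a * ∑ i, 2 ^ (p i : ℕ)) := by
    intro p
    rw [fou_prod, Finset.mul_sum]
  rw [Finset.sum_congr rfl (fun p _ => h1 p)]
  rw [← Finset.sum_fiberwise' (Finset.univ : Finset (Fin s → Fin D))
    (fun p => ∑ i, (2 : ZMod N) ^ (p i : ℕ)) (fun y => (ZMod.stdAddChar (N := N) (a * y) : ℂ))]
  apply Finset.sum_congr rfl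
  intro y _
  rw [Finset.sum_const, nsmul_eq_mul]
  rfl

theorem fou_norm (N : ℕ) [NeZero N] (x : ZMod N) : ‖(ZMod.stdAddChar (N := N) x : ℂ)‖ = 1 :=
  AddChar.norm_apply _ _

theorem fou_orth (N : ℕ) [NeZero N] (b : ZMod N) :
    ∑ a : ZMod N, (ZMod.stdAddChar (N := N) (a * b) : ℂ) = if b = 0 then (N : ℂ) else 0 := by
  have h := AddChar.sum_mulShift (R' := ℂ) b (ZMod.isPrimitive_stdAddChar N)
  rw [ZMod.card] at h
  rw [h]
  split_ifs <;> simp

theorem sum_SS (N D s : ℕ) [NeZero N] :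
    ∑ a : ZMod N, ‖SS N D a‖ ^ (2 * s) = (N : ℝ) * en N D s := by
  have h1 : ∀ a : ZMod N, ((‖SS N D a‖ ^ (2 * s) : ℝ) : ℂ) =
      ∑ y : ZMod N, ∑ y' : ZMod N, ((rep N D s y : ℂ) * (rep N D s y' : ℂ)) *
        ZMod.stdAddChar (N := N) (a * (y - y')) := by
    intro a
    have h2 : ((‖SS N D a‖ ^ (2 * s) : ℝ) : ℂ) = (SS N D a ^ s) *
        (starRingEnd ℂ) (SS N D a ^ s) := by
      rw [Complex.mul_conj, Complex.normSq_eq_norm_sq, norm_pow, ← pow_mul, mul_comm s 2]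
    rw [h2, SS_pow, map_sum, Finset.sum_mul_sum]
    apply Finset.sum_congr rfl
    intro y _
    apply Finset.sum_congr rfl
    intro y' _
    rw [map_mul (starRingEnd ℂ) (rep N D s y' : ℂ), Complex.conj_natCast,
      ← AddChar.map_neg_eq_conj]
    have h3 : a * (y - y') = a * y + -(a * y') := by ring
    rw [h3, AddChar.map_add_eq_mul]
    ring
  have h4 : ((∑ a : ZMod N, ‖SS N D a‖ ^ (2 * s) : ℝ) : ℂ) = ((N : ℝ) * en N D s : ℝ) := by
    rw [Complex.ofReal_sum, Finset.sum_congr rfl (fun a _ => h1 a), Finset.sum_comm]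
    have h5 : ∀ y : ZMod N, ∑ a : ZMod N, ∑ y' : ZMod N, ((rep N D s y : ℂ) * (rep N D s y' : ℂ)) *
        ZMod.stdAddChar (N := N) (a * (y - y')) = (N : ℂ) * (rep N D s y : ℂ) ^ 2 := by
      intro y
      rw [Finset.sum_comm]
      have h6 : ∀ y' : ZMod N, ∑ a : ZMod N, ((rep N D s y : ℂ) * (rep N D s y' : ℂ)) *
          ZMod.stdAddChar (N := N) (a * (y - y')) =
          if y' = y then (N : ℂ) * (rep N D s y : ℂ) ^ 2 else 0 := by
        intro y'
        rw [← Finset.mul_sum, fou_orth]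
        by_cases h : y' = y
        · subst h
          rw [if_pos (sub_self _), if_pos rfl]
          ring
        · rw [if_neg (fun h' => h (sub_eq_zero.1 h').symm), if_neg h, mul_zero]
      rw [Finset.sum_congr rfl (fun y' _ => h6 y'), Finset.sum_ite_eq', if_pos (Finset.mem_univ _)]
    rw [Finset.sum_congr rfl (fun y _ => h5 y), ← Finset.mul_sum, en]
    push_cast
    rfl
  exact Complex.ofReal_injective h4

theorem rep_le_SS (N D s : ℕ) [NeZero N] (y : ZMod N) :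
    (N : ℝ) * rep N D s y ≤ ∑ a : ZMod N, ‖SS N D a‖ ^ s := by
  have h1 : ∑ a : ZMod N, SS N D a ^ s * ZMod.stdAddChar (N := N) (-(a * y)) =
      (N : ℂ) * rep N D s y := by
    have h2 : ∀ a : ZMod N, SS N D a ^ s * ZMod.stdAddChar (N := N) (-(a * y)) =
        ∑ z : ZMod N, (rep N D s z : ℂ) * ZMod.stdAddChar (N := N) (a * (z - y)) := by
      intro a
      rw [SS_pow, Finset.sum_mul]
      apply Finset.sum_congr rfl
      intro z _
      have h3 : a * (z - y) = a * z + -(a * y) := by ring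
      rw [h3, AddChar.map_add_eq_mul]
      ring
    rw [Finset.sum_congr rfl (fun a _ => h2 a), Finset.sum_comm]
    have h6 : ∀ z : ZMod N, ∑ a : ZMod N, (rep N D s z : ℂ) *
        ZMod.stdAddChar (N := N) (a * (z - y)) =
        if z = y then (N : ℂ) * (rep N D s y : ℂ) else 0 := by
      intro z
      rw [← Finset.mul_sum, fou_orth]
      by_cases h : z = y
      · subst h
        rw [if_pos (sub_self _), if_pos rfl]
        ring
      · rw [if_neg (fun h' => h (sub_eq_zero.1 h')), if_neg h, mul_zero]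
    rw [Finset.sum_congr rfl (fun z _ => h6 z), Finset.sum_ite_eq', if_pos (Finset.mem_univ _)]
  have h7 : (N : ℝ) * rep N D s y = ‖(N : ℂ) * rep N D s y‖ := by
    rw [norm_mul, Complex.norm_natCast, Complex.norm_natCast]
  rw [h7, ← h1]
  refine (norm_sum_le _ _).trans (Finset.sum_le_sum fun a _ => ?_)
  rw [norm_mul, fou_norm, mul_one, norm_pow]

theorem SS_inv (N D : ℕ) [NeZero N] (hD : 0 < D) (h2 : (2 : ZMod N) ^ D = 1) (h : ZMod N)
    (hh : h ∈ pw N) (a : ZMod N) : SS N D (a * h) = SS N D a := by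
  unfold pw at hh
  rw [Finset.mem_image] at hh
  obtain ⟨j, hj, rfl⟩ := hh
  clear hj
  induction j with
  | zero => rw [pow_zero, mul_one]
  | succ j ih =>
    rw [← ih]
    obtain ⟨D', rfl⟩ : ∃ D', D = D' + 1 := ⟨D - 1, by omega⟩
    rw [SS, SS, Finset.sum_range_succ, Finset.sum_range_succ']
    congr 1
    · apply Finset.sum_congr rfl
      intro k _
      congr 1
      ring
    · congr 1
      have h3 : a * 2 ^ (j + 1) * 2 ^ D' = a * 2 ^ j * 2 ^ (D' + 1) := by ring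
      rw [h3, h2, pow_zero]

theorem SS_zero (N D : ℕ) [NeZero N] : SS N D 0 = D := by
  rw [SS]
  simp

theorem SS_le (N D : ℕ) [NeZero N] (a : ZMod N) : ‖SS N D a‖ ≤ D := by
  rw [SS]
  refine (norm_sum_le _ _).trans ?_
  rw [Finset.sum_congr rfl (fun k _ => fou_norm N (a * 2 ^ k))]
  simp

theorem SS_orbit (q D : ℕ) [Fact q.Prime] (hD : 0 < D) (h2 : (2 : ZMod q) ^ D = 1) (m : ℕ)
    (a : ZMod q) (ha : a ≠ 0) :
    (orderOf (2 : ZMod q) : ℝ) * ‖SS q D a‖ ^ m
      ≤ ∑ b ∈ (Finset.univ : Finset (ZMod q)).erase 0, ‖SS q D b‖ ^ m := by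
  have h20 : (2 : ZMod q) ≠ 0 := by
    intro h
    rw [h, zero_pow hD.ne'] at h2
    exact zero_ne_one h2
  have hinj : Function.Injective (fun h : ZMod q => a * h) := mul_right_injective₀ ha
  have hsub : (pw q).image (fun h => a * h) ⊆ (Finset.univ : Finset (ZMod q)).erase 0 := by
    intro x hx
    rw [Finset.mem_image] at hx
    obtain ⟨h, hh, rfl⟩ := hx
    refine Finset.mem_erase.2 ⟨mul_ne_zero ha ?_, Finset.mem_univ _⟩
    unfold pw at hh
    rw [Finset.mem_image] at hh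
    obtain ⟨j, _, rfl⟩ := hh
    exact pow_ne_zero _ h20
  calc (orderOf (2 : ZMod q) : ℝ) * ‖SS q D a‖ ^ m
      = ∑ b ∈ (pw q).image (fun h => a * h), ‖SS q D b‖ ^ m := by
        rw [Finset.sum_image (fun x _ y _ h => hinj h)]
        rw [Finset.sum_congr rfl (fun h hh => by rw [SS_inv q D hD h2 h hh a])]
        rw [Finset.sum_const, card_pw, nsmul_eq_mul]
    _ ≤ _ := Finset.sum_le_sum_of_subset_of_nonneg hsub (fun b _ _ => by positivity)

end Pool.H53.NA
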