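import Pool.Agent.H53.NA.Defs

/-!
Row Mat: a large matching.  PROOF.  Let `B ⊆ U` be of maximal cardinality among the subsets of `U` on which both `p1`
and `p2` are injective (`∅` is one).  For every `x ∈ U` `p1 x ∈ p1 B` or `p2 x ∈ p2 B` (if `x ∈ B` clear; else
`insert x B` would be larger).  So
`∑_{x ∈ U} w x ≤ ∑_{y ∈ p1 B} ∑_{x ∈ U, p1 x = y} w x + ∑_{y ∈ p2 B} ∑_{x ∈ U, p2 x = y} w x ≤ |B| m1 + |B| m2`.
-/

set_option autoImplicit false

namespace Pool.H53.NA

theorem matching {X Y1 Y2 : Type} [DecidableEq X] [DecidableEq Y1] [DecidableEq Y2] (U : Finset X)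
    (w : X → ℝ) (hw : ∀ x ∈ U, 0 ≤ w x) (p1 : X → Y1) (p2 : X → Y2) (m1 m2 : ℝ)
    (h1 : ∀ y, ∑ x ∈ U.filter (fun x => p1 x = y), w x ≤ m1)
    (h2 : ∀ y, ∑ x ∈ U.filter (fun x => p2 x = y), w x ≤ m2) :
    ∃ B : Finset X, B ⊆ U ∧ Set.InjOn p1 (B : Set X) ∧ Set.InjOn p2 (B : Set X) ∧
      ∑ x ∈ U, w x ≤ B.card * (m1 + m2) := by
  classical
  -- a subset of maximal cardinality
  obtain ⟨B, hB, hmax⟩ := Finset.exists_max_image
    (U.powerset.filter fun B : Finset X =>
      Set.InjOn p1 ((B : Finset X) : Set X) ∧ Set.InjOn p2 ((B : Finset X) : Set X))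
    (fun B : Finset X => B.card) ⟨∅, by simp⟩
  rw [Finset.mem_filter, Finset.mem_powerset] at hB
  obtain ⟨hBU, hi1, hi2⟩ := hB
  refine ⟨B, hBU, hi1, hi2, ?_⟩
  have hcov : ∀ x ∈ U, p1 x ∈ B.image p1 ∨ p2 x ∈ B.image p2 := by
    intro x hx
    by_contra hcon
    rw [not_or] at hcon
    obtain ⟨hc1, hc2⟩ := hcon
    have hxB : x ∉ B := fun h => hc1 (Finset.mem_image_of_mem _ h)
    have hm := hmax (insert x B) (by
      rw [Finset.mem_filter, Finset.mem_powerset]
      refine ⟨Finset.insert_subset hx hBU, ?_, ?_⟩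
      · rw [Finset.coe_insert, Set.injOn_insert (by simpa using hxB)]
        refine ⟨hi1, ?_⟩
        rintro ⟨b, hb, hbe⟩
        exact hc1 (Finset.mem_image.mpr ⟨b, by simpa using hb, hbe⟩)
      · rw [Finset.coe_insert, Set.injOn_insert (by simpa using hxB)]
        refine ⟨hi2, ?_⟩
        rintro ⟨b, hb, hbe⟩
        exact hc2 (Finset.mem_image.mpr ⟨b, by simpa using hb, hbe⟩))
    rw [Finset.card_insert_of_notMem hxB] at hm
    omega
  have hs1 : ∑ x ∈ U.filter (fun x => p1 x ∈ B.image p1), w x ≤ B.card * m1 := by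
    rw [← Finset.sum_fiberwise_of_maps_to (s := U.filter (fun x => p1 x ∈ B.image p1))
      (t := B.image p1) (g := p1) (fun x hx => (Finset.mem_filter.mp hx).2)]
    calc ∑ y ∈ B.image p1, ∑ x ∈ (U.filter (fun x => p1 x ∈ B.image p1)).filter
          (fun x => p1 x = y), w x
        ≤ ∑ y ∈ B.image p1, m1 := by
          apply Finset.sum_le_sum
          intro y _
          refine le_trans ?_ (h1 y)
          apply Finset.sum_le_sum_of_subset_of_nonneg
          · exact Finset.filter_subset_filter _ (Finset.filter_subset _ _)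
          · intro x hx _
            exact hw x (Finset.mem_filter.mp hx).1
      _ = B.card * m1 := by
          rw [Finset.sum_const, nsmul_eq_mul, Finset.card_image_of_injOn hi1]
  have hs2 : ∑ x ∈ U.filter (fun x => p2 x ∈ B.image p2), w x ≤ B.card * m2 := by
    rw [← Finset.sum_fiberwise_of_maps_to (s := U.filter (fun x => p2 x ∈ B.image p2))
      (t := B.image p2) (g := p2) (fun x hx => (Finset.mem_filter.mp hx).2)]
    calc ∑ y ∈ B.image p2, ∑ x ∈ (U.filter (fun x => p2 x ∈ B.image p2)).filter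
          (fun x => p2 x = y), w x
        ≤ ∑ y ∈ B.image p2, m2 := by
          apply Finset.sum_le_sum
          intro y _
          refine le_trans ?_ (h2 y)
          apply Finset.sum_le_sum_of_subset_of_nonneg
          · exact Finset.filter_subset_filter _ (Finset.filter_subset _ _)
          · intro x hx _
            exact hw x (Finset.mem_filter.mp hx).1
      _ = B.card * m2 := by
          rw [Finset.sum_const, nsmul_eq_mul, Finset.card_image_of_injOn hi2]
  have hU : U = U.filter (fun x => p1 x ∈ B.image p1) ∪ U.filter (fun x => p2 x ∈ B.image p2) := by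
    ext x
    simp only [Finset.mem_union, Finset.mem_filter]
    constructor
    · intro hx
      rcases hcov x hx with h | h
      · exact Or.inl ⟨hx, h⟩
      · exact Or.inr ⟨hx, h⟩
    · rintro (h | h)
      · exact h.1
      · exact h.1
  calc ∑ x ∈ U, w x
      = ∑ x ∈ U.filter (fun x => p1 x ∈ B.image p1) ∪ U.filter (fun x => p2 x ∈ B.image p2), w x := by
        rw [← hU]
    _ ≤ ∑ x ∈ U.filter (fun x => p1 x ∈ B.image p1), w x
        + ∑ x ∈ U.filter (fun x => p2 x ∈ B.image p2), w x := by
        rw [← Finset.sum_union_inter]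
        have : 0 ≤ ∑ x ∈ U.filter (fun x => p1 x ∈ B.image p1)
            ∩ U.filter (fun x => p2 x ∈ B.image p2), w x := by
          apply Finset.sum_nonneg
          intro x hx
          exact hw x (Finset.mem_filter.mp (Finset.mem_inter.mp hx).1).1
        linarith
    _ ≤ B.card * (m1 + m2) := by
        rw [mul_add]
        exact add_le_add hs1 hs2

end Pool.H53.NA
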