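import Pool.Agent.H53.NA.Defs

/-!
Row RpA: the counting functions `rep`.  PROOFS.
* `rep_sum`: every `k : Fin s → Fin D` has exactly one sum; `Fintype.card (Fin s → Fin D) = D^s`
  (`Finset.card_eq_sum_card_fiberwise`).
* `rep_conv`: split `k : Fin (s+u) → Fin D` into its first `s` and last `u` entries (`Fin.appendEquiv` or
  `Fin.append`, `Fin.sum_univ_add`), and sort by the value of the first partial sum.
* `card_pw`: `k ↦ 2^k` is injective on `range (orderOf 2)` (`pow_injOn_Iio_orderOf`).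
* `sgl_pw`: `2` has finite order `t > 0` (`orderOf_pos_iff`/`isOfFinOrder_iff_pow_eq_one`); `2^i 2^j = 2^((i+j) % t)`
  (`pow_mod_orderOf`); the inverse of `2^i` is `2^((t - i) % t)`.
* `rep_inv`: for `h = 2^j` the map `k ↦ (k + j) % D` in each coordinate is a bijection of `Fin D` and multiplies
  `2^k` by `2^j` (because `2^D = 1`; `pow_mod`-like: `2^(m % D) = 2^m`, `pow_eq_pow_mod`).
* `exps_card`: `t = orderOf 2` divides `D`; each `2^i`, `i < t`, is `2^k` for exactly `D/t` of the `k < D`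
  (`Nat.count_modEq_card` or a bijection `Fin D ≃ Fin (D/t) × Fin t`).
* `en_one`: `rep N D 1 y = D/t` if `y ∈ pw N`, else `0` (from `exps_card` with one-element sets).
-/

set_option autoImplicit false

namespace Pool.H53.NA

theorem rep_sum (N D s : ℕ) [NeZero N] : ∑ y, rep N D s y = D ^ s := by
  unfold rep
  rw [← Finset.card_eq_sum_card_fiberwise (f := fun k : Fin s → Fin D =>
    ∑ i, (2 : ZMod N) ^ (k i : ℕ)) (t := Finset.univ) (fun _ _ => Finset.mem_coe.mpr (Finset.mem_univ _))]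
  simp

theorem rep_conv (N D s u : ℕ) [NeZero N] (y : ZMod N) :
    rep N D (s + u) y = ∑ x, rep N D s x * rep N D u (y - x) := by
  have e1 : rep N D (s + u) y = ((Finset.univ : Finset ((Fin s → Fin D) × (Fin u → Fin D))).filter
      fun k => ∑ i, (2 : ZMod N) ^ (k.1 i : ℕ) + ∑ i, (2 : ZMod N) ^ (k.2 i : ℕ) = y).card := by
    unfold rep
    symm
    apply Finset.card_equiv (Fin.appendEquiv s u)
    intro k
    simp only [Finset.mem_filter, Finset.mem_univ, true_and, Fin.sum_univ_add]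
    simp [Fin.appendEquiv]
  rw [e1, Finset.card_eq_sum_card_fiberwise (f := fun k : (Fin s → Fin D) × (Fin u → Fin D) =>
    ∑ i, (2 : ZMod N) ^ (k.1 i : ℕ)) (t := Finset.univ) (fun _ _ => Finset.mem_coe.mpr (Finset.mem_univ _))]
  apply Finset.sum_congr rfl
  intro x _
  unfold rep
  rw [← Finset.card_product]
  congr 1
  ext k
  simp only [Finset.mem_filter, Finset.mem_univ, true_and, Finset.mem_product]
  constructor
  · rintro ⟨h1, h2⟩
    refine ⟨h2, ?_⟩
    rw [← h1, h2]; ring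
  · rintro ⟨h1, h2⟩
    refine ⟨?_, h1⟩
    rw [h1, h2]; ring

theorem card_pw (N : ℕ) : (pw N).card = orderOf (2 : ZMod N) := by
  unfold pw
  rw [Finset.card_image_of_injOn, Finset.card_range]
  intro a ha b hb h
  exact pow_injOn_Iio_orderOf (by simpa using ha) (by simpa using hb) h

theorem rpa_pos (N D : ℕ) (hD : 0 < D) (h2 : (2 : ZMod N) ^ D = 1) : 0 < orderOf (2 : ZMod N) :=
  orderOf_pos_iff.mpr (isOfFinOrder_iff_pow_eq_one.mpr ⟨D, hD, h2⟩)

theorem rpa_mem (N D : ℕ) (hD : 0 < D) (h2 : (2 : ZMod N) ^ D = 1) (k : ℕ) :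
    (2 : ZMod N) ^ k ∈ pw N := by
  unfold pw
  rw [Finset.mem_image]
  exact ⟨k % orderOf (2 : ZMod N), Finset.mem_range.mpr (Nat.mod_lt _ (rpa_pos N D hD h2)),
    pow_mod_orderOf _ _⟩

theorem rpa_iff (N D : ℕ) (hD : 0 < D) (h2 : (2 : ZMod N) ^ D = 1) (k j : ℕ) :
    (2 : ZMod N) ^ k = (2 : ZMod N) ^ j ↔ k ≡ j [MOD orderOf (2 : ZMod N)] := by
  have hpos := rpa_pos N D hD h2
  rw [← pow_mod_orderOf (2 : ZMod N) k, ← pow_mod_orderOf (2 : ZMod N) j]
  constructor
  · intro h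
    exact pow_injOn_Iio_orderOf (Nat.mod_lt _ hpos) (Nat.mod_lt _ hpos) h
  · intro h
    rw [h]

theorem sgl_pw (N D : ℕ) (hD : 0 < D) (h2 : (2 : ZMod N) ^ D = 1) : SGL (pw N) := by
  have hpos := rpa_pos N D hD h2
  refine ⟨?_, ?_, ?_⟩
  · have := rpa_mem N D hD h2 0
    rwa [pow_zero] at this
  · intro g hg h hh
    unfold pw at hg hh
    rw [Finset.mem_image] at hg hh
    obtain ⟨i, _, rfl⟩ := hg
    obtain ⟨j, _, rfl⟩ := hh
    rw [← pow_add]
    exact rpa_mem N D hD h2 _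
  · intro h hh
    unfold pw at hh
    rw [Finset.mem_image] at hh
    obtain ⟨j, hj, rfl⟩ := hh
    rw [Finset.mem_range] at hj
    refine ⟨2 ^ (orderOf (2 : ZMod N) - j), rpa_mem N D hD h2 _, ?_⟩
    rw [← pow_add, Nat.sub_add_cancel hj.le, pow_orderOf_eq_one]

theorem rep_inv (N D s : ℕ) (hD : 0 < D) (h2 : (2 : ZMod N) ^ D = 1) (h : ZMod N) (hh : h ∈ pw N)
    (y : ZMod N) : rep N D s (h * y) = rep N D s y := by
  unfold pw at hh
  rw [Finset.mem_image] at hh
  obtain ⟨j, _, rfl⟩ := hh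
  have : NeZero D := ⟨hD.ne'⟩
  have hpow : ∀ m : ℕ, (2 : ZMod N) ^ (m % D) = (2 : ZMod N) ^ m := by
    intro m
    conv_rhs => rw [← Nat.mod_add_div m D, pow_add, pow_mul, h2, one_pow, mul_one]
  have hu : ∀ a b : ZMod N, (2 : ZMod N) ^ j * a = (2 : ZMod N) ^ j * b → a = b := by
    intro a b hab
    have h3 : (2 : ZMod N) ^ (D * j - j) * (2 : ZMod N) ^ j = 1 := by
      rw [← pow_add, Nat.sub_add_cancel (Nat.le_mul_of_pos_left j hD), pow_mul, h2, one_pow]
    calc a = ((2 : ZMod N) ^ (D * j - j) * (2 : ZMod N) ^ j) * a := by rw [h3, one_mul]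
      _ = (2 : ZMod N) ^ (D * j - j) * ((2 : ZMod N) ^ j * a) := by ring
      _ = (2 : ZMod N) ^ (D * j - j) * ((2 : ZMod N) ^ j * b) := by rw [hab]
      _ = ((2 : ZMod N) ^ (D * j - j) * (2 : ZMod N) ^ j) * b := by ring
      _ = b := by rw [h3, one_mul]
  unfold rep
  symm
  apply Finset.card_equiv (Equiv.piCongrRight fun _ : Fin s => Equiv.addRight (Fin.ofNat D j))
  intro k
  simp only [Finset.mem_filter, Finset.mem_univ, true_and]
  have key : ∑ i, (2 : ZMod N) ^ (((Equiv.piCongrRight fun _ : Fin s =>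
      Equiv.addRight (Fin.ofNat D j)) k i : Fin D) : ℕ)
      = (2 : ZMod N) ^ j * ∑ i, (2 : ZMod N) ^ (k i : ℕ) := by
    rw [Finset.mul_sum]
    apply Finset.sum_congr rfl
    intro i _
    simp only [Equiv.piCongrRight_apply, Pi.map_apply, Equiv.coe_addRight, Fin.val_add, Fin.val_ofNat]
    rw [Nat.add_mod_mod, hpow, pow_add, mul_comm]
  rw [key]
  exact ⟨fun h => by rw [h], fun h => hu _ _ h⟩

theorem rpa_count (N D : ℕ) (hD : 0 < D) (h2 : (2 : ZMod N) ^ D = 1) (h : ZMod N) (hh : h ∈ pw N) :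
    ((Finset.univ : Finset (Fin D)).filter fun k : Fin D => (2 : ZMod N) ^ (k : ℕ) = h).card
      = D / orderOf (2 : ZMod N) := by
  have hpos := rpa_pos N D hD h2
  have hdvd : orderOf (2 : ZMod N) ∣ D := orderOf_dvd_of_pow_eq_one h2
  unfold pw at hh
  rw [Finset.mem_image] at hh
  obtain ⟨j, _, rfl⟩ := hh
  have e1 : ((Finset.univ : Finset (Fin D)).filter fun k : Fin D =>
      (2 : ZMod N) ^ (k : ℕ) = (2 : ZMod N) ^ j).card
      = ((Finset.range D).filter fun k : ℕ => k ≡ j [MOD orderOf (2 : ZMod N)]).card := by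
    apply Finset.card_bij (fun (k : Fin D) _ => (k : ℕ))
    · intro k hk
      simp only [Finset.mem_filter, Finset.mem_univ, true_and] at hk
      simp only [Finset.mem_filter, Finset.mem_range]
      exact ⟨k.isLt, (rpa_iff N D hD h2 _ _).mp hk⟩
    · intro a _ b _ hab
      exact Fin.ext hab
    · intro k hk
      simp only [Finset.mem_filter, Finset.mem_range] at hk
      refine ⟨⟨k, hk.1⟩, ?_, rfl⟩
      simp only [Finset.mem_filter, Finset.mem_univ, true_and]
      exact (rpa_iff N D hD h2 _ _).mpr hk.2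
  rw [e1, ← Nat.count_eq_card_filter_range, Nat.count_modEq_card _ hpos]
  rw [Nat.mod_eq_zero_of_dvd hdvd]
  simp

theorem exps_card (N D : ℕ) (hD : 0 < D) (h2 : (2 : ZMod N) ^ D = 1) (H : Finset (ZMod N))
    (hH : H ⊆ pw N) :
    ((Finset.univ : Finset (Fin D)).filter fun k : Fin D => (2 : ZMod N) ^ (k : ℕ) ∈ H).card
      * orderOf (2 : ZMod N) = D * H.card := by
  have hdvd : orderOf (2 : ZMod N) ∣ D := orderOf_dvd_of_pow_eq_one h2
  rw [Finset.card_eq_sum_card_fiberwise (f := fun k : Fin D => (2 : ZMod N) ^ (k : ℕ)) (t := H)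
    (fun k hk => by simpa using hk)]
  have e1 : ∀ h ∈ H, (((Finset.univ : Finset (Fin D)).filter fun k : Fin D =>
      (2 : ZMod N) ^ (k : ℕ) ∈ H).filter fun k : Fin D => (2 : ZMod N) ^ (k : ℕ) = h).card
      = D / orderOf (2 : ZMod N) := by
    intro h hh
    rw [← rpa_count N D hD h2 h (hH hh)]
    congr 1
    ext k
    simp only [Finset.mem_filter, Finset.mem_univ, true_and]
    constructor
    · rintro ⟨_, h3⟩; exact h3
    · intro h3; exact ⟨by rw [h3]; exact hh, h3⟩
  rw [Finset.sum_congr rfl e1, Finset.sum_const, smul_eq_mul, mul_assoc, Nat.div_mul_cancel hdvd,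
    mul_comm]

theorem en_one (N D : ℕ) [NeZero N] (hD : 0 < D) (h2 : (2 : ZMod N) ^ D = 1) :
    en N D 1 * orderOf (2 : ZMod N) = D ^ 2 := by
  have hdvd : orderOf (2 : ZMod N) ∣ D := orderOf_dvd_of_pow_eq_one h2
  have hrep : ∀ y : ZMod N, rep N D 1 y
      = if y ∈ pw N then D / orderOf (2 : ZMod N) else 0 := by
    intro y
    have e1 : rep N D 1 y = ((Finset.univ : Finset (Fin D)).filter fun k : Fin D =>
        (2 : ZMod N) ^ (k : ℕ) = y).card := by
      unfold rep
      apply Finset.card_equiv (Equiv.funUnique (Fin 1) (Fin D))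
      intro k
      simp
    split_ifs with h
    · rw [e1, rpa_count N D hD h2 y h]
    · rw [e1, Finset.card_eq_zero, Finset.filter_eq_empty_iff]
      intro k _ hk
      exact h (hk ▸ rpa_mem N D hD h2 _)
  unfold en
  simp only [hrep]
  have e2 : ∑ y : ZMod N, (if y ∈ pw N then D / orderOf (2 : ZMod N) else 0) ^ 2
      = (pw N).card * (D / orderOf (2 : ZMod N)) ^ 2 := by
    have : ∀ y : ZMod N, (if y ∈ pw N then D / orderOf (2 : ZMod N) else 0) ^ 2
        = if y ∈ pw N then (D / orderOf (2 : ZMod N)) ^ 2 else 0 := by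
      intro y; split_ifs <;> simp
    simp only [this]
    rw [Finset.sum_ite_mem, Finset.univ_inter, Finset.sum_const, smul_eq_mul]
  rw [e2, card_pw]
  calc orderOf (2 : ZMod N) * (D / orderOf (2 : ZMod N)) ^ 2 * orderOf (2 : ZMod N)
      = (D / orderOf (2 : ZMod N) * orderOf (2 : ZMod N)) ^ 2 := by ring
    _ = D ^ 2 := by rw [Nat.div_mul_cancel hdvd]

end Pool.H53.NA
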