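import Pool.Agent.H53.NA.Defs

/-!
Row RpC: reduction to a divisor `M` of the modulus.  PROOFS.
* `rep_proj`: the ring homomorphism `ZMod.castHom` maps `∑ 2^(k i)` to `∑ 2^(k i)`; sort the `k` counted by
  `rep M D s y` by the value of their sum in `ZMod N`.
* `en_pairs`: `en M D s = ∑_y (∑_{x ↦ y} rep N x)²`, expand the square.
* `en_proj`: keep only the terms `x = x'` of `en_pairs`.
* `coll_le`: keep only the terms `(x, x') ∈ A²`, each with `rep x rep x' ≥ lo²`.
* `isUnit_pq`: `x : ZMod (q1 q2)` with nonzero images is a unit (`ZMod.isUnit_iff_coprime` with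
  `x = (x.val : ZMod _)`, `ZMod.natCast_eq_zero_iff`, `Nat.Coprime.mul_right`).
* `castHom_inj_pq`: if both images of `x` vanish then `x = 0`.
-/

set_option autoImplicit false

namespace Pool.H53.NA

theorem rpc_cast (M N D s : ℕ) (h : M ∣ N) (k : Fin s → Fin D) :
    ZMod.castHom h (ZMod M) (∑ i, (2 : ZMod N) ^ (k i : ℕ)) = ∑ i, (2 : ZMod M) ^ (k i : ℕ) := by
  rw [map_sum]
  apply Finset.sum_congr rfl
  intro i _
  rw [map_pow, map_ofNat]

theorem rep_proj (M N D s : ℕ) [NeZero N] (h : M ∣ N) (y : ZMod M) :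
    rep M D s y = ∑ x ∈ (Finset.univ : Finset (ZMod N)).filter
      (fun x => ZMod.castHom h (ZMod M) x = y), rep N D s x := by
  unfold rep
  rw [Finset.card_eq_sum_card_fiberwise (f := fun k : Fin s → Fin D =>
    ∑ i, (2 : ZMod N) ^ (k i : ℕ)) (t := (Finset.univ : Finset (ZMod N)).filter
      (fun x => ZMod.castHom h (ZMod M) x = y))]
  · apply Finset.sum_congr rfl
    intro x hx
    rw [Finset.mem_filter] at hx
    congr 1
    ext k
    simp only [Finset.mem_filter, Finset.mem_univ, true_and]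
    constructor
    · rintro ⟨_, h2⟩; exact h2
    · intro h2
      refine ⟨?_, h2⟩
      rw [← rpc_cast M N D s h k, h2]
      exact hx.2
  · intro k hk
    simp only [Finset.coe_filter, Finset.mem_univ, true_and, Set.mem_ofPred_eq] at hk ⊢
    rw [rpc_cast M N D s h k]
    exact hk

theorem en_pairs (M N D s : ℕ) [NeZero N] [NeZero M] (h : M ∣ N) :
    (∑ x : ZMod N, ∑ x' : ZMod N, if ZMod.castHom h (ZMod M) x = ZMod.castHom h (ZMod M) x'
      then rep N D s x * rep N D s x' else 0) = en M D s := by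
  unfold en
  have e1 : ∀ y : ZMod M, rep M D s y ^ 2
      = ∑ x : ZMod N, ∑ x' : ZMod N, if ZMod.castHom h (ZMod M) x = y ∧
        ZMod.castHom h (ZMod M) x' = y then rep N D s x * rep N D s x' else 0 := by
    intro y
    rw [rep_proj M N D s h y, sq, Finset.sum_mul_sum, Finset.sum_filter]
    apply Finset.sum_congr rfl
    intro x _
    by_cases hx : ZMod.castHom h (ZMod M) x = y
    · rw [if_pos hx, Finset.sum_filter]
      apply Finset.sum_congr rfl
      intro x' _
      simp only [hx, true_and]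
    · rw [if_neg hx]
      symm
      apply Finset.sum_eq_zero
      intro x' _
      simp only [hx, false_and, if_false]
  simp only [e1]
  symm
  rw [Finset.sum_comm]
  apply Finset.sum_congr rfl
  intro x _
  rw [Finset.sum_comm]
  apply Finset.sum_congr rfl
  intro x' _
  rw [Finset.sum_eq_single (ZMod.castHom h (ZMod M) x)]
  · by_cases hx : ZMod.castHom h (ZMod M) x = ZMod.castHom h (ZMod M) x'
    · rw [if_pos hx, if_pos ⟨rfl, hx.symm⟩]
    · rw [if_neg hx, if_neg]
      rintro ⟨_, h2⟩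
      exact hx h2.symm
  · intro y _ hy
    rw [if_neg]
    rintro ⟨h1, _⟩
    exact hy h1.symm
  · intro h1
    exact absurd (Finset.mem_univ _) h1

theorem en_proj (M N D s : ℕ) [NeZero N] [NeZero M] (h : M ∣ N) : en N D s ≤ en M D s := by
  rw [← en_pairs M N D s h]
  unfold en
  apply Finset.sum_le_sum
  intro x _
  have := Finset.single_le_sum (f := fun x' : ZMod N =>
    if ZMod.castHom h (ZMod M) x = ZMod.castHom h (ZMod M) x'
      then rep N D s x * rep N D s x' else 0) (fun _ _ => Nat.zero_le _) (Finset.mem_univ x)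
  simp only [if_true] at this
  rw [sq]
  exact this

theorem coll_le (M N D s : ℕ) [NeZero N] [NeZero M] (h : M ∣ N) (A : Finset (ZMod N)) (lo : ℝ)
    (hlo : 0 < lo) (hA : ∀ x ∈ A, lo ≤ (rep N D s x : ℝ)) :
    lo ^ 2 * ((A ×ˢ A).filter fun p => ZMod.castHom h (ZMod M) p.1
      = ZMod.castHom h (ZMod M) p.2).card ≤ (en M D s : ℝ) := by
  rw [← en_pairs M N D s h]
  push_cast
  rw [← Finset.sum_product' (f := fun x x' : ZMod N =>
    if ZMod.castHom h (ZMod M) x = ZMod.castHom h (ZMod M) x'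
      then (rep N D s x : ℝ) * (rep N D s x' : ℝ) else 0)]
  rw [← Finset.sum_filter]
  calc lo ^ 2 * ((A ×ˢ A).filter fun p => ZMod.castHom h (ZMod M) p.1
      = ZMod.castHom h (ZMod M) p.2).card
      = ∑ p ∈ (A ×ˢ A).filter (fun p => ZMod.castHom h (ZMod M) p.1
        = ZMod.castHom h (ZMod M) p.2), lo ^ 2 := by
        rw [Finset.sum_const, nsmul_eq_mul, mul_comm]
    _ ≤ ∑ p ∈ (A ×ˢ A).filter (fun p => ZMod.castHom h (ZMod M) p.1
        = ZMod.castHom h (ZMod M) p.2), (rep N D s p.1 : ℝ) * (rep N D s p.2 : ℝ) := by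
        apply Finset.sum_le_sum
        intro p hp
        rw [Finset.mem_filter, Finset.mem_product] at hp
        rw [sq]
        exact mul_le_mul (hA _ hp.1.1) (hA _ hp.1.2) hlo.le (Nat.cast_nonneg _)
    _ ≤ _ := by
        apply Finset.sum_le_sum_of_subset_of_nonneg
        · apply Finset.filter_subset_filter
          exact Finset.subset_univ _
        · intro _ _ _
          positivity

theorem isUnit_pq (q1 q2 : ℕ) [Fact q1.Prime] [Fact q2.Prime] (x : ZMod (q1 * q2))
    (h1 : ZMod.castHom (dvd_mul_right q1 q2) (ZMod q1) x ≠ 0)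
    (h2 : ZMod.castHom (dvd_mul_left q2 q1) (ZMod q2) x ≠ 0) : IsUnit x := by
  have hx : ((x.val : ℕ) : ZMod (q1 * q2)) = x := ZMod.natCast_zmod_val x
  rw [← hx] at h1 h2 ⊢
  rw [map_natCast] at h1 h2
  rw [ZMod.isUnit_iff_coprime]
  rw [Ne, ZMod.natCast_eq_zero_iff] at h1 h2
  apply Nat.Coprime.mul_right
  · exact ((Nat.Prime.coprime_iff_not_dvd Fact.out).mpr h1).symm
  · exact ((Nat.Prime.coprime_iff_not_dvd Fact.out).mpr h2).symm

theorem castHom_inj_pq (q1 q2 : ℕ) [Fact q1.Prime] [Fact q2.Prime] (hne : q1 ≠ q2)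
    (x : ZMod (q1 * q2)) (h1 : ZMod.castHom (dvd_mul_right q1 q2) (ZMod q1) x = 0)
    (h2 : ZMod.castHom (dvd_mul_left q2 q1) (ZMod q2) x = 0) : x = 0 := by
  have hx : ((x.val : ℕ) : ZMod (q1 * q2)) = x := ZMod.natCast_zmod_val x
  rw [← hx] at h1 h2 ⊢
  rw [map_natCast] at h1 h2
  rw [ZMod.natCast_eq_zero_iff] at h1 h2 ⊢
  exact Nat.Coprime.mul_dvd_of_dvd_of_dvd
    ((Nat.coprime_primes Fact.out Fact.out).mpr hne) h1 h2

end Pool.H53.NA
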