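import Pool.Agent.H53.NA.Cor
import Pool.Agent.H53.NA.Mat
import Pool.Agent.H53.NA.RpA
import Pool.Agent.H53.NA.RpC

/-!
Row FqA: a large set of multipliers with distinct images modulo both primes.

PROOF.  `t = orderOf 2` in `ZMod Q`, `Q = q1 q2`, `Ex = {k : Fin D | 2^k ∈ H'}`; by `exps_card`
`|Ex| t = D |H'|` and `|H'| ≥ t/z^425` (`card_pw`), so `|Ex| z^425 ≥ D`.
For `x : ZMod Q` let `w x` be the number of `k : Fin s → Fin D` with all `k i ∈ Ex` and `∑ 2^(k i) = x`, and let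
`U = {x | w x > 0}`.  `∑_{x ∈ U} w x = |Ex|^s`, and for `y : ZMod q1` `∑_{x ∈ U, x ↦ y} w x ≤ rep q1 D s y ≤ 2/q1 D^s`
(the number of ALL `k` whose sum maps to `y`).  `matching` gives `B ⊆ U`, injective modulo `q1` and modulo `q2`, with
`|Ex|^s ≤ |B| (2/q1 + 2/q2) D^s`, hence `min(q1,q2) ≤ 4 z^(425 s) |B|`.  Every `b ∈ B` is a sum of `s` elements of
`H'`, so `Xi A (((s+1) z^1273)^(s+1)) b` by `Xi_comb` (`p = s`, `q = 0`).  Remove from `B` the at most two
elements whose image modulo `q1` or modulo `q2` is `0`: the result `B'` has `|B| ≤ |B'| + 2`.  Its elements are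
units and the differences of distinct elements are units (`isUnit_pq`).
-/

set_option autoImplicit false

namespace Pool.H53.NA

open scoped Pointwise

theorem fqa_exp (Q D : ℕ) (z : ℝ) (hz : 2 ≤ z) (hD : 0 < D) (h2 : (2 : ZMod Q) ^ D = 1)
    (H' : Finset (ZMod Q)) (hH' : H' ⊆ pw Q)
    (hc : ((pw Q).card : ℝ) ≤ z ^ 425 * H'.card) :
    (D : ℝ) ≤ z ^ 425 *
      ((Finset.univ : Finset (Fin D)).filter fun k : Fin D => (2 : ZMod Q) ^ (k : ℕ) ∈ H').card := by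
  set Ex := (Finset.univ : Finset (Fin D)).filter fun k : Fin D => (2 : ZMod Q) ^ (k : ℕ) ∈ H' with hEx
  have h := exps_card Q D hD h2 H' hH'
  rw [card_pw] at hc
  have ht : 0 < orderOf (2 : ZMod Q) := orderOf_pos_iff.2 (isOfFinOrder_iff_pow_eq_one.2 ⟨D, hD, h2⟩)
  have htr : (0 : ℝ) < (orderOf (2 : ZMod Q) : ℝ) := by exact_mod_cast ht
  have h' : ((Ex.card : ℝ)) * (orderOf (2 : ZMod Q) : ℝ) = D * H'.card := by
    have := congrArg (fun n : ℕ => (n : ℝ)) h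
    simpa only [Nat.cast_mul] using this
  have hDr : (0 : ℝ) ≤ D := Nat.cast_nonneg D
  have h3 : (D : ℝ) * (orderOf (2 : ZMod Q) : ℝ) ≤ (z ^ 425 * Ex.card) * (orderOf (2 : ZMod Q) : ℝ) := by
    calc (D : ℝ) * (orderOf (2 : ZMod Q) : ℝ) ≤ D * (z ^ 425 * H'.card) :=
          mul_le_mul_of_nonneg_left hc hDr
      _ = z ^ 425 * (D * H'.card) := by ring
      _ = z ^ 425 * (Ex.card * (orderOf (2 : ZMod Q) : ℝ)) := by rw [h']
      _ = _ := by ring
  exact le_of_mul_le_mul_right h3 htr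

theorem fqa_fib (q Q D s : ℕ) (h : q ∣ Q) (K : Finset (Fin s → Fin D)) (y : ZMod q) :
    ∑ x ∈ (K.image fun k => ∑ i, (2 : ZMod Q) ^ (k i : ℕ)).filter
      (fun x => ZMod.castHom h (ZMod q) x = y),
      ((K.filter fun k => ∑ i, (2 : ZMod Q) ^ (k i : ℕ) = x).card : ℝ) ≤ (rep q D s y : ℝ) := by
  rw [← Nat.cast_sum]
  refine Nat.cast_le.2 ?_
  set T := (K.image fun k => ∑ i, (2 : ZMod Q) ^ (k i : ℕ)).filter
      (fun x => ZMod.castHom h (ZMod q) x = y) with hT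
  set K1 := K.filter (fun k => ∑ i, (2 : ZMod Q) ^ (k i : ℕ) ∈ T) with hK1
  have h1 : K1.card = ∑ x ∈ T, (K1.filter fun k => ∑ i, (2 : ZMod Q) ^ (k i : ℕ) = x).card := by
    refine Finset.card_eq_sum_card_fiberwise (fun k hk => ?_)
    exact (Finset.mem_filter.1 hk).2
  have h2 : ∀ x ∈ T, (K1.filter fun k => ∑ i, (2 : ZMod Q) ^ (k i : ℕ) = x).card =
      (K.filter fun k => ∑ i, (2 : ZMod Q) ^ (k i : ℕ) = x).card := by
    intro x hx
    congr 1
    ext k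
    simp only [hK1, Finset.mem_filter]
    constructor
    · rintro ⟨⟨a, b⟩, c⟩; exact ⟨a, c⟩
    · rintro ⟨a, c⟩; exact ⟨⟨a, by rw [c]; exact hx⟩, c⟩
  rw [← Finset.sum_congr rfl h2, ← h1]
  unfold rep
  refine Finset.card_le_card (fun k hk => ?_)
  have hk2 := (Finset.mem_filter.1 hk).2
  have hk3 := (Finset.mem_filter.1 hk2).2
  refine Finset.mem_filter.2 ⟨Finset.mem_univ _, ?_⟩
  rw [← hk3, map_sum]
  refine Finset.sum_congr rfl (fun i _ => ?_)
  rw [map_pow, map_ofNat]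

theorem fq_set (s q1 q2 D : ℕ) [Fact q1.Prime] [Fact q2.Prime] (z : ℝ) (hz : 2 ≤ z) (hne : q1 ≠ q2)
    (hD : 0 < D) (h2 : (2 : ZMod (q1 * q2)) ^ D = 1)
    (hr1 : ∀ y, (rep q1 D s y : ℝ) ≤ 2 / q1 * (D : ℝ) ^ s)
    (hr2 : ∀ y, (rep q2 D s y : ℝ) ≤ 2 / q2 * (D : ℝ) ^ s)
    (A H' : Finset (ZMod (q1 * q2))) (hA : A.Nonempty)
    (hAA : ((A - A).card : ℝ) ≤ z ^ 1273 * A.card) (hH' : H' ⊆ pw (q1 * q2))
    (hc : ((pw (q1 * q2)).card : ℝ) ≤ z ^ 425 * H'.card) (hX : ∀ h ∈ H', Xi A (z ^ 1273) h) :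
    ∃ B : Finset (ZMod (q1 * q2)), (min q1 q2 : ℝ) ≤ 4 * z ^ (425 * s) * (B.card + 2) ∧
      (∀ b ∈ B, IsUnit b) ∧ (∀ b ∈ B, ∀ b' ∈ B, b ≠ b' → IsUnit (b - b')) ∧
      ∀ b ∈ B, Xi A ((((s + 1 : ℕ) : ℝ) * z ^ 1273) ^ (s + 1)) b := by
  classical
  have hq1 : (0 : ℝ) < q1 := by exact_mod_cast (Fact.out : q1.Prime).pos
  have hq2 : (0 : ℝ) < q2 := by exact_mod_cast (Fact.out : q2.Prime).pos
  have hz0 : (0 : ℝ) < z := by linarith
  have hEx := fqa_exp (q1 * q2) D z hz hD h2 H' hH' hc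
  set Ex := (Finset.univ : Finset (Fin D)).filter
    fun k : Fin D => (2 : ZMod (q1 * q2)) ^ (k : ℕ) ∈ H' with hExd
  have hDr : (0 : ℝ) < D := by exact_mod_cast hD
  have hEx0 : (0 : ℝ) < Ex.card := by
    by_contra hcon
    have h0 : (Ex.card : ℝ) = 0 := le_antisymm (not_lt.1 hcon) (Nat.cast_nonneg _)
    rw [h0, mul_zero] at hEx
    linarith
  set K : Finset (Fin s → Fin D) := Fintype.piFinset (fun _ => Ex) with hK
  have hKc : K.card = Ex.card ^ s := by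
    rw [hK, Fintype.card_piFinset_const]
  set σ : (Fin s → Fin D) → ZMod (q1 * q2) := fun k => ∑ i, (2 : ZMod (q1 * q2)) ^ (k i : ℕ) with hσ
  set U := K.image σ with hU
  set w : ZMod (q1 * q2) → ℝ := fun x => ((K.filter fun k => σ k = x).card : ℝ) with hw
  obtain ⟨B, hBU, hi1, hi2, hBs⟩ := matching U w (fun x _ => Nat.cast_nonneg _)
    (fun x => ZMod.castHom (dvd_mul_right q1 q2) (ZMod q1) x)
    (fun x => ZMod.castHom (dvd_mul_left q2 q1) (ZMod q2) x)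
    (2 / q1 * (D : ℝ) ^ s) (2 / q2 * (D : ℝ) ^ s)
    (fun y => (fqa_fib q1 (q1 * q2) D s (dvd_mul_right q1 q2) K y).trans (hr1 y))
    (fun y => (fqa_fib q2 (q1 * q2) D s (dvd_mul_left q2 q1) K y).trans (hr2 y))
  have hUs : ∑ x ∈ U, w x = (Ex.card : ℝ) ^ s := by
    have h1 : K.card = ∑ x ∈ U, (K.filter fun k => σ k = x).card :=
      Finset.card_eq_sum_card_fiberwise (fun k hk => Finset.mem_image_of_mem σ hk)
    simp only [hw]
    rw [← Nat.cast_sum, ← h1, hKc]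
    push_cast
    rfl
  have hmin : (min (q1 : ℝ) q2) ≤ 4 * z ^ (425 * s) * B.card := by
    set m : ℝ := min (q1 : ℝ) q2 with hm
    have hm0 : 0 < m := lt_min hq1 hq2
    have e1 : 2 / (q1 : ℝ) ≤ 2 / m := div_le_div_of_nonneg_left (by norm_num) hm0 (min_le_left _ _)
    have e2 : 2 / (q2 : ℝ) ≤ 2 / m := div_le_div_of_nonneg_left (by norm_num) hm0 (min_le_right _ _)
    have hDs : (D : ℝ) ^ s ≤ z ^ (425 * s) * (Ex.card : ℝ) ^ s := by
      calc (D : ℝ) ^ s ≤ (z ^ 425 * Ex.card) ^ s := pow_le_pow_left₀ hDr.le hEx s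
        _ = _ := by rw [mul_pow, ← pow_mul]
    have hB0 : (0 : ℝ) ≤ B.card := Nat.cast_nonneg _
    have hDs0 : (0 : ℝ) ≤ (D : ℝ) ^ s := by positivity
    have hEs : (0 : ℝ) < (Ex.card : ℝ) ^ s := by positivity
    have h5 : (Ex.card : ℝ) ^ s * m ≤ (4 * z ^ (425 * s) * B.card) * (Ex.card : ℝ) ^ s := by
      rw [hUs] at hBs
      have h6 : (Ex.card : ℝ) ^ s ≤ B.card * (4 / m * (D : ℝ) ^ s) := by
        refine hBs.trans (mul_le_mul_of_nonneg_left ?_ hB0)
        have : (2 / (q1 : ℝ) * (D : ℝ) ^ s + 2 / q2 * (D : ℝ) ^ s) ≤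
            2 / m * (D : ℝ) ^ s + 2 / m * (D : ℝ) ^ s :=
          add_le_add (mul_le_mul_of_nonneg_right e1 hDs0) (mul_le_mul_of_nonneg_right e2 hDs0)
        refine this.trans (le_of_eq ?_)
        ring
      calc (Ex.card : ℝ) ^ s * m ≤ B.card * (4 / m * (D : ℝ) ^ s) * m :=
            mul_le_mul_of_nonneg_right h6 hm0.le
        _ = 4 * B.card * (D : ℝ) ^ s := by field_simp
        _ ≤ 4 * B.card * (z ^ (425 * s) * (Ex.card : ℝ) ^ s) :=
            mul_le_mul_of_nonneg_left hDs (by positivity)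
        _ = _ := by ring
    have h7 : m * (Ex.card : ℝ) ^ s ≤ (4 * z ^ (425 * s) * B.card) * (Ex.card : ℝ) ^ s := by
      rw [mul_comm m]; exact h5
    exact le_of_mul_le_mul_right h7 hEs
  set B' := B.filter (fun b => ZMod.castHom (dvd_mul_right q1 q2) (ZMod q1) b ≠ 0 ∧
    ZMod.castHom (dvd_mul_left q2 q1) (ZMod q2) b ≠ 0) with hB'
  have hcard : B.card ≤ B'.card + 2 := by
    have h1 : (B.filter (fun b => ZMod.castHom (dvd_mul_right q1 q2) (ZMod q1) b = 0)).card ≤ 1 := by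
      rw [Finset.card_le_one]
      intro a ha b hb
      rw [Finset.mem_filter] at ha hb
      exact hi1 (Finset.mem_coe.2 ha.1) (Finset.mem_coe.2 hb.1) (ha.2.trans hb.2.symm)
    have h2' : (B.filter (fun b => ZMod.castHom (dvd_mul_left q2 q1) (ZMod q2) b = 0)).card ≤ 1 := by
      rw [Finset.card_le_one]
      intro a ha b hb
      rw [Finset.mem_filter] at ha hb
      exact hi2 (Finset.mem_coe.2 ha.1) (Finset.mem_coe.2 hb.1) (ha.2.trans hb.2.symm)
    have h3 : B ⊆ B' ∪ ((B.filter (fun b => ZMod.castHom (dvd_mul_right q1 q2) (ZMod q1) b = 0)) ∪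
        (B.filter (fun b => ZMod.castHom (dvd_mul_left q2 q1) (ZMod q2) b = 0))) := by
      intro b hb
      simp only [Finset.mem_union, hB', Finset.mem_filter]
      by_cases c1 : ZMod.castHom (dvd_mul_right q1 q2) (ZMod q1) b = 0
      · right; left; exact ⟨hb, c1⟩
      · by_cases c2 : ZMod.castHom (dvd_mul_left q2 q1) (ZMod q2) b = 0
        · right; right; exact ⟨hb, c2⟩
        · left; exact ⟨hb, c1, c2⟩
    have h4 := Finset.card_le_card h3
    have h5 := Finset.card_union_le B'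
      ((B.filter (fun b => ZMod.castHom (dvd_mul_right q1 q2) (ZMod q1) b = 0)) ∪
        (B.filter (fun b => ZMod.castHom (dvd_mul_left q2 q1) (ZMod q2) b = 0)))
    have h6 := Finset.card_union_le
      (B.filter (fun b => ZMod.castHom (dvd_mul_right q1 q2) (ZMod q1) b = 0))
      (B.filter (fun b => ZMod.castHom (dvd_mul_left q2 q1) (ZMod q2) b = 0))
    omega
  refine ⟨B', ?_, ?_, ?_, ?_⟩
  · refine hmin.trans (mul_le_mul_of_nonneg_left ?_ (by positivity))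
    exact_mod_cast hcard
  · intro b hb
    have := (Finset.mem_filter.1 hb).2
    exact isUnit_pq q1 q2 b this.1 this.2
  · intro b hb b' hb' hbb
    have hb1 := (Finset.mem_filter.1 hb).1
    have hb1' := (Finset.mem_filter.1 hb').1
    refine isUnit_pq q1 q2 (b - b') ?_ ?_
    · intro h0
      rw [map_sub, sub_eq_zero] at h0
      exact hbb (hi1 (Finset.mem_coe.2 hb1) (Finset.mem_coe.2 hb1') h0)
    · intro h0
      rw [map_sub, sub_eq_zero] at h0
      exact hbb (hi2 (Finset.mem_coe.2 hb1) (Finset.mem_coe.2 hb1') h0)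
  · intro b hb
    have hb1 := (Finset.mem_filter.1 hb).1
    have hbU := hBU hb1
    rw [hU, Finset.mem_image] at hbU
    obtain ⟨k, hk, rfl⟩ := hbU
    rw [hK, Fintype.mem_piFinset] at hk
    have hx1 : (1 : ℝ) ≤ z ^ 1273 := one_le_pow₀ (by linarith)
    have hXi := Xi_comb A (z ^ 1273) hx1 hAA s 0 (fun i => (2 : ZMod (q1 * q2)) ^ (k i : ℕ))
      (fun j => j.elim0) (fun i => hX _ (Finset.mem_filter.1 (hk i)).2) (fun j => j.elim0)
    simpa using hXi

end Pool.H53.NA
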