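import Pool.Agent.H53.NA.Df2

/-!
Row Ord: primes with a given order of two.  PROOFS.
* `ord_dvd`: `q ∣ 2 ^ tq q - 1` (`ZMod.natCast_eq_zero_iff`/`pow_orderOf_eq_one`) and `tq q ∣ q - 1`
  (`ZMod.orderOf_dvd_card_sub_one`/`orderOf_dvd_of_pow_eq_one` with Fermat `ZMod.pow_card_sub_one_eq_one`); `2 ≤ tq q` for an odd prime `q`
  (`2 ^ 1 ≠ 1`).  `q < 2 ^ tq q`.
* `ord_card`: the distinct primes `q ∈ P` with `tq q = d` divide `2^d - 1`, so their product does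
  (`Finset.prod_primes_dvd`), and `2 ^ card ≤ ∏ q ≤ 2^d - 1`.
* `ord_recip`: `q = j d + 1` with `j = (q-1)/d ≥ 1`, injective in `q`; so `∑ 1/q ≤ (1/d) ∑_{j ∈ J} 1/j` with `J` a set of at
  most `d` positive integers, `∑_{j∈J} 1/j ≤ ∑_{j ≤ d} 1/j ≤ 1 + log d` (`harmonic_le_one_add_log`).
* `bad_sum`: `∑ 1/(tq q)^3 = ∑_{d > l0} #{q : tq q = d}/d^3 ≤ ∑_{d > l0} 1/d^2 ≤ 1/l0` (`1/d² ≤ 1/(d-1) - 1/d`).
-/

set_option autoImplicit false

namespace Pool.H53.NA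

theorem ord_dvd (q : ℕ) (hq : q.Prime) (h2 : q ≠ 2) :
    q ∣ 2 ^ tq q - 1 ∧ tq q ∣ q - 1 ∧ 2 ≤ tq q ∧ q < 2 ^ tq q := by
  have : Fact q.Prime := ⟨hq⟩
  have h20 : (2 : ZMod q) ≠ 0 := by
    intro h
    have h3 : ((2 : ℕ) : ZMod q) = 0 := by exact_mod_cast h
    rw [ZMod.natCast_eq_zero_iff] at h3
    exact h2 ((Nat.prime_dvd_prime_iff_eq hq Nat.prime_two).1 h3)
  have h3 : tq q ∣ q - 1 := ZMod.orderOf_dvd_card_sub_one h20
  have hq1 : 0 < q - 1 := by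
    have := hq.two_le
    omega
  have h4 : 0 < tq q := Nat.pos_of_dvd_of_pos h3 hq1
  have h5 : tq q ≠ 1 := by
    intro h
    have h6 : (2 : ZMod q) = 1 := orderOf_eq_one_iff.1 h
    have h7 : (1 : ZMod q) = 0 := by
      have : (2 : ZMod q) - 1 = 1 - 1 := by rw [h6]
      rw [sub_self] at this
      have h8 : (2 : ZMod q) - 1 = 1 := by ring
      rw [← this, h8]
    exact one_ne_zero h7
  have h6 : q ∣ 2 ^ tq q - 1 := by
    rw [← ZMod.natCast_eq_zero_iff, Nat.cast_sub Nat.one_le_two_pow]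
    push_cast
    rw [tq, pow_orderOf_eq_one, sub_self]
  have h7 : 2 ≤ tq q := by omega
  have h8 : 2 ^ 1 < 2 ^ tq q := Nat.pow_lt_pow_right (by norm_num) (by omega)
  have h9 : q ≤ 2 ^ tq q - 1 := Nat.le_of_dvd (by omega) h6
  exact ⟨h6, h3, h7, by omega⟩

theorem ord_card (P : Finset ℕ) (hP : ∀ q ∈ P, q.Prime ∧ q ≠ 2) (d : ℕ) :
    (P.filter fun q => tq q = d).card ≤ d := by
  rcases (P.filter fun q => tq q = d).eq_empty_or_nonempty with he | ⟨q0, hq0⟩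
  · rw [he]
    exact Nat.zero_le _
  · have hd : 2 ≤ d := by
      obtain ⟨h1, h2⟩ := Finset.mem_filter.1 hq0
      rw [← h2]
      exact (ord_dvd q0 (hP q0 h1).1 (hP q0 h1).2).2.2.1
    have h1 : ∏ q ∈ P.filter (fun q => tq q = d), q ∣ 2 ^ d - 1 := by
      apply Finset.prod_primes_dvd
      · intro q hq
        exact (hP q (Finset.mem_filter.1 hq).1).1.prime
      · intro q hq
        obtain ⟨h1, h2⟩ := Finset.mem_filter.1 hq
        rw [← h2]
        exact (ord_dvd q (hP q h1).1 (hP q h1).2).1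
    have h2 : 2 ^ (P.filter fun q => tq q = d).card ≤ ∏ q ∈ P.filter (fun q => tq q = d), q := by
      rw [← Finset.prod_const]
      exact Finset.prod_le_prod' fun q hq => (hP q (Finset.mem_filter.1 hq).1).1.two_le
    have h3 : 2 ^ 1 ≤ 2 ^ d := Nat.pow_le_pow_right (by norm_num) (by omega)
    have h4 := Nat.le_of_dvd (by omega) h1
    have h5 : 2 ^ (P.filter fun q => tq q = d).card < 2 ^ d := by omega
    exact ((Nat.pow_lt_pow_iff_right (by norm_num)).1 h5).le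

theorem ord_harm (J : Finset ℕ) (d : ℕ) (hd : 1 ≤ d) (h0 : ∀ j ∈ J, 1 ≤ j) (hJ : J.card ≤ d) :
    ∑ j ∈ J, ((j : ℝ))⁻¹ ≤ 1 + Real.log d := by
  have h1 : ∑ j ∈ J, ((j : ℝ))⁻¹ ≤ ∑ j ∈ Finset.Icc 1 d, ((j : ℝ))⁻¹ := by
    have hd0 : (0 : ℝ) < d := by exact_mod_cast hd
    rw [← Finset.sum_inter_add_sum_sdiff J (Finset.Icc 1 d) (fun j => ((j : ℝ))⁻¹),
      ← Finset.sum_inter_add_sum_sdiff (Finset.Icc 1 d) J (fun j => ((j : ℝ))⁻¹),
      Finset.inter_comm J]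
    have h2 : ∑ j ∈ J \ Finset.Icc 1 d, ((j : ℝ))⁻¹ ≤ (J \ Finset.Icc 1 d).card • ((d : ℝ))⁻¹ := by
      apply Finset.sum_le_card_nsmul
      intro j hj
      rw [Finset.mem_sdiff, Finset.mem_Icc] at hj
      have h3 := h0 j hj.1
      have h4 : d ≤ j := by
        by_contra h
        exact hj.2 ⟨h3, by omega⟩
      exact inv_anti₀ hd0 (by exact_mod_cast h4)
    have h3 : (Finset.Icc 1 d \ J).card • ((d : ℝ))⁻¹ ≤ ∑ j ∈ Finset.Icc 1 d \ J, ((j : ℝ))⁻¹ := by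
      apply Finset.card_nsmul_le_sum
      intro j hj
      rw [Finset.mem_sdiff, Finset.mem_Icc] at hj
      have h5 : (0 : ℝ) < j := by exact_mod_cast hj.1.1
      exact inv_anti₀ h5 (by exact_mod_cast hj.1.2)
    have h4 : (J \ Finset.Icc 1 d).card ≤ (Finset.Icc 1 d \ J).card := by
      have h5 := Finset.card_sdiff_add_card_inter J (Finset.Icc 1 d)
      have h6 := Finset.card_sdiff_add_card_inter (Finset.Icc 1 d) J
      rw [Finset.inter_comm] at h6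
      have h7 : (Finset.Icc 1 d).card = d := by simp
      omega
    have h5 : (J \ Finset.Icc 1 d).card • ((d : ℝ))⁻¹ ≤
        (Finset.Icc 1 d \ J).card • ((d : ℝ))⁻¹ := by
      rw [nsmul_eq_mul, nsmul_eq_mul]
      exact mul_le_mul_of_nonneg_right (by exact_mod_cast h4) (by positivity)
    linarith
  have h2 := harmonic_le_one_add_log d
  rw [harmonic_eq_sum_Icc] at h2
  push_cast at h2
  exact h1.trans h2

theorem ord_recip (P : Finset ℕ) (hP : ∀ q ∈ P, q.Prime ∧ q ≠ 2) (d : ℕ) (hd : 1 ≤ d) :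
    ∑ q ∈ P.filter (fun q => tq q = d), (1 : ℝ) / q ≤ (1 + Real.log d) / d := by
  have hd0 : (0 : ℝ) < d := by exact_mod_cast hd
  set F := P.filter (fun q => tq q = d) with hF
  have hdiv : ∀ q ∈ F, d ∣ q - 1 := by
    intro q hq
    obtain ⟨h1, h2⟩ := Finset.mem_filter.1 hq
    rw [← h2]
    exact (ord_dvd q (hP q h1).1 (hP q h1).2).2.1
  have h2le : ∀ q ∈ F, 2 ≤ q := fun q hq => (hP q (Finset.mem_filter.1 hq).1).1.two_le
  have hmul : ∀ q ∈ F, d * ((q - 1) / d) = q - 1 := fun q hq => Nat.mul_div_cancel' (hdiv q hq)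
  have hinj : Set.InjOn (fun q => (q - 1) / d) (F : Set ℕ) := by
    intro q hq q' hq' h
    have h1 := hmul q hq
    have h2 := hmul q' hq'
    have h3 := h2le q hq
    have h4 := h2le q' hq'
    have h5 : (q - 1) / d = (q' - 1) / d := h
    rw [h5] at h1
    omega
  have hpos : ∀ q ∈ F, 1 ≤ (q - 1) / d := by
    intro q hq
    have h1 := hmul q hq
    have h3 := h2le q hq
    rcases Nat.eq_zero_or_pos ((q - 1) / d) with h4 | h4
    · rw [h4] at h1
      omega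
    · exact h4
  have hJ := ord_harm (F.image fun q => (q - 1) / d) d hd (by
    intro j hj
    obtain ⟨q, hq, rfl⟩ := Finset.mem_image.1 hj
    exact hpos q hq) (Finset.card_image_le.trans (ord_card P hP d))
  rw [Finset.sum_image hinj] at hJ
  have h6 : ∑ q ∈ F, (1 : ℝ) / q ≤ (∑ q ∈ F, (((q - 1) / d : ℕ) : ℝ)⁻¹) / d := by
    rw [Finset.sum_div]
    apply Finset.sum_le_sum
    intro q hq
    have h1 := hmul q hq
    have h2 := hpos q hq
    have h3 := h2le q hq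
    have h4 : (0 : ℝ) < (((q - 1) / d : ℕ) : ℝ) := by exact_mod_cast h2
    have h5 : (d : ℝ) * (((q - 1) / d : ℕ) : ℝ) ≤ q := by
      have : d * ((q - 1) / d) ≤ q := by omega
      exact_mod_cast this
    rw [one_div, div_eq_mul_inv, ← mul_inv, mul_comm]
    exact inv_anti₀ (by positivity) h5
  exact h6.trans (div_le_div_of_nonneg_right hJ hd0.le)

theorem bad_sum (P : Finset ℕ) (hP : ∀ q ∈ P, q.Prime ∧ q ≠ 2) (l0 : ℕ) (hl : 1 ≤ l0)
    (hg : ∀ q ∈ P, l0 < tq q) : ∑ q ∈ P, (1 : ℝ) / (tq q : ℝ) ^ 3 ≤ 1 / l0 := by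
  rw [Finset.sum_comp (fun d : ℕ => (1 : ℝ) / (d : ℝ) ^ 3) tq]
  set T := P.image tq with hT
  have hTl : ∀ d ∈ T, l0 < d := by
    intro d hd
    obtain ⟨q, hq, rfl⟩ := Finset.mem_image.1 hd
    exact hg q hq
  have h1 : ∑ d ∈ T, (P.filter fun q => tq q = d).card • ((1 : ℝ) / (d : ℝ) ^ 3) ≤
      ∑ d ∈ T, ((d : ℝ) ^ 2)⁻¹ := by
    apply Finset.sum_le_sum
    intro d hd
    have h2 := hTl d hd
    have h3 : (0 : ℝ) < d := by exact_mod_cast (by omega : 0 < d)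
    have h4 : ((P.filter fun q => tq q = d).card : ℝ) ≤ d := by exact_mod_cast ord_card P hP d
    rw [nsmul_eq_mul]
    calc ((P.filter fun q => tq q = d).card : ℝ) * (1 / (d : ℝ) ^ 3)
        ≤ (d : ℝ) * (1 / (d : ℝ) ^ 3) := mul_le_mul_of_nonneg_right h4 (by positivity)
      _ = ((d : ℝ) ^ 2)⁻¹ := by
        field_simp
  have h5 : T ⊆ Finset.Ioc l0 (T.sup id + l0) := by
    intro d hd
    rw [Finset.mem_Ioc]
    have h6 : d ≤ T.sup id := Finset.le_sup (f := id) hd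
    exact ⟨hTl d hd, by omega⟩
  have h7 : ∑ d ∈ T, ((d : ℝ) ^ 2)⁻¹ ≤ ∑ d ∈ Finset.Ioc l0 (T.sup id + l0), ((d : ℝ) ^ 2)⁻¹ :=
    Finset.sum_le_sum_of_subset_of_nonneg h5 (fun d _ _ => by positivity)
  have h8 := sum_Ioc_inv_sq_le_sub (α := ℝ) (k := l0) (n := T.sup id + l0) (by omega) (by omega)
  have h9 : (0 : ℝ) ≤ ((T.sup id + l0 : ℕ) : ℝ)⁻¹ := by positivity
  rw [one_div]
  linarith

end Pool.H53.NA
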