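import Pool.Agent.H53.NA.Dbl

/-!
Row Tot: the total sum.  PROOF of `tot_sum`.  Take `C`, `L` from `dbl_sum`.  Group `T` by `l = gpf d` (`wt d e = 0` unless
`gpf d = gpf e`; `gpf d > l0 ≥ 1` is a prime): `∑_{d,e} = ∑_l ∑_{gpf d = gpf e = l} ≤ ∑_{l > l0} C l^(-3/2) ≤ 2C/√l0`
(`l^(-3/2) ≤ 2 ((l-1)^(-1/2) - l^(-1/2))` for `l ≥ 2`, telescoping over `l0 < l ≤ n`).
-/

set_option autoImplicit false

namespace Pool.H53.NA

theorem tot_step (n : ℕ) (hn : 1 ≤ n) :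
    ((n + 1 : ℕ) : ℝ) ^ (-(3 : ℝ) / 2) ≤ 2 / Real.sqrt n - 2 / Real.sqrt ((n + 1 : ℕ) : ℝ) := by
  have hn' : (1 : ℝ) ≤ (n : ℝ) := by exact_mod_cast hn
  set a := Real.sqrt n with ha
  set b := Real.sqrt ((n + 1 : ℕ) : ℝ) with hb
  have ha0 : 0 < a := Real.sqrt_pos.mpr (by linarith)
  have hb0 : 0 < b := Real.sqrt_pos.mpr (by push_cast; linarith)
  have ha2 : a ^ 2 = n := Real.sq_sqrt (by linarith)
  have hb2 : b ^ 2 = ((n + 1 : ℕ) : ℝ) := Real.sq_sqrt (by push_cast; linarith)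
  have hab : a ≤ b := Real.sqrt_le_sqrt (by push_cast; linarith)
  have e1 : ((n + 1 : ℕ) : ℝ) ^ (-(3 : ℝ) / 2) = 1 / b ^ 3 := by
    rw [← hb2]
    rw [show (b ^ 2 : ℝ) = b ^ (2 : ℝ) by norm_cast, ← Real.rpow_mul hb0.le]
    rw [show (2 : ℝ) * (-(3 : ℝ) / 2) = -3 by norm_num, Real.rpow_neg hb0.le, one_div]
    norm_cast
  rw [e1]
  have hba : (b - a) * (a + b) = 1 := by
    have h1 : (b - a) * (a + b) = b ^ 2 - a ^ 2 := by ring
    rw [h1, ha2, hb2]
    push_cast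
    ring
  have e2 : 2 / a - 2 / b = 2 / (a * b * (a + b)) := by
    have hab0 : 0 < a + b := by linarith
    field_simp
    linarith
  rw [e2]
  rw [div_le_div_iff₀ (by positivity) (by positivity)]
  have : a * b * (a + b) ≤ b * b * (b + b) := by
    apply mul_le_mul (mul_le_mul_of_nonneg_right hab hb0.le) (by linarith) (by positivity) (by positivity)
  nlinarith [this]

theorem tot_tail (l0 : ℕ) (hl0 : 1 ≤ l0) (P : Finset ℕ) (hP : ∀ l ∈ P, l0 < l) :
    ∑ l ∈ P, (l : ℝ) ^ (-(3 : ℝ) / 2) ≤ 2 / Real.sqrt l0 := by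
  have key : ∀ n : ℕ, l0 ≤ n → ∑ l ∈ Finset.Ioc l0 n, (l : ℝ) ^ (-(3 : ℝ) / 2)
      ≤ 2 / Real.sqrt l0 - 2 / Real.sqrt n := by
    intro n hn
    induction n, hn using Nat.le_induction with
    | base => simp
    | succ n hn ih =>
      rw [← Finset.insert_Ioc_right_eq_Ioc_add_one hn, Finset.sum_insert (by simp)]
      have := tot_step n (le_trans hl0 hn)
      linarith
  have hsub : P ⊆ Finset.Ioc l0 (l0 + P.sup id) := by
    intro l hl
    rw [Finset.mem_Ioc]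
    refine ⟨hP l hl, ?_⟩
    have : id l ≤ P.sup id := Finset.le_sup hl
    simp only [id] at this
    exact le_trans this (Nat.le_add_left _ _)
  calc ∑ l ∈ P, (l : ℝ) ^ (-(3 : ℝ) / 2)
      ≤ ∑ l ∈ Finset.Ioc l0 (l0 + P.sup id), (l : ℝ) ^ (-(3 : ℝ) / 2) := by
        apply Finset.sum_le_sum_of_subset_of_nonneg hsub
        intro l _ _
        exact Real.rpow_nonneg (Nat.cast_nonneg _) _
    _ ≤ 2 / Real.sqrt l0 - 2 / Real.sqrt ((l0 + P.sup id : ℕ) : ℝ) := key _ (Nat.le_add_right _ _)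
    _ ≤ 2 / Real.sqrt l0 := by
        have : 0 ≤ 2 / Real.sqrt ((l0 + P.sup id : ℕ) : ℝ) := by positivity
        linarith

theorem gpf_prime_of_pos (d : ℕ) (h : 0 < gpf d) : (gpf d).Prime := by
  unfold gpf at h ⊢
  rcases Finset.eq_empty_or_nonempty d.primeFactors with h0 | h0
  · rw [h0] at h
    simp at h
  · obtain ⟨p, hp, he⟩ := Finset.exists_mem_eq_sup d.primeFactors h0 id
    rw [he]
    exact Nat.prime_of_mem_primeFactors hp

theorem tot_sum : ∃ C : ℝ, 0 < C ∧ ∃ L : ℕ, 1 ≤ L ∧ ∀ l0 : ℕ, L ≤ l0 → ∀ T : Finset ℕ,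
    (∀ d ∈ T, l0 < gpf d) →
    ∑ d ∈ T, ∑ e ∈ T, (1 + Real.log d) * (1 + Real.log e) * wt d e ≤ C / Real.sqrt l0 := by
  obtain ⟨C, hC, L, hL, hd⟩ := dbl_sum
  refine ⟨2 * C, by positivity, L, hL, ?_⟩
  intro l0 hl0 T hT
  have h1 : 1 ≤ l0 := le_trans hL hl0
  rw [← Finset.sum_fiberwise_of_maps_to (s := T) (t := T.image gpf) (g := gpf)
    (fun x hx => Finset.mem_image_of_mem _ hx)]
  have h2 : ∀ l ∈ T.image gpf, ∑ d ∈ T.filter (fun d => gpf d = l), ∑ e ∈ T,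
      (1 + Real.log d) * (1 + Real.log e) * wt d e ≤ C * (l : ℝ) ^ (-(3 : ℝ) / 2) := by
    intro l hl
    rw [Finset.mem_image] at hl
    obtain ⟨d0, hd0, rfl⟩ := hl
    have hl1 : l0 < gpf d0 := hT d0 hd0
    have hpr : (gpf d0).Prime := gpf_prime_of_pos d0 (by omega)
    refine le_trans (le_of_eq ?_) (hd (gpf d0) (by omega) hpr (T.filter (fun d => gpf d = gpf d0))
      (fun d hd => (Finset.mem_filter.mp hd).2))
    apply Finset.sum_congr rfl
    intro d hd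
    have hd2 := (Finset.mem_filter.mp hd).2
    rw [Finset.sum_filter]
    apply Finset.sum_congr rfl
    intro e _
    by_cases he : gpf e = gpf d0
    · rw [if_pos he]
    · rw [if_neg he]
      have : wt d e = 0 := by
        unfold wt
        rw [if_neg]
        rw [hd2]
        exact fun h => he h.symm
      rw [this, mul_zero]
  calc ∑ l ∈ T.image gpf, ∑ d ∈ T.filter (fun d => gpf d = l), ∑ e ∈ T,
      (1 + Real.log d) * (1 + Real.log e) * wt d e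
      ≤ ∑ l ∈ T.image gpf, C * (l : ℝ) ^ (-(3 : ℝ) / 2) := Finset.sum_le_sum h2
    _ = C * ∑ l ∈ T.image gpf, (l : ℝ) ^ (-(3 : ℝ) / 2) := by rw [Finset.mul_sum]
    _ ≤ C * (2 / Real.sqrt l0) := by
        apply mul_le_mul_of_nonneg_left _ hC.le
        apply tot_tail l0 h1
        intro l hl
        rw [Finset.mem_image] at hl
        obtain ⟨d0, hd0, rfl⟩ := hl
        exact hT d0 hd0
    _ = 2 * C / Real.sqrt l0 := by ring

end Pool.H53.NA
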