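import Pool.Agent.H53.NA.Nt4
import Pool.Agent.H53.NA.Cnt
import Pool.Agent.H53.NA.Tot
import Pool.Agent.H53.NA.Ord

/-!
The average of the weights (assembly).
-/

set_option autoImplicit false

namespace Pool.H53.NA

theorem ow_nonneg (m : ℕ) : 0 ≤ ow m := by unfold ow; positivity

theorem wt_nonneg (d e : ℕ) : 0 ≤ wt d e := by
  unfold wt
  split_ifs
  · have := ow_nonneg (mpt d)
    have := ow_nonneg (mpt e)
    positivity
  · exact le_rfl

/-- the sum over primes is bounded by the sum over orders -/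
theorem sum_orders (G : Finset ℕ) (hG : ∀ q ∈ G, q.Prime ∧ q ≠ 2) (h : ℕ → ℕ → ℝ)
    (h0 : ∀ d e, 0 ≤ h d e) :
    ∑ q ∈ G, ∑ q' ∈ G, (1 / (q : ℝ)) * (1 / (q' : ℝ)) * h (tq q) (tq q')
      ≤ ∑ d ∈ G.image tq, ∑ e ∈ G.image tq,
        ((1 + Real.log d) / d) * ((1 + Real.log e) / e) * h d e := by
  classical
  have hmaps : ∀ q ∈ G, tq q ∈ G.image tq := fun q hq => Finset.mem_image_of_mem _ hq
  have hpos : ∀ d ∈ G.image tq, 1 ≤ d := by
    intro d hd
    rw [Finset.mem_image] at hd
    obtain ⟨q, hq, rfl⟩ := hd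
    have := (ord_dvd q (hG q hq).1 (hG q hq).2).2.2.1
    omega
  have hinner : ∀ q ∈ G, ∑ q' ∈ G, (1 / (q : ℝ)) * (1 / (q' : ℝ)) * h (tq q) (tq q')
      ≤ (1 / (q : ℝ)) * ∑ e ∈ G.image tq, ((1 + Real.log e) / e) * h (tq q) e := by
    intro q hq
    rw [← Finset.sum_fiberwise_of_maps_to hmaps, Finset.mul_sum]
    apply Finset.sum_le_sum
    intro e he
    calc ∑ q' ∈ G.filter (fun q' => tq q' = e), (1 / (q : ℝ)) * (1 / (q' : ℝ)) * h (tq q) (tq q')
        = ∑ q' ∈ G.filter (fun q' => tq q' = e), (1 / (q : ℝ)) * h (tq q) e * (1 / (q' : ℝ)) := by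
          apply Finset.sum_congr rfl
          intro q' hq'
          rw [Finset.mem_filter] at hq'
          rw [hq'.2]; ring
      _ = (1 / (q : ℝ)) * h (tq q) e * ∑ q' ∈ G.filter (fun q' => tq q' = e), (1 / (q' : ℝ)) := by
          rw [Finset.mul_sum]
      _ ≤ (1 / (q : ℝ)) * h (tq q) e * ((1 + Real.log e) / e) := by
          have := h0 (tq q) e
          exact mul_le_mul_of_nonneg_left (ord_recip G hG e (hpos e he)) (by positivity)
      _ = _ := by ring
  calc ∑ q ∈ G, ∑ q' ∈ G, (1 / (q : ℝ)) * (1 / (q' : ℝ)) * h (tq q) (tq q')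
      ≤ ∑ q ∈ G, (1 / (q : ℝ)) * ∑ e ∈ G.image tq, ((1 + Real.log e) / e) * h (tq q) e :=
        Finset.sum_le_sum hinner
    _ ≤ ∑ d ∈ G.image tq, ∑ e ∈ G.image tq,
        ((1 + Real.log d) / d) * ((1 + Real.log e) / e) * h d e := by
        rw [← Finset.sum_fiberwise_of_maps_to hmaps]
        apply Finset.sum_le_sum
        intro d hd
        have hlog : ∀ e ∈ G.image tq, 0 ≤ (1 + Real.log e) / (e : ℝ) := by
          intro e he
          have h1 : (1 : ℝ) ≤ e := by exact_mod_cast hpos e he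
          have := Real.log_nonneg h1
          positivity
        have hS0 : 0 ≤ ∑ e ∈ G.image tq, ((1 + Real.log e) / e) * h d e :=
          Finset.sum_nonneg fun e he => mul_nonneg (hlog e he) (h0 d e)
        calc ∑ q ∈ G.filter (fun q => tq q = d),
              (1 / (q : ℝ)) * ∑ e ∈ G.image tq, ((1 + Real.log e) / e) * h (tq q) e
            = (∑ q ∈ G.filter (fun q => tq q = d), (1 / (q : ℝ)))
              * ∑ e ∈ G.image tq, ((1 + Real.log e) / e) * h d e := by
              rw [Finset.sum_mul]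
              apply Finset.sum_congr rfl
              intro q hq
              rw [Finset.mem_filter] at hq
              rw [hq.2]
          _ ≤ ((1 + Real.log d) / d) * ∑ e ∈ G.image tq, ((1 + Real.log e) / e) * h d e :=
              mul_le_mul_of_nonneg_right (ord_recip G hG d (hpos d hd)) hS0
          _ = _ := by
              rw [Finset.mul_sum]
              apply Finset.sum_congr rfl
              intro e _
              ring

/-- the diagonal -/
theorem sum_diag (G : Finset ℕ) (hG : ∀ q ∈ G, q.Prime ∧ q ≠ 2) :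
    ∑ q ∈ G, (tq q : ℝ) * (2 / (q : ℝ)) * wt (tq q) (tq q)
      ≤ 2 * ∑ d ∈ G.image tq, ∑ e ∈ G.image tq,
        (1 + Real.log d) * (1 + Real.log e) * wt d e := by
  classical
  have hmaps : ∀ q ∈ G, tq q ∈ G.image tq := fun q hq => Finset.mem_image_of_mem _ hq
  have hpos : ∀ d ∈ G.image tq, 1 ≤ d := by
    intro d hd
    rw [Finset.mem_image] at hd
    obtain ⟨q, hq, rfl⟩ := hd
    have := (ord_dvd q (hG q hq).1 (hG q hq).2).2.2.1
    omega
  have hlog : ∀ e ∈ G.image tq, 0 ≤ Real.log (e : ℝ) := by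
    intro e he
    exact Real.log_nonneg (by exact_mod_cast hpos e he)
  rw [← Finset.sum_fiberwise_of_maps_to hmaps, Finset.mul_sum]
  apply Finset.sum_le_sum
  intro d hd
  have hd1 : (1 : ℝ) ≤ d := by exact_mod_cast hpos d hd
  have hd0 : (0 : ℝ) < d := by linarith
  have hw := wt_nonneg d d
  calc ∑ q ∈ G.filter (fun q => tq q = d), (tq q : ℝ) * (2 / (q : ℝ)) * wt (tq q) (tq q)
      = (2 * d * wt d d) * ∑ q ∈ G.filter (fun q => tq q = d), (1 / (q : ℝ)) := by
        rw [Finset.mul_sum]
        apply Finset.sum_congr rfl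
        intro q hq
        rw [Finset.mem_filter] at hq
        rw [hq.2]; ring
    _ ≤ (2 * d * wt d d) * ((1 + Real.log d) / d) :=
        mul_le_mul_of_nonneg_left (ord_recip G hG d (hpos d hd)) (by positivity)
    _ = 2 * ((1 + Real.log d) * wt d d) := by field_simp
    _ ≤ 2 * ((1 + Real.log d) * (1 + Real.log d) * wt d d) := by
        have hl := hlog d hd
        have : (1 + Real.log d) * wt d d ≤ (1 + Real.log d) * (1 + Real.log d) * wt d d := by
          have h1 : 0 ≤ (1 + Real.log d) * wt d d := by positivity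
          nlinarith
        linarith
    _ ≤ _ := by
        gcongr
        apply Finset.single_le_sum (f := fun e : ℕ => (1 + Real.log d) * (1 + Real.log e) * wt d e) _ hd
        intro e he
        have := hlog e he
        have := hlog d hd
        have := wt_nonneg d e
        positivity

open Classical in
/-- the average weight -/
theorem avg_weight (G : Finset ℕ) (hG : ∀ q ∈ G, q.Prime ∧ q ≠ 2) (D s : ℕ)
    (K : Finset (Fin s → Fin D)) (A : ℕ → (Fin s → Fin D) → Prop)
    (h1 : ∀ q ∈ G, ((K.filter fun k => A q k).card : ℝ) ≤ tq q * (2 / (q : ℝ)) * (D : ℝ) ^ s)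
    (h2 : ∀ q ∈ G, ∀ q' ∈ G, q ≠ q' → ((K.filter fun k => A q k ∧ A q' k).card : ℝ)
      ≤ tq q * tq q' * (4 / ((q : ℝ) * q')) * (D : ℝ) ^ s) :
    ∑ k ∈ K, ∑ q ∈ G.filter (fun q => A q k), ∑ q' ∈ G.filter (fun q => A q k), wt (tq q) (tq q')
      ≤ 6 * (∑ d ∈ G.image tq, ∑ e ∈ G.image tq,
        (1 + Real.log d) * (1 + Real.log e) * wt d e) * (D : ℝ) ^ s := by
  have hpos : ∀ d ∈ G.image tq, 1 ≤ d := by
    intro d hd
    rw [Finset.mem_image] at hd
    obtain ⟨q, hq, rfl⟩ := hd
    have := (ord_dvd q (hG q hq).1 (hG q hq).2).2.2.1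
    omega
  have hswap : ∑ k ∈ K, ∑ q ∈ G.filter (fun q => A q k), ∑ q' ∈ G.filter (fun q => A q k),
      wt (tq q) (tq q')
      = ∑ q ∈ G, ∑ q' ∈ G, ((K.filter fun k => A q k ∧ A q' k).card : ℝ) * wt (tq q) (tq q') := by
    calc ∑ k ∈ K, ∑ q ∈ G.filter (fun q => A q k), ∑ q' ∈ G.filter (fun q => A q k),
          wt (tq q) (tq q')
        = ∑ k ∈ K, ∑ q ∈ G, ∑ q' ∈ G, (if A q k ∧ A q' k then wt (tq q) (tq q') else 0) := by
          apply Finset.sum_congr rfl
          intro k _
          rw [Finset.sum_filter]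
          apply Finset.sum_congr rfl
          intro q _
          by_cases hq : A q k
          · rw [if_pos hq, Finset.sum_filter]
            apply Finset.sum_congr rfl
            intro q' _
            simp [hq]
          · simp [hq]
      _ = ∑ q ∈ G, ∑ q' ∈ G, ∑ k ∈ K, (if A q k ∧ A q' k then wt (tq q) (tq q') else 0) := by
          rw [Finset.sum_comm]
          apply Finset.sum_congr rfl
          intro q _
          rw [Finset.sum_comm]
      _ = _ := by
          apply Finset.sum_congr rfl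
          intro q _
          apply Finset.sum_congr rfl
          intro q' _
          rw [← Finset.sum_filter, Finset.sum_const, nsmul_eq_mul]
  rw [hswap]
  have hterm : ∀ q ∈ G, ∀ q' ∈ G,
      ((K.filter fun k => A q k ∧ A q' k).card : ℝ) * wt (tq q) (tq q')
      ≤ 4 * (D : ℝ) ^ s * ((1 / (q : ℝ)) * (1 / (q' : ℝ)) * ((tq q : ℝ) * tq q' * wt (tq q) (tq q')))
        + (if q = q' then (tq q : ℝ) * (2 / (q : ℝ)) * wt (tq q) (tq q) * (D : ℝ) ^ s else 0) := by
    intro q hq q' hq'
    have hw := wt_nonneg (tq q) (tq q')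
    by_cases hqq : q = q'
    · subst hqq
      rw [if_pos rfl]
      have e1 : (K.filter fun k => A q k ∧ A q k) = K.filter fun k => A q k := by
        congr 1; ext k; simp
      rw [e1]
      have h3 := mul_le_mul_of_nonneg_right (h1 q hq) hw
      have h4 : 0 ≤ 4 * (D : ℝ) ^ s
          * ((1 / (q : ℝ)) * (1 / (q : ℝ)) * ((tq q : ℝ) * tq q * wt (tq q) (tq q))) := by
        positivity
      linarith
    · rw [if_neg hqq, add_zero]
      have h3 := mul_le_mul_of_nonneg_right (h2 q hq q' hq' hqq) hw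
      refine h3.trans (le_of_eq ?_)
      have hq0 : (0 : ℝ) < q := by exact_mod_cast (hG q hq).1.pos
      have hq0' : (0 : ℝ) < q' := by exact_mod_cast (hG q' hq').1.pos
      field_simp
  calc ∑ q ∈ G, ∑ q' ∈ G, ((K.filter fun k => A q k ∧ A q' k).card : ℝ) * wt (tq q) (tq q')
      ≤ ∑ q ∈ G, ∑ q' ∈ G, (4 * (D : ℝ) ^ s
          * ((1 / (q : ℝ)) * (1 / (q' : ℝ)) * ((tq q : ℝ) * tq q' * wt (tq q) (tq q')))
        + (if q = q' then (tq q : ℝ) * (2 / (q : ℝ)) * wt (tq q) (tq q) * (D : ℝ) ^ s else 0)) :=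
        Finset.sum_le_sum fun q hq => Finset.sum_le_sum fun q' hq' => hterm q hq q' hq'
    _ = 4 * (D : ℝ) ^ s * ∑ q ∈ G, ∑ q' ∈ G,
          ((1 / (q : ℝ)) * (1 / (q' : ℝ)) * ((tq q : ℝ) * tq q' * wt (tq q) (tq q')))
        + (∑ q ∈ G, (tq q : ℝ) * (2 / (q : ℝ)) * wt (tq q) (tq q)) * (D : ℝ) ^ s := by
        simp only [Finset.sum_add_distrib, Finset.mul_sum, Finset.sum_mul]
        congr 1
        apply Finset.sum_congr rfl
        intro q hq
        rw [Finset.sum_ite_eq, if_pos hq]
    _ ≤ 4 * (D : ℝ) ^ s * (∑ d ∈ G.image tq, ∑ e ∈ G.image tq,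
          (1 + Real.log d) * (1 + Real.log e) * wt d e)
        + (2 * ∑ d ∈ G.image tq, ∑ e ∈ G.image tq,
          (1 + Real.log d) * (1 + Real.log e) * wt d e) * (D : ℝ) ^ s := by
        gcongr
        · refine (sum_orders G hG (fun d e => (d : ℝ) * e * wt d e)
            (fun d e => by have := wt_nonneg d e; positivity)).trans (le_of_eq ?_)
          apply Finset.sum_congr rfl
          intro d hd
          apply Finset.sum_congr rfl
          intro e he
          have hd0 : (0 : ℝ) < d := by exact_mod_cast hpos d hd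
          have he0 : (0 : ℝ) < e := by exact_mod_cast hpos e he
          field_simp
        · exact sum_diag G hG
    _ = _ := by ring

end Pool.H53.NA
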