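import Pool.Agent.H53.NA.SvS

/-!
Row Sv: the sieve.  PROOF.  Induction on `l ≥ l0` (up to `l = D`) of the claim: there is `w : ℕ → ℝ`, `w ≥ 0`, with period
`spart D l`, such that (1) `0 < w k → U k ∧ ∀ q ∈ S, gpf (d q) ≤ l → ¬ k ≡ κ q [MOD d q]`; (2)
`#{k < D : U k} - 64 D ∑_{q,q' ∈ S, gpf (d q) = gpf (d q') ≤ l} wt (d q) (d q') ≤ ∑_{k<D} w k`; (3) for `i ∣ spart D l` and all `x`
`∑_{k<D, k≡x (i)} w k ≤ ow i D/i`.
Base `l = l0`: `w = 1_U`; no `q ∈ S` has `gpf (d q) ≤ l0`; `#{k < D : k ≡ x (i)} = D/i` for `i ∣ D` (`spart D l ∣ D`) and `ow i ≥ 1`.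
Step `l → l+1 =: p`: if `p` is not a prime or `p ∤ D` then `spart D p = spart D l` and no `q ∈ S` has `gpf (d q) = p` (it would be a
prime dividing `d q ∣ D`); keep `w`.  Otherwise `spart D p = spart D l * p ^ γ` with `γ = D.factorization p`, coprime
factors; for `q ∈ S_p = {q ∈ S : gpf (d q) = p}` `d q = mpt (d q) * p ^ (d q).factorization p` with `mpt (d q) ∣ spart D l` (its
primes are `< p` and its exponents are at most those of `D`), `1 ≤ (d q).factorization p ≤ γ`; apply `sieve_step`.
At `l = D` every `q ∈ S` has `gpf (d q) ≤ D`, `∑ w > 0` by (2) and `hW`, so some `w k > 0`; use (1).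
-/

set_option autoImplicit false

namespace Pool.H53.NA

theorem sv_gpf_mem (d : ℕ) (h : 0 < gpf d) : gpf d ∈ d.primeFactors := by
  unfold gpf at h ⊢
  have hne : d.primeFactors.Nonempty := by
    rw [Finset.nonempty_iff_ne_empty]
    intro he
    rw [he] at h
    simp at h
  obtain ⟨i, hi, he⟩ := Finset.exists_mem_eq_sup d.primeFactors hne id
  rw [he]
  exact hi

theorem sv_gpf_ge (d q : ℕ) (h : q ∈ d.primeFactors) : q ≤ gpf d := by
  unfold gpf
  exact Finset.le_sup (f := id) h

theorem sv_gpf_le (d : ℕ) : gpf d ≤ d := by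
  rcases Nat.eq_zero_or_pos (gpf d) with h | h
  · omega
  · have := sv_gpf_mem d h
    exact Nat.le_of_mem_primeFactors this

theorem sv_spart_dvd (D l : ℕ) (hD : 0 < D) : spart D l ∣ D := by
  conv_rhs => rw [← Nat.prod_factorization_pow_eq_self hD.ne']
  unfold spart
  rw [Finsupp.prod]
  exact Finset.prod_dvd_prod_of_subset _ _ _ (Finset.filter_subset _ _)

theorem sv_dvd_spart (D l m : ℕ) (hD : 0 < D) (hm : m ∣ D) (h : ∀ q ∈ m.primeFactors, q ≤ l) :
    m ∣ spart D l := by
  have hm0 : m ≠ 0 := by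
    rintro rfl
    exact hD.ne' (Nat.eq_zero_of_zero_dvd hm)
  conv_lhs => rw [← Nat.prod_factorization_pow_eq_self hm0]
  rw [Finsupp.prod]
  have h1 : ∏ q ∈ m.factorization.support, q ^ m.factorization q ∣
      ∏ q ∈ m.factorization.support, q ^ D.factorization q := by
    apply Finset.prod_dvd_prod_of_dvd
    intro q _
    exact pow_dvd_pow q ((Nat.factorization_le_iff_dvd hm0 hD.ne').2 hm q)
  refine h1.trans ?_
  unfold spart
  apply Finset.prod_dvd_prod_of_subset
  intro q hq
  rw [Nat.support_factorization] at hq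
  rw [Finset.mem_filter]
  exact ⟨Nat.primeFactors_mono hm hD.ne' hq, h q hq⟩

theorem sv_spart_same (D l : ℕ) (h : ¬ (l + 1) ∈ D.primeFactors) :
    spart D (l + 1) = spart D l := by
  unfold spart
  congr 1
  ext q
  rw [Finset.mem_filter, Finset.mem_filter]
  constructor
  · rintro ⟨h1, h2⟩
    refine ⟨h1, ?_⟩
    rcases Nat.lt_or_ge l q with h3 | h3
    · have : q = l + 1 := by omega
      exact absurd (this ▸ h1) h
    · exact h3
  · rintro ⟨h1, h2⟩
    exact ⟨h1, by omega⟩

theorem sv_spart_succ (D l : ℕ) (h : (l + 1) ∈ D.primeFactors) :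
    spart D (l + 1) = spart D l * (l + 1) ^ D.factorization (l + 1) := by
  unfold spart
  have h1 : D.primeFactors.filter (fun p => p ≤ l + 1) =
      insert (l + 1) (D.primeFactors.filter (fun p => p ≤ l)) := by
    ext q
    rw [Finset.mem_insert, Finset.mem_filter, Finset.mem_filter]
    constructor
    · rintro ⟨h1, h2⟩
      rcases Nat.lt_or_ge l q with h3 | h3
      · exact Or.inl (by omega)
      · exact Or.inr ⟨h1, h3⟩
    · rintro (h1 | ⟨h1, h2⟩)
      · subst h1
        exact ⟨h, le_rfl⟩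
      · exact ⟨h1, by omega⟩
  rw [h1, Finset.prod_insert, mul_comm]
  rw [Finset.mem_filter]
  rintro ⟨_, h2⟩
  omega

theorem sv_spart_coprime (D l : ℕ) (hp : (l + 1).Prime) : (spart D l).Coprime (l + 1) := by
  unfold spart
  apply Nat.Coprime.prod_left
  intro q hq
  rw [Finset.mem_filter] at hq
  apply Nat.Coprime.pow_left
  rw [Nat.coprime_primes (Nat.prime_of_mem_primeFactors hq.1) hp]
  omega

theorem sv_count (D i x : ℕ) (hD : 0 < D) (hi : i ∣ D) :
    (((Finset.range D).filter (fun k => k ≡ x [MOD i])).card : ℝ) = (D : ℝ) / i := by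
  have hi0 : 0 < i := Nat.pos_of_dvd_of_pos hi hD
  have h1 := Nat.count_modEq_card D hi0 x
  rw [Nat.count_eq_card_filter_range, Nat.mod_eq_zero_of_dvd hi] at h1
  rw [h1]
  simp only [not_lt_zero, if_false, add_zero]
  rw [Nat.cast_div hi]
  exact_mod_cast hi0.ne'

theorem sv_ow (m : ℕ) : 1 ≤ ow m := by
  unfold ow
  exact one_le_pow₀ (by norm_num)

/-- the claim of the induction -/
def SvP {ι : Type} (D : ℕ) (S : Finset ι) (d κ : ι → ℕ) (U : ℕ → Prop) (A : ℝ) (l : ℕ) : Prop :=
  ∃ w : ℕ → ℝ, (∀ k, 0 ≤ w k) ∧ (∀ k, w (k + spart D l) = w k) ∧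
    (∀ k, 0 < w k → U k ∧ ∀ q ∈ S, gpf (d q) ≤ l → ¬ k ≡ κ q [MOD d q]) ∧
    (A - 64 * (D : ℝ) * ∑ q ∈ S, ∑ q' ∈ S, (if gpf (d q) ≤ l then wt (d q) (d q') else 0)
      ≤ ∑ k ∈ Finset.range D, w k) ∧
    (∀ i, i ∣ spart D l → ∀ x, ∑ k ∈ (Finset.range D).filter (fun k => k ≡ x [MOD i]), w k
      ≤ ow i * D / i)

theorem sv_base {ι : Type} (D l0 : ℕ) (hD : 0 < D) (S : Finset ι) (d κ : ι → ℕ)
    (hg : ∀ q ∈ S, l0 < gpf (d q)) (U : ℕ → Prop) [DecidablePred U]
    (hU : ∀ k, U (k + spart D l0) ↔ U k) :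
    SvP D S d κ U ((Finset.range D).filter U).card l0 := by
  refine ⟨fun k => if U k then 1 else 0, ?_, ?_, ?_, ?_, ?_⟩
  · intro k
    show (0 : ℝ) ≤ if U k then 1 else 0
    split_ifs <;> norm_num
  · intro k
    show (if U (k + spart D l0) then (1 : ℝ) else 0) = if U k then 1 else 0
    by_cases h : U k
    · rw [if_pos ((hU k).2 h), if_pos h]
    · rw [if_neg (fun h' => h ((hU k).1 h')), if_neg h]
  · intro k hk
    have hk' : (0 : ℝ) < if U k then 1 else 0 := hk
    by_cases h : U k
    · refine ⟨h, fun q hq hle => ?_⟩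
      have := hg q hq
      omega
    · rw [if_neg h] at hk'
      exact absurd hk' (lt_irrefl _)
  · have h1 : ∑ q ∈ S, ∑ q' ∈ S, (if gpf (d q) ≤ l0 then wt (d q) (d q') else 0) = 0 := by
      apply Finset.sum_eq_zero
      intro q hq
      apply Finset.sum_eq_zero
      intro q' _
      rw [if_neg]
      have := hg q hq
      omega
    rw [h1, mul_zero, sub_zero, Finset.sum_boole]
  · intro i hi x
    show ∑ k ∈ (Finset.range D).filter (fun k => k ≡ x [MOD i]), (if U k then (1 : ℝ) else 0) ≤ _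
    have hiD : i ∣ D := hi.trans (sv_spart_dvd D l0 hD)
    calc ∑ k ∈ (Finset.range D).filter (fun k => k ≡ x [MOD i]), (if U k then (1 : ℝ) else 0)
        ≤ ∑ k ∈ (Finset.range D).filter (fun k => k ≡ x [MOD i]), (1 : ℝ) := by
          apply Finset.sum_le_sum
          intro k _
          split_ifs <;> norm_num
      _ = (D : ℝ) / i := by
          rw [Finset.sum_const, nsmul_eq_mul, mul_one]
          exact sv_count D i x hD hiD
      _ ≤ ow i * D / i := by
          have h2 : (D : ℝ) ≤ ow i * D := le_mul_of_one_le_left (Nat.cast_nonneg _) (sv_ow i)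
          exact div_le_div_of_nonneg_right h2 (Nat.cast_nonneg _)

theorem sv_step {ι : Type} (D l0 l : ℕ) (hD : 0 < D) (S : Finset ι) (d κ : ι → ℕ)
    (hd : ∀ q ∈ S, d q ∣ D) (hg : ∀ q ∈ S, l0 < gpf (d q)) (U : ℕ → Prop) (A : ℝ)
    (h : SvP D S d κ U A l) : SvP D S d κ U A (l + 1) := by
  classical
  obtain ⟨w, hw0, hwp, hw1, hw2, hw3⟩ := h
  by_cases hp : (l + 1) ∈ D.primeFactors
  · have hpp : (l + 1).Prime := Nat.prime_of_mem_primeFactors hp
    have hsp := sv_spart_succ D l hp
    obtain ⟨T, hT⟩ : ∃ T, T = S.filter (fun q => gpf (d q) = l + 1) := ⟨_, rfl⟩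
    have hTm : ∀ q ∈ T, q ∈ S ∧ gpf (d q) = l + 1 := by
      intro q hq
      rw [hT, Finset.mem_filter] at hq
      exact hq
    have hmem : ∀ q ∈ T, (l + 1) ∈ (d q).primeFactors := by
      intro q hq
      have h1 := sv_gpf_mem (d q) (by rw [(hTm q hq).2]; omega)
      rwa [(hTm q hq).2] at h1
    have hd0 : ∀ q ∈ T, d q ≠ 0 := fun q hq => (Nat.mem_primeFactors.1 (hmem q hq)).2.2
    have hmpt : ∀ q ∈ T, mpt (d q) = d q / (l + 1) ^ (d q).factorization (l + 1) := by
      intro q hq
      unfold mpt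
      rw [(hTm q hq).2]
    have hdq : ∀ q ∈ T, mpt (d q) * (l + 1) ^ (d q).factorization (l + 1) = d q := by
      intro q hq
      rw [hmpt q hq]
      exact Nat.div_mul_cancel (Nat.ordProj_dvd (d q) (l + 1))
    obtain ⟨w', h0', hp', h1', h2', h3'⟩ := sieve_step D (spart D l) (l + 1)
      (D.factorization (l + 1)) hD hpp (sv_spart_coprime D l hpp)
      (by rw [← hsp]; exact sv_spart_dvd D (l + 1) hD) w hw0 hwp hw3 T
      (fun q => mpt (d q)) κ (fun q => (d q).factorization (l + 1))
      (by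
        intro q hq
        apply sv_dvd_spart D l _ hD
        · exact (Dvd.intro _ (hdq q hq)).trans (hd q (hTm q hq).1)
        · intro r hr
          have hr1 : r ∈ (d q).primeFactors :=
            Nat.primeFactors_mono (Dvd.intro _ (hdq q hq)) (hd0 q hq) hr
          have hr2 := sv_gpf_ge (d q) r hr1
          rw [(hTm q hq).2] at hr2
          have hr3 : r ≠ l + 1 := by
            rintro rfl
            have h5 := Nat.dvd_of_mem_primeFactors hr
            rw [hmpt q hq] at h5
            exact Nat.not_dvd_ordCompl hpp (hd0 q hq) h5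
          omega)
      (by
        intro q hq
        exact hpp.factorization_pos_of_dvd (hd0 q hq) (Nat.dvd_of_mem_primeFactors (hmem q hq)))
      (by
        intro q hq
        exact (Nat.factorization_le_iff_dvd (hd0 q hq) hD.ne').2 (hd q (hTm q hq).1) (l + 1))
    refine ⟨w', h0', ?_, ?_, ?_, ?_⟩
    · rw [hsp]
      exact hp'
    · intro k hk
      obtain ⟨hk1, hk2⟩ := h1' k hk
      obtain ⟨hk3, hk4⟩ := hw1 k hk1
      refine ⟨hk3, fun q hq hle => ?_⟩
      rcases Nat.lt_or_ge l (gpf (d q)) with h5 | h5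
      · have hqT : q ∈ T := by
          rw [hT, Finset.mem_filter]
          exact ⟨hq, by omega⟩
        have := hk2 q hqT
        rwa [hdq q hqT] at this
      · exact hk4 q hq h5
    · refine le_trans ?_ h2'
      have hsum : ∑ q ∈ S, ∑ q' ∈ S, (if gpf (d q) ≤ l + 1 then wt (d q) (d q') else 0) =
          ∑ q ∈ S, ∑ q' ∈ S, (if gpf (d q) ≤ l then wt (d q) (d q') else 0) +
          ∑ q ∈ T, ∑ q' ∈ T, ow (mpt (d q)) * ow (mpt (d q')) *
            (Nat.gcd (mpt (d q)) (mpt (d q')) : ℝ) /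
            ((mpt (d q) * (l + 1) ^ (d q).factorization (l + 1) : ℕ) *
              (mpt (d q') * (l + 1) ^ (d q').factorization (l + 1) : ℕ)) := by
        have e1 : ∀ q ∈ S, ∑ q' ∈ S, (if gpf (d q) ≤ l + 1 then wt (d q) (d q') else 0) =
            ∑ q' ∈ S, (if gpf (d q) ≤ l then wt (d q) (d q') else 0) +
            (if gpf (d q) = l + 1 then ∑ q' ∈ S, wt (d q) (d q') else 0) := by
          intro q _
          rcases Nat.lt_trichotomy (gpf (d q)) (l + 1) with h | h | h
          · rw [if_neg (by omega), add_zero]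
            refine Finset.sum_congr rfl (fun q' _ => ?_)
            rw [if_pos (by omega), if_pos (by omega)]
          · rw [if_pos h]
            have : ∑ q' ∈ S, (if gpf (d q) ≤ l then wt (d q) (d q') else 0) = 0 := by
              apply Finset.sum_eq_zero
              intro q' _
              rw [if_neg (by omega)]
            rw [this, zero_add]
            refine Finset.sum_congr rfl (fun q' _ => ?_)
            rw [if_pos (by omega)]
          · rw [if_neg (by omega), add_zero]
            refine Finset.sum_congr rfl (fun q' _ => ?_)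
            rw [if_neg (by omega), if_neg (by omega)]
        rw [Finset.sum_congr rfl e1, Finset.sum_add_distrib]
        congr 1
        rw [← Finset.sum_filter, ← hT]
        refine Finset.sum_congr rfl (fun q hq => ?_)
        have e2 : ∑ q' ∈ S, wt (d q) (d q') = ∑ q' ∈ T, wt (d q) (d q') := by
          rw [hT, Finset.sum_filter]
          refine Finset.sum_congr rfl (fun q' _ => ?_)
          by_cases h : gpf (d q') = l + 1
          · rw [if_pos h]
          · rw [if_neg h]
            unfold wt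
            rw [if_neg]
            rw [(hTm q hq).2]
            exact fun h' => h h'.symm
        rw [e2]
        refine Finset.sum_congr rfl (fun q' hq' => ?_)
        unfold wt
        rw [if_pos ((hTm q hq).2.trans (hTm q' hq').2.symm), hdq q hq, hdq q' hq']
      rw [hsum]
      have h6 := hw2
      linarith
    · rw [hsp]
      exact h3'
  · have hsp := sv_spart_same D l hp
    have hne : ∀ q ∈ S, gpf (d q) ≠ l + 1 := by
      intro q hq h
      have h1 := sv_gpf_mem (d q) (by rw [h]; omega)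
      rw [h] at h1
      exact hp (Nat.primeFactors_mono (hd q hq) hD.ne' h1)
    refine ⟨w, hw0, ?_, ?_, ?_, ?_⟩
    · rw [hsp]
      exact hwp
    · intro k hk
      obtain ⟨hk3, hk4⟩ := hw1 k hk
      refine ⟨hk3, fun q hq hle => hk4 q hq ?_⟩
      have := hne q hq
      omega
    · have e : ∑ q ∈ S, ∑ q' ∈ S, (if gpf (d q) ≤ l + 1 then wt (d q) (d q') else 0) =
          ∑ q ∈ S, ∑ q' ∈ S, (if gpf (d q) ≤ l then wt (d q) (d q') else 0) := by
        refine Finset.sum_congr rfl (fun q hq => ?_)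
        refine Finset.sum_congr rfl (fun q' _ => ?_)
        have := hne q hq
        by_cases h : gpf (d q) ≤ l
        · rw [if_pos h, if_pos (by omega)]
        · rw [if_neg h, if_neg (by omega)]
      rw [e]
      exact hw2
    · rw [hsp]
      exact hw3

theorem sieve {ι : Type} (D l0 : ℕ) (hD : 0 < D) (S : Finset ι) (d κ : ι → ℕ)
    (hd : ∀ q ∈ S, d q ∣ D) (hg : ∀ q ∈ S, l0 < gpf (d q)) (U : ℕ → Prop) [DecidablePred U]
    (hU : ∀ k, U (k + spart D l0) ↔ U k)
    (hW : 64 * (D : ℝ) * ∑ q ∈ S, ∑ q' ∈ S, wt (d q) (d q')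
      < ((Finset.range D).filter U).card) :
    ∃ k, U k ∧ ∀ q ∈ S, ¬ k ≡ κ q [MOD d q] := by
  have hall : ∀ n, SvP D S d κ U ((Finset.range D).filter U).card (l0 + n) := by
    intro n
    induction n with
    | zero => exact sv_base D l0 hD S d κ hg U hU
    | succ n ih => exact sv_step D l0 (l0 + n) hD S d κ hd hg U _ ih
  obtain ⟨w, hw0, -, hw1, hw2, -⟩ := hall D
  have hle : ∀ q ∈ S, gpf (d q) ≤ l0 + D := by
    intro q hq
    have h1 := sv_gpf_le (d q)
    have h2 := Nat.le_of_dvd hD (hd q hq)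
    omega
  have e : ∑ q ∈ S, ∑ q' ∈ S, (if gpf (d q) ≤ l0 + D then wt (d q) (d q') else 0) =
      ∑ q ∈ S, ∑ q' ∈ S, wt (d q) (d q') := by
    refine Finset.sum_congr rfl (fun q hq => ?_)
    refine Finset.sum_congr rfl (fun q' _ => ?_)
    rw [if_pos (hle q hq)]
  rw [e] at hw2
  have hpos : 0 < ∑ k ∈ Finset.range D, w k := by linarith
  obtain ⟨k, _, hk⟩ := Finset.exists_lt_of_sum_lt (s := Finset.range D) (f := fun _ => (0 : ℝ))
    (g := w) (by simpa using hpos)
  obtain ⟨h1, h2⟩ := hw1 k hk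
  exact ⟨k, h1, fun q hq => h2 q hq (hle q hq)⟩

end Pool.H53.NA
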