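import Pool.Agent.H53.NA.ScA
import Pool.Agent.H53.NA.LSa
import Pool.Agent.H53.NA.Sv

/-!
Local solubility (assembly).
-/

set_option autoImplicit false

namespace Pool.H53.NA

/-- an order with largest prime factor `≤ l0` divides the `l0`-smooth part -/
theorem dvd_spart (D l0 t : ℕ) (hD : 0 < D) (ht : t ∣ D) (hg : gpf t ≤ l0) : t ∣ spart D l0 := by
  have ht0 : t ≠ 0 := fun h => by rw [h, zero_dvd_iff] at ht; omega
  have hs0 : spart D l0 ≠ 0 := by
    unfold spart
    rw [Finset.prod_ne_zero_iff]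
    intro p hp
    rw [Finset.mem_filter] at hp
    exact pow_ne_zero _ (Nat.prime_of_mem_primeFactors hp.1).ne_zero
  rw [← Nat.factorization_le_iff_dvd ht0 hs0]
  intro p
  by_cases hp : p ∈ t.primeFactors
  · have hpp : p.Prime := Nat.prime_of_mem_primeFactors hp
    have hpl : p ≤ l0 := by
      refine le_trans ?_ hg
      unfold gpf
      exact Finset.le_sup (f := id) hp
    have hpD : p ∈ D.primeFactors := Nat.primeFactors_mono ht hD.ne' hp
    have h1 : t.factorization p ≤ D.factorization p :=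
      (Nat.factorization_le_iff_dvd ht0 hD.ne').mpr ht p
    have h2 : p ^ D.factorization p ∣ spart D l0 := by
      unfold spart
      exact Finset.dvd_prod_of_mem (fun p => p ^ D.factorization p)
        (Finset.mem_filter.mpr ⟨hpD, hpl⟩)
    have h3 : D.factorization p ≤ (spart D l0).factorization p :=
      (hpp.pow_dvd_iff_le_factorization hs0).mp h2
    exact h1.trans h3
  · have : t.factorization p = 0 := by
      rw [← Finsupp.notMem_support_iff, Nat.support_factorization]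
      exact hp
    rw [this]
    exact Nat.zero_le _

/-- discrete logarithms -/
theorem exists_log (q : ℕ) (y : ZMod q) (hy : y ∈ pw q) : ∃ κ : ℕ, (2 : ZMod q) ^ κ = y := by
  unfold pw at hy
  rw [Finset.mem_image] at hy
  obtain ⟨k, _, hk⟩ := hy
  exact ⟨k, hk⟩

theorem pow_mem_pw (q D : ℕ) (hD : 0 < D) (h2 : (2 : ZMod q) ^ D = 1) (k : ℕ) :
    (2 : ZMod q) ^ k ∈ pw q := by
  unfold pw
  rw [Finset.mem_image]
  have hpos : 0 < orderOf (2 : ZMod q) := order_pos q D hD h2
  exact ⟨k % orderOf (2 : ZMod q), Finset.mem_range.mpr (Nat.mod_lt _ hpos),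
    pow_mod_orderOf _ _⟩

open Classical in
theorem LS : ∃ r : ℕ, ∀ P : Finset ℕ, (∀ q ∈ P, q.Prime ∧ q ≠ 2) → ∀ n : ℤ,
    ∃ k : Fin r → ℕ, ∀ q ∈ P, ((n : ZMod q) - ∑ i, (2 : ZMod q) ^ (k i)) ≠ 0 := by
  obtain ⟨c, hc, L1, hL1, h1⟩ := smooth_count
  obtain ⟨Cw, hCw, L2, hL2, h2⟩ := tot_sum
  obtain ⟨s0, t1, hs0, ht1, h3⟩ := nt_final
  -- choice of `l0`
  obtain ⟨l0, hl01, hl02, hl03, hl04⟩ : ∃ l0 : ℕ, L1 ≤ l0 ∧ L2 ≤ l0 ∧ t1 ≤ l0 ∧
      1 / (l0 : ℝ) + 64 * (6 * (Cw / Real.sqrt l0)) < c * (l0 : ℝ) ^ (-(1 : ℝ) / 4) := by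
    have hlim : Filter.Tendsto (fun l : ℕ => (1 / (l : ℝ) + 64 * (6 * (Cw / Real.sqrt l)))
        * (l : ℝ) ^ ((1 : ℝ) / 4)) Filter.atTop (nhds 0) := by
      have ha : Filter.Tendsto (fun l : ℕ => (l : ℝ) ^ (-(3 : ℝ) / 4)) Filter.atTop (nhds 0) := by
        have := (tendsto_rpow_neg_atTop (y := (3 : ℝ) / 4) (by norm_num)).comp
          tendsto_natCast_atTop_atTop
        refine this.congr fun l => ?_
        simp only [Function.comp]
        congr 1; norm_num
      have hb : Filter.Tendsto (fun l : ℕ => (l : ℝ) ^ (-(1 : ℝ) / 4)) Filter.atTop (nhds 0) := by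
        have := (tendsto_rpow_neg_atTop (y := (1 : ℝ) / 4) (by norm_num)).comp
          tendsto_natCast_atTop_atTop
        refine this.congr fun l => ?_
        simp only [Function.comp]
        congr 1; norm_num
      have hsum := ha.add (hb.const_mul (64 * (6 * Cw)))
      rw [mul_zero, add_zero] at hsum
      refine hsum.congr' ?_
      filter_upwards [Filter.eventually_gt_atTop 0] with l hl
      have hl0 : (0 : ℝ) < l := by exact_mod_cast hl
      rw [Real.sqrt_eq_rpow]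
      have e1 : (1 : ℝ) / l = (l : ℝ) ^ (-(1 : ℝ)) := by
        rw [Real.rpow_neg_one, one_div]
      have e2 : Cw / (l : ℝ) ^ ((1 : ℝ) / 2) = Cw * (l : ℝ) ^ (-(1 : ℝ) / 2) := by
        rw [neg_div, Real.rpow_neg hl0.le, div_eq_mul_inv]
      rw [e1, e2, add_mul, ← Real.rpow_add hl0]
      have e3 : 64 * (6 * (Cw * (l : ℝ) ^ (-(1 : ℝ) / 2))) * (l : ℝ) ^ ((1 : ℝ) / 4)
          = 64 * (6 * Cw) * ((l : ℝ) ^ (-(1 : ℝ) / 2) * (l : ℝ) ^ ((1 : ℝ) / 4)) := by ring
      rw [e3, ← Real.rpow_add hl0]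
      congr 2
      · norm_num
      · norm_num
    have hev := (hlim.eventually (gt_mem_nhds hc)).and
      ((Filter.eventually_ge_atTop L1).and ((Filter.eventually_ge_atTop L2).and
        ((Filter.eventually_ge_atTop t1).and (Filter.eventually_gt_atTop 0))))
    obtain ⟨l0, ha, hb, hc', hd, he⟩ := hev.exists
    refine ⟨l0, hb, hc', hd, ?_⟩
    have hl0 : (0 : ℝ) < l0 := by exact_mod_cast he
    have hp : (0 : ℝ) < (l0 : ℝ) ^ (-(1 : ℝ) / 4) := Real.rpow_pos_of_pos hl0 _
    have hmul : (l0 : ℝ) ^ ((1 : ℝ) / 4) * (l0 : ℝ) ^ (-(1 : ℝ) / 4) = 1 := by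
      rw [← Real.rpow_add hl0]
      norm_num
    calc 1 / (l0 : ℝ) + 64 * (6 * (Cw / Real.sqrt l0))
        = ((1 / (l0 : ℝ) + 64 * (6 * (Cw / Real.sqrt l0))) * (l0 : ℝ) ^ ((1 : ℝ) / 4))
          * (l0 : ℝ) ^ (-(1 : ℝ) / 4) := by rw [mul_assoc, hmul, mul_one]
      _ < c * (l0 : ℝ) ^ (-(1 : ℝ) / 4) := by gcongr
  have hl0pos : 1 ≤ l0 := hL1.trans hl01
  obtain ⟨s1, hs1⟩ := h1 l0 hl01
  set s : ℕ := max s0 s1 with hs
  refine ⟨s + 1, ?_⟩
  intro P hP n
  -- the period
  have hoddP : Odd (∏ q ∈ P, q) := by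
    apply Finset.prod_induction _ (fun n => Odd n) (fun a b ha hb => ha.mul hb) odd_one
    intro q hq
    exact (hP q hq).1.odd_of_ne_two (hP q hq).2
  set D : ℕ := Nat.totient (∏ q ∈ P, q) with hDdef
  have hD : 0 < D := Nat.totient_pos.mpr hoddP.pos
  have hDR : (0 : ℝ) < D := by exact_mod_cast hD
  have hdvd : ∀ N : ℕ, N ∣ ∏ q ∈ P, q → (2 : ZMod N) ^ D = 1 := by
    intro N hN
    apply two_pow_proj N (∏ q ∈ P, q) D hN
    have hcop : Nat.Coprime 2 (∏ q ∈ P, q) := (Nat.coprime_two_left).mpr hoddP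
    have := ZMod.pow_totient (ZMod.unitOfCoprime 2 hcop)
    have h4 := congrArg Units.val this
    push_cast at h4
    rw [ZMod.coe_unitOfCoprime] at h4
    exact_mod_cast h4
  have hFdvd : ∀ F ⊆ P, (∏ q ∈ F, q) ∣ ∏ q ∈ P, q := fun F hF =>
    Finset.prod_dvd_prod_of_subset F P _ hF
  have h2F : ∀ F ⊆ P, (2 : ZMod (∏ q ∈ F, q)) ^ D = 1 := fun F hF => hdvd _ (hFdvd F hF)
  have h2q : ∀ q ∈ P, (2 : ZMod q) ^ D = 1 := fun q hq =>
    hdvd q (Finset.dvd_prod_of_mem (fun q => q) hq)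
  have h2qq : ∀ q ∈ P, ∀ q' ∈ P, q ≠ q' → (2 : ZMod (q * q')) ^ D = 1 := by
    intro q hq q' hq' hne
    apply hdvd
    have := hFdvd {q, q'} (by intro x hx; simp at hx; rcases hx with rfl | rfl <;> assumption)
    rwa [Finset.prod_pair hne] at this
  have htpos : ∀ q ∈ P, 2 ≤ tq q ∧ tq q ∣ D := by
    intro q hq
    exact ⟨(ord_dvd q (hP q hq).1 (hP q hq).2).2.2.1, orderOf_dvd_of_pow_eq_one (h2q q hq)⟩
  -- the residue `n - ∑ 2^κ`
  set yy : (q : ℕ) → (Fin s → Fin D) → ZMod q := fun q κ =>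
    (n : ZMod q) - ∑ i, (2 : ZMod q) ^ (κ i : ℕ) with hyy
  -- smooth count
  have hsc := hs1 (s + 1) (by have := le_max_right s0 s1; omega) P hP D hD h2F n
  set US : (Fin s → Fin D) → ℕ → Prop := fun κ k => ∀ q ∈ P, gpf (tq q) ≤ l0 →
    yy q κ - (2 : ZMod q) ^ k ≠ 0 with hUS
  set Bad : Finset (Fin s → Fin D) := Finset.univ.filter fun κ : Fin s → Fin D =>
    ∃ q ∈ P, l0 < gpf (tq q) ∧ tq q ^ 5 < q ∧ yy q κ ∈ pw q with hBad
  have hcount : (((Finset.univ : Finset (Fin (s + 1) → Fin D)).filter fun k : Fin (s + 1) → Fin D =>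
      ∀ q ∈ P, gpf (tq q) ≤ l0 → ((n : ZMod q) - ∑ i, (2 : ZMod q) ^ (k i : ℕ)) ≠ 0).card : ℝ)
      ≤ ∑ κ : Fin s → Fin D, (((Finset.range D).filter (US κ)).card : ℝ) := by
    have hle : ((Finset.univ : Finset (Fin (s + 1) → Fin D)).filter fun k : Fin (s + 1) → Fin D =>
      ∀ q ∈ P, gpf (tq q) ≤ l0 → ((n : ZMod q) - ∑ i, (2 : ZMod q) ^ (k i : ℕ)) ≠ 0).card
      ≤ (Finset.univ.sigma fun κ : Fin s → Fin D => (Finset.range D).filter (US κ)).card := by
      apply Finset.card_le_card_of_injOn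
        (fun k => (⟨fun i => k i.succ, (k 0 : ℕ)⟩ : Σ _ : (Fin s → Fin D), ℕ))
      · intro k hk
        simp only [Finset.coe_filter, Finset.mem_univ, true_and, Set.mem_ofPred_eq] at hk
        simp only [Finset.coe_sigma, Set.mem_sigma_iff, Finset.coe_univ, Set.mem_univ, true_and,
          Finset.coe_filter, Finset.mem_range, Set.mem_ofPred_eq]
        refine ⟨(k 0).isLt, ?_⟩
        intro q hq hg
        have := hk q hq hg
        rw [Fin.sum_univ_succ] at this
        simp only [hyy]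
        intro h0
        apply this
        rw [← h0]; ring
      · intro k _ k' _ h
        simp only [Sigma.mk.injEq, heq_eq_eq] at h
        funext i
        refine Fin.cases ?_ (fun j => ?_) i
        · exact Fin.ext h.2
        · exact congrFun h.1 j
    rw [Finset.card_sigma] at hle
    exact_mod_cast hle
  have hBadc : (Bad.card : ℝ) ≤ 1 / l0 * (D : ℝ) ^ s := by
    set PB : Finset ℕ := P.filter fun q => l0 < gpf (tq q) ∧ tq q ^ 5 < q with hPB
    have hsub : Bad ⊆ PB.biUnion fun q => Finset.univ.filter fun κ : Fin s → Fin D =>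
        yy q κ ∈ pw q := by
      intro κ hκ
      rw [hBad, Finset.mem_filter] at hκ
      obtain ⟨_, q, hq, ha, hb, hc'⟩ := hκ
      rw [Finset.mem_biUnion]
      exact ⟨q, by rw [hPB, Finset.mem_filter]; exact ⟨hq, ha, hb⟩, by
        rw [Finset.mem_filter]; exact ⟨Finset.mem_univ _, hc'⟩⟩
    have hgt : ∀ q ∈ P, l0 < gpf (tq q) → l0 < tq q := by
      intro q hq hg
      refine lt_of_lt_of_le hg ?_
      unfold gpf
      apply Finset.sup_le
      intro p hp
      exact Nat.le_of_dvd (by have := (htpos q hq).1; omega) (Nat.dvd_of_mem_primeFactors hp)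
    calc (Bad.card : ℝ) ≤ ((PB.biUnion fun q => Finset.univ.filter fun κ : Fin s → Fin D =>
        yy q κ ∈ pw q).card : ℝ) := by exact_mod_cast Finset.card_le_card hsub
      _ ≤ ∑ q ∈ PB, ((Finset.univ.filter fun κ : Fin s → Fin D => yy q κ ∈ pw q).card : ℝ) := by
        exact_mod_cast Finset.card_biUnion_le
      _ ≤ ∑ q ∈ PB, (1 / (tq q : ℝ) ^ 3) * (D : ℝ) ^ s := by
        apply Finset.sum_le_sum
        intro q hq
        rw [hPB, Finset.mem_filter] at hq
        have : Fact q.Prime := ⟨(hP q hq.1).1⟩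
        have hlt := hgt q hq.1 hq.2.1
        have htR : (0 : ℝ) < tq q := by exact_mod_cast lt_of_le_of_lt (Nat.zero_le _) hlt
        have hb := ((h3 s D (le_max_left _ _) hD).1 q (h2q q hq.1)
          (le_trans hl03 (by exact hlt.le))).2 hq.2.2
        have hcn := cnt_pw q D s _ hb (n : ZMod q)
        refine hcn.trans (le_of_eq ?_)
        unfold tq at htR ⊢
        field_simp
      _ = (∑ q ∈ PB, (1 / (tq q : ℝ) ^ 3)) * (D : ℝ) ^ s := by rw [Finset.sum_mul]
      _ ≤ 1 / l0 * (D : ℝ) ^ s := by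
        gcongr
        apply bad_sum PB _ l0 hl0pos
        · intro q hq
          rw [hPB, Finset.mem_filter] at hq
          exact hgt q hq.1 hq.2.1
        · intro q hq
          rw [hPB, Finset.mem_filter] at hq
          exact hP q hq.1
  -- the good primes
  set G : Finset ℕ := P.filter fun q => l0 < gpf (tq q) ∧ q ≤ tq q ^ 5 with hG
  have hGP : ∀ q ∈ G, q ∈ P ∧ l0 < gpf (tq q) ∧ q ≤ tq q ^ 5 := by
    intro q hq
    rw [hG, Finset.mem_filter] at hq
    exact ⟨hq.1, hq.2.1, hq.2.2⟩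
  have hGt1 : ∀ q ∈ G, t1 ≤ orderOf (2 : ZMod q) := by
    intro q hq
    have hg := (hGP q hq).2.1
    have : gpf (tq q) ≤ tq q := by
      unfold gpf
      apply Finset.sup_le
      intro p hp
      exact Nat.le_of_dvd (by have := (htpos q (hGP q hq).1).1; omega)
        (Nat.dvd_of_mem_primeFactors hp)
    change t1 ≤ tq q
    omega
  have havg := avg_weight G (fun q hq => hP q (hGP q hq).1) D s Finset.univ
    (fun q κ => yy q κ ∈ pw q)
    (by
      intro q hq
      have : Fact q.Prime := ⟨(hP q (hGP q hq).1).1⟩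
      have ha := ((h3 s D (le_max_left _ _) hD).1 q (h2q q (hGP q hq).1) (hGt1 q hq)).1
        (hGP q hq).2.2
      have hcn := cnt_pw q D s _ ha (n : ZMod q)
      refine le_trans (le_of_eq ?_) (hcn.trans (le_of_eq (by ring)))
      congr!)
    (by
      intro q hq q' hq' hne
      have : Fact q.Prime := ⟨(hP q (hGP q hq).1).1⟩
      have : Fact q'.Prime := ⟨(hP q' (hGP q' hq').1).1⟩
      have ha := (h3 s D (le_max_left _ _) hD).2 q q' hne
        (h2qq q (hGP q hq).1 q' (hGP q' hq').1 hne) (hGt1 q hq) (hGt1 q' hq')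
        (hGP q hq).2.2 (hGP q' hq').2.2
      have hcn := cnt_pw2 q q' D s hne _ ha (n : ZMod q) (n : ZMod q')
      refine le_trans (le_of_eq ?_) (hcn.trans (le_of_eq (by ring)))
      congr!)
  have htot := h2 l0 hl02 (G.image tq) (by
    intro d hd
    rw [Finset.mem_image] at hd
    obtain ⟨q, hq, rfl⟩ := hd
    exact (hGP q hq).2.1)
  have hW : ∑ κ : Fin s → Fin D, ∑ q ∈ G.filter (fun q => yy q κ ∈ pw q),
      ∑ q' ∈ G.filter (fun q => yy q κ ∈ pw q), wt (tq q) (tq q')
      ≤ 6 * (Cw / Real.sqrt l0) * (D : ℝ) ^ s := by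
    refine le_trans (le_of_eq ?_) (havg.trans (b := 6 * (∑ d ∈ G.image tq, ∑ e ∈ G.image tq,
        (1 + Real.log d) * (1 + Real.log e) * wt d e) * (D : ℝ) ^ s) ?_)
    · congr!
    · gcongr
  -- choose `κ`
  set WW : (Fin s → Fin D) → ℝ := fun κ => ∑ q ∈ G.filter (fun q => yy q κ ∈ pw q),
      ∑ q' ∈ G.filter (fun q => yy q κ ∈ pw q), wt (tq q) (tq q') with hWW
  set UU : (Fin s → Fin D) → ℕ → Prop := fun κ k => US κ k ∧ κ ∉ Bad with hUU
  have hUsum : c * (l0 : ℝ) ^ (-(1 : ℝ) / 4) * (D : ℝ) ^ (s + 1) - D * (1 / l0 * (D : ℝ) ^ s)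
      ≤ ∑ κ : Fin s → Fin D, (((Finset.range D).filter (UU κ)).card : ℝ) := by
    have h5 : ∑ κ : Fin s → Fin D, (((Finset.range D).filter (US κ)).card : ℝ)
        ≤ ∑ κ : Fin s → Fin D, ((((Finset.range D).filter (UU κ)).card : ℝ)
          + (if κ ∈ Bad then (D : ℝ) else 0)) := by
      apply Finset.sum_le_sum
      intro κ _
      by_cases hκ : κ ∈ Bad
      · rw [if_pos hκ]
        have h6 : (((Finset.range D).filter (US κ)).card : ℝ) ≤ D := by
          have := Finset.card_filter_le (Finset.range D) (US κ)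
          rw [Finset.card_range] at this
          exact_mod_cast this
        have h7 : (0 : ℝ) ≤ (((Finset.range D).filter (UU κ)).card : ℝ) := Nat.cast_nonneg _
        linarith
      · rw [if_neg hκ, add_zero]
        have : (Finset.range D).filter (US κ) ⊆ (Finset.range D).filter (UU κ) := by
          intro k hk
          rw [Finset.mem_filter] at hk ⊢
          exact ⟨hk.1, hk.2, hκ⟩
        exact_mod_cast Finset.card_le_card this
    rw [Finset.sum_add_distrib, ← Finset.sum_filter, Finset.sum_const, nsmul_eq_mul] at h5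
    have h8 : ((Finset.univ.filter fun κ : Fin s → Fin D => κ ∈ Bad).card : ℝ) = Bad.card := by
      congr 2
      ext κ; simp
    rw [h8] at h5
    have h9 : (Bad.card : ℝ) * D ≤ D * (1 / l0 * (D : ℝ) ^ s) := by
      rw [mul_comm]
      gcongr
    linarith [hsc.trans (hcount.trans h5)]
  obtain ⟨κ, hκ⟩ : ∃ κ : Fin s → Fin D, 64 * (D : ℝ) * WW κ
      < ((Finset.range D).filter (UU κ)).card := by
    by_contra hcon
    push Not at hcon
    have h10 : ∑ κ : Fin s → Fin D, (((Finset.range D).filter (UU κ)).card : ℝ)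
        ≤ ∑ κ : Fin s → Fin D, 64 * (D : ℝ) * WW κ := Finset.sum_le_sum fun κ _ => hcon κ
    rw [← Finset.mul_sum] at h10
    have h11 : 64 * (D : ℝ) * ∑ κ : Fin s → Fin D, WW κ
        ≤ 64 * (D : ℝ) * (6 * (Cw / Real.sqrt l0) * (D : ℝ) ^ s) := by gcongr
    have h12 : c * (l0 : ℝ) ^ (-(1 : ℝ) / 4) * (D : ℝ) ^ (s + 1)
        ≤ (1 / (l0 : ℝ) + 64 * (6 * (Cw / Real.sqrt l0))) * (D : ℝ) ^ (s + 1) := by
      have e1 : (1 / (l0 : ℝ) + 64 * (6 * (Cw / Real.sqrt l0))) * (D : ℝ) ^ (s + 1)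
          = D * (1 / l0 * (D : ℝ) ^ s) + 64 * (D : ℝ) * (6 * (Cw / Real.sqrt l0) * (D : ℝ) ^ s) := by
        rw [pow_succ]; ring
      rw [e1]
      linarith
    have h13 : (0 : ℝ) < (D : ℝ) ^ (s + 1) := by positivity
    have h14 := le_of_mul_le_mul_right h12 h13
    linarith
  -- the sieve
  have hlog : ∀ q : ℕ, ∃ l : ℕ, yy q κ ∈ pw q → (2 : ZMod q) ^ l = yy q κ := by
    intro q
    by_cases h : yy q κ ∈ pw q
    · obtain ⟨l, hl⟩ := exists_log q _ h
      exact ⟨l, fun _ => hl⟩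
    · exact ⟨0, fun h' => absurd h' h⟩
  choose lg hlg using hlog
  obtain ⟨k, hk1, hk2⟩ := sieve D l0 hD (G.filter (fun q => yy q κ ∈ pw q)) tq lg
    (by
      intro q hq
      rw [Finset.mem_filter] at hq
      exact (htpos q (hGP q hq.1).1).2)
    (by
      intro q hq
      rw [Finset.mem_filter] at hq
      exact (hGP q hq.1).2.1)
    (UU κ)
    (by
      intro k
      simp only [hUU, hUS]
      have key : ∀ q ∈ P, gpf (tq q) ≤ l0 →
          (2 : ZMod q) ^ (k + spart D l0) = (2 : ZMod q) ^ k := by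
        intro q hq hg
        have h15 : tq q ∣ spart D l0 := dvd_spart D l0 (tq q) hD (htpos q hq).2 hg
        have h16 : (2 : ZMod q) ^ spart D l0 = 1 := orderOf_dvd_iff_pow_eq_one.mp h15
        rw [pow_add, h16, mul_one]
      constructor
      · rintro ⟨ha, hb⟩
        exact ⟨fun q hq hg => by rw [← key q hq hg]; exact ha q hq hg, hb⟩
      · rintro ⟨ha, hb⟩
        exact ⟨fun q hq hg => by rw [key q hq hg]; exact ha q hq hg, hb⟩)
    hκ
  refine ⟨Fin.cons k (fun i => (κ i : ℕ)), ?_⟩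
  intro q hq
  rw [Fin.sum_univ_succ]
  simp only [Fin.cons_zero, Fin.cons_succ]
  have hgoal : yy q κ - (2 : ZMod q) ^ k ≠ 0 := by
    by_cases hs1' : gpf (tq q) ≤ l0
    · exact hk1.1 q hq hs1'
    · push Not at hs1'
      intro h0
      have h17 : yy q κ = (2 : ZMod q) ^ k := sub_eq_zero.mp h0
      have h18 : yy q κ ∈ pw q := by
        rw [h17]; exact pow_mem_pw q D hD (h2q q hq) k
      by_cases hgood : q ≤ tq q ^ 5
      · have hqG : q ∈ G.filter (fun q => yy q κ ∈ pw q) := by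
          rw [Finset.mem_filter, hG, Finset.mem_filter]
          exact ⟨⟨hq, hs1', hgood⟩, h18⟩
        have h19 := hk2 q hqG
        apply h19
        have h20 : (2 : ZMod q) ^ k = (2 : ZMod q) ^ lg q := by rw [hlg q h18, h17]
        have hun : IsUnit (2 : ZMod q) := by
          have : Fact q.Prime := ⟨(hP q hq).1⟩
          exact IsUnit.of_pow_eq_one (h2q q hq) hD.ne'
        obtain ⟨u, hu⟩ := hun
        rw [← hu] at h20
        have h21 : u ^ k = u ^ lg q := Units.ext (by push_cast; exact h20)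
        have h22 := pow_eq_pow_iff_modEq.mp h21
        have h23 : tq q = orderOf u := by
          unfold tq
          rw [← hu, orderOf_units]
        rw [h23]
        exact h22
      · push Not at hgood
        apply hk1.2
        rw [hBad, Finset.mem_filter]
        exact ⟨Finset.mem_univ _, q, hq, hs1', hgood, h18⟩
  intro h0
  apply hgoal
  simp only [hyy]
  rw [← h0]; ring

end Pool.H53.NA
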