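import Pool.Agent.H53.NA.Fou

/-!
Row Mix: for a fixed odd modulus the sums of many powers of two are equidistributed.  PROOF.  `t = orderOf 2` in `ZMod N`.
If `N = 1` then `rep = D^s`.  Let `N ≥ 3`, so `t ≥ 2`, `t ∣ D`.  By periodicity `SS N D a = (D/t) SS N t a`.  For `a ≠ 0`
`‖SS N t a‖ ≤ t - 2 + ‖e a + e(2a)‖ = t - 2 + ‖1 + e a‖` and `e a ≠ 1` (`ZMod.injective_stdAddChar`, `‖e a‖ = 1`), so
`‖1 + e a‖ < 2`.  So there is `ρ < 1` (the maximum over the finitely many `a ≠ 0`) with `‖SS N D a‖ ≤ ρ D` for all `a ≠ 0` and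
all `D`.  As `N rep y = ∑_a S a ^ s e(-a y)` (see `SS_pow` and orthogonality) `N rep y ≥ D^s - N ρ^s D^s`.  Choose `s1` with
`N ρ^s ≤ ε` for `s ≥ s1`.
-/

set_option autoImplicit false

namespace Pool.H53.NA

open Filter Topology

private theorem mix_inv (N D s : ℕ) [NeZero N] (y : ZMod N) :
    (N : ℂ) * rep N D s y = ∑ a : ZMod N, SS N D a ^ s * ZMod.stdAddChar (N := N) (-(a * y)) := by
  simp only [SS_pow, Finset.sum_mul]
  rw [Finset.sum_comm]
  have h1 : ∀ y' : ZMod N, ∑ a : ZMod N, (rep N D s y' : ℂ) * ZMod.stdAddChar (N := N) (a * y') *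
      ZMod.stdAddChar (N := N) (-(a * y)) =
      if y' = y then (N : ℂ) * rep N D s y else 0 := by
    intro y'
    have h2 : ∀ a : ZMod N, (rep N D s y' : ℂ) * ZMod.stdAddChar (N := N) (a * y') *
        ZMod.stdAddChar (N := N) (-(a * y)) =
        (rep N D s y' : ℂ) * ZMod.stdAddChar (N := N) (a * (y' - y)) := by
      intro a
      rw [mul_assoc, ← AddChar.map_add_eq_mul]
      congr 2
      ring
    rw [Finset.sum_congr rfl fun a _ => h2 a, ← Finset.mul_sum,
      AddChar.sum_mulShift _ (ZMod.isPrimitive_stdAddChar N)]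
    by_cases h : y' = y
    · subst h
      simp [ZMod.card]
      ring
    · rw [if_neg (sub_ne_zero.2 h), if_neg h]
      simp
  rw [Finset.sum_congr rfl fun y' _ => h1 y']
  simp

private theorem mix_per (N t m : ℕ) [NeZero N] (ht : (2 : ZMod N) ^ t = 1) (a : ZMod N) :
    SS N (t * m) a = m * SS N t a := by
  induction m with
  | zero => simp [SS]
  | succ m ih =>
    have h1 : SS N (t * (m + 1)) a = SS N (t * m) a + SS N t a := by
      unfold SS
      rw [Nat.mul_succ, Finset.sum_range_add]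
      congr 1
      refine Finset.sum_congr rfl fun k _ => ?_
      rw [pow_add, pow_mul, ht, one_pow, one_mul]
    rw [h1, ih]
    push_cast
    ring

private theorem mix_lt (N : ℕ) [NeZero N] (t : ℕ) (ht2 : 2 ≤ t) (a : ZMod N) (ha : a ≠ 0) :
    ‖SS N t a‖ < t := by
  obtain ⟨m, rfl⟩ : ∃ m, t = m + 2 := ⟨t - 2, by omega⟩
  have h1 : SS N (m + 2) a = (ZMod.stdAddChar (N := N) a + ZMod.stdAddChar (N := N) (a * 2)) +
      ∑ k ∈ Finset.range m, (ZMod.stdAddChar (N := N) (a * 2 ^ (k + 2)) : ℂ) := by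
    unfold SS
    rw [Finset.sum_range_succ', Finset.sum_range_succ']
    simp only [pow_zero, mul_one, zero_add, pow_one]
    ring
  have hn : ∀ b : ZMod N, ‖(ZMod.stdAddChar (N := N) b : ℂ)‖ = 1 := fun b => AddChar.norm_apply _ _
  have h2 : ‖ZMod.stdAddChar (N := N) a + ZMod.stdAddChar (N := N) (a * 2)‖ < 2 := by
    have h3 : ZMod.stdAddChar (N := N) a + ZMod.stdAddChar (N := N) (a * 2) =
        ZMod.stdAddChar (N := N) a * (1 + ZMod.stdAddChar (N := N) a) := by
      rw [mul_two, AddChar.map_add_eq_mul]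
      ring
    rw [h3, norm_mul, hn, one_mul]
    set z : ℂ := ZMod.stdAddChar (N := N) a with hz
    have hz1 : ‖z‖ = 1 := hn a
    have hzne : z ≠ 1 := by
      intro h
      apply ha
      have := ZMod.injective_stdAddChar (N := N)
      apply this
      rw [← hz, h, AddChar.map_zero_eq_one]
    by_contra hge
    push Not at hge
    have h4 : Complex.normSq z = 1 := by rw [Complex.normSq_eq_norm_sq, hz1, one_pow]
    have h5 : 4 ≤ Complex.normSq (1 + z) := by
      rw [Complex.normSq_eq_norm_sq]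
      nlinarith
    rw [Complex.normSq_apply] at h4 h5
    simp only [Complex.add_re, Complex.one_re, Complex.add_im, Complex.one_im, zero_add] at h5
    have hre : 1 ≤ z.re := by nlinarith
    have him : z.im = 0 := by
      have : z.im * z.im ≤ 0 := by nlinarith
      exact mul_self_eq_zero.1 (le_antisymm this (mul_self_nonneg _))
    have hre1 : z.re = 1 := by
      rw [him] at h4
      nlinarith
    apply hzne
    apply Complex.ext
    · rw [hre1, Complex.one_re]
    · rw [him, Complex.one_im]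
  have h6 : ‖∑ k ∈ Finset.range m, (ZMod.stdAddChar (N := N) (a * 2 ^ (k + 2)) : ℂ)‖ ≤ m := by
    refine (norm_sum_le _ _).trans ?_
    simp [hn]
  rw [h1]
  refine (norm_add_le _ _).trans_lt ?_
  push_cast
  linarith

private theorem mix_rho (N : ℕ) [NeZero N] (hN : Odd N) : ∃ ρ : ℝ, 0 ≤ ρ ∧ ρ < 1 ∧
    ∀ a : ZMod N, a ≠ 0 → ∀ D : ℕ, (2 : ZMod N) ^ D = 1 → ‖SS N D a‖ ≤ ρ * D := by
  classical
  set t : ℕ := orderOf (2 : ZMod N) with ht
  have hunit : IsUnit (2 : ZMod N) := by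
    have h1 : Nat.Coprime 2 N := (Nat.coprime_two_left).2 hN
    have := (ZMod.unitOfCoprime 2 h1).isUnit
    simpa using this
  have hfin : IsOfFinOrder (2 : ZMod N) := by
    obtain ⟨u, hu⟩ := hunit
    rw [← hu]
    exact isOfFinOrder_iff_pow_eq_one.mpr ⟨orderOf u, orderOf_pos u, by
      rw [← Units.val_pow_eq_pow_val, pow_orderOf_eq_one, Units.val_one]⟩
  have htpos : 0 < t := hfin.orderOf_pos
  have ht1 : (2 : ZMod N) ^ t = 1 := pow_orderOf_eq_one _
  have hlt : ∀ a : ZMod N, a ≠ 0 → ‖SS N t a‖ < t := by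
    intro a ha
    refine mix_lt N t ?_ a ha
    by_contra hlt
    have ht' : t = 1 := by omega
    rw [ht', pow_one] at ht1
    apply ha
    have h10 : (1 : ZMod N) = 0 := by
      have : (2 : ZMod N) - 1 = 0 := sub_eq_zero.2 ht1
      have h2 : (2 : ZMod N) - 1 = 1 := by ring
      rwa [h2] at this
    calc a = a * 1 := (mul_one a).symm
      _ = 0 := by rw [h10, mul_zero]
  have htr : (0 : ℝ) < t := by exact_mod_cast htpos
  obtain ⟨ρ, h0, h1, hρ⟩ : ∃ ρ : ℝ, 0 ≤ ρ ∧ ρ < 1 ∧ ∀ a : ZMod N, a ≠ 0 → ‖SS N t a‖ ≤ ρ * t := by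
    rcases (Finset.univ.filter fun a : ZMod N => a ≠ 0).eq_empty_or_nonempty with h | h
    · refine ⟨0, le_rfl, one_pos, fun a ha => ?_⟩
      have : a ∈ (Finset.univ.filter fun a : ZMod N => a ≠ 0) :=
        Finset.mem_filter.2 ⟨Finset.mem_univ _, ha⟩
      rw [h] at this
      exact absurd this (Finset.notMem_empty _)
    · obtain ⟨b, hb, hmax⟩ := Finset.exists_max_image _ (fun a : ZMod N => ‖SS N t a‖) h
      have hb0 := (Finset.mem_filter.1 hb).2
      refine ⟨‖SS N t b‖ / t, by positivity, ?_, fun a ha => ?_⟩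
      · rw [div_lt_one htr]
        exact hlt b hb0
      · rw [div_mul_cancel₀ _ htr.ne']
        exact hmax a (Finset.mem_filter.2 ⟨Finset.mem_univ _, ha⟩)
  refine ⟨ρ, h0, h1, fun a ha D hD => ?_⟩
  obtain ⟨m, rfl⟩ := orderOf_dvd_of_pow_eq_one hD
  rw [← ht, mix_per N t m ht1, norm_mul, Complex.norm_natCast]
  push_cast
  calc (m : ℝ) * ‖SS N t a‖ ≤ m * (ρ * t) := by
        gcongr
        exact hρ a ha
    _ = ρ * (t * m) := by ring

theorem mixing (N : ℕ) [NeZero N] (hN : Odd N) (ε : ℝ) (hε : 0 < ε) : ∃ s1 : ℕ, ∀ s : ℕ, s1 ≤ s →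
    ∀ D : ℕ, 0 < D → (2 : ZMod N) ^ D = 1 → ∀ y : ZMod N,
    (1 - ε) * (D : ℝ) ^ s ≤ N * (rep N D s y : ℝ) := by
  classical
  obtain ⟨ρ, h0, h1, hρ⟩ := mix_rho N hN
  have hlim : Tendsto (fun s : ℕ => (N : ℝ) * ρ ^ s) atTop (𝓝 0) := by
    have := (tendsto_pow_atTop_nhds_zero_of_lt_one h0 h1).const_mul (N : ℝ)
    simpa using this
  obtain ⟨s1, hs1⟩ := eventually_atTop.1 (hlim.eventually (gt_mem_nhds hε))
  refine ⟨s1, fun s hs D hD h2 y => ?_⟩
  have hε' : (N : ℝ) * ρ ^ s < ε := hs1 s hs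
  have h3 := mix_inv N D s y
  rw [← Finset.add_sum_erase _ _ (Finset.mem_univ (0 : ZMod N)), SS_zero, zero_mul, neg_zero,
    AddChar.map_zero_eq_one, mul_one] at h3
  set Z : ℂ := ∑ a ∈ Finset.univ.erase (0 : ZMod N),
    SS N D a ^ s * ZMod.stdAddChar (N := N) (-(a * y)) with hZ
  have hZn : ‖Z‖ ≤ N * ρ ^ s * (D : ℝ) ^ s := by
    rw [hZ]
    refine (norm_sum_le _ _).trans ?_
    have h4 : ∀ a ∈ Finset.univ.erase (0 : ZMod N),
        ‖SS N D a ^ s * ZMod.stdAddChar (N := N) (-(a * y))‖ ≤ (ρ * D) ^ s := by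
      intro a ha
      rw [norm_mul, AddChar.norm_apply, mul_one, norm_pow]
      exact pow_le_pow_left₀ (norm_nonneg _) (hρ a (Finset.ne_of_mem_erase ha) D h2) s
    refine (Finset.sum_le_sum h4).trans ?_
    rw [Finset.sum_const, nsmul_eq_mul, mul_pow, ← mul_assoc]
    have h5 : ((Finset.univ.erase (0 : ZMod N)).card : ℝ) ≤ N := by
      have : (Finset.univ.erase (0 : ZMod N)).card ≤ N := by
        refine (Finset.card_erase_le).trans ?_
        rw [Finset.card_univ, ZMod.card]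
      exact_mod_cast this
    gcongr
  have h6 : ((N : ℝ) * rep N D s y : ℝ) = (D : ℝ) ^ s + Z.re := by
    have := congrArg Complex.re h3
    rw [Complex.add_re] at this
    have e1 : ((N : ℂ) * (rep N D s y : ℂ)).re = (N : ℝ) * rep N D s y := by
      rw [← Complex.ofReal_natCast, ← Complex.ofReal_natCast, ← Complex.ofReal_mul,
        Complex.ofReal_re]
    have e2 : (((D : ℂ)) ^ s).re = (D : ℝ) ^ s := by
      rw [← Complex.ofReal_natCast, ← Complex.ofReal_pow, Complex.ofReal_re]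
    rw [e1, e2] at this
    exact this
  have h7 : -‖Z‖ ≤ Z.re := (abs_le.1 (Complex.abs_re_le_norm Z)).1
  have h8 : (N : ℝ) * ρ ^ s * (D : ℝ) ^ s ≤ ε * (D : ℝ) ^ s :=
    mul_le_mul_of_nonneg_right hε'.le (by positivity)
  rw [h6]
  linarith

end Pool.H53.NA
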