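import Pool.Agent.H53.NA.FlP
import Pool.Agent.H53.NA.Fou
import Pool.Agent.H53.NA.RpB

/-!
Equidistribution of sums of powers of two modulo a prime (assembly).
-/

set_option autoImplicit false

namespace Pool.H53.NA

/-- effective support size -/
noncomputable def NN (N D s : ℕ) [NeZero N] : ℝ := (D : ℝ) ^ (2 * s) / en N D s

theorem NN_pos (N D s : ℕ) [NeZero N] (hD : 0 < D) : 0 < NN N D s := by
  have := en_pos N D s hD
  have hDR : (0 : ℝ) < D := by exact_mod_cast hD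
  unfold NN
  positivity

theorem NN_mono (N D s u : ℕ) [NeZero N] (hD : 0 < D) : NN N D s ≤ NN N D (s + u) := by
  have h1 : (0 : ℝ) < en N D s := by exact_mod_cast en_pos N D s hD
  have h2 : (0 : ℝ) < en N D (s + u) := by exact_mod_cast en_pos N D (s + u) hD
  unfold NN
  rw [div_le_div_iff₀ h1 h2]
  have h3 : (en N D (s + u) : ℝ) ≤ (D : ℝ) ^ (2 * u) * en N D s := by
    exact_mod_cast en_add_le N D s u
  calc (D : ℝ) ^ (2 * s) * en N D (s + u) ≤ (D : ℝ) ^ (2 * s) * ((D : ℝ) ^ (2 * u) * en N D s) := by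
        gcongr
    _ = _ := by rw [mul_add, pow_add]; ring

theorem NN_one (N D : ℕ) [NeZero N] (hD : 0 < D) (h2 : (2 : ZMod N) ^ D = 1) :
    NN N D 1 = orderOf (2 : ZMod N) := by
  have h1 : (0 : ℝ) < en N D 1 := by exact_mod_cast en_pos N D 1 hD
  unfold NN
  rw [div_eq_iff h1.ne']
  have := en_one N D hD h2
  have h3 : (en N D 1 : ℝ) * orderOf (2 : ZMod N) = (D : ℝ) ^ 2 := by exact_mod_cast this
  rw [mul_one, ← h3]; ring

/-- one step of the iteration -/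
theorem step_prime (C : ℕ) (hC : ∀ (q : ℕ) [Fact q.Prime] (H : Finset (ZMod q)) (f : ZMod q → ℝ)
    (z : ℝ), 2 ≤ z → SGL H → (∀ x, 0 ≤ f x) → (∀ h ∈ H, ∀ x, f (h * x) = f x) →
    0 < ∑ x, f x → (∑ x, f x) ^ 2 * ∑ x, f x ^ 2 ≤ z * ∑ y, cv f f y ^ 2 →
    z ^ C ≤ H.card → (H.card : ℝ) ≤ Nf f →
    min (q : ℝ) ((H.card : ℝ) ^ 6) ≤ z ^ C * Nf f)
    (q D s : ℕ) [Fact q.Prime] (hs : 1 ≤ s) (hD : 0 < D) (h2 : (2 : ZMod q) ^ D = 1) (z : ℝ)
    (hz : 2 ≤ z) (hzt : z ^ C ≤ orderOf (2 : ZMod q)) :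
    min (q : ℝ) ((orderOf (2 : ZMod q) : ℝ) ^ 6) ≤ z ^ C * NN q D s ∨
      z * NN q D s ≤ NN q D (2 * s) := by
  by_cases h : z * NN q D s ≤ NN q D (2 * s)
  · exact Or.inr h
  left
  push Not at h
  have h1 : (0 : ℝ) < en q D s := by exact_mod_cast en_pos q D s hD
  have h1' : (0 : ℝ) < en q D (2 * s) := by exact_mod_cast en_pos q D (2 * s) hD
  have hDR : (0 : ℝ) < D := by exact_mod_cast hD
  have hE : (D : ℝ) ^ (2 * s) * en q D s ≤ z * en q D (2 * s) := by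
    unfold NN at h
    rw [mul_div_assoc', div_lt_div_iff₀ h1' h1] at h
    have e1 : (D : ℝ) ^ (2 * (2 * s)) = (D : ℝ) ^ (2 * s) * (D : ℝ) ^ (2 * s) := by
      rw [← pow_add]; congr 1; ring
    rw [e1] at h
    have hp : (0 : ℝ) < (D : ℝ) ^ (2 * s) := by positivity
    have : (D : ℝ) ^ (2 * s) * ((D : ℝ) ^ (2 * s) * en q D s)
        ≤ (D : ℝ) ^ (2 * s) * (z * en q D (2 * s)) := by nlinarith
    exact le_of_mul_le_mul_left this hp
  have hsum : ∑ x, (rep q D s x : ℝ) = (D : ℝ) ^ s := by exact_mod_cast rep_sum q D s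
  have hsum2 : ∑ x, (rep q D s x : ℝ) ^ 2 = (en q D s : ℝ) := by
    simp only [en]; push_cast; rfl
  have hcv : ∑ y, cv (fun x => (rep q D s x : ℝ)) (fun x => (rep q D s x : ℝ)) y ^ 2
      = (en q D (2 * s) : ℝ) := by
    simp only [en, cv_rep]; push_cast; rw [two_mul]
  have key := hC q (pw q) (fun x => (rep q D s x : ℝ)) z hz (sgl_pw q D hD h2)
    (fun x => Nat.cast_nonneg _)
    (fun h hh x => by exact_mod_cast rep_inv q D s hD h2 h hh x)
    (by rw [hsum]; positivity)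
    (by rw [hsum, hsum2, hcv, ← pow_mul, mul_comm s 2]; exact hE)
    (by rw [card_pw]; exact hzt)
    (by
      rw [card_pw, ← NN_one q D hD h2, Nf_rep]
      have := NN_mono q D 1 (s - 1) hD
      rw [show 1 + (s - 1) = s by omega] at this
      exact this)
  rw [card_pw, Nf_rep] at key
  exact key

theorem nt_en : ∃ s t1 : ℕ, 1 ≤ s ∧ ∀ (q D : ℕ) [Fact q.Prime], 0 < D → (2 : ZMod q) ^ D = 1 →
    t1 ≤ orderOf (2 : ZMod q) →
    min (q : ℝ) ((orderOf (2 : ZMod q) : ℝ) ^ 6) * en q D s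
      ≤ Real.sqrt (orderOf (2 : ZMod q)) * (D : ℝ) ^ (2 * s) := by
  obtain ⟨C0, hC0⟩ := flatP
  -- enlarge the constant to be at least 1
  set C : ℕ := C0 + 1 with hCdef
  have hC : ∀ (q : ℕ) [Fact q.Prime] (H : Finset (ZMod q)) (f : ZMod q → ℝ)
    (z : ℝ), 2 ≤ z → SGL H → (∀ x, 0 ≤ f x) → (∀ h ∈ H, ∀ x, f (h * x) = f x) →
    0 < ∑ x, f x → (∑ x, f x) ^ 2 * ∑ x, f x ^ 2 ≤ z * ∑ y, cv f f y ^ 2 →
    z ^ C ≤ H.card → (H.card : ℝ) ≤ Nf f →
    min (q : ℝ) ((H.card : ℝ) ^ 6) ≤ z ^ C * Nf f := by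
    intro q _ H f z hz a1 a2 a3 a4 a5 a6 a7
    have hz1 : (1 : ℝ) ≤ z := by linarith
    have h1 : z ^ C0 ≤ z ^ C := pow_le_pow_right₀ hz1 (by omega)
    have h2 : 0 ≤ Nf f := le_trans (Nat.cast_nonneg _) a7
    exact (hC0 q H f z hz a1 a2 a3 a4 a5 (h1.trans a6) a7).trans (mul_le_mul_of_nonneg_right h1 h2)
  refine ⟨2 ^ (10 * C + 1), 2 ^ (2 * C), Nat.one_le_two_pow, ?_⟩
  intro q D _ hD h2 ht
  set t : ℝ := (orderOf (2 : ZMod q) : ℝ) with htdef
  have ht' : (2 : ℝ) ^ (2 * C) ≤ t := by rw [htdef]; exact_mod_cast ht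
  have ht0 : 0 < t := lt_of_lt_of_le (by positivity) ht'
  have ht1 : 1 ≤ t := le_trans (one_le_pow₀ (by norm_num)) ht'
  have hCR : (0 : ℝ) < (2 * C : ℕ) := by exact_mod_cast (by omega : 0 < 2 * C)
  set z : ℝ := t ^ ((1 : ℝ) / (2 * C : ℕ)) with hz
  have hzpow : z ^ (2 * C) = t := by
    rw [hz, ← Real.rpow_natCast, ← Real.rpow_mul ht0.le]
    rw [one_div, inv_mul_cancel₀ hCR.ne', Real.rpow_one]
  have hz0 : 0 < z := Real.rpow_pos_of_pos ht0 _
  have hz2 : 2 ≤ z := by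
    by_contra hcon
    push Not at hcon
    have : z ^ (2 * C) < 2 ^ (2 * C) := pow_lt_pow_left₀ hcon hz0.le (by omega)
    linarith [hzpow]
  have hz1 : 1 ≤ z := by linarith
  have hzC : z ^ C = Real.sqrt t := by
    rw [← hzpow, mul_comm 2 C, pow_mul, Real.sqrt_sq (by positivity)]
  have hzCt : z ^ C ≤ t := by
    rw [hzC]
    calc Real.sqrt t ≤ Real.sqrt (t ^ 2) := Real.sqrt_le_sqrt (by nlinarith)
      _ = t := Real.sqrt_sq ht0.le
  -- the iteration
  have hN1 : NN q D 1 = t := NN_one q D hD h2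
  have hNpos : ∀ s, 0 < NN q D s := fun s => NN_pos q D s hD
  have key : ∀ j : ℕ, j ≤ 10 * C + 1 →
      (min (q : ℝ) (t ^ 6) ≤ z ^ C * NN q D (2 ^ (10 * C + 1))) ∨ z ^ j * t ≤ NN q D (2 ^ j) := by
    intro j
    induction j with
    | zero => intro _; right; rw [pow_zero, one_mul, pow_zero, hN1]
    | succ j ih =>
      intro hj
      rcases ih (by omega) with h | h
      · exact Or.inl h
      rcases step_prime C hC q D (2 ^ j) Nat.one_le_two_pow hD h2 z hz2 hzCt with h' | h'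
      · left
        refine h'.trans ?_
        have : NN q D (2 ^ j) ≤ NN q D (2 ^ (10 * C + 1)) := by
          have hle : 2 ^ j ≤ 2 ^ (10 * C + 1) := Nat.pow_le_pow_right (by norm_num) (by omega)
          have := NN_mono q D (2 ^ j) (2 ^ (10 * C + 1) - 2 ^ j) hD
          rwa [Nat.add_sub_cancel' hle] at this
        gcongr
      · right
        calc z ^ (j + 1) * t = z * (z ^ j * t) := by ring
          _ ≤ z * NN q D (2 ^ j) := by gcongr
          _ ≤ NN q D (2 * 2 ^ j) := h'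
          _ = NN q D (2 ^ (j + 1)) := by rw [pow_succ']
  have hfin : min (q : ℝ) (t ^ 6) ≤ z ^ C * NN q D (2 ^ (10 * C + 1)) := by
    rcases key (10 * C + 1) le_rfl with h | h
    · exact h
    · have h5 : t ^ 5 ≤ z ^ (10 * C + 1) := by
        calc t ^ 5 = z ^ (2 * C * 5) := by rw [pow_mul, hzpow]
          _ ≤ _ := pow_le_pow_right₀ hz1 (by omega)
      calc min (q : ℝ) (t ^ 6) ≤ t ^ 6 := min_le_right _ _
        _ = t ^ 5 * t := by ring
        _ ≤ z ^ (10 * C + 1) * t := by gcongr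
        _ ≤ NN q D (2 ^ (10 * C + 1)) := h
        _ = 1 * NN q D (2 ^ (10 * C + 1)) := by ring
        _ ≤ z ^ C * NN q D (2 ^ (10 * C + 1)) := by
          have := one_le_pow₀ hz1 (n := C)
          exact mul_le_mul_of_nonneg_right this (hNpos _).le
  have hen : (0 : ℝ) < en q D (2 ^ (10 * C + 1)) := by exact_mod_cast en_pos q D _ hD
  rw [hzC] at hfin
  unfold NN at hfin
  calc min (q : ℝ) (t ^ 6) * en q D (2 ^ (10 * C + 1))
      ≤ (Real.sqrt t * ((D : ℝ) ^ (2 * 2 ^ (10 * C + 1)) / en q D (2 ^ (10 * C + 1))))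
          * en q D (2 ^ (10 * C + 1)) := by gcongr
    _ = _ := by field_simp

end Pool.H53.NA
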