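import Pool.Agent.H53.NA.Nt1

/-!
Equidistribution of sums of powers of two modulo a prime, part 2 (assembly).
-/

set_option autoImplicit false

namespace Pool.H53.NA

/-- the good case -/
theorem good_prime (q D s : ℕ) [Fact q.Prime] (hD : 0 < D) (h2 : (2 : ZMod q) ^ D = 1)
    (ht : 1 ≤ orderOf (2 : ZMod q))
    (hen : (q : ℝ) * en q D s ≤ Real.sqrt (orderOf (2 : ZMod q)) * (D : ℝ) ^ (2 * s)) :
    (∀ y, (rep q D (4 * s) y : ℝ) ≤ 2 / q * (D : ℝ) ^ (4 * s)) ∧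
      ∑ b ∈ (Finset.univ : Finset (ZMod q)).erase 0, ‖SS q D b‖ ^ (4 * s) ≤ (D : ℝ) ^ (4 * s) := by
  set t : ℝ := (orderOf (2 : ZMod q) : ℝ) with htdef
  have ht1 : (1 : ℝ) ≤ t := by rw [htdef]; exact_mod_cast ht
  have hDR : (0 : ℝ) < D := by exact_mod_cast hD
  have hq0 : (0 : ℝ) < q := by exact_mod_cast (Fact.out : q.Prime).pos
  have hsum := sum_SS q D s
  set c := Real.sqrt t with hc
  have hc2 : c * c = t := Real.mul_self_sqrt (by linarith)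
  have hc0 : 0 ≤ c := Real.sqrt_nonneg _
  have hsum' : ∑ b ∈ (Finset.univ : Finset (ZMod q)).erase 0, ‖SS q D b‖ ^ (2 * s)
      ≤ c * (D : ℝ) ^ (2 * s) := by
    calc ∑ b ∈ (Finset.univ : Finset (ZMod q)).erase 0, ‖SS q D b‖ ^ (2 * s)
        ≤ ∑ b : ZMod q, ‖SS q D b‖ ^ (2 * s) :=
          Finset.sum_le_sum_of_subset_of_nonneg (Finset.erase_subset _ _)
            (fun _ _ _ => by positivity)
      _ = q * en q D s := hsum
      _ ≤ _ := hen
  have hmax : ∀ a ∈ (Finset.univ : Finset (ZMod q)).erase 0, t * ‖SS q D a‖ ^ (2 * s)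
      ≤ c * (D : ℝ) ^ (2 * s) := by
    intro a ha
    exact (SS_orbit q D hD h2 (2 * s) a (Finset.ne_of_mem_erase ha)).trans hsum'
  have h4 : ∑ b ∈ (Finset.univ : Finset (ZMod q)).erase 0, ‖SS q D b‖ ^ (4 * s)
      ≤ (D : ℝ) ^ (4 * s) := by
    have h5 : t * ∑ b ∈ (Finset.univ : Finset (ZMod q)).erase 0, ‖SS q D b‖ ^ (4 * s)
        ≤ t * (D : ℝ) ^ (4 * s) := by
      rw [Finset.mul_sum]
      calc ∑ b ∈ (Finset.univ : Finset (ZMod q)).erase 0, t * ‖SS q D b‖ ^ (4 * s)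
          ≤ ∑ b ∈ (Finset.univ : Finset (ZMod q)).erase 0,
              (c * (D : ℝ) ^ (2 * s)) * ‖SS q D b‖ ^ (2 * s) := by
            apply Finset.sum_le_sum
            intro b hb
            have : ‖SS q D b‖ ^ (4 * s) = ‖SS q D b‖ ^ (2 * s) * ‖SS q D b‖ ^ (2 * s) := by
              rw [← pow_add]; congr 1; ring
            rw [this, ← mul_assoc]
            exact mul_le_mul_of_nonneg_right (hmax b hb) (by positivity)
        _ = (c * (D : ℝ) ^ (2 * s)) * ∑ b ∈ (Finset.univ : Finset (ZMod q)).erase 0,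
              ‖SS q D b‖ ^ (2 * s) := by rw [Finset.mul_sum]
        _ ≤ (c * (D : ℝ) ^ (2 * s)) * (c * (D : ℝ) ^ (2 * s)) := by gcongr
        _ = (c * c) * ((D : ℝ) ^ (2 * s) * (D : ℝ) ^ (2 * s)) := by ring
        _ = t * (D : ℝ) ^ (4 * s) := by
          rw [hc2, ← pow_add]; congr 2; ring
    exact le_of_mul_le_mul_left h5 (by linarith)
  refine ⟨fun y => ?_, h4⟩
  have h6 := rep_le_SS q D (4 * s) y
  have h7 : ∑ a : ZMod q, ‖SS q D a‖ ^ (4 * s) = (D : ℝ) ^ (4 * s)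
      + ∑ b ∈ (Finset.univ : Finset (ZMod q)).erase 0, ‖SS q D b‖ ^ (4 * s) := by
    rw [← Finset.add_sum_erase _ _ (Finset.mem_univ (0 : ZMod q)), SS_zero]
    simp
  rw [div_mul_eq_mul_div, le_div_iff₀ hq0]
  nlinarith

theorem nt1 : ∃ s t1 : ℕ, 1 ≤ s ∧ 1 ≤ t1 ∧ ∀ (q D : ℕ) [Fact q.Prime], 0 < D →
    (2 : ZMod q) ^ D = 1 → t1 ≤ orderOf (2 : ZMod q) →
    (q ≤ orderOf (2 : ZMod q) ^ 5 → (∀ y, (rep q D s y : ℝ) ≤ 2 / q * (D : ℝ) ^ s) ∧
      ∑ b ∈ (Finset.univ : Finset (ZMod q)).erase 0, ‖SS q D b‖ ^ s ≤ (D : ℝ) ^ s) ∧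
    (orderOf (2 : ZMod q) ^ 5 < q → ∀ y, (rep q D s y : ℝ)
      ≤ (D : ℝ) ^ s / (orderOf (2 : ZMod q) : ℝ) ^ 4) := by
  obtain ⟨s, t1, hs, h⟩ := nt_en
  refine ⟨4 * s, max t1 1, by omega, le_max_right _ _, ?_⟩
  intro q D _ hD h2 ht
  have ht1 : 1 ≤ orderOf (2 : ZMod q) := (le_max_right _ _).trans ht
  have hen := h q D hD h2 ((le_max_left _ _).trans ht)
  have htR : (1 : ℝ) ≤ (orderOf (2 : ZMod q) : ℝ) := by exact_mod_cast ht1
  have hDR : (0 : ℝ) < D := by exact_mod_cast hD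
  constructor
  · intro hq
    apply good_prime q D s hD h2 ht1
    have : min (q : ℝ) ((orderOf (2 : ZMod q) : ℝ) ^ 6) = q := by
      apply min_eq_left
      calc (q : ℝ) ≤ (orderOf (2 : ZMod q) : ℝ) ^ 5 := by exact_mod_cast hq
        _ ≤ (orderOf (2 : ZMod q) : ℝ) ^ 6 := pow_le_pow_right₀ htR (by norm_num)
    rwa [this] at hen
  · intro hq y
    set t : ℝ := (orderOf (2 : ZMod q) : ℝ) with htdef
    have h5 : t ^ 5 ≤ min (q : ℝ) (t ^ 6) := by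
      apply le_min
      · rw [htdef]; exact_mod_cast hq.le
      · exact pow_le_pow_right₀ htR (by norm_num)
    have h6 : t ^ 4 * (en q D s : ℝ) ≤ (D : ℝ) ^ (2 * s) := by
      have h7 : t ^ 5 * (en q D s : ℝ) ≤ t * (D : ℝ) ^ (2 * s) := by
        calc t ^ 5 * (en q D s : ℝ) ≤ min (q : ℝ) (t ^ 6) * en q D s := by gcongr
          _ ≤ Real.sqrt t * (D : ℝ) ^ (2 * s) := hen
          _ ≤ t * (D : ℝ) ^ (2 * s) := by
            gcongr
            calc Real.sqrt t ≤ Real.sqrt (t ^ 2) := Real.sqrt_le_sqrt (by nlinarith)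
              _ = t := Real.sqrt_sq (by linarith)
      have : t * (t ^ 4 * (en q D s : ℝ)) ≤ t * (D : ℝ) ^ (2 * s) := by
        calc t * (t ^ 4 * (en q D s : ℝ)) = t ^ 5 * (en q D s : ℝ) := by ring
          _ ≤ _ := h7
      exact le_of_mul_le_mul_left this (by linarith)
    have h8 := rep_add_le q D (2 * s) (2 * s) (en q D s : ℝ)
      (fun y => by exact_mod_cast rep_two_le q D s y) y
    rw [show 2 * s + 2 * s = 4 * s by ring] at h8
    rw [le_div_iff₀ (by positivity)]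
    calc (rep q D (4 * s) y : ℝ) * t ^ 4 ≤ ((en q D s : ℝ) * (D : ℝ) ^ (2 * s)) * t ^ 4 := by gcongr
      _ = (t ^ 4 * (en q D s : ℝ)) * (D : ℝ) ^ (2 * s) := by ring
      _ ≤ (D : ℝ) ^ (2 * s) * (D : ℝ) ^ (2 * s) := by gcongr
      _ = (D : ℝ) ^ (4 * s) := by rw [← pow_add]; congr 1; ring

end Pool.H53.NA
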