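import Pool.Agent.H53.NA.Fou

/-!
Row Spl: splitting the sum over frequencies modulo `q1 q2`.  PROOF.  `Q = q1 q2`.  Every `a : ZMod Q` is `0`, or a
unit, or `a = q2 * b` with `0 < b < q1`, or `a = q1 * b` with `0 < b < q2` (look at `a.val`: it is divisible by
`q1` or `q2` if `a` is not a unit, `ZMod.isUnit_iff_coprime`).  For `a = (q2 * b : ℕ)` and any natural number `u`
`stdAddChar (N := Q) (q2 b u) = stdAddChar (N := q1) (b u)` (both are `exp(2πi b u/q1)`,
`ZMod.stdAddChar_coe`), so `SS Q D (q2 * b) = SS q1 D b`.  Hence the nonunits `≠ 0` contribute at most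
`∑_{b ≠ 0} ‖SS q1 D b‖^r + ∑_{b ≠ 0} ‖SS q2 D b‖^r`, and `a = 0` contributes `D^r`.
-/

set_option autoImplicit false

namespace Pool.H53.NA

theorem Spl_union {X : Type} [DecidableEq X] (s t : Finset X) (f : X → ℝ) (hf : ∀ x, 0 ≤ f x) :
    ∑ x ∈ s ∪ t, f x ≤ ∑ x ∈ s, f x + ∑ x ∈ t, f x := by
  rw [← Finset.sum_union_inter]
  have : 0 ≤ ∑ x ∈ s ∩ t, f x := Finset.sum_nonneg fun x _ => hf x
  linarith

theorem Spl_image {X Z : Type} [DecidableEq X] [DecidableEq Z] (s : Finset Z) (g : Z → X)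
    (f : X → ℝ) (hf : ∀ x, 0 ≤ f x) : ∑ x ∈ s.image g, f x ≤ ∑ z ∈ s, f (g z) := by
  induction s using Finset.induction_on with
  | empty => simp
  | insert a s ha ih =>
    rw [Finset.image_insert, Finset.sum_insert ha, Finset.insert_eq]
    refine (Spl_union _ _ f hf).trans ?_
    rw [Finset.sum_singleton]
    linarith

theorem Spl_char (q1 q2 : ℕ) [NeZero q1] [NeZero q2] (u : ℕ) :
    ZMod.stdAddChar (N := q1 * q2) (((q2 * u : ℕ) : ZMod (q1 * q2))) =
      ZMod.stdAddChar (N := q1) ((u : ℕ) : ZMod q1) := by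
  have h1 := ZMod.stdAddChar_coe (N := q1 * q2) ((q2 * u : ℕ) : ℤ)
  have h2 := ZMod.stdAddChar_coe (N := q1) ((u : ℕ) : ℤ)
  rw [Int.cast_natCast] at h1 h2
  rw [h1, h2]
  congr 1
  have hq1 : (q1 : ℂ) ≠ 0 := by exact_mod_cast NeZero.ne q1
  have hq2 : (q2 : ℂ) ≠ 0 := by exact_mod_cast NeZero.ne q2
  push_cast
  field_simp

theorem Spl_SS (q1 q2 D : ℕ) [NeZero q1] [NeZero q2] (b : ZMod q1) :
    SS (q1 * q2) D (((q2 * b.val : ℕ) : ZMod (q1 * q2))) = SS q1 D b := by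
  unfold SS
  refine Finset.sum_congr rfl fun k _ => ?_
  have h1 : ((q2 * b.val : ℕ) : ZMod (q1 * q2)) * 2 ^ k =
      ((q2 * (b.val * 2 ^ k) : ℕ) : ZMod (q1 * q2)) := by
    push_cast
    ring
  have h2 : b * 2 ^ k = ((b.val * 2 ^ k : ℕ) : ZMod q1) := by
    push_cast
    rw [ZMod.natCast_zmod_val]
  rw [h1, Spl_char, h2]

theorem Spl_SS' (q1 q2 D : ℕ) [NeZero q1] [NeZero q2] (b : ZMod q2) :
    SS (q1 * q2) D (((q1 * b.val : ℕ) : ZMod (q1 * q2))) = SS q2 D b := by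
  have h := Spl_SS q2 q1 D b
  have hcomm : q2 * q1 = q1 * q2 := mul_comm _ _
  have key : ∀ (N : ℕ) [NeZero N], N = q2 * q1 →
      SS N D (((q1 * b.val : ℕ) : ZMod N)) = SS q2 D b := by
    intro N _ hN
    subst hN
    exact h
  exact key (q1 * q2) hcomm.symm

theorem Spl_cov (q1 q2 : ℕ) [Fact q1.Prime] [Fact q2.Prime] (a : ZMod (q1 * q2))
    (ha : ¬ IsUnit a) (h0 : a ≠ 0) :
    (∃ b : ZMod q1, b ≠ 0 ∧ ((q2 * b.val : ℕ) : ZMod (q1 * q2)) = a) ∨
      ∃ b : ZMod q2, b ≠ 0 ∧ ((q1 * b.val : ℕ) : ZMod (q1 * q2)) = a := by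
  have hp1 : q1.Prime := Fact.out
  have hp2 : q2.Prime := Fact.out
  have hav : ((a.val : ℕ) : ZMod (q1 * q2)) = a := ZMod.natCast_zmod_val a
  have hlt : a.val < q1 * q2 := ZMod.val_lt a
  have hv0 : a.val ≠ 0 := by
    intro h
    apply h0
    rw [← hav, h, Nat.cast_zero]
  rw [← hav, ZMod.isUnit_iff_coprime] at ha
  have hdvd : q2 ∣ a.val ∨ q1 ∣ a.val := by
    by_contra hcon
    push Not at hcon
    apply ha
    exact Nat.Coprime.mul_right
      ((Nat.coprime_comm.1 ((Nat.Prime.coprime_iff_not_dvd hp1).2 hcon.2)))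
      ((Nat.coprime_comm.1 ((Nat.Prime.coprime_iff_not_dvd hp2).2 hcon.1)))
  rcases hdvd with ⟨c, hc⟩ | ⟨c, hc⟩
  · left
    have hc0 : c ≠ 0 := by
      rintro rfl
      exact hv0 (by rw [hc, mul_zero])
    have hclt : c < q1 := by
      rw [hc, mul_comm q1 q2] at hlt
      exact lt_of_mul_lt_mul_left hlt (Nat.zero_le _)
    have hval : ((c : ℕ) : ZMod q1).val = c := ZMod.val_natCast_of_lt hclt
    refine ⟨(c : ZMod q1), ?_, ?_⟩
    · intro h
      rw [h, ZMod.val_zero] at hval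
      exact hc0 hval.symm
    · rw [hval, ← hc, hav]
  · right
    have hc0 : c ≠ 0 := by
      rintro rfl
      exact hv0 (by rw [hc, mul_zero])
    have hclt : c < q2 := by
      rw [hc] at hlt
      exact lt_of_mul_lt_mul_left hlt (Nat.zero_le _)
    have hval : ((c : ℕ) : ZMod q2).val = c := ZMod.val_natCast_of_lt hclt
    refine ⟨(c : ZMod q2), ?_, ?_⟩
    · intro h
      rw [h, ZMod.val_zero] at hval
      exact hc0 hval.symm
    · rw [hval, ← hc, hav]

open Classical in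
theorem SS_split (q1 q2 D r : ℕ) [Fact q1.Prime] [Fact q2.Prime] (hne : q1 ≠ q2) :
    ∑ a : ZMod (q1 * q2), ‖SS (q1 * q2) D a‖ ^ r ≤ (D : ℝ) ^ r
      + ∑ b ∈ (Finset.univ : Finset (ZMod q1)).erase 0, ‖SS q1 D b‖ ^ r
      + ∑ b ∈ (Finset.univ : Finset (ZMod q2)).erase 0, ‖SS q2 D b‖ ^ r
      + ∑ a ∈ (Finset.univ : Finset (ZMod (q1 * q2))).filter (fun a => IsUnit a),
          ‖SS (q1 * q2) D a‖ ^ r := by
  have hf : ∀ a : ZMod (q1 * q2), 0 ≤ ‖SS (q1 * q2) D a‖ ^ r := fun a => by positivity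
  have hsub : (Finset.univ : Finset (ZMod (q1 * q2))) ⊆
      (({0} ∪ ((Finset.univ : Finset (ZMod q1)).erase 0).image
          (fun b => ((q2 * b.val : ℕ) : ZMod (q1 * q2)))) ∪
        ((Finset.univ : Finset (ZMod q2)).erase 0).image
          (fun b => ((q1 * b.val : ℕ) : ZMod (q1 * q2)))) ∪
      (Finset.univ : Finset (ZMod (q1 * q2))).filter (fun a => IsUnit a) := by
    intro a _
    by_cases hu : IsUnit a
    · exact Finset.mem_union_right _ (Finset.mem_filter.2 ⟨Finset.mem_univ _, hu⟩)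
    · refine Finset.mem_union_left _ ?_
      by_cases h0 : a = 0
      · exact Finset.mem_union_left _ (Finset.mem_union_left _ (Finset.mem_singleton.2 h0))
      · rcases Spl_cov q1 q2 a hu h0 with ⟨b, hb, hba⟩ | ⟨b, hb, hba⟩
        · exact Finset.mem_union_left _ (Finset.mem_union_right _ (Finset.mem_image.2
            ⟨b, Finset.mem_erase.2 ⟨hb, Finset.mem_univ _⟩, hba⟩))
        · exact Finset.mem_union_right _ (Finset.mem_image.2
            ⟨b, Finset.mem_erase.2 ⟨hb, Finset.mem_univ _⟩, hba⟩)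
  refine (Finset.sum_le_sum_of_subset_of_nonneg hsub fun a _ _ => hf a).trans ?_
  refine (Spl_union _ _ _ hf).trans (add_le_add_left ?_ _)
  refine (Spl_union _ _ _ hf).trans ?_
  refine add_le_add ?_ ?_
  · refine (Spl_union _ _ _ hf).trans ?_
    refine add_le_add ?_ ?_
    · rw [Finset.sum_singleton, SS_zero]
      simp
    · refine (Spl_image _ _ _ hf).trans (le_of_eq ?_)
      refine Finset.sum_congr rfl fun b _ => ?_
      rw [Spl_SS]
  · refine (Spl_image _ _ _ hf).trans (le_of_eq ?_)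
    refine Finset.sum_congr rfl fun b _ => ?_
    rw [Spl_SS']

end Pool.H53.NA
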