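import Pool.Agent.H53.NA.Nt2
import Pool.Agent.H53.NA.FlQ
import Pool.Agent.H53.NA.Bil
import Pool.Agent.H53.NA.Spl

/-!
Equidistribution of sums of powers of two modulo a product of two primes (assembly).
-/

set_option autoImplicit false

namespace Pool.H53.NA

theorem order_pos (N D : ℕ) (hD : 0 < D) (h2 : (2 : ZMod N) ^ D = 1) :
    0 < orderOf (2 : ZMod N) :=
  orderOf_pos_iff.mpr (isOfFinOrder_iff_pow_eq_one.mpr ⟨D, hD, h2⟩)

theorem two_pow_proj (M N D : ℕ) (h : M ∣ N) (h2 : (2 : ZMod N) ^ D = 1) : (2 : ZMod M) ^ D = 1 := by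
  have := congrArg (ZMod.castHom h (ZMod M)) h2
  rwa [map_pow, map_one, map_ofNat] at this

theorem order_le (q : ℕ) [Fact q.Prime] : orderOf (2 : ZMod q) ≤ q := by
  rw [← card_pw]
  calc (pw q).card ≤ (Finset.univ : Finset (ZMod q)).card := Finset.card_le_card (Finset.subset_univ _)
    _ = q := by rw [Finset.card_univ, ZMod.card]

/-- lower bound for the energy of order `2 s` modulo `q1 q2` -/
theorem pair_en (s C : ℕ) (hC0 : 1 ≤ C)
    (hC : ∀ (q1 q2 D : ℕ) [Fact q1.Prime] [Fact q2.Prime] (z : ℝ),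
      2 ≤ z → q1 ≠ q2 → 0 < D → (2 : ZMod (q1 * q2)) ^ D = 1 →
      (∀ y, (rep q1 D s y : ℝ) ≤ 2 / q1 * (D : ℝ) ^ s) →
      (∀ y, (rep q2 D s y : ℝ) ≤ 2 / q2 * (D : ℝ) ^ s) →
      (D : ℝ) ^ (2 * s) * en (q1 * q2) D s ≤ z * en (q1 * q2) D (2 * s) →
      z ^ C ≤ q1 → z ^ C ≤ q2 →
      (min q1 q2 : ℝ) ^ 2 ≤ z ^ C * ((D : ℝ) ^ (2 * s) / en (q1 * q2) D s))
    (q1 q2 D : ℕ) [Fact q1.Prime] [Fact q2.Prime] (hlt : q2 < q1) (hD : 0 < D)
    (h2 : (2 : ZMod (q1 * q2)) ^ D = 1)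
    (hr1 : ∀ y, (rep q1 D s y : ℝ) ≤ 2 / q1 * (D : ℝ) ^ s)
    (hr2 : ∀ y, (rep q2 D s y : ℝ) ≤ 2 / q2 * (D : ℝ) ^ s)
    (z : ℝ) (hz : 2 ≤ z) (hzq : z ^ (20 * C) = q1) :
    Real.sqrt ((q1 * q2 : ℕ) : ℝ) * en (q1 * q2) D (2 * s) ≤ 2 / z * (D : ℝ) ^ (2 * (2 * s)) := by
  have hz1 : (1 : ℝ) ≤ z := by linarith
  have hz0 : (0 : ℝ) < z := by linarith
  have hDR : (0 : ℝ) < D := by exact_mod_cast hD
  have hq1 : (0 : ℝ) < q1 := by exact_mod_cast (Fact.out : q1.Prime).pos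
  have hq2 : (0 : ℝ) < q2 := by exact_mod_cast (Fact.out : q2.Prime).pos
  have hne : q1 ≠ q2 := hlt.ne'
  have hN1 : (q1 : ℝ) / 2 ≤ NN (q1 * q2) D s := by
    have e1 : (en (q1 * q2) D s : ℝ) ≤ 2 / q1 * (D : ℝ) ^ (2 * s) := by
      have a1 : (en (q1 * q2) D s : ℝ) ≤ en q1 D s := by
        exact_mod_cast en_proj q1 (q1 * q2) D s (dvd_mul_right q1 q2)
      have a2 := en_le_max q1 D s _ hr1
      calc (en (q1 * q2) D s : ℝ) ≤ 2 / q1 * (D : ℝ) ^ s * (D : ℝ) ^ s := a1.trans a2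
        _ = _ := by rw [two_mul, pow_add]; ring
    have hen : (0 : ℝ) < en (q1 * q2) D s := by exact_mod_cast en_pos (q1 * q2) D s hD
    unfold NN
    rw [div_le_div_iff₀ (by norm_num) hen]
    calc (q1 : ℝ) * en (q1 * q2) D s ≤ q1 * (2 / q1 * (D : ℝ) ^ (2 * s)) := by gcongr
      _ = _ := by field_simp
  have hmono : NN (q1 * q2) D s ≤ NN (q1 * q2) D (2 * s) := by
    have := NN_mono (q1 * q2) D s s hD
    rwa [← two_mul] at this
  -- it is enough to bound `√Q / NN`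
  have hsq0 : 0 ≤ Real.sqrt ((q1 * q2 : ℕ) : ℝ) := Real.sqrt_nonneg _
  suffices hgoal : z * Real.sqrt ((q1 * q2 : ℕ) : ℝ) ≤ 2 * NN (q1 * q2) D (2 * s) by
    have hen : (0 : ℝ) < en (q1 * q2) D (2 * s) := by exact_mod_cast en_pos (q1 * q2) D (2 * s) hD
    unfold NN at hgoal
    rw [mul_div_assoc', le_div_iff₀ hen] at hgoal
    rw [div_mul_eq_mul_div, le_div_iff₀ hz0]
    linarith
  have hsqrt : Real.sqrt ((q1 * q2 : ℕ) : ℝ) ≤ q1 := by
    rw [Real.sqrt_le_left hq1.le]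
    push_cast
    have : (q2 : ℝ) ≤ q1 := by exact_mod_cast hlt.le
    nlinarith
  by_cases hcmp : (q2 : ℝ) ^ 10 ≤ (q1 : ℝ) ^ 9
  · -- not comparable
    have h1 : z * Real.sqrt ((q1 * q2 : ℕ) : ℝ) ≤ q1 := by
      have h3 : z ^ 2 * (q2 : ℝ) ≤ q1 := by
        by_contra hcon
        push Not at hcon
        have h4 : (q1 : ℝ) ^ 10 < (z ^ 2 * q2) ^ 10 := pow_lt_pow_left₀ hcon hq1.le (by norm_num)
        have h5 : (z ^ 2 * (q2 : ℝ)) ^ 10 ≤ z ^ 20 * (q1 : ℝ) ^ 9 := by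
          calc (z ^ 2 * (q2 : ℝ)) ^ 10 = z ^ 20 * (q2 : ℝ) ^ 10 := by ring
            _ ≤ _ := by gcongr
        have h6 : z ^ 20 ≤ (q1 : ℝ) := by
          rw [← hzq]; exact pow_le_pow_right₀ hz1 (by omega)
        have h7 : z ^ 20 * (q1 : ℝ) ^ 9 ≤ (q1 : ℝ) ^ 10 := by
          calc z ^ 20 * (q1 : ℝ) ^ 9 ≤ q1 * (q1 : ℝ) ^ 9 := by gcongr
            _ = _ := by ring
        linarith
      have h8 : z * Real.sqrt ((q1 * q2 : ℕ) : ℝ) = Real.sqrt (z ^ 2 * ((q1 * q2 : ℕ) : ℝ)) := by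
        rw [Real.sqrt_mul (by positivity), Real.sqrt_sq hz0.le]
      rw [h8, Real.sqrt_le_left hq1.le]
      push_cast
      nlinarith
    linarith
  · push Not at hcmp
    by_cases hg : (D : ℝ) ^ (2 * s) * en (q1 * q2) D s ≤ z * en (q1 * q2) D (2 * s)
    · -- no growth
      have hzq2 : z ^ C ≤ q2 := by
        by_contra hcon
        push Not at hcon
        have h4 : (q2 : ℝ) ^ 10 < (z ^ C) ^ 10 := pow_lt_pow_left₀ hcon hq2.le (by norm_num)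
        have h5 : (z ^ C) ^ 10 ≤ (q1 : ℝ) ^ 9 := by
          calc (z ^ C) ^ 10 = z ^ (10 * C) := by rw [← pow_mul]; congr 1; ring
            _ ≤ z ^ (20 * C) := pow_le_pow_right₀ hz1 (by omega)
            _ = q1 := hzq
            _ ≤ (q1 : ℝ) ^ 9 := by
              apply le_self_pow₀ _ (by norm_num)
              exact_mod_cast (Fact.out : q1.Prime).one_lt.le
        linarith
      have hzq1 : z ^ C ≤ q1 := by
        rw [← hzq]; exact pow_le_pow_right₀ hz1 (by omega)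
      have h9 := hC q1 q2 D z hz hne hD h2 hr1 hr2 hg hzq1 hzq2
      have hmin : (min q1 q2 : ℝ) = q2 := min_eq_right (by exact_mod_cast hlt.le)
      rw [hmin] at h9
      change (q2 : ℝ) ^ 2 ≤ z ^ C * NN (q1 * q2) D s at h9
      have h10 : z * q1 ≤ NN (q1 * q2) D s := by
        -- `(z^C)^... `
        have h11 : z ^ C * (z * q1) ≤ (q2 : ℝ) ^ 2 := by
          by_contra hcon
          push Not at hcon
          have h12 : ((q2 : ℝ) ^ 2) ^ 5 < (z ^ C * (z * q1)) ^ 5 :=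
            pow_lt_pow_left₀ hcon (by positivity) (by norm_num)
          have h13 : (z ^ C * (z * q1)) ^ 5 ≤ (q1 : ℝ) ^ 9 := by
            calc (z ^ C * (z * q1)) ^ 5 = z ^ (5 * C + 5) * (q1 : ℝ) ^ 5 := by
                  rw [mul_pow, mul_pow, ← pow_mul, pow_add]; ring
              _ ≤ z ^ (20 * C) * (q1 : ℝ) ^ 5 :=
                  mul_le_mul_of_nonneg_right (pow_le_pow_right₀ hz1 (by omega)) (by positivity)
              _ = q1 * (q1 : ℝ) ^ 5 := by rw [hzq]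
              _ = (q1 : ℝ) ^ 6 := by ring
              _ ≤ (q1 : ℝ) ^ 9 := by
                apply pow_le_pow_right₀ _ (by norm_num)
                exact_mod_cast (Fact.out : q1.Prime).one_lt.le
          have h14 : (q2 : ℝ) ^ 10 = ((q2 : ℝ) ^ 2) ^ 5 := by ring
          linarith
        exact le_of_mul_le_mul_left (h11.trans h9) (by positivity)
      have : z * Real.sqrt ((q1 * q2 : ℕ) : ℝ) ≤ z * q1 := by gcongr
      have hNpos := NN_pos (q1 * q2) D (2 * s) hD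
      linarith
    · push Not at hg
      have h1 : (0 : ℝ) < en (q1 * q2) D s := by exact_mod_cast en_pos (q1 * q2) D s hD
      have h1' : (0 : ℝ) < en (q1 * q2) D (2 * s) := by
        exact_mod_cast en_pos (q1 * q2) D (2 * s) hD
      have h15 : z * NN (q1 * q2) D s ≤ NN (q1 * q2) D (2 * s) := by
        unfold NN
        rw [mul_div_assoc', div_le_div_iff₀ h1 h1']
        have e1 : (D : ℝ) ^ (2 * (2 * s)) = (D : ℝ) ^ (2 * s) * (D : ℝ) ^ (2 * s) := by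
          rw [← pow_add]; congr 1; ring
        rw [e1]
        have hp : (0 : ℝ) < (D : ℝ) ^ (2 * s) := by positivity
        nlinarith
      have : z * Real.sqrt ((q1 * q2 : ℕ) : ℝ) ≤ z * q1 := by gcongr
      have h16 : z * (q1 / 2) ≤ z * NN (q1 * q2) D s := by gcongr
      linarith

/-- the sum over the frequencies is at most `4 D^r` -/
theorem nt2_lt : ∃ r t1 : ℕ, 1 ≤ r ∧ 1 ≤ t1 ∧ ∀ (q1 q2 D : ℕ) [Fact q1.Prime] [Fact q2.Prime],
    q2 < q1 → 0 < D → (2 : ZMod (q1 * q2)) ^ D = 1 →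
    t1 ≤ orderOf (2 : ZMod q1) → t1 ≤ orderOf (2 : ZMod q2) →
    q1 ≤ orderOf (2 : ZMod q1) ^ 5 → q2 ≤ orderOf (2 : ZMod q2) ^ 5 →
    ∑ a : ZMod (q1 * q2), ‖SS (q1 * q2) D a‖ ^ r ≤ 4 * (D : ℝ) ^ r := by
  obtain ⟨s, t1, hs, ht1, h1⟩ := nt1
  obtain ⟨C0, hC0⟩ := flatQ s
  set C : ℕ := C0 + 1 with hCdef
  have hC : ∀ (q1 q2 D : ℕ) [Fact q1.Prime] [Fact q2.Prime] (z : ℝ),
      2 ≤ z → q1 ≠ q2 → 0 < D → (2 : ZMod (q1 * q2)) ^ D = 1 →
      (∀ y, (rep q1 D s y : ℝ) ≤ 2 / q1 * (D : ℝ) ^ s) →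
      (∀ y, (rep q2 D s y : ℝ) ≤ 2 / q2 * (D : ℝ) ^ s) →
      (D : ℝ) ^ (2 * s) * en (q1 * q2) D s ≤ z * en (q1 * q2) D (2 * s) →
      z ^ C ≤ q1 → z ^ C ≤ q2 →
      (min q1 q2 : ℝ) ^ 2 ≤ z ^ C * ((D : ℝ) ^ (2 * s) / en (q1 * q2) D s) := by
    intro q1 q2 D _ _ z hz a1 a2 a3 a4 a5 a6 a7 a8
    have hz1 : (1 : ℝ) ≤ z := by linarith
    have h1 : z ^ C0 ≤ z ^ C := pow_le_pow_right₀ hz1 (by omega)
    refine (hC0 q1 q2 D z hz a1 a2 a3 a4 a5 a6 (h1.trans a7) (h1.trans a8)).trans ?_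
    exact mul_le_mul_of_nonneg_right h1 (by positivity)
  set w : ℕ := 80 * C with hw
  refine ⟨4 * (2 * s) ^ 2 * w, max t1 (4 ^ (20 * C)), ?_, ?_, ?_⟩
  · have : 1 ≤ (2 * s) ^ 2 := Nat.one_le_pow _ _ (by omega)
    have : 1 ≤ w := by omega
    nlinarith
  · exact ht1.trans (le_max_left _ _)
  intro q1 q2 D _ _ hlt hD h2 ht1' ht2' hg1 hg2
  have hDR : (0 : ℝ) < D := by exact_mod_cast hD
  have h21 : (2 : ZMod q1) ^ D = 1 := two_pow_proj q1 (q1 * q2) D (dvd_mul_right q1 q2) h2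
  have h22 : (2 : ZMod q2) ^ D = 1 := two_pow_proj q2 (q1 * q2) D (dvd_mul_left q2 q1) h2
  obtain ⟨hr1, hS1⟩ := (h1 q1 D hD h21 ((le_max_left _ _).trans ht1')).1 hg1
  obtain ⟨hr2, hS2⟩ := (h1 q2 D hD h22 ((le_max_left _ _).trans ht2')).1 hg2
  have hq1 : (0 : ℝ) < q1 := by exact_mod_cast (Fact.out : q1.Prime).pos
  have hq2 : (0 : ℝ) < q2 := by exact_mod_cast (Fact.out : q2.Prime).pos
  have hbig : 4 ^ (20 * C) ≤ q1 := ((le_max_right _ _).trans ht1').trans (order_le q1)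
  have hbigR : (4 : ℝ) ^ (20 * C) ≤ q1 := by exact_mod_cast hbig
  have hCR : (0 : ℝ) < (20 * C : ℕ) := by exact_mod_cast (by omega : 0 < 20 * C)
  set z : ℝ := (q1 : ℝ) ^ ((1 : ℝ) / (20 * C : ℕ)) with hz
  have hzpow : z ^ (20 * C) = q1 := by
    rw [hz, ← Real.rpow_natCast, ← Real.rpow_mul hq1.le]
    rw [one_div, inv_mul_cancel₀ hCR.ne', Real.rpow_one]
  have hz0 : 0 < z := Real.rpow_pos_of_pos hq1 _
  have hz4 : 4 ≤ z := by
    by_contra hcon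
    push Not at hcon
    have : z ^ (20 * C) < 4 ^ (20 * C) := pow_lt_pow_left₀ hcon hz0.le (by omega)
    linarith [hzpow]
  have hpe := pair_en s C (by omega) hC q1 q2 D hlt hD h2 hr1 hr2 z (by linarith) hzpow
  -- pointwise bound for units
  have hunit : ∀ a : ZMod (q1 * q2), IsUnit a →
      ‖SS (q1 * q2) D a‖ ^ (4 * (2 * s) ^ 2) ≤ 2 / z * (D : ℝ) ^ (4 * (2 * s) ^ 2) := by
    intro a ha
    have hb := bilin (q1 * q2) D (2 * s) (by omega) hD h2 a ha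
    have hp : (0 : ℝ) < (D : ℝ) ^ (2 * (2 * s)) := by positivity
    have : ‖SS (q1 * q2) D a‖ ^ (4 * (2 * s) ^ 2) * (D : ℝ) ^ (2 * (2 * s))
        ≤ (2 / z * (D : ℝ) ^ (4 * (2 * s) ^ 2)) * (D : ℝ) ^ (2 * (2 * s)) := by
      calc ‖SS (q1 * q2) D a‖ ^ (4 * (2 * s) ^ 2) * (D : ℝ) ^ (2 * (2 * s))
          ≤ (D : ℝ) ^ (4 * (2 * s) ^ 2) * (Real.sqrt ((q1 * q2 : ℕ) : ℝ)
              * en (q1 * q2) D (2 * s)) := hb
        _ ≤ (D : ℝ) ^ (4 * (2 * s) ^ 2) * (2 / z * (D : ℝ) ^ (2 * (2 * s))) := by gcongr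
        _ = _ := by ring
    exact le_of_mul_le_mul_right this hp
  set R0 : ℕ := 4 * (2 * s) ^ 2 with hR0
  have hR0s : s ≤ R0 * w := by
    have h3 : 1 ≤ w := by omega
    have h4 : s ≤ R0 := by
      rw [hR0]; nlinarith
    nlinarith
  have hunits : ∑ a ∈ (Finset.univ : Finset (ZMod (q1 * q2))).filter (fun a => IsUnit a),
      ‖SS (q1 * q2) D a‖ ^ (R0 * w) ≤ (D : ℝ) ^ (R0 * w) := by
    have hpt : ∀ a ∈ (Finset.univ : Finset (ZMod (q1 * q2))).filter (fun a => IsUnit a),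
        ‖SS (q1 * q2) D a‖ ^ (R0 * w) ≤ (2 / z) ^ w * (D : ℝ) ^ (R0 * w) := by
      intro a ha
      rw [Finset.mem_filter] at ha
      calc ‖SS (q1 * q2) D a‖ ^ (R0 * w) = (‖SS (q1 * q2) D a‖ ^ R0) ^ w := by rw [pow_mul]
        _ ≤ (2 / z * (D : ℝ) ^ R0) ^ w := pow_le_pow_left₀ (by positivity) (hunit a ha.2) w
        _ = _ := by rw [mul_pow, ← pow_mul (D : ℝ)]
    have hcard : (((Finset.univ : Finset (ZMod (q1 * q2))).filter (fun a => IsUnit a)).card : ℝ)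
        ≤ z ^ (40 * C) := by
      calc (((Finset.univ : Finset (ZMod (q1 * q2))).filter (fun a => IsUnit a)).card : ℝ)
          ≤ ((Finset.univ : Finset (ZMod (q1 * q2))).card : ℝ) := by
            exact_mod_cast Finset.card_le_card (Finset.filter_subset _ _)
        _ = (q1 : ℝ) * q2 := by rw [Finset.card_univ, ZMod.card]; push_cast; rfl
        _ ≤ q1 * q1 := by gcongr
        _ = z ^ (20 * C) * z ^ (20 * C) := by rw [hzpow]
        _ = z ^ (40 * C) := by rw [← pow_add]; congr 1; ring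
    have hsmall : z ^ (40 * C) * (2 / z) ^ w ≤ 1 := by
      have h5 : (2 / z) ^ 2 ≤ 1 / z := by
        rw [div_pow, div_le_div_iff₀ (by positivity) hz0]
        nlinarith
      calc z ^ (40 * C) * (2 / z) ^ w = z ^ (40 * C) * ((2 / z) ^ 2) ^ (40 * C) := by
            rw [← pow_mul, hw]; congr 2; ring
        _ ≤ z ^ (40 * C) * (1 / z) ^ (40 * C) := by gcongr
        _ = 1 := by rw [← mul_pow, mul_one_div_cancel hz0.ne', one_pow]
    calc ∑ a ∈ (Finset.univ : Finset (ZMod (q1 * q2))).filter (fun a => IsUnit a),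
          ‖SS (q1 * q2) D a‖ ^ (R0 * w)
        ≤ ∑ a ∈ (Finset.univ : Finset (ZMod (q1 * q2))).filter (fun a => IsUnit a),
          (2 / z) ^ w * (D : ℝ) ^ (R0 * w) := Finset.sum_le_sum hpt
      _ = (((Finset.univ : Finset (ZMod (q1 * q2))).filter (fun a => IsUnit a)).card : ℝ)
          * ((2 / z) ^ w * (D : ℝ) ^ (R0 * w)) := by rw [Finset.sum_const, nsmul_eq_mul]
      _ ≤ z ^ (40 * C) * ((2 / z) ^ w * (D : ℝ) ^ (R0 * w)) := by gcongr
      _ = (z ^ (40 * C) * (2 / z) ^ w) * (D : ℝ) ^ (R0 * w) := by ring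
      _ ≤ 1 * (D : ℝ) ^ (R0 * w) := by gcongr
      _ = _ := one_mul _
  -- the primes
  have hprime : ∀ (q : ℕ) [Fact q.Prime],
      ∑ b ∈ (Finset.univ : Finset (ZMod q)).erase 0, ‖SS q D b‖ ^ s ≤ (D : ℝ) ^ s →
      ∑ b ∈ (Finset.univ : Finset (ZMod q)).erase 0, ‖SS q D b‖ ^ (R0 * w)
        ≤ (D : ℝ) ^ (R0 * w) := by
    intro q _ hS
    calc ∑ b ∈ (Finset.univ : Finset (ZMod q)).erase 0, ‖SS q D b‖ ^ (R0 * w)
        ≤ ∑ b ∈ (Finset.univ : Finset (ZMod q)).erase 0,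
          ‖SS q D b‖ ^ s * (D : ℝ) ^ (R0 * w - s) := by
          apply Finset.sum_le_sum
          intro b _
          calc ‖SS q D b‖ ^ (R0 * w) = ‖SS q D b‖ ^ s * ‖SS q D b‖ ^ (R0 * w - s) := by
                rw [← pow_add]; congr 1; omega
            _ ≤ _ := by
              gcongr
              exact SS_le q D b
      _ = (∑ b ∈ (Finset.univ : Finset (ZMod q)).erase 0, ‖SS q D b‖ ^ s)
          * (D : ℝ) ^ (R0 * w - s) := by rw [Finset.sum_mul]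
      _ ≤ (D : ℝ) ^ s * (D : ℝ) ^ (R0 * w - s) := by gcongr
      _ = (D : ℝ) ^ (R0 * w) := by rw [← pow_add]; congr 1; omega
  have hsplit := SS_split q1 q2 D (R0 * w) hlt.ne'
  have hp1 := hprime q1 hS1
  have hp2 := hprime q2 hS2
  have hunits' : ∑ a ∈ @Finset.filter _ (fun a : ZMod (q1 * q2) => IsUnit a)
      (Classical.decPred _) Finset.univ, ‖SS (q1 * q2) D a‖ ^ (R0 * w) ≤ (D : ℝ) ^ (R0 * w) := by
    convert hunits
  linarith

end Pool.H53.NA
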