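import Pool.Agent.H53.NA.Nt3

/-!
Equidistribution of sums of powers of two: the final form (assembly).
-/

set_option autoImplicit false

namespace Pool.H53.NA

/-- reduction of the order of a product of two factors -/
theorem sum_SS_comm (q1 q2 D r : ℕ) [Fact q1.Prime] [Fact q2.Prime] (y : ZMod (q1 * q2))
    (h : ∑ a : ZMod (q1 * q2), ‖SS (q1 * q2) D a‖ ^ r ≤ 4 * (D : ℝ) ^ r) :
    (rep (q1 * q2) D r y : ℝ) ≤ 4 / ((q1 : ℝ) * q2) * (D : ℝ) ^ r := by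
  have hq1 : (0 : ℝ) < q1 := by exact_mod_cast (Fact.out : q1.Prime).pos
  have hq2 : (0 : ℝ) < q2 := by exact_mod_cast (Fact.out : q2.Prime).pos
  have h1 := rep_le_SS (q1 * q2) D r y
  rw [div_mul_eq_mul_div, le_div_iff₀ (by positivity)]
  push_cast at h1
  nlinarith

/-- `rep` depends only on the modulus -/
theorem rep_cast (M N D s : ℕ) (h : M = N) (y : ZMod M) :
    rep M D s y = rep N D s (h ▸ y) := by
  subst h; rfl

theorem nt_final : ∃ s0 t1 : ℕ, 1 ≤ s0 ∧ 1 ≤ t1 ∧ ∀ s D : ℕ, s0 ≤ s → 0 < D →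
    (∀ (q : ℕ) [Fact q.Prime], (2 : ZMod q) ^ D = 1 → t1 ≤ orderOf (2 : ZMod q) →
      (q ≤ orderOf (2 : ZMod q) ^ 5 → ∀ y, (rep q D s y : ℝ) ≤ 2 / q * (D : ℝ) ^ s) ∧
      (orderOf (2 : ZMod q) ^ 5 < q → ∀ y, (rep q D s y : ℝ)
        ≤ (D : ℝ) ^ s / (orderOf (2 : ZMod q) : ℝ) ^ 4)) ∧
    (∀ (q1 q2 : ℕ) [Fact q1.Prime] [Fact q2.Prime], q1 ≠ q2 → (2 : ZMod (q1 * q2)) ^ D = 1 →
      t1 ≤ orderOf (2 : ZMod q1) → t1 ≤ orderOf (2 : ZMod q2) →
      q1 ≤ orderOf (2 : ZMod q1) ^ 5 → q2 ≤ orderOf (2 : ZMod q2) ^ 5 →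
      ∀ y, (rep (q1 * q2) D s y : ℝ) ≤ 4 / ((q1 : ℝ) * q2) * (D : ℝ) ^ s) := by
  obtain ⟨s, t1, hs, ht1, h1⟩ := nt1
  obtain ⟨r, t2, hr, ht2, h2⟩ := nt2_lt
  refine ⟨max s r, max t1 t2, le_trans hs (le_max_left _ _), le_trans ht1 (le_max_left _ _), ?_⟩
  intro s' D hs' hD
  have hDR : (0 : ℝ) < D := by exact_mod_cast hD
  have e1 : s' = s + (s' - s) := by have := le_max_left s r; omega
  have e2 : s' = r + (s' - r) := by have := le_max_right s r; omega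
  constructor
  · intro q _ h2q ht
    obtain ⟨a, b⟩ := h1 q D hD h2q ((le_max_left _ _).trans ht)
    constructor
    · intro hq y
      have := rep_add_le q D s (s' - s) _ (a hq).1 y
      rw [← e1] at this
      calc (rep q D s' y : ℝ) ≤ 2 / q * (D : ℝ) ^ s * (D : ℝ) ^ (s' - s) := this
        _ = 2 / q * (D : ℝ) ^ s' := by rw [mul_assoc, ← pow_add, ← e1]
    · intro hq y
      have := rep_add_le q D s (s' - s) _ (b hq) y
      rw [← e1] at this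
      calc (rep q D s' y : ℝ) ≤ (D : ℝ) ^ s / (orderOf (2 : ZMod q) : ℝ) ^ 4
            * (D : ℝ) ^ (s' - s) := this
        _ = (D : ℝ) ^ s' / (orderOf (2 : ZMod q) : ℝ) ^ 4 := by
          rw [div_mul_eq_mul_div, ← pow_add, ← e1]
  · -- pairs
    have hlt : ∀ (q1 q2 : ℕ) [Fact q1.Prime] [Fact q2.Prime], q2 < q1 →
        (2 : ZMod (q1 * q2)) ^ D = 1 →
        max t1 t2 ≤ orderOf (2 : ZMod q1) → max t1 t2 ≤ orderOf (2 : ZMod q2) →
        q1 ≤ orderOf (2 : ZMod q1) ^ 5 → q2 ≤ orderOf (2 : ZMod q2) ^ 5 →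
        ∀ y, (rep (q1 * q2) D s' y : ℝ) ≤ 4 / ((q1 : ℝ) * q2) * (D : ℝ) ^ s' := by
      intro q1 q2 _ _ hlt h2' a b c d y
      have hS := h2 q1 q2 D hlt hD h2' ((le_max_right _ _).trans a) ((le_max_right _ _).trans b) c d
      have hS' := fun y => sum_SS_comm q1 q2 D r y hS
      have := rep_add_le (q1 * q2) D r (s' - r) _ hS' y
      rw [← e2] at this
      calc (rep (q1 * q2) D s' y : ℝ)
          ≤ 4 / ((q1 : ℝ) * q2) * (D : ℝ) ^ r * (D : ℝ) ^ (s' - r) := this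
        _ = 4 / ((q1 : ℝ) * q2) * (D : ℝ) ^ s' := by rw [mul_assoc, ← pow_add, ← e2]
    intro q1 q2 _ _ hne h2' a b c d y
    rcases lt_or_gt_of_ne hne with h | h
    · have hcomm : q1 * q2 = q2 * q1 := mul_comm _ _
      have h2'' : (2 : ZMod (q2 * q1)) ^ D = 1 := by
        rw [← hcomm]; exact h2'
      have := hlt q2 q1 h h2'' b a d c (hcomm ▸ y)
      rw [rep_cast (q1 * q2) (q2 * q1) D s' hcomm y]
      calc _ ≤ 4 / ((q2 : ℝ) * q1) * (D : ℝ) ^ s' := this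
        _ = _ := by rw [mul_comm (q2 : ℝ) q1]
    · exact hlt q1 q2 h h2' a b c d y

end Pool.H53.NA
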