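import Pool.Agent.H53.NA.Smb

/-!
Row Smc.  PROOFS.
`smooth_prod`: `1 - 1/q ≥ exp(-2/q)` for `q ≥ 3` (`Real.one_sub_inv_le_log_of_pos`, or `exp(2x)(1 - x) ≥ (1+2x)(1-x) ≥ 1` for
`0 ≤ x ≤ 1/2`); `∏ ≥ exp(-2 ∑ 1/q) ≥ e^{-2C} (log l0)^(-4) ≥ c l0^(-1/4)` (`smooth_recip`; `log l0 ≤ 16 l0^(1/16)`).
`smooth_tail`: grouping by `d = tq q` and `ord_recip`: `∑ 2/q ≤ 2 ∑_{d > d0, gpf d ≤ l0} (1+log d)/d → 0` as `d0 → ∞` (`tail_smooth`,
`y = d0`; `y^(-1/log(l0+1)) → 0`) and `∑ 1/(tq q)^4 ≤ ∑ 1/(tq q)^3 ≤ 1/d0` (`bad_sum`).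
-/

set_option autoImplicit false

namespace Pool.H53.NA

theorem smc_exp (x : ℝ) (h0 : 0 ≤ x) (h1 : x ≤ 1 / 2) : Real.exp (-(2 * x)) ≤ 1 - x := by
  rw [Real.exp_neg, inv_eq_one_div, div_le_iff₀ (Real.exp_pos _)]
  have h := Real.add_one_le_exp (2 * x)
  have h2 : (1 - x) * (2 * x + 1) ≤ (1 - x) * Real.exp (2 * x) :=
    mul_le_mul_of_nonneg_left h (by linarith)
  nlinarith

theorem smooth_prod : ∃ c : ℝ, 0 < c ∧ ∃ L : ℕ, 1 ≤ L ∧ ∀ l0 : ℕ, L ≤ l0 → ∀ F : Finset ℕ,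
    (∀ q ∈ F, q.Prime ∧ q ≠ 2 ∧ gpf (tq q) ≤ l0) →
    c * (l0 : ℝ) ^ (-(1 : ℝ) / 4) ≤ ∏ q ∈ F, (1 - (1 : ℝ) / q) := by
  obtain ⟨C, L, hL, h⟩ := smooth_recip
  refine ⟨Real.exp (-(2 * C)) / 65536, by positivity, L, by omega, ?_⟩
  intro l0 hl F hF
  have h1 := h l0 hl F hF
  have hl3 : (3000 : ℝ) ≤ l0 := by exact_mod_cast hL.trans hl
  have hl0 : (0 : ℝ) < l0 := by linarith
  have hlog : 0 < Real.log l0 := Real.log_pos (by linarith)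
  have h2 : Real.exp (-(2 * ∑ q ∈ F, (1 : ℝ) / q)) ≤ ∏ q ∈ F, (1 - (1 : ℝ) / q) := by
    rw [Finset.mul_sum, ← Finset.sum_neg_distrib, Real.exp_sum]
    refine Finset.prod_le_prod (fun q _ => (Real.exp_pos _).le) ?_
    intro q hq
    obtain ⟨hp, hq2, _⟩ := hF q hq
    have h3 : (2 : ℝ) ≤ q := by exact_mod_cast hp.two_le
    refine smc_exp _ (by positivity) ?_
    exact one_div_le_one_div_of_le (by norm_num) h3
  refine le_trans ?_ h2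
  have h3 : Real.exp (-(2 * (2 * Real.log (Real.log l0) + C))) ≤
      Real.exp (-(2 * ∑ q ∈ F, (1 : ℝ) / q)) := Real.exp_le_exp.2 (by linarith)
  refine le_trans ?_ h3
  have h4 : Real.exp (-(2 * (2 * Real.log (Real.log l0) + C))) =
      Real.exp (-(2 * C)) / (Real.log l0) ^ 4 := by
    have e1 : -(2 * (2 * Real.log (Real.log l0) + C)) = -(2 * C) - 4 * Real.log (Real.log l0) := by
      ring
    rw [e1, Real.exp_sub]
    congr 1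
    have e2 : (4 : ℝ) * Real.log (Real.log l0) = Real.log ((Real.log l0) ^ 4) := by
      rw [Real.log_pow]; push_cast; ring
    rw [e2, Real.exp_log (by positivity)]
  rw [h4]
  have h5 : (Real.log l0) ^ 4 ≤ 65536 * (l0 : ℝ) ^ ((1 : ℝ) / 4) := by
    have e1 := Real.log_le_rpow_div hl0.le (show (0 : ℝ) < 1 / 16 by norm_num)
    have e2 : (Real.log l0) ^ 4 ≤ ((l0 : ℝ) ^ ((1 : ℝ) / 16) / (1 / 16)) ^ 4 :=
      pow_le_pow_left₀ hlog.le e1 4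
    refine e2.trans (le_of_eq ?_)
    have e3 : ((l0 : ℝ) ^ ((1 : ℝ) / 16)) ^ 4 = (l0 : ℝ) ^ ((1 : ℝ) / 4) := by
      rw [← Real.rpow_natCast, ← Real.rpow_mul hl0.le]
      norm_num
    rw [div_pow, e3]
    ring
  have h6 : (l0 : ℝ) ^ (-(1 : ℝ) / 4) = 1 / (l0 : ℝ) ^ ((1 : ℝ) / 4) := by
    rw [neg_div, Real.rpow_neg hl0.le]; exact inv_eq_one_div _
  rw [h6]
  have h7 : (0 : ℝ) < (l0 : ℝ) ^ ((1 : ℝ) / 4) := Real.rpow_pos_of_pos hl0 _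
  have h8 : Real.exp (-(2 * C)) / 65536 * (1 / (l0 : ℝ) ^ ((1 : ℝ) / 4)) =
      Real.exp (-(2 * C)) / (65536 * (l0 : ℝ) ^ ((1 : ℝ) / 4)) := by
    field_simp
  rw [h8]
  exact div_le_div_of_nonneg_left (Real.exp_pos _).le (by positivity) h5

theorem smooth_tail : ∃ L : ℕ, 1 ≤ L ∧ ∀ l0 : ℕ, L ≤ l0 → ∀ ε : ℝ, 0 < ε → ∃ d0 : ℕ,
    ∀ F : Finset ℕ, (∀ q ∈ F, q.Prime ∧ q ≠ 2 ∧ gpf (tq q) ≤ l0 ∧ d0 < tq q) →
    ∑ q ∈ F, ((2 : ℝ) / q + 1 / (tq q : ℝ) ^ 4) ≤ ε := by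
  classical
  obtain ⟨C, hC, L, hL, h⟩ := tail_smooth
  refine ⟨L, by omega, ?_⟩
  intro l0 hl ε hε
  have hl3 : (3000 : ℝ) ≤ l0 := by exact_mod_cast hL.trans hl
  have hlog : 0 < Real.log (l0 + 1) := Real.log_pos (by linarith)
  have ht : Filter.Tendsto (fun d : ℕ => 2 * (C * Real.log (l0 + 1) *
      (d : ℝ) ^ (-1 / Real.log (l0 + 1)) * ((l0 : ℝ) + 1) ^ ((1 : ℝ) / 40)) + 1 / (d : ℝ))
      Filter.atTop (nhds 0) := by
    have h1 : Filter.Tendsto (fun d : ℕ => (d : ℝ) ^ (-1 / Real.log (l0 + 1))) Filter.atTop (nhds 0) := by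
      have h2 := (tendsto_rpow_neg_atTop (show 0 < 1 / Real.log (l0 + 1) by positivity)).comp
        (tendsto_natCast_atTop_atTop (R := ℝ))
      have h3 : -(1 / Real.log (l0 + 1)) = -1 / Real.log (l0 + 1) := by rw [neg_div]
      rw [h3] at h2
      exact h2
    have h4 : Filter.Tendsto (fun d : ℕ => (1 : ℝ) / (d : ℝ)) Filter.atTop (nhds 0) :=
      tendsto_one_div_atTop_nhds_zero_nat
    have h5 := ((((h1.const_mul (C * Real.log (l0 + 1))).mul_const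
      (((l0 : ℝ) + 1) ^ ((1 : ℝ) / 40))).const_mul 2).add h4)
    simpa using h5
  have hev := (ht.eventually (gt_mem_nhds hε)).and (Filter.eventually_ge_atTop 1)
  obtain ⟨d0, hd0, hd1⟩ := hev.exists
  refine ⟨d0, ?_⟩
  intro F hF
  rw [Finset.sum_add_distrib]
  have hF' : ∀ q ∈ F, q.Prime ∧ q ≠ 2 := fun q hq => ⟨(hF q hq).1, (hF q hq).2.1⟩
  have b1 : ∑ q ∈ F, (1 : ℝ) / (tq q : ℝ) ^ 4 ≤ 1 / d0 := by
    refine le_trans ?_ (bad_sum F hF' d0 hd1 (fun q hq => (hF q hq).2.2.2))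
    refine Finset.sum_le_sum fun q hq => ?_
    have h1 : (1 : ℝ) ≤ tq q := by
      have := (hF q hq).2.2.2
      exact_mod_cast (show 1 ≤ tq q by omega)
    refine one_div_le_one_div_of_le (by positivity) ?_
    exact pow_le_pow_right₀ h1 (by norm_num)
  have b2 : ∑ q ∈ F, (1 : ℝ) / q ≤ C * Real.log (l0 + 1) *
      (d0 : ℝ) ^ (-1 / Real.log (l0 + 1)) * ((l0 : ℝ) + 1) ^ ((1 : ℝ) / 40) := by
    have h1 : ∑ q ∈ F, (1 : ℝ) / q =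
        ∑ d ∈ F.image tq, ∑ q ∈ F.filter (fun q => tq q = d), (1 : ℝ) / q :=
      (Finset.sum_fiberwise_of_maps_to (fun q hq => Finset.mem_image_of_mem _ hq) _).symm
    rw [h1]
    refine le_trans (Finset.sum_le_sum fun d hd => ?_)
      (h l0 hl d0 (by exact_mod_cast hd1) (F.image tq) ?_)
    · obtain ⟨q, hq, rfl⟩ := Finset.mem_image.1 hd
      exact ord_recip F hF' (tq q) (by have := (hF q hq).2.2.2; omega)
    · intro d hd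
      obtain ⟨q, hq, rfl⟩ := Finset.mem_image.1 hd
      have h3 := (hF q hq).2.2
      exact ⟨by omega, h3.1, by exact_mod_cast h3.2⟩
  have b3 : ∑ q ∈ F, (2 : ℝ) / q = 2 * ∑ q ∈ F, (1 : ℝ) / q := by
    rw [Finset.mul_sum]
    refine Finset.sum_congr rfl fun q _ => ?_
    ring
  rw [b3]
  linarith

end Pool.H53.NA
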