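import Pool.Agent.H53.NA.Nt4
import Pool.Agent.H53.NA.Mix
import Pool.Agent.H53.NA.Cnt
import Pool.Agent.H53.NA.Smc

/-!
The primes with smooth order of two (assembly).
-/

set_option autoImplicit false

namespace Pool.H53.NA

theorem cnt_zero (q D s : ℕ) [NeZero q] (n : ZMod q) :
    ((Finset.univ : Finset (Fin s → Fin D)).filter fun k : Fin s → Fin D =>
      n - ∑ i, (2 : ZMod q) ^ (k i : ℕ) = 0).card = rep q D s n := by
  unfold rep
  congr 1
  ext k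
  simp only [Finset.mem_filter, Finset.mem_univ, true_and]
  rw [sub_eq_zero, eq_comm]

theorem smooth_count : ∃ c : ℝ, 0 < c ∧ ∃ L : ℕ, 1 ≤ L ∧ ∀ l0 : ℕ, L ≤ l0 → ∃ s1 : ℕ, ∀ s : ℕ,
    s1 ≤ s → ∀ P : Finset ℕ, (∀ q ∈ P, q.Prime ∧ q ≠ 2) → ∀ D : ℕ, 0 < D →
    (∀ F ⊆ P, (2 : ZMod (∏ q ∈ F, q)) ^ D = 1) → ∀ n : ℤ,
    c * (l0 : ℝ) ^ (-(1 : ℝ) / 4) * (D : ℝ) ^ s ≤
    (((Finset.univ : Finset (Fin s → Fin D)).filter fun k : Fin s → Fin D =>
      ∀ q ∈ P, gpf (tq q) ≤ l0 → ((n : ZMod q) - ∑ i, (2 : ZMod q) ^ (k i : ℕ)) ≠ 0).card : ℝ) := by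
  obtain ⟨c, hc, L1, hL1, h1⟩ := smooth_prod
  obtain ⟨L2, hL2, h2⟩ := smooth_tail
  obtain ⟨s0, t1, hs0, ht1, h3⟩ := nt_final
  refine ⟨c / 4, by positivity, max L1 L2, le_trans hL1 (le_max_left _ _), ?_⟩
  intro l0 hl0
  have hl0L1 : L1 ≤ l0 := (le_max_left _ _).trans hl0
  have hl0L2 : L2 ≤ l0 := (le_max_right _ _).trans hl0
  have hl0pos : (0 : ℝ) < l0 := by
    have : 1 ≤ l0 := hL1.trans hl0L1
    exact_mod_cast this
  set η : ℝ := c * (l0 : ℝ) ^ (-(1 : ℝ) / 4) with hη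
  have hη0 : 0 < η := by positivity
  obtain ⟨d0', hd0'⟩ := h2 l0 hl0L2 (η / 4) (by positivity)
  set d0 : ℕ := max d0' t1 with hd0
  set F0 : Finset ℕ := (Finset.range (2 ^ (d0 + 1))).filter fun q => q.Prime ∧ q ≠ 2 with hF0
  have hmix : ∀ G : Finset ℕ, ∃ s1 : ℕ, (∀ q ∈ G, q.Prime ∧ q ≠ 2) → ∀ s : ℕ, s1 ≤ s →
      ∀ D : ℕ, 0 < D → (2 : ZMod (∏ q ∈ G, q)) ^ D = 1 → ∀ y : ZMod (∏ q ∈ G, q),
      (1 - 1 / 2) * (D : ℝ) ^ s ≤ ((∏ q ∈ G, q : ℕ) : ℝ) * (rep (∏ q ∈ G, q) D s y : ℝ) := by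
    intro G
    by_cases hG : ∀ q ∈ G, q.Prime ∧ q ≠ 2
    · have hodd : Odd (∏ q ∈ G, q) := by
        apply Finset.prod_induction _ (fun n => Odd n) (fun a b ha hb => ha.mul hb) odd_one
        intro q hq
        exact (hG q hq).1.odd_of_ne_two (hG q hq).2
      haveI : NeZero (∏ q ∈ G, q) := ⟨hodd.pos.ne'⟩
      obtain ⟨s1, hs1⟩ := mixing (∏ q ∈ G, q) hodd (1 / 2) (by norm_num)
      exact ⟨s1, fun _ s hs D hD h2 y => hs1 s hs D hD h2 y⟩
    · exact ⟨0, fun h => absurd h hG⟩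
  choose sm hsm using hmix
  refine ⟨max s0 (F0.powerset.sup sm), ?_⟩
  intro s hs P hP D hD h2D n
  have hss0 : s0 ≤ s := (le_max_left _ _).trans hs
  have hDR : (0 : ℝ) < D := by exact_mod_cast hD
  set F : Finset ℕ := P.filter fun q => gpf (tq q) ≤ l0 ∧ tq q ≤ d0 with hF
  set P' : Finset ℕ := P.filter fun q => gpf (tq q) ≤ l0 ∧ d0 < tq q with hP'
  have hFP : F ⊆ P := Finset.filter_subset _ _
  have hFpr : ∀ q ∈ F, q.Prime ∧ q ≠ 2 := fun q hq => hP q (hFP hq)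
  have hFF0 : F ∈ F0.powerset := by
    rw [Finset.mem_powerset]
    intro q hq
    rw [hF, Finset.mem_filter] at hq
    rw [hF0, Finset.mem_filter, Finset.mem_range]
    refine ⟨?_, hP q hq.1⟩
    have := (ord_dvd q (hP q hq.1).1 (hP q hq.1).2).2.2.2
    calc q < 2 ^ tq q := this
      _ ≤ 2 ^ (d0 + 1) := Nat.pow_le_pow_right (by norm_num) (by omega)
  have hsF : sm F ≤ s := by
    have : sm F ≤ F0.powerset.sup sm := Finset.le_sup hFF0
    exact (this.trans (le_max_right _ _)).trans hs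
  have hoddF : Odd (∏ q ∈ F, q) := by
    apply Finset.prod_induction _ (fun n => Odd n) (fun a b ha hb => ha.mul hb) odd_one
    intro q hq
    exact (hFpr q hq).1.odd_of_ne_two (hFpr q hq).2
  haveI : NeZero (∏ q ∈ F, q) := ⟨hoddF.pos.ne'⟩
  have hA := cnt_unit F (fun q hq => (hFpr q hq).1) D s (1 / 2 * (D : ℝ) ^ s)
    (fun y => by
      have := hsm F hFpr s hsF D hD (h2D F hFP) y
      push_cast at this
      calc 1 / 2 * (D : ℝ) ^ s = (1 - 1 / 2) * (D : ℝ) ^ s := by norm_num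
        _ ≤ _ := this) (by positivity) n
  have hprod : η ≤ ∏ q ∈ F, (1 - (1 : ℝ) / q) := by
    apply h1 l0 hl0L1 F
    intro q hq
    have := hq
    rw [hF, Finset.mem_filter] at this
    exact ⟨(hFpr q hq).1, (hFpr q hq).2, this.2.1⟩
  set AA : Finset (Fin s → Fin D) := (Finset.univ : Finset (Fin s → Fin D)).filter
    fun k : Fin s → Fin D => ∀ q ∈ F, ((n : ZMod q) - ∑ i, (2 : ZMod q) ^ (k i : ℕ)) ≠ 0 with hAA
  set TT : Finset (Fin s → Fin D) := (Finset.univ : Finset (Fin s → Fin D)).filter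
    fun k : Fin s → Fin D => ∀ q ∈ P, gpf (tq q) ≤ l0 →
      ((n : ZMod q) - ∑ i, (2 : ZMod q) ^ (k i : ℕ)) ≠ 0 with hTT
  set ZZ : ℕ → Finset (Fin s → Fin D) := fun q => (Finset.univ : Finset (Fin s → Fin D)).filter
    fun k : Fin s → Fin D => ((n : ZMod q) - ∑ i, (2 : ZMod q) ^ (k i : ℕ)) = 0 with hZZ
  have hsub : AA ⊆ TT ∪ P'.biUnion ZZ := by
    intro k hk
    rw [hAA, Finset.mem_filter] at hk
    rw [Finset.mem_union]
    by_cases hk2 : k ∈ TT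
    · exact Or.inl hk2
    right
    rw [hTT, Finset.mem_filter] at hk2
    push Not at hk2
    obtain ⟨q, hq, hg, hz⟩ := hk2 (Finset.mem_univ _)
    rw [Finset.mem_biUnion]
    refine ⟨q, ?_, ?_⟩
    · rw [hP', Finset.mem_filter]
      refine ⟨hq, hg, ?_⟩
      by_contra hcon
      push Not at hcon
      exact hk.2 q (by rw [hF, Finset.mem_filter]; exact ⟨hq, hg, hcon⟩) hz
    · rw [hZZ]
      simp only [Finset.mem_filter, Finset.mem_univ, true_and]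
      exact hz
  have hZc : ∀ q ∈ P', ((ZZ q).card : ℝ) ≤ ((2 : ℝ) / q + 1 / (tq q : ℝ) ^ 4) * (D : ℝ) ^ s := by
    intro q hq
    rw [hP', Finset.mem_filter] at hq
    obtain ⟨hqP, hqg, hqd⟩ := hq
    haveI : Fact q.Prime := ⟨(hP q hqP).1⟩
    have hq0 : (0 : ℝ) < q := by exact_mod_cast (hP q hqP).1.pos
    have hone : (2 : ZMod q) ^ D = 1 := by
      have := h2D {q} (by simpa using hqP)
      rw [Finset.prod_singleton] at this
      exact this
    have e1 : (ZZ q).card = rep q D s n := cnt_zero q D s n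
    rw [e1]
    have ht : t1 ≤ orderOf (2 : ZMod q) := by
      have : d0 < orderOf (2 : ZMod q) := hqd
      have := le_max_right d0' t1
      omega
    obtain ⟨ha, hb⟩ := (h3 s D hss0 hD).1 q hone ht
    have htq : (0 : ℝ) < (tq q : ℝ) := by
      have : 0 < tq q := lt_of_le_of_lt (Nat.zero_le _) hqd
      exact_mod_cast this
    by_cases hgood : q ≤ orderOf (2 : ZMod q) ^ 5
    · calc (rep q D s (n : ZMod q) : ℝ) ≤ 2 / q * (D : ℝ) ^ s := ha hgood _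
        _ ≤ _ := by
          gcongr
          have : 0 ≤ 1 / (tq q : ℝ) ^ 4 := by positivity
          linarith
    · push Not at hgood
      calc (rep q D s (n : ZMod q) : ℝ) ≤ (D : ℝ) ^ s / (orderOf (2 : ZMod q) : ℝ) ^ 4 := hb hgood _
        _ = 1 / (tq q : ℝ) ^ 4 * (D : ℝ) ^ s := by unfold tq; ring
        _ ≤ _ := by
          gcongr
          have : 0 ≤ (2 : ℝ) / q := by positivity
          linarith
  have hZsum : ∑ q ∈ P', ((ZZ q).card : ℝ) ≤ η / 4 * (D : ℝ) ^ s := by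
    calc ∑ q ∈ P', ((ZZ q).card : ℝ)
        ≤ ∑ q ∈ P', ((2 : ℝ) / q + 1 / (tq q : ℝ) ^ 4) * (D : ℝ) ^ s := Finset.sum_le_sum hZc
      _ = (∑ q ∈ P', ((2 : ℝ) / q + 1 / (tq q : ℝ) ^ 4)) * (D : ℝ) ^ s := by rw [Finset.sum_mul]
      _ ≤ η / 4 * (D : ℝ) ^ s := by
        gcongr
        apply hd0' P'
        intro q hq
        rw [hP', Finset.mem_filter] at hq
        refine ⟨(hP q hq.1).1, (hP q hq.1).2, hq.2.1, ?_⟩
        have := le_max_left d0' t1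
        have := hq.2.2
        omega
  have hcard : (AA.card : ℝ) ≤ TT.card + ∑ q ∈ P', ((ZZ q).card : ℝ) := by
    have h5 : AA.card ≤ TT.card + ∑ q ∈ P', (ZZ q).card := by
      calc AA.card ≤ (TT ∪ P'.biUnion ZZ).card := Finset.card_le_card hsub
        _ ≤ TT.card + (P'.biUnion ZZ).card := Finset.card_union_le _ _
        _ ≤ _ := by gcongr; exact Finset.card_biUnion_le
    exact_mod_cast h5
  have hAA2 : η * (1 / 2 * (D : ℝ) ^ s) ≤ (AA.card : ℝ) :=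
    (mul_le_mul_of_nonneg_right hprod (by positivity)).trans hA
  have hfin : η / 4 * (D : ℝ) ^ s ≤ (TT.card : ℝ) := by
    have : η * (1 / 2 * (D : ℝ) ^ s) = η / 4 * (D : ℝ) ^ s + η / 4 * (D : ℝ) ^ s := by ring
    linarith
  calc c / 4 * (l0 : ℝ) ^ (-(1 : ℝ) / 4) * (D : ℝ) ^ s = η / 4 * (D : ℝ) ^ s := by rw [hη]; ring
    _ ≤ _ := hfin

end Pool.H53.NA
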