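import Pool.Agent.H53.NA.Smo

/-!
Row Sma: tails of sums over smooth numbers.  PROOF of `tail_smooth`.  `C`, `L` from `smooth_sum`, `l = l0 + 1`,
`σ = 1/log l`.  For `d ∈ T` all primes of `d` are `≤ gpf d ≤ l0 < l`.  `1 + log d ≤ (log l) d^σ` (`1 + x ≤ e^x`, `x = σ log d`, and
`log l ≥ 1`), and `d > y` gives `d^σ ≤ y^(-σ) d^(2σ)`.  So
`(1 + log d)/d ≤ (log l) y^(-σ) d^(-1+2σ) ≤ (log l) y^(-σ) fl l d`; sum and use `smooth_sum`.
-/

set_option autoImplicit false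

namespace Pool.H53.NA

private lemma Sma_one (L y d : ℝ) (hL : 1 ≤ L) (hy : 1 ≤ y) (hd : y < d) :
    (1 + Real.log d) / d ≤ L * y ^ (-1 / L) * d ^ (-1 + 2 / L) := by
  have hd0 : 0 < d := by linarith
  have hy0 : 0 < y := by linarith
  have hL0 : 0 < L := by linarith
  have h1 : 1 + Real.log d ≤ L * d ^ (1 / L) := by
    have h2 := Real.add_one_le_exp (Real.log d * (1 / L))
    rw [Real.rpow_def_of_pos hd0]
    have h3 : Real.log d = L * (Real.log d * (1 / L)) := by field_simp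
    calc 1 + Real.log d ≤ L + L * (Real.log d * (1 / L)) := by
          rw [← h3]; linarith
      _ = L * (Real.log d * (1 / L) + 1) := by ring
      _ ≤ L * Real.exp (Real.log d * (1 / L)) := mul_le_mul_of_nonneg_left h2 hL0.le
  have h4 : d ^ (1 / L) ≤ y ^ (-1 / L) * d ^ (2 / L) := by
    have h5 : d ^ (2 / L) = d ^ (1 / L) * d ^ (1 / L) := by
      rw [← Real.rpow_add hd0]; congr 1; ring
    have h6 : (1 : ℝ) ≤ y ^ (-1 / L) * d ^ (1 / L) := by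
      have h7 : y ^ (1 / L) ≤ d ^ (1 / L) := Real.rpow_le_rpow hy0.le hd.le (by positivity)
      have h8 : y ^ (-1 / L) * y ^ (1 / L) = 1 := by
        rw [← Real.rpow_add hy0]
        rw [show -1 / L + 1 / L = 0 by ring, Real.rpow_zero]
      have h9 : 0 ≤ y ^ (-1 / L) := by positivity
      calc (1 : ℝ) = y ^ (-1 / L) * y ^ (1 / L) := h8.symm
        _ ≤ y ^ (-1 / L) * d ^ (1 / L) := mul_le_mul_of_nonneg_left h7 h9
    have h10 : 0 ≤ d ^ (1 / L) := by positivity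
    rw [h5]
    nlinarith
  have h11 : d ^ (-1 + 2 / L) = d ^ (2 / L) / d := by
    rw [Real.rpow_add hd0, Real.rpow_neg_one]; ring
  rw [h11, div_le_iff₀ hd0]
  calc 1 + Real.log d ≤ L * d ^ (1 / L) := h1
    _ ≤ L * (y ^ (-1 / L) * d ^ (2 / L)) := mul_le_mul_of_nonneg_left h4 hL0.le
    _ = L * y ^ (-1 / L) * (d ^ (2 / L) / d) * d := by field_simp

theorem tail_smooth : ∃ C : ℝ, 0 < C ∧ ∃ L : ℕ, 3000 ≤ L ∧ ∀ l0 : ℕ, L ≤ l0 → ∀ y : ℝ, 1 ≤ y →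
    ∀ T : Finset ℕ, (∀ d ∈ T, d ≠ 0 ∧ gpf d ≤ l0 ∧ y < d) →
    ∑ d ∈ T, (1 + Real.log d) / d
      ≤ C * Real.log (l0 + 1) * y ^ (-1 / Real.log (l0 + 1)) * ((l0 : ℝ) + 1) ^ ((1 : ℝ) / 40) := by
  obtain ⟨C, hC, L, hL, h⟩ := smooth_sum
  refine ⟨C, hC, L, hL, ?_⟩
  intro l0 hl0 y hy T hT
  have hlog : 1 ≤ Real.log ((l0 : ℝ) + 1) := by
    rw [Real.le_log_iff_exp_le (by positivity)]
    have h1 : (3000 : ℝ) ≤ l0 := by exact_mod_cast hL.trans hl0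
    have h2 := Real.exp_one_lt_d9
    linarith
  have hs := h (l0 + 1) (by omega) T (by
    intro m hm
    obtain ⟨h1, h2, _⟩ := hT m hm
    refine ⟨h1, fun p hp hpm => ?_⟩
    have h3 : p ≤ gpf m :=
      Finset.le_sup (f := id) (Nat.mem_primeFactors.2 ⟨hp, hpm, h1⟩)
    omega)
  have hcast : (((l0 + 1 : ℕ)) : ℝ) = (l0 : ℝ) + 1 := by push_cast; ring
  rw [hcast] at hs
  have hterm : ∀ d ∈ T, (1 + Real.log d) / d ≤
      Real.log ((l0 : ℝ) + 1) * y ^ (-1 / Real.log ((l0 : ℝ) + 1)) * fl (l0 + 1) d := by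
    intro d hd
    obtain ⟨h1, _, h3⟩ := hT d hd
    have h4 := Sma_one _ y d hlog hy h3
    refine h4.trans ?_
    have h5 : (0 : ℝ) ≤ Real.log ((l0 : ℝ) + 1) * y ^ (-1 / Real.log ((l0 : ℝ) + 1)) := by
      have : (0 : ℝ) < y := by linarith
      positivity
    refine mul_le_mul_of_nonneg_left ?_ h5
    unfold fl
    rw [hcast]
    have h6 : (1 : ℝ) ≤ (4 / 3 : ℝ) ^ (ArithmeticFunction.cardFactors d) :=
      one_le_pow₀ (by norm_num)
    have h7 : (0 : ℝ) ≤ (d : ℝ) ^ (-1 + 2 / Real.log ((l0 : ℝ) + 1)) := by positivity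
    nlinarith
  calc ∑ d ∈ T, (1 + Real.log d) / d
      ≤ ∑ d ∈ T, Real.log ((l0 : ℝ) + 1) * y ^ (-1 / Real.log ((l0 : ℝ) + 1)) * fl (l0 + 1) d :=
        Finset.sum_le_sum hterm
    _ = Real.log ((l0 : ℝ) + 1) * y ^ (-1 / Real.log ((l0 : ℝ) + 1)) * ∑ d ∈ T, fl (l0 + 1) d := by
        rw [Finset.mul_sum]
    _ ≤ Real.log ((l0 : ℝ) + 1) * y ^ (-1 / Real.log ((l0 : ℝ) + 1)) *
          (C * ((l0 : ℝ) + 1) ^ ((1 : ℝ) / 40)) := by
        refine mul_le_mul_of_nonneg_left hs ?_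
        have : (0 : ℝ) < y := by linarith
        positivity
    _ = _ := by ring

end Pool.H53.NA
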