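import Pool.Agent.H53.NA.Sma
import Pool.Agent.H53.NA.Ord

/-!
Row Smb: primes `q` for which the order of two is smooth.  PROOF of `smooth_recip`.  `y = exp((log (l0+1))²)`.
The `q ∈ F` with `tq q > y`: grouping by `d = tq q`, `∑ 1/q ≤ ∑_d (1 + log d)/d` (`ord_recip`) over a set of `d > y` with
`gpf d ≤ l0`, so by `tail_smooth` it is `≤ C log(l0+1) e^{-log(l0+1)} (l0+1)^(1/40) ≤ C'`.
The `q ∈ F` with `tq q ≤ y`: there are at most `∑_{d≤y} d ≤ y(y+1) ≤ 2 y²` of them (`ord_card`); those with `q > y²` contribute at most `2`,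
the others at most `∑_{p ≤ y²} 1/p ≤ log log(y²) + C = log 2 + 2 log log (l0+1) + C` (`mert5` of `Pool.Agent.H75.EK.Mert`), and
`log log(l0+1) ≤ log log l0 + 1`.
-/

set_option autoImplicit false

namespace Pool.H53.NA

open Finset in
/-- the primes with a large order. -/
theorem smb_large (C : ℝ) (hC : 0 < C) (l0 : ℕ) (hl : 3000 ≤ l0)
    (h : ∀ y : ℝ, 1 ≤ y →
    ∀ T : Finset ℕ, (∀ d ∈ T, d ≠ 0 ∧ gpf d ≤ l0 ∧ y < d) →
    ∑ d ∈ T, (1 + Real.log d) / d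
      ≤ C * Real.log (l0 + 1) * y ^ (-1 / Real.log (l0 + 1)) * ((l0 : ℝ) + 1) ^ ((1 : ℝ) / 40))
    (F : Finset ℕ)
    (hF : ∀ q ∈ F, q.Prime ∧ q ≠ 2 ∧ gpf (tq q) ≤ l0 ∧
      Real.exp (Real.log (l0 + 1) ^ 2) < tq q) :
    ∑ q ∈ F, (1 : ℝ) / q ≤ 2 * C := by
  obtain ⟨x, hx⟩ : ∃ x : ℝ, x = Real.log (l0 + 1) := ⟨_, rfl⟩
  have hl1 : (1 : ℝ) < (l0 : ℝ) + 1 := by
    have : (3000 : ℝ) ≤ l0 := by exact_mod_cast hl
    linarith
  have hx0 : 0 < x := by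
    rw [hx]
    exact Real.log_pos hl1
  have hxe : Real.exp x = (l0 : ℝ) + 1 := by
    rw [hx]
    exact Real.exp_log (by linarith)
  have h1 : ∑ q ∈ F, (1 : ℝ) / q ≤ ∑ d ∈ F.image tq, (1 + Real.log d) / d := by
    rw [← Finset.sum_fiberwise_of_maps_to (fun q hq => Finset.mem_image_of_mem tq hq)]
    refine Finset.sum_le_sum (fun d hd => ?_)
    refine ord_recip F (fun q hq => ⟨(hF q hq).1, (hF q hq).2.1⟩) d ?_
    obtain ⟨q, hq, rfl⟩ := Finset.mem_image.mp hd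
    have := (ord_dvd q (hF q hq).1 (hF q hq).2.1).2.2.1
    omega
  refine h1.trans ?_
  have h2 := h (Real.exp (x ^ 2)) (Real.one_le_exp (sq_nonneg x)) (F.image tq) (by
    intro d hd
    obtain ⟨q, hq, rfl⟩ := Finset.mem_image.mp hd
    have h3 := (ord_dvd q (hF q hq).1 (hF q hq).2.1).2.2.1
    refine ⟨by omega, (hF q hq).2.2.1, ?_⟩
    rw [hx]
    exact (hF q hq).2.2.2)
  refine h2.trans ?_
  rw [← hx, ← hxe, ← Real.exp_mul, ← Real.exp_mul]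
  have h4 : x ^ 2 * (-1 / x) = -x := by
    field_simp
  rw [h4]
  have h5 : x ≤ 2 * Real.exp (x / 2) := by
    have := Real.add_one_le_exp (x / 2)
    linarith
  have h6 : C * x * Real.exp (-x) * Real.exp (x * (1 / 40)) ≤
      C * (2 * Real.exp (x / 2)) * Real.exp (-x) * Real.exp (x * (1 / 40)) := by
    have := Real.exp_pos (-x)
    have := Real.exp_pos (x * (1 / 40))
    gcongr
  refine h6.trans ?_
  have h7 : C * (2 * Real.exp (x / 2)) * Real.exp (-x) * Real.exp (x * (1 / 40)) =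
      2 * C * Real.exp (x / 2 + -x + x * (1 / 40)) := by
    rw [Real.exp_add, Real.exp_add]
    ring
  rw [h7]
  have h8 : Real.exp (x / 2 + -x + x * (1 / 40)) ≤ 1 := by
    rw [Real.exp_le_one_iff]
    linarith
  have h9 : 0 ≤ 2 * C := by linarith
  calc 2 * C * Real.exp (x / 2 + -x + x * (1 / 40)) ≤ 2 * C * 1 :=
        mul_le_mul_of_nonneg_left h8 h9
    _ = 2 * C := mul_one _

open Finset in
theorem smb_card (y : ℝ) (hy : 1 ≤ y) (F : Finset ℕ)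
    (hF : ∀ q ∈ F, q.Prime ∧ q ≠ 2 ∧ (tq q : ℝ) ≤ y) : (F.card : ℝ) ≤ 2 * y ^ 2 := by
  have h1 : F.card ≤ ∑ d ∈ range (⌊y⌋₊ + 1), d := by
    rw [Finset.card_eq_sum_card_fiberwise (f := tq) (t := range (⌊y⌋₊ + 1))]
    · exact Finset.sum_le_sum (fun d _ =>
        ord_card F (fun q hq => ⟨(hF q hq).1, (hF q hq).2.1⟩) d)
    · intro q hq
      have := Nat.le_floor (hF q hq).2.2
      simp only [Finset.coe_range, Set.mem_Iio]
      omega
  have h2 : ∑ d ∈ range (⌊y⌋₊ + 1), d ≤ (⌊y⌋₊ + 1) * ⌊y⌋₊ := by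
    calc ∑ d ∈ range (⌊y⌋₊ + 1), d ≤ ∑ d ∈ range (⌊y⌋₊ + 1), ⌊y⌋₊ :=
          Finset.sum_le_sum (fun d hd => by
            rw [Finset.mem_range] at hd
            omega)
      _ = (⌊y⌋₊ + 1) * ⌊y⌋₊ := by
          rw [Finset.sum_const, Finset.card_range, smul_eq_mul]
  have h3 : (F.card : ℝ) ≤ ((⌊y⌋₊ : ℝ) + 1) * ⌊y⌋₊ := by exact_mod_cast h1.trans h2
  have h4 : (⌊y⌋₊ : ℝ) ≤ y := Nat.floor_le (by linarith)
  have h5 : (0 : ℝ) ≤ ⌊y⌋₊ := Nat.cast_nonneg _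
  nlinarith

open Finset in
theorem smb_small (C : ℝ) (hC : ∀ x : ℝ, 2 ≤ x →
    |∑ p ∈ EK75.prLe x, (1 : ℝ) / p - Real.log (Real.log x)| ≤ C) (y : ℝ) (hy : 2 ≤ y)
    (F : Finset ℕ) (hF : ∀ q ∈ F, q.Prime ∧ q ≠ 2 ∧ (tq q : ℝ) ≤ y) :
    ∑ q ∈ F, (1 : ℝ) / q ≤ 2 + Real.log (Real.log (y ^ 2)) + C := by
  rw [← Finset.sum_filter_add_sum_filter_not F (fun q : ℕ => (q : ℝ) ≤ y ^ 2)]
  have hy2 : 0 < y ^ 2 := by positivity
  have h1 : ∑ q ∈ F.filter (fun q : ℕ => (q : ℝ) ≤ y ^ 2), (1 : ℝ) / q ≤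
      ∑ p ∈ EK75.prLe (y ^ 2), (1 : ℝ) / p := by
    refine Finset.sum_le_sum_of_subset_of_nonneg ?_ (fun p _ _ => by positivity)
    intro q hq
    rw [Finset.mem_filter] at hq
    unfold EK75.prLe
    rw [Finset.mem_filter, Finset.mem_range]
    refine ⟨?_, (hF q hq.1).1⟩
    have := Nat.le_floor hq.2
    omega
  have h2 := (abs_le.mp (hC (y ^ 2) (by nlinarith))).2
  have h3 : ∑ q ∈ F.filter (fun q : ℕ => ¬ (q : ℝ) ≤ y ^ 2), (1 : ℝ) / q ≤ 2 := by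
    calc ∑ q ∈ F.filter (fun q : ℕ => ¬ (q : ℝ) ≤ y ^ 2), (1 : ℝ) / q
        ≤ ∑ q ∈ F.filter (fun q : ℕ => ¬ (q : ℝ) ≤ y ^ 2), 1 / y ^ 2 := by
          refine Finset.sum_le_sum (fun q hq => ?_)
          rw [Finset.mem_filter, not_le] at hq
          exact one_div_le_one_div_of_le hy2 hq.2.le
      _ = ((F.filter (fun q : ℕ => ¬ (q : ℝ) ≤ y ^ 2)).card : ℝ) * (1 / y ^ 2) := by
          rw [Finset.sum_const, nsmul_eq_mul]
      _ ≤ (F.card : ℝ) * (1 / y ^ 2) := by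
          refine mul_le_mul_of_nonneg_right ?_ (by positivity)
          exact_mod_cast Finset.card_filter_le _ _
      _ ≤ (2 * y ^ 2) * (1 / y ^ 2) :=
          mul_le_mul_of_nonneg_right (smb_card y (by linarith) F hF) (by positivity)
      _ = 2 := by
          field_simp
  linarith

theorem smooth_recip : ∃ C : ℝ, ∃ L : ℕ, 3000 ≤ L ∧ ∀ l0 : ℕ, L ≤ l0 → ∀ F : Finset ℕ,
    (∀ q ∈ F, q.Prime ∧ q ≠ 2 ∧ gpf (tq q) ≤ l0) →
    ∑ q ∈ F, (1 : ℝ) / q ≤ 2 * Real.log (Real.log l0) + C := by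
  obtain ⟨C, hC, L, hL, h⟩ := tail_smooth
  obtain ⟨C5, h5⟩ := EK75.mert5
  refine ⟨2 * C + 2 + C5 + 3, L, hL, ?_⟩
  intro l0 hl0 F hF
  obtain ⟨x, hx⟩ : ∃ x : ℝ, x = Real.log (l0 + 1) := ⟨_, rfl⟩
  have hl3 : (3000 : ℝ) ≤ l0 := by exact_mod_cast hL.trans hl0
  have hlog0 : 1 ≤ Real.log l0 := by
    rw [Real.le_log_iff_exp_le (by linarith)]
    have := Real.exp_one_lt_d9
    linarith
  have hx1 : Real.log l0 ≤ x := by
    rw [hx]
    exact Real.log_le_log (by linarith) (by linarith)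
  have hx2 : x ≤ 2 * Real.log l0 := by
    rw [hx]
    have e1 : (2 : ℝ) * Real.log l0 = Real.log ((l0 : ℝ) ^ 2) := by
      rw [Real.log_pow]
      norm_num
    rw [e1]
    exact Real.log_le_log (by linarith) (by nlinarith)
  have hy2 : (2 : ℝ) ≤ Real.exp (x ^ 2) := by
    have := Real.add_one_le_exp (x ^ 2)
    nlinarith
  rw [← Finset.sum_filter_add_sum_filter_not F (fun q : ℕ => (tq q : ℝ) ≤ Real.exp (x ^ 2))]
  have h6 := smb_small C5 h5 (Real.exp (x ^ 2)) hy2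
    (F.filter (fun q : ℕ => (tq q : ℝ) ≤ Real.exp (x ^ 2))) (by
      intro q hq
      rw [Finset.mem_filter] at hq
      exact ⟨(hF q hq.1).1, (hF q hq.1).2.1, hq.2⟩)
  have h7 := smb_large C hC l0 (hL.trans hl0) (h l0 hl0)
    (F.filter (fun q : ℕ => ¬ (tq q : ℝ) ≤ Real.exp (x ^ 2))) (by
      intro q hq
      rw [Finset.mem_filter, not_le] at hq
      refine ⟨(hF q hq.1).1, (hF q hq.1).2.1, (hF q hq.1).2.2, ?_⟩
      rw [← hx]
      exact hq.2)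
  have h8 : Real.log (Real.log (Real.exp (x ^ 2) ^ 2)) ≤ 2 * Real.log (Real.log l0) + 3 := by
    have e1 : Real.exp (x ^ 2) ^ 2 = Real.exp (2 * x ^ 2) := by
      rw [← Real.exp_nat_mul]
      norm_num
    rw [e1, Real.log_exp]
    have e2 : 2 * x ^ 2 ≤ 8 * Real.log l0 ^ 2 := by nlinarith
    have e3 : 0 < 2 * x ^ 2 := by nlinarith
    have e4 : Real.log (8 * Real.log l0 ^ 2) = Real.log 8 + 2 * Real.log (Real.log l0) := by
      rw [Real.log_mul (by norm_num) (by positivity), Real.log_pow]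
      norm_num
    have e5 : Real.log 8 ≤ 3 := by
      have e6 : (8 : ℝ) = 2 ^ 3 := by norm_num
      rw [e6, Real.log_pow]
      have := Real.log_two_lt_d9
      norm_num
      linarith
    have e7 := Real.log_le_log e3 e2
    rw [e4] at e7
    linarith
  linarith

end Pool.H53.NA
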