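import Pool.Agent.H53.NA.Df2
import Pool.Agent.H75.EK.Mert

/-!
Row Smo: sums over smooth numbers.  `σ = 1/log l`.  `fl l m = (4/3)^Ω(m) m^(-1+2σ)`.
PROOF of `smooth_sum`.  `fl l` is completely multiplicative (`ArithmeticFunction.cardFactors_mul`), `fl l 1 = 1`; as a monoid
homomorphism `ℕ →* ℝ` (value `0` at `0`: for `l ≥ 3000` the exponent is `≠ 0` so `0^(...) = 0`).  For `l ≥ 3000` (`log l ≥ 8`) and a
prime `p < l`: `fl l p = (4/3) p^(-1) p^(2σ)`, `p^(2σ) ≤ e² ≤ 7.39`, so `fl l p ≤ 10/p`; and for every prime `p`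
`fl l p ≤ (4/3) p^(-3/4) ≤ (4/3) 2^(-3/4) ≤ 4/5`.  By the Euler product for smooth numbers
(`EulerProduct.summable_and_hasSum_smoothNumbers_prod_primesBelow_geometric`) `∑_{m ∈ T} fl l m ≤ ∏_{p<l} (1 - fl l p)⁻¹`, and
`(1 - x)⁻¹ ≤ exp(5 x)` for `0 ≤ x ≤ 4/5` (`exp(-y) ≤ 1/(1+y)`, or `1 - x ≥ exp(-5x)` by convexity: equality at `0`, and
`exp(-4) ≤ 1/5`).  So the product is `≤ exp(50 ∑_{p<l} 1/p) ≤ exp(50 (log log l + C)) = e^{50C} (log l)^50 ≤ C' l^(1/40)`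
(`mert5` of `Pool.Agent.H75.EK.Mert`; `log l ≤ 2000 l^(1/2000)`, `Real.log_le_rpow_div`).
-/

set_option autoImplicit false

namespace Pool.H53.NA

/-- the weight `(4/3)^Ω(m) m^(-1 + 2/log l)` -/
noncomputable def fl (l m : ℕ) : ℝ :=
  (4 / 3 : ℝ) ^ (ArithmeticFunction.cardFactors m) * (m : ℝ) ^ (-1 + 2 / Real.log l)

theorem smo_log (l : ℕ) (hl : 3000 ≤ l) : 8 ≤ Real.log l := by
  rw [Real.le_log_iff_exp_le (by exact_mod_cast (by omega : 0 < l))]
  have h1 : Real.exp 8 = Real.exp 1 ^ 8 := by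
    rw [← Real.exp_nat_mul]; norm_num
  have h2 : Real.exp 1 ^ 8 ≤ (2.7182818286 : ℝ) ^ 8 :=
    pow_le_pow_left₀ (Real.exp_pos 1).le Real.exp_one_lt_d9.le 8
  have h3 : (2.7182818286 : ℝ) ^ 8 ≤ 3000 := by norm_num
  have h4 : (3000 : ℝ) ≤ l := by exact_mod_cast hl
  linarith

theorem smo_fl_prime (l p : ℕ) (hp : p.Prime) :
    fl l p = 4 / 3 * (p : ℝ) ^ (-1 + 2 / Real.log l) := by
  unfold fl
  rw [ArithmeticFunction.cardFactors_apply_prime hp, pow_one]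

theorem smo_fl_nonneg (l m : ℕ) : 0 ≤ fl l m := by
  unfold fl; positivity

theorem smo_fl_small (l p : ℕ) (hl : 3000 ≤ l) (hp : p.Prime) : fl l p ≤ 4 / 5 := by
  have hlog := smo_log l hl
  rw [smo_fl_prime l p hp]
  have h2 : 2 / Real.log l ≤ 1 / 4 := by
    rw [div_le_iff₀ (by linarith)]; linarith
  have hp2 : (2 : ℝ) ≤ p := by exact_mod_cast hp.two_le
  have h3 : (p : ℝ) ^ (-1 + 2 / Real.log l) ≤ (p : ℝ) ^ (-(3 / 4) : ℝ) :=
    Real.rpow_le_rpow_of_exponent_le (by linarith) (by linarith)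
  have h4 : (p : ℝ) ^ (-(3 / 4) : ℝ) ≤ (2 : ℝ) ^ (-(3 / 4) : ℝ) :=
    Real.rpow_le_rpow_of_nonpos (by norm_num) hp2 (by norm_num)
  have h5 : (2 : ℝ) ^ (-(3 / 4) : ℝ) ≤ 3 / 5 := by
    rw [Real.rpow_neg (by norm_num)]
    have h6 : (5 / 3 : ℝ) ≤ (2 : ℝ) ^ (3 / 4 : ℝ) := by
      have h7 : ((5 / 3 : ℝ) ^ (4 : ℕ)) ^ (1 / 4 : ℝ) ≤ ((2 : ℝ) ^ (3 : ℕ)) ^ (1 / 4 : ℝ) :=
        Real.rpow_le_rpow (by positivity) (by norm_num) (by norm_num)
      rw [← Real.rpow_natCast, ← Real.rpow_natCast, ← Real.rpow_mul (by norm_num),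
        ← Real.rpow_mul (by norm_num)] at h7
      norm_num at h7
      convert h7 using 2
    calc ((2 : ℝ) ^ (3 / 4 : ℝ))⁻¹ ≤ (5 / 3 : ℝ)⁻¹ := inv_anti₀ (by norm_num) h6
      _ = 3 / 5 := by norm_num
  linarith

theorem smo_fl_lt (l p : ℕ) (hl : 3000 ≤ l) (hp : p.Prime) (hpl : p < l) :
    fl l p ≤ 10 * (1 / (p : ℝ)) := by
  have hlog := smo_log l hl
  rw [smo_fl_prime l p hp]
  have hp2 : (2 : ℝ) ≤ p := by exact_mod_cast hp.two_le
  have hp0 : (0 : ℝ) < p := by linarith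
  rw [Real.rpow_add hp0, Real.rpow_neg_one]
  have h1 : (p : ℝ) ^ (2 / Real.log l) ≤ Real.exp 2 := by
    rw [Real.rpow_def_of_pos hp0]
    apply Real.exp_le_exp.2
    rw [mul_div_assoc', div_le_iff₀ (by linarith)]
    have : Real.log p ≤ Real.log l := Real.log_le_log hp0 (by exact_mod_cast hpl.le)
    linarith
  have h2 : Real.exp 2 ≤ 7.4 := by
    have h3 : Real.exp 2 = Real.exp 1 ^ 2 := by
      rw [← Real.exp_nat_mul]; norm_num
    have h4 : Real.exp 1 ^ 2 ≤ (2.7182818286 : ℝ) ^ 2 :=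
      pow_le_pow_left₀ (Real.exp_pos 1).le Real.exp_one_lt_d9.le 2
    have h5 : (2.7182818286 : ℝ) ^ 2 ≤ 7.4 := by norm_num
    linarith
  have h6 : (0 : ℝ) < (p : ℝ)⁻¹ := by positivity
  have h7 : (p : ℝ)⁻¹ * (p : ℝ) ^ (2 / Real.log l) ≤ (p : ℝ)⁻¹ * 7.4 :=
    mul_le_mul_of_nonneg_left (h1.trans h2) h6.le
  rw [one_div]
  linarith

/-- `fl l` as a monoid homomorphism -/
noncomputable def smo_hom (l : ℕ) (hl : 3000 ≤ l) : ℕ →* ℝ where
  toFun := fl l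
  map_one' := by simp [fl]
  map_mul' := by
    intro m n
    have hlog := smo_log l hl
    have h2 : 2 / Real.log l ≤ 1 / 4 := by
      rw [div_le_iff₀ (by linarith)]; linarith
    have hne : -1 + 2 / Real.log l ≠ 0 := by intro h; linarith
    have h0 : fl l 0 = 0 := by
      unfold fl
      rw [Nat.cast_zero, Real.zero_rpow hne, mul_zero]
    rcases Nat.eq_zero_or_pos m with rfl | hm
    · rw [zero_mul, h0, zero_mul]
    rcases Nat.eq_zero_or_pos n with rfl | hn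
    · rw [mul_zero, h0, mul_zero]
    unfold fl
    rw [ArithmeticFunction.cardFactors_mul hm.ne' hn.ne', pow_add, Nat.cast_mul,
      Real.mul_rpow (Nat.cast_nonneg _) (Nat.cast_nonneg _)]
    ring

theorem smo_inv (x : ℝ) (h0 : 0 ≤ x) (h1 : x ≤ 4 / 5) : (1 - x)⁻¹ ≤ Real.exp (5 * x) := by
  have hconv := convexOn_exp.2 (Set.mem_univ (0 : ℝ)) (Set.mem_univ (-4 : ℝ))
    (show 0 ≤ 1 - 5 / 4 * x by linarith) (show 0 ≤ 5 / 4 * x by linarith) (by ring)
  simp only [smul_eq_mul, mul_zero, zero_add, Real.exp_zero, mul_one] at hconv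
  have h2 : (5 / 4 * x * (-4) : ℝ) = -(5 * x) := by ring
  rw [h2] at hconv
  have h3 : Real.exp (-4) ≤ 1 / 5 := by
    rw [Real.exp_neg, one_div]
    apply inv_anti₀ (by norm_num)
    have := Real.add_one_le_exp (4 : ℝ)
    linarith
  have h4 : Real.exp (-(5 * x)) ≤ 1 - x := by
    nlinarith
  rw [← one_div, div_le_iff₀ (by linarith)]
  calc (1 : ℝ) = Real.exp (5 * x) * Real.exp (-(5 * x)) := by
        rw [← Real.exp_add]; simp
    _ ≤ Real.exp (5 * x) * (1 - x) := mul_le_mul_of_nonneg_left h4 (Real.exp_pos _).le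

theorem smooth_sum : ∃ C : ℝ, 0 < C ∧ ∃ L : ℕ, 3000 ≤ L ∧ ∀ l : ℕ, L ≤ l → ∀ T : Finset ℕ,
    (∀ m ∈ T, m ≠ 0 ∧ ∀ p, p.Prime → p ∣ m → p < l) →
    ∑ m ∈ T, fl l m ≤ C * (l : ℝ) ^ ((1 : ℝ) / 40) := by
  obtain ⟨C, hC⟩ := EK75.mert5
  refine ⟨Real.exp (50 * C) * 2000 ^ 50, by positivity, 3000, le_rfl, ?_⟩
  intro l hl T hT
  have hlog := smo_log l hl
  have hl0 : (0 : ℝ) < l := by exact_mod_cast (by omega : 0 < l)
  have hnorm : ∀ {p : ℕ}, p.Prime → ‖smo_hom l hl p‖ < 1 := by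
    intro p hp
    change ‖fl l p‖ < 1
    rw [Real.norm_of_nonneg (smo_fl_nonneg l p)]
    have := smo_fl_small l p hl hp
    linarith
  obtain ⟨-, hs⟩ := EulerProduct.summable_and_hasSum_smoothNumbers_prod_primesBelow_geometric
    (f := smo_hom l hl) hnorm l
  have hTm : ∀ m ∈ T, m ∈ Nat.smoothNumbers l := by
    intro m hm
    obtain ⟨h1, h2⟩ := hT m hm
    rw [Nat.mem_smoothNumbers]
    exact ⟨h1, fun p hp => h2 p (Nat.prime_of_mem_primeFactorsList hp)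
      (Nat.dvd_of_mem_primeFactorsList hp)⟩
  have hle : ∑ m ∈ T, fl l m ≤ ∏ p ∈ l.primesBelow, (1 - fl l p)⁻¹ := by
    have h1 := sum_le_hasSum (T.subtype (fun m => m ∈ Nat.smoothNumbers l))
      (fun m _ => smo_fl_nonneg l m) hs
    have h2 : ∑ m ∈ T.subtype (fun m => m ∈ Nat.smoothNumbers l), fl l m
        = ∑ m ∈ T, fl l m := Finset.sum_subtype_of_mem (s := T) (fun m => fl l m) hTm
    rw [h2] at h1
    exact h1
  have hprod : ∏ p ∈ l.primesBelow, (1 - fl l p)⁻¹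
      ≤ Real.exp (50 * ∑ p ∈ EK75.prLe l, (1 : ℝ) / p) := by
    have hsub : l.primesBelow ⊆ EK75.prLe (l : ℝ) := by
      intro p hp
      rw [Nat.mem_primesBelow] at hp
      simp only [EK75.prLe, Nat.floor_natCast, Finset.mem_filter, Finset.mem_range]
      exact ⟨by omega, hp.2⟩
    have h3 : ∏ p ∈ l.primesBelow, (1 - fl l p)⁻¹
        ≤ ∏ p ∈ l.primesBelow, Real.exp (50 * ((1 : ℝ) / p)) := by
      refine Finset.prod_le_prod ?_ ?_
      · intro p hp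
        rw [Nat.mem_primesBelow] at hp
        have := smo_fl_small l p hl hp.2
        exact inv_nonneg.2 (by linarith)
      · intro p hp
        rw [Nat.mem_primesBelow] at hp
        have h1 := smo_fl_small l p hl hp.2
        have h2 := smo_fl_lt l p hl hp.2 hp.1
        refine (smo_inv _ (smo_fl_nonneg l p) h1).trans (Real.exp_le_exp.2 ?_)
        linarith
    refine h3.trans ?_
    rw [← Real.exp_sum, ← Finset.mul_sum]
    refine Real.exp_le_exp.2 (mul_le_mul_of_nonneg_left ?_ (by norm_num))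
    exact Finset.sum_le_sum_of_subset_of_nonneg hsub fun p _ _ => by positivity
  have hm := hC l (by linarith [show (3000 : ℝ) ≤ l by exact_mod_cast hl])
  have hm2 : ∑ p ∈ EK75.prLe l, (1 : ℝ) / p ≤ Real.log (Real.log l) + C := by
    have := (abs_le.1 hm).2
    linarith
  have hlog0 : 0 < Real.log l := by linarith
  calc ∑ m ∈ T, fl l m ≤ Real.exp (50 * ∑ p ∈ EK75.prLe l, (1 : ℝ) / p) := hle.trans hprod
    _ ≤ Real.exp (50 * (Real.log (Real.log l) + C)) := by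
        apply Real.exp_le_exp.2; linarith
    _ = Real.exp (50 * C) * (Real.log l) ^ 50 := by
        rw [mul_add, Real.exp_add, mul_comm (Real.exp _)]
        congr 1
        rw [show (50 : ℝ) = ((50 : ℕ) : ℝ) by norm_num, Real.exp_nat_mul, Real.exp_log hlog0]
    _ ≤ Real.exp (50 * C) * (2000 * (l : ℝ) ^ ((1 : ℝ) / 2000)) ^ 50 := by
        refine mul_le_mul_of_nonneg_left ?_ (Real.exp_pos _).le
        refine pow_le_pow_left₀ hlog0.le ?_ 50
        have := Real.log_le_rpow_div hl0.le (show (0 : ℝ) < 1 / 2000 by norm_num)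
        linarith
    _ = Real.exp (50 * C) * 2000 ^ 50 * (l : ℝ) ^ ((1 : ℝ) / 40) := by
        rw [mul_pow, ← Real.rpow_natCast ((l : ℝ) ^ ((1 : ℝ) / 2000)) 50, ← Real.rpow_mul hl0.le]
        norm_num
        ring

end Pool.H53.NA
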