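import Pool.Agent.H53.NA.Defs

/-!
Row SvF: averaging over fibres.
-/

set_option autoImplicit false

namespace Pool.H53.NA

theorem svf_one (D : ℕ) (f : ℕ → ℝ) :
    ∑ k ∈ Finset.range D, f (k + 1) = ∑ k ∈ Finset.range D, f k + f D - f 0 := by
  have h1 := Finset.sum_range_succ f D
  have h2 := Finset.sum_range_succ' f D
  linarith

theorem sum_shift (D : ℕ) (f : ℕ → ℝ) (hf : ∀ k, f (k + D) = f k) (j : ℕ) :
    ∑ k ∈ Finset.range D, f (k + j) = ∑ k ∈ Finset.range D, f k := by
  induction j with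
  | zero => rfl
  | succ j ih =>
    rw [← ih]
    have h := svf_one D (fun k => f (k + j))
    have h1 : f (D + j) = f j := by rw [add_comm, hf]
    simp only [zero_add, h1, add_sub_cancel_right] at h
    rw [← h]
    refine Finset.sum_congr rfl fun k _ => ?_
    rw [show k + (j + 1) = k + 1 + j by ring]

theorem svf_per (a : ℕ) (g : ℕ → ℝ) (hg : ∀ k, g (k + a) = g k) (m k : ℕ) :
    g (k + a * m) = g k := by
  induction m with
  | zero => rw [mul_zero, add_zero]
  | succ m ih => rw [show k + a * (m + 1) = k + a * m + a by ring, hg, ih]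

theorem fiber (D a L : ℕ) (h : a * L ∣ D) (hL : 0 < L) (g b : ℕ → ℝ) (hg : ∀ k, g (k + a) = g k)
    (hb : ∀ k, b (k + a * L) = b k) :
    ∑ k ∈ Finset.range D, g k * b k
      = ∑ k ∈ Finset.range D, g k * ((∑ i ∈ Finset.range L, b (k + i * a)) / L) := by
  obtain ⟨c, rfl⟩ := h
  have hL' : (L : ℝ) ≠ 0 := by exact_mod_cast hL.ne'
  have h1 : ∀ i, ∑ k ∈ Finset.range (a * L * c), g k * b (k + i * a) =
      ∑ k ∈ Finset.range (a * L * c), g k * b k := by
    intro i
    rw [← sum_shift (a * L * c) (fun k => g k * b k) _ (i * a)]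
    · refine Finset.sum_congr rfl fun k _ => ?_
      rw [mul_comm i a, svf_per a g hg]
    · intro k
      rw [svf_per (a * L) b hb, show k + a * L * c = k + a * (L * c) by ring, svf_per a g hg]
  have h2 : ∑ k ∈ Finset.range (a * L * c), g k * ((∑ i ∈ Finset.range L, b (k + i * a)) / L) =
      (∑ i ∈ Finset.range L, ∑ k ∈ Finset.range (a * L * c), g k * b (k + i * a)) / L := by
    rw [Finset.sum_comm, Finset.sum_div]
    refine Finset.sum_congr rfl fun k _ => ?_
    rw [← Finset.mul_sum, mul_div_assoc]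
  rw [h2, Finset.sum_congr rfl fun i _ => h1 i, Finset.sum_const, Finset.card_range, nsmul_eq_mul,
    mul_div_cancel_left₀ _ hL']

theorem fiber_per (a L : ℕ) (b : ℕ → ℝ) (hb : ∀ k, b (k + a * L) = b k) (k : ℕ) :
    ∑ i ∈ Finset.range L, b (k + a + i * a) = ∑ i ∈ Finset.range L, b (k + i * a) := by
  have h := svf_one L (fun i => b (k + i * a))
  have h1 : b (k + L * a) = b k := by rw [mul_comm, hb]
  simp only [zero_mul, add_zero, h1, add_sub_cancel_right] at h
  rw [← h]
  refine Finset.sum_congr rfl fun i _ => ?_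
  rw [show k + (i + 1) * a = k + a + i * a by ring]

theorem fiber_count (a l γ j m k x : ℕ) (hl : l.Prime) (hal : a.Coprime l) (hm : m ∣ a)
    (hj : j ≤ γ) :
    (((Finset.range (l ^ γ)).filter fun i => k + i * a ≡ x [MOD m * l ^ j]).card : ℝ) / (l : ℝ) ^ γ
      = (if k ≡ x [MOD m] then (1 : ℝ) else 0) / (l : ℝ) ^ j := by
  have hcop : m.Coprime (l ^ j) := Nat.Coprime.pow_right _ (Nat.Coprime.coprime_dvd_left hm hal)
  have haj : a.Coprime (l ^ j) := Nat.Coprime.pow_right _ hal
  have hiff : ∀ i, k + i * a ≡ x [MOD m * l ^ j] ↔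
      k ≡ x [MOD m] ∧ k + i * a ≡ x [MOD l ^ j] := by
    intro i
    rw [← Nat.modEq_and_modEq_iff_modEq_mul hcop]
    have h0 : k + i * a ≡ k [MOD m] := by
      have : i * a ≡ 0 [MOD m] := (Nat.modEq_zero_iff_dvd).2 (hm.mul_left i)
      simpa using (Nat.ModEq.refl k).add this
    constructor
    · rintro ⟨h1, h2⟩
      exact ⟨h0.symm.trans h1, h2⟩
    · rintro ⟨h1, h2⟩
      exact ⟨h0.trans h1, h2⟩
  have hl0 : (l : ℝ) ≠ 0 := by exact_mod_cast hl.ne_zero
  by_cases hk : k ≡ x [MOD m]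
  · rw [if_pos hk]
    have hpos : 0 < l ^ j := pow_pos hl.pos j
    haveI : NeZero (l ^ j) := ⟨hpos.ne'⟩
    have hu := ZMod.coe_mul_inv_eq_one a haj
    set i0 : ℕ := (((x : ZMod (l ^ j)) - k) * (a : ZMod (l ^ j))⁻¹).val with hi0
    have hi0' : (i0 : ZMod (l ^ j)) = ((x : ZMod (l ^ j)) - k) * (a : ZMod (l ^ j))⁻¹ := by
      rw [hi0, ZMod.natCast_val, ZMod.cast_id]
    have h3 : ∀ i, k + i * a ≡ x [MOD l ^ j] ↔ i ≡ i0 [MOD l ^ j] := by
      intro i
      rw [← ZMod.natCast_eq_natCast_iff, ← ZMod.natCast_eq_natCast_iff, hi0']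
      push_cast
      constructor
      · intro h
        rw [← h]
        linear_combination (-(i : ZMod (l ^ j))) * hu
      · intro h
        rw [h]
        linear_combination ((x : ZMod (l ^ j)) - k) * hu
    have h4 : ((Finset.range (l ^ γ)).filter fun i => k + i * a ≡ x [MOD m * l ^ j]).card =
        l ^ (γ - j) := by
      have h5 : ((Finset.range (l ^ γ)).filter fun i => k + i * a ≡ x [MOD m * l ^ j]) =
          ((Finset.range (l ^ γ)).filter fun i => i ≡ i0 [MOD l ^ j]) := by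
        ext i
        simp only [Finset.mem_filter, hiff, h3, hk, true_and]
      rw [h5, ← Nat.count_eq_card_filter_range, Nat.count_modEq_card _ hpos]
      have h6 : l ^ γ = l ^ j * l ^ (γ - j) := by rw [← pow_add]; congr 1; omega
      have h7 : l ^ γ % l ^ j = 0 := by rw [h6]; exact Nat.mul_mod_right _ _
      rw [h7, if_neg (Nat.not_lt_zero _), add_zero, h6, Nat.mul_div_cancel_left _ hpos]
    rw [h4]
    have h8 : (l : ℝ) ^ γ = (l : ℝ) ^ j * (l : ℝ) ^ (γ - j) := by rw [← pow_add]; congr 1; omega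
    rw [h8]
    push_cast
    have h9 : (l : ℝ) ^ (γ - j) ≠ 0 := pow_ne_zero _ hl0
    have h10 : (l : ℝ) ^ j ≠ 0 := pow_ne_zero _ hl0
    field_simp
  · rw [if_neg hk]
    have h4 : ((Finset.range (l ^ γ)).filter fun i => k + i * a ≡ x [MOD m * l ^ j]) = ∅ := by
      refine Finset.filter_eq_empty_iff.2 fun i _ h => hk ((hiff i).1 h).1
    rw [h4, Finset.card_empty, Nat.cast_zero, zero_div, zero_div]

end Pool.H53.NA
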