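import Pool.Agent.H53.NA.SvF
import Pool.Agent.H53.NA.Df2

/-!
Row SvS: one step of the sieve.  PROOF.  `L = l^γ`.  `B k :⇔ ∃ q ∈ S, k ≡ κ q [MOD m q * l ^ j q]` (period `a L`), `b` its
indicator, `α k = (∑_{i<L} b(k + i a))/L ∈ [0,1]`, which has period `a` (`fiber_per`).  By `fiber_count` and the union
bound `α k ≤ ∑_{q∈S} [k ≡ κ q mod m q] / l^(j q)`.  Put
`w' k = if α k < 1/8 ∧ ¬ B k then w k / (1 - α k) else 0`.
(ii) With `g k = if α k < 1/8 then w k/(1 - α k) else 0` (period `a`) and `w' = g - g b`, `fiber` gives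
`∑ w' = ∑ g (1 - α) = ∑_{α k < 1/8} w k = ∑ w - ∑_{α ≥ 1/8} w ≥ ∑ w - 64 ∑ w α²`, and
`∑ w α² ≤ ∑_{q,q'} l^(-j q - j q') ∑_{k ≡ κ q (m q), k ≡ κ q' (m q')} w k`; the two congruences are either
incompatible or one congruence modulo `lcm (m q) (m q')` (`∣ a`), so by (h3) the inner sum is
`≤ ow (lcm) D / lcm ≤ ow (m q) ow (m q') gcd D/(m q m q')`.
(iii) Let `m ∣ a l^γ`, `m = m' l^i` with `m' ∣ a`.  If `i = 0`: `∑_{k≡x (m)} w' = ∑_{k ≡ x (m), α k < 1/8} w` (`fiber` again,
with `g 1_{k ≡ x (m)}`, which has period `a`) `≤ ∑_{k ≡ x (m)} w`.  If `i ≥ 1`: `w' ≤ (8/7) w`, and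
`∑_{k ≡ x (m)} w = l^(-i) ∑_{k ≡ x (m')} w` by `fiber` and `fiber_count`; `ow m = (8/7) ow m'`.
-/

set_option autoImplicit false

namespace Pool.H53.NA

theorem svs_per (f : ℕ → ℝ) (a : ℕ) (h : ∀ k, f (k + a) = f k) (n k : ℕ) :
    f (k + a * n) = f k := by
  induction n with
  | zero => simp
  | succ n ih => rw [Nat.mul_succ, ← Nat.add_assoc, h, ih]

/-- indicator of a residue class. -/
noncomputable def svs_I (m x k : ℕ) : ℝ := if k ≡ x [MOD m] then 1 else 0

theorem svs_I_nonneg (m x k : ℕ) : 0 ≤ svs_I m x k := by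
  unfold svs_I
  split_ifs
  · exact zero_le_one
  · exact le_refl _

theorem svs_modper (m x a : ℕ) (h : m ∣ a) (k : ℕ) :
    (k + a ≡ x [MOD m]) ↔ (k ≡ x [MOD m]) := by
  have h1 : k + a ≡ k [MOD m] := by
    have h2 := (Nat.ModEq.refl (n := m) k).add ((Nat.modEq_zero_iff_dvd).2 h)
    rwa [Nat.add_zero] at h2
  constructor
  · intro h2
    exact h1.symm.trans h2
  · intro h2
    exact h1.trans h2

theorem svs_I_per (m x a : ℕ) (h : m ∣ a) (k : ℕ) : svs_I m x (k + a) = svs_I m x k := by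
  unfold svs_I
  simp only [svs_modper m x a h k]

theorem svs_filter (D m x : ℕ) (f : ℕ → ℝ) :
    ∑ k ∈ (Finset.range D).filter (fun k => k ≡ x [MOD m]), f k =
      ∑ k ∈ Finset.range D, f k * svs_I m x k := by
  rw [Finset.sum_filter]
  refine Finset.sum_congr rfl fun k _ => ?_
  unfold svs_I
  split_ifs
  · rw [mul_one]
  · rw [mul_zero]

theorem svs_count (a l γ j m k x : ℕ) (hl : l.Prime) (hal : a.Coprime l) (hm : m ∣ a)
    (hj : j ≤ γ) :
    (∑ i ∈ Finset.range (l ^ γ), svs_I (m * l ^ j) x (k + i * a)) / ((l ^ γ : ℕ) : ℝ) =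
      svs_I m x k / (l : ℝ) ^ j := by
  have h := fiber_count a l γ j m k x hl hal hm hj
  unfold svs_I
  rw [Finset.sum_boole, Nat.cast_pow]
  exact h

theorem svs_ow_pos (m : ℕ) : 0 < ow m := by
  unfold ow
  positivity

theorem svs_ow_lcm (m m' : ℕ) (hm : m ≠ 0) (hm' : m' ≠ 0) :
    ow (Nat.lcm m m') ≤ ow m * ow m' := by
  unfold ow
  rw [← pow_add]
  refine pow_le_pow_right₀ (by norm_num) ?_
  have h1 : (Nat.lcm m m').primeFactors ⊆ m.primeFactors ∪ m'.primeFactors := by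
    intro p hp
    rw [Nat.mem_primeFactors] at hp
    obtain ⟨hp1, hp2, _⟩ := hp
    have h3 : p ∣ m * m' := hp2.trans (Nat.lcm_dvd_mul m m')
    rw [Finset.mem_union, Nat.mem_primeFactors, Nat.mem_primeFactors]
    rcases (Nat.Prime.dvd_mul hp1).1 h3 with h | h
    · exact Or.inl ⟨hp1, h, hm⟩
    · exact Or.inr ⟨hp1, h, hm'⟩
  exact (Finset.card_le_card h1).trans (Finset.card_union_le _ _)

theorem svs_ow_mul (m l e : ℕ) (hl : l.Prime) (h : m.Coprime l) (he : e ≠ 0) :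
    8 / 7 * ow m = ow (m * l ^ e) := by
  unfold ow
  have h1 : m.Coprime (l ^ e) := Nat.Coprime.pow_right e h
  rw [h1.primeFactors_mul, Finset.card_union_of_disjoint h1.disjoint_primeFactors,
    Nat.primeFactors_prime_pow he hl, Finset.card_singleton, pow_succ]
  ring

theorem svs_two (D a : ℕ) (ha : 0 < a) (w : ℕ → ℝ) (hw0 : ∀ k, 0 ≤ w k)
    (h3 : ∀ m, m ∣ a → ∀ x, ∑ k ∈ (Finset.range D).filter (fun k => k ≡ x [MOD m]), w k
      ≤ ow m * D / m) (m m' x x' : ℕ) (hm : m ∣ a) (hm' : m' ∣ a) :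
    ∑ k ∈ Finset.range D, w k * (svs_I m x k * svs_I m' x' k) ≤
      ow m * ow m' * (Nat.gcd m m' : ℝ) * D / ((m : ℝ) * m') := by
  have hm0 : 0 < m := Nat.pos_of_dvd_of_pos hm ha
  have hm0' : 0 < m' := Nat.pos_of_dvd_of_pos hm' ha
  have hmr : (0 : ℝ) < m := Nat.cast_pos.2 hm0
  have hmr' : (0 : ℝ) < m' := Nat.cast_pos.2 hm0'
  have hR : 0 ≤ ow m * ow m' * (Nat.gcd m m' : ℝ) * D / ((m : ℝ) * m') := by
    have h1 := svs_ow_pos m
    have h2 := svs_ow_pos m'
    positivity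
  by_cases hex : ∃ k0, k0 ≡ x [MOD m] ∧ k0 ≡ x' [MOD m']
  · obtain ⟨k0, hk1, hk2⟩ := hex
    have h1 : ∀ k, svs_I m x k * svs_I m' x' k ≤ svs_I (Nat.lcm m m') k0 k := by
      intro k
      unfold svs_I
      by_cases c1 : k ≡ x [MOD m]
      · by_cases c2 : k ≡ x' [MOD m']
        · rw [if_pos c1, if_pos c2, if_pos (Nat.mod_lcm (c1.trans hk1.symm) (c2.trans hk2.symm)),
            mul_one]
        · rw [if_neg c2, mul_zero]
          split_ifs
          · exact zero_le_one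
          · exact le_refl _
      · rw [if_neg c1, zero_mul]
        split_ifs
        · exact zero_le_one
        · exact le_refl _
    have h4 : ∑ k ∈ Finset.range D, w k * (svs_I m x k * svs_I m' x' k) ≤
        ow (Nat.lcm m m') * D / (Nat.lcm m m' : ℕ) := by
      refine le_trans (Finset.sum_le_sum fun k _ => mul_le_mul_of_nonneg_left (h1 k) (hw0 k)) ?_
      rw [← svs_filter]
      exact h3 _ (Nat.lcm_dvd hm hm') k0
    refine h4.trans ?_
    have hgl : (Nat.gcd m m' : ℝ) * (Nat.lcm m m' : ℝ) = (m : ℝ) * m' := by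
      rw [← Nat.cast_mul, Nat.gcd_mul_lcm, Nat.cast_mul]
    have hlp : (0 : ℝ) < (Nat.lcm m m' : ℕ) := Nat.cast_pos.2 (Nat.lcm_pos hm0 hm0')
    have hgp : (0 : ℝ) < (Nat.gcd m m' : ℕ) := Nat.cast_pos.2 (Nat.gcd_pos_of_pos_left _ hm0)
    rw [← hgl]
    have h5 : ow m * ow m' * (Nat.gcd m m' : ℝ) * D / ((Nat.gcd m m' : ℝ) * (Nat.lcm m m' : ℝ)) =
        ow m * ow m' * D / (Nat.lcm m m' : ℝ) := by
      field_simp
    rw [h5]
    gcongr
    exact svs_ow_lcm m m' hm0.ne' hm0'.ne'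
  · have h1 : ∀ k, svs_I m x k * svs_I m' x' k = 0 := by
      intro k
      unfold svs_I
      by_cases c1 : k ≡ x [MOD m]
      · by_cases c2 : k ≡ x' [MOD m']
        · exact absurd ⟨k, c1, c2⟩ hex
        · rw [if_neg c2, mul_zero]
      · rw [if_neg c1, zero_mul]
    simp only [h1, mul_zero, Finset.sum_const_zero]
    exact hR

theorem sieve_step {ι : Type} (D a l γ : ℕ) (hD : 0 < D) (hl : l.Prime)
    (hal : a.Coprime l) (hdiv : a * l ^ γ ∣ D) (w : ℕ → ℝ) (hw0 : ∀ k, 0 ≤ w k)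
    (hwa : ∀ k, w (k + a) = w k)
    (h3 : ∀ m, m ∣ a → ∀ x, ∑ k ∈ (Finset.range D).filter (fun k => k ≡ x [MOD m]), w k
      ≤ ow m * D / m)
    (S : Finset ι) (m κ j : ι → ℕ) (hm : ∀ q ∈ S, m q ∣ a) (hj1 : ∀ q ∈ S, 1 ≤ j q)
    (hj2 : ∀ q ∈ S, j q ≤ γ) :
    ∃ w' : ℕ → ℝ, (∀ k, 0 ≤ w' k) ∧ (∀ k, w' (k + a * l ^ γ) = w' k) ∧
      (∀ k, 0 < w' k → 0 < w k ∧ ∀ q ∈ S, ¬ k ≡ κ q [MOD m q * l ^ j q]) ∧
      (∑ k ∈ Finset.range D, w k - 64 * D * ∑ q ∈ S, ∑ q' ∈ S,
        ow (m q) * ow (m q') * (Nat.gcd (m q) (m q') : ℝ)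
          / ((m q * l ^ j q : ℕ) * (m q' * l ^ j q' : ℕ)) ≤ ∑ k ∈ Finset.range D, w' k) ∧
      (∀ i, i ∣ a * l ^ γ → ∀ x, ∑ k ∈ (Finset.range D).filter (fun k => k ≡ x [MOD i]), w' k
        ≤ ow i * D / i) := by
  classical
  have hL : 0 < l ^ γ := pow_pos hl.pos γ
  have haL : 0 < a * l ^ γ := Nat.pos_of_dvd_of_pos hdiv hD
  have ha : 0 < a := Nat.pos_of_mul_pos_right haL
  have hLr : (0 : ℝ) < ((l ^ γ : ℕ) : ℝ) := Nat.cast_pos.2 hL
  have hlr : (0 : ℝ) < (l : ℝ) := Nat.cast_pos.2 hl.pos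
  -- the union of the classes and its averages
  set b : ℕ → ℝ := fun k => if ∃ q ∈ S, k ≡ κ q [MOD m q * l ^ j q] then 1 else 0 with hb
  have hb0 : ∀ k, 0 ≤ b k := by
    intro k
    simp only [hb]
    split_ifs
    · exact zero_le_one
    · exact le_refl _
  have hb1 : ∀ k, b k ≤ 1 := by
    intro k
    simp only [hb]
    split_ifs
    · exact le_refl _
    · exact zero_le_one
  have hdv : ∀ q ∈ S, m q * l ^ j q ∣ a * l ^ γ := fun q hq =>
    Nat.mul_dvd_mul (hm q hq) (pow_dvd_pow l (hj2 q hq))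
  have hbp : ∀ k, b (k + a * l ^ γ) = b k := by
    intro k
    have h1 : (∃ q ∈ S, k + a * l ^ γ ≡ κ q [MOD m q * l ^ j q]) ↔
        (∃ q ∈ S, k ≡ κ q [MOD m q * l ^ j q]) := by
      constructor
      · rintro ⟨q, hq, h⟩
        exact ⟨q, hq, (svs_modper _ _ _ (hdv q hq) k).1 h⟩
      · rintro ⟨q, hq, h⟩
        exact ⟨q, hq, (svs_modper _ _ _ (hdv q hq) k).2 h⟩
    simp only [hb, h1]
  set α : ℕ → ℝ := fun k => (∑ i ∈ Finset.range (l ^ γ), b (k + i * a)) / ((l ^ γ : ℕ) : ℝ) with hα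
  have hαp : ∀ k, α (k + a) = α k := by
    intro k
    simp only [hα]
    rw [fiber_per a (l ^ γ) b hbp k]
  have hα0 : ∀ k, 0 ≤ α k := by
    intro k
    simp only [hα]
    exact div_nonneg (Finset.sum_nonneg fun i _ => hb0 _) hLr.le
  have hbu : ∀ k, b k ≤ ∑ q ∈ S, svs_I (m q * l ^ j q) (κ q) k := by
    intro k
    simp only [hb]
    split_ifs with h
    · obtain ⟨q, hq, h1⟩ := h
      have h2 : svs_I (m q * l ^ j q) (κ q) k = 1 := if_pos h1
      rw [← h2]
      exact Finset.single_le_sum (f := fun q => svs_I (m q * l ^ j q) (κ q) k)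
        (fun q _ => svs_I_nonneg _ _ _) hq
    · exact Finset.sum_nonneg fun q _ => svs_I_nonneg _ _ _
  have hαu : ∀ k, α k ≤ ∑ q ∈ S, svs_I (m q) (κ q) k / (l : ℝ) ^ j q := by
    intro k
    have h1 : α k ≤ (∑ i ∈ Finset.range (l ^ γ), ∑ q ∈ S,
        svs_I (m q * l ^ j q) (κ q) (k + i * a)) / ((l ^ γ : ℕ) : ℝ) := by
      simp only [hα]
      exact div_le_div_of_nonneg_right (Finset.sum_le_sum fun i _ => hbu _) hLr.le
    refine h1.trans (le_of_eq ?_)
    rw [Finset.sum_comm, Finset.sum_div]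
    exact Finset.sum_congr rfl fun q hq => svs_count a l γ (j q) (m q) k (κ q) hl hal (hm q hq)
      (hj2 q hq)
  -- the new weight
  set g : ℕ → ℝ := fun k => if α k < 1 / 8 then w k / (1 - α k) else 0 with hg
  have hgp : ∀ k, g (k + a) = g k := by
    intro k
    simp only [hg, hαp, hwa]
  have hg0 : ∀ k, 0 ≤ g k := by
    intro k
    simp only [hg]
    split_ifs with h
    · exact div_nonneg (hw0 k) (by linarith)
    · exact le_refl _
  have hgw : ∀ k, g k ≤ 8 / 7 * w k := by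
    intro k
    simp only [hg]
    split_ifs with h
    · rw [div_le_iff₀ (by linarith)]
      have h1 := hw0 k
      nlinarith
    · exact mul_nonneg (by norm_num) (hw0 k)
  have hgα : ∀ k, g k * (1 - α k) = if α k < 1 / 8 then w k else 0 := by
    intro k
    simp only [hg]
    split_ifs with h
    · exact div_mul_cancel₀ _ (by linarith)
    · exact zero_mul _
  -- averaging
  have hav : ∀ c : ℕ → ℝ, (∀ k, c (k + a) = c k) →
      ∑ k ∈ Finset.range D, (g k * (1 - b k)) * c k =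
        ∑ k ∈ Finset.range D, (if α k < 1 / 8 then w k else 0) * c k := by
    intro c hc
    have h1 := fiber D a (l ^ γ) hdiv hL (fun k => g k * c k) b
      (fun k => by simp only [hgp, hc]) hbp
    have h2 : ∑ k ∈ Finset.range D, (g k * (1 - b k)) * c k =
        ∑ k ∈ Finset.range D, g k * c k - ∑ k ∈ Finset.range D, (g k * c k) * b k := by
      rw [← Finset.sum_sub_distrib]
      exact Finset.sum_congr rfl fun k _ => by ring
    have h3 : ∑ k ∈ Finset.range D, (if α k < 1 / 8 then w k else 0) * c k =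
        ∑ k ∈ Finset.range D, g k * c k - ∑ k ∈ Finset.range D, (g k * c k) * α k := by
      rw [← Finset.sum_sub_distrib]
      refine Finset.sum_congr rfl fun k _ => ?_
      rw [← hgα k]
      ring
    rw [h2, h3, h1]
  refine ⟨fun k => g k * (1 - b k), ?_, ?_, ?_, ?_, ?_⟩
  · intro k
    exact mul_nonneg (hg0 k) (sub_nonneg.2 (hb1 k))
  · intro k
    simp only
    rw [hbp, svs_per g a hgp]
  · intro k hk
    simp only at hk
    constructor
    · rcases (hw0 k).lt_or_eq with h | h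
      · exact h
      · exfalso
        have h1 : g k = 0 := by
          simp only [hg, ← h, zero_div, ite_self]
        rw [h1, zero_mul] at hk
        exact lt_irrefl _ hk
    · intro q hq h
      have h1 : b k = 1 := by
        simp only [hb]
        exact if_pos ⟨q, hq, h⟩
      rw [h1, sub_self, mul_zero] at hk
      exact lt_irrefl _ hk
  · have h1 := hav (fun _ => 1) (fun _ => rfl)
    simp only [mul_one] at h1
    simp only
    rw [h1]
    have h2 : ∀ k, w k - 64 * (w k * α k ^ 2) ≤ if α k < 1 / 8 then w k else 0 := by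
      intro k
      have hwk := hw0 k
      split_ifs with h
      · have : 0 ≤ w k * α k ^ 2 := mul_nonneg hwk (sq_nonneg _)
        linarith
      · have h4 : 1 / 8 ≤ α k := not_lt.1 h
        have h5 : 1 ≤ 64 * α k ^ 2 := by nlinarith
        nlinarith
    have h6 : ∑ k ∈ Finset.range D, w k - 64 * ∑ k ∈ Finset.range D, w k * α k ^ 2 ≤
        ∑ k ∈ Finset.range D, if α k < 1 / 8 then w k else 0 := by
      rw [Finset.mul_sum, ← Finset.sum_sub_distrib]
      exact Finset.sum_le_sum fun k _ => h2 k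
    refine le_trans ?_ h6
    have h7 : ∑ k ∈ Finset.range D, w k * α k ^ 2 ≤ D * ∑ q ∈ S, ∑ q' ∈ S,
        ow (m q) * ow (m q') * (Nat.gcd (m q) (m q') : ℝ)
          / ((m q * l ^ j q : ℕ) * (m q' * l ^ j q' : ℕ)) := by
      have h8 : ∀ k, w k * α k ^ 2 ≤ ∑ q ∈ S, ∑ q' ∈ S,
          (w k * (svs_I (m q) (κ q) k * svs_I (m q') (κ q') k)) /
            ((l : ℝ) ^ j q * (l : ℝ) ^ j q') := by
        intro k
        have h9 : α k ^ 2 ≤ (∑ q ∈ S, svs_I (m q) (κ q) k / (l : ℝ) ^ j q) ^ 2 :=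
          pow_le_pow_left₀ (hα0 k) (hαu k) 2
        refine (mul_le_mul_of_nonneg_left h9 (hw0 k)).trans (le_of_eq ?_)
        rw [sq, Finset.sum_mul_sum, Finset.mul_sum]
        refine Finset.sum_congr rfl fun q _ => ?_
        rw [Finset.mul_sum]
        refine Finset.sum_congr rfl fun q' _ => ?_
        rw [div_mul_div_comm]
        ring
      refine (Finset.sum_le_sum fun k _ => h8 k).trans ?_
      rw [Finset.sum_comm, Finset.mul_sum]
      refine Finset.sum_le_sum fun q hq => ?_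
      rw [Finset.sum_comm, Finset.mul_sum]
      refine Finset.sum_le_sum fun q' hq' => ?_
      rw [← Finset.sum_div]
      have h10 := svs_two D a ha w hw0 h3 (m q) (m q') (κ q) (κ q') (hm q hq) (hm q' hq')
      have hmq : (0 : ℝ) < (m q : ℕ) := Nat.cast_pos.2 (Nat.pos_of_dvd_of_pos (hm q hq) ha)
      have hmq' : (0 : ℝ) < (m q' : ℕ) := Nat.cast_pos.2 (Nat.pos_of_dvd_of_pos (hm q' hq') ha)
      have hlj : (0 : ℝ) < (l : ℝ) ^ j q * (l : ℝ) ^ j q' := by positivity
      refine (div_le_div_of_nonneg_right h10 hlj.le).trans (le_of_eq ?_)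
      push_cast
      field_simp
    have h11 : 64 * ∑ k ∈ Finset.range D, w k * α k ^ 2 ≤ 64 * (D * ∑ q ∈ S, ∑ q' ∈ S,
        ow (m q) * ow (m q') * (Nat.gcd (m q) (m q') : ℝ)
          / ((m q * l ^ j q : ℕ) * (m q' * l ^ j q' : ℕ))) :=
      mul_le_mul_of_nonneg_left h7 (by norm_num)
    rw [← mul_assoc] at h11
    linarith
  · intro i hi x
    rw [svs_filter]
    obtain ⟨m', z, hm', hz, rfl⟩ := (Nat.dvd_mul).1 hi
    obtain ⟨e, he, rfl⟩ := (Nat.dvd_prime_pow hl).1 hz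
    have hm'0 : (0 : ℝ) < (m' : ℕ) := Nat.cast_pos.2 (Nat.pos_of_dvd_of_pos hm' ha)
    by_cases he0 : e = 0
    · subst he0
      rw [pow_zero, mul_one]
      rw [hav (svs_I m' x) (svs_I_per m' x a hm')]
      refine le_trans ?_ (h3 m' hm' x)
      rw [svs_filter]
      refine Finset.sum_le_sum fun k _ => mul_le_mul_of_nonneg_right ?_ (svs_I_nonneg _ _ _)
      split_ifs
      · exact le_refl _
      · exact hw0 k
    · have h1 : ∑ k ∈ Finset.range D, (g k * (1 - b k)) * svs_I (m' * l ^ e) x k ≤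
          8 / 7 * ∑ k ∈ Finset.range D, w k * svs_I (m' * l ^ e) x k := by
        rw [Finset.mul_sum]
        refine Finset.sum_le_sum fun k _ => ?_
        have h2 : g k * (1 - b k) ≤ 8 / 7 * w k := by
          have h4 := hg0 k
          have h5 := hb0 k
          have h6 := hgw k
          nlinarith
        have h7 := mul_le_mul_of_nonneg_right h2 (svs_I_nonneg (m' * l ^ e) x k)
        linarith
      refine h1.trans ?_
      have h2 := fiber D a (l ^ γ) hdiv hL w (svs_I (m' * l ^ e) x) hwa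
        (svs_I_per _ _ _ (Nat.mul_dvd_mul hm' (pow_dvd_pow l he)))
      rw [h2]
      have h4 : ∀ k, w k * ((∑ i ∈ Finset.range (l ^ γ), svs_I (m' * l ^ e) x (k + i * a)) /
          ((l ^ γ : ℕ) : ℝ)) = (w k * svs_I m' x k) / (l : ℝ) ^ e := by
        intro k
        rw [svs_count a l γ e m' k x hl hal hm' he, mul_div_assoc]
      rw [Finset.sum_congr rfl fun k _ => h4 k, ← Finset.sum_div, ← svs_filter]
      have h5 := h3 m' hm' x
      have hle : (0 : ℝ) < (l : ℝ) ^ e := by positivity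
      have h6 : 8 / 7 * ((∑ k ∈ (Finset.range D).filter (fun k => k ≡ x [MOD m']), w k) /
          (l : ℝ) ^ e) ≤ 8 / 7 * ((ow m' * D / m') / (l : ℝ) ^ e) :=
        mul_le_mul_of_nonneg_left (div_le_div_of_nonneg_right h5 hle.le) (by norm_num)
      refine h6.trans (le_of_eq ?_)
      rw [← svs_ow_mul m' l e hl (Nat.Coprime.coprime_dvd_left hm' hal) he0]
      push_cast
      field_simp

end Pool.H53.NA
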